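import Mathlib

/-! Definitions for the bound of discriminants of elliptic curves. -/

set_option autoImplicit false

namespace Pool.Helper99.SZ

open NumberField

/-- `x` lies in the `t`-th power of the maximal ideal of the local ring of `𝓞 L` at `P` -/
def Dv {L : Type} [Field L] [NumberField L] (P : Ideal (𝓞 L)) (t : ℕ) (x : L) : Prop :=
  ∃ a b : 𝓞 L, b ∉ P ∧ a ∈ P ^ t ∧ x * (b : L) = (a : L)

/-- `v` is the valuation of `P` -/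
structure IsVal {K : Type} [Field K] [NumberField K] (P : Ideal (𝓞 K)) (v : Kˣ → ℤ) : Prop where
  mul : ∀ x y, v (x * y) = v x + v y
  dv : ∀ (t : ℕ) (x : Kˣ), Dv P t (x : K) ↔ (t : ℤ) ≤ v x

/-- `u` generates the fractional ideal `∏ P_j ^ a_j` -/
def SU {K : Type} [Field K] [NumberField K] {m : ℕ} (P : Fin m → Ideal (𝓞 K)) (a : Fin m → ℤ)
    (u : Kˣ) : Prop :=
  FractionalIdeal.spanSingleton (nonZeroDivisors (𝓞 K)) (u : K) =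
    ∏ j, ((P j : Ideal (𝓞 K)) : FractionalIdeal (nonZeroDivisors (𝓞 K)) K) ^ (a j)

/-- the data of the theorem on `P`-adic linear forms: the group `ℤ × ℤ ^ n`, the element `(1, 0)`
being mapped to `g0` -/
structure PD (L : Type) [Field L] [NumberField L] (P : Ideal (𝓞 L)) (p : ℕ) (n : ℕ) (g0 : L)
    (g : Fin n → L) (nrm : ℤ × (Fin n → ℤ) → ℝ) (U Z : ℝ) (T : ℕ) : Prop where
  pr : P.IsPrime
  bot : P ≠ ⊥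
  pp : p.Prime
  pm : (p : 𝓞 L) ∈ P
  ne0 : g0 ≠ 1
  T0 : Dv P T (g0 - 1)
  T1 : 1 ≤ T
  pu : ∀ i, Dv P 1 (g i - 1)
  add : ∀ a b, nrm (a + b) ≤ nrm a + nrm b
  smul : ∀ (k : ℤ) a, nrm (k • a) = |(k : ℝ)| * nrm a
  conj : ∀ a (τ : L →+* ℂ), ‖τ (g0 ^ a.1 * ∏ i, g i ^ (a.2 i))‖ ≤ Real.exp (nrm a)
  den : ∀ a, ∃ q : ℕ, 0 < q ∧ (q : ℝ) ≤ Real.exp (nrm a) ∧
    IsIntegral ℤ ((q : L) * (g0 ^ a.1 * ∏ i, g i ^ (a.2 i)))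
  coo : ∀ a, nrm a ≤ U → ∀ i, |((a.2 i : ℤ) : ℝ)| ≤ Z
  fin : {a : ℤ × (Fin n → ℤ) | nrm a ≤ U}.Finite
  ker : ({a : ℤ × (Fin n → ℤ) | nrm a ≤ U ∧ g0 ^ a.1 * ∏ i, g i ^ (a.2 i) = 1}.ncard : ℝ) ≤
    2 * U + 1

/-- the statement of the recursion: `V` of dimension `v` -/
def PRst (n D v : ℕ) (C : ℝ) (A : ℕ) : Prop :=
  ∀ (L : Type) [Field L] [NumberField L], Module.finrank ℚ L ≤ D →
    ∀ (P : Ideal (𝓞 L)) (p : ℕ) (g0 : L) (g : Fin n → L) (nrm : ℤ × (Fin n → ℤ) → ℝ)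
      (U Z ℓ : ℝ) (T : ℕ), 1 ≤ U → 1 ≤ Z → 1 ≤ ℓ → Real.log U ≤ ℓ → Real.log Z ≤ ℓ →
      Real.log p ≤ ℓ → PD L P p n g0 g nrm U Z T →
      ∀ V : Submodule ℚ (Fin n → ℚ), Module.finrank ℚ V = v →
      C * U ^ v * ℓ ^ A ≤ ({a : ℤ × (Fin n → ℤ) | nrm a ≤ U / C ∧
        (fun i => ((a.2 i : ℤ) : ℚ)) ∈ V}.ncard : ℝ) →
      (T : ℝ) * Real.log p ≤ C * U * ℓ ^ A

/-- `κ ^ k ∏ s_i ^ z_i` -/
noncomputable def gelS {K : Type} [Field K] [NumberField K] {n : ℕ} (κ : 𝓞 K) (s : Fin n → Kˣ)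
    (a : ℤ × (Fin n → ℤ)) : K := (κ : K) ^ a.1 * ∏ i, ((s i : Kˣ) : K) ^ (a.2 i)

/-- the size -/
noncomputable def nrmS {K : Type} [Field K] [NumberField K] {m n : ℕ} (σ : Fin 3 → (K →+* ℂ))
    (P : Fin m → Ideal (𝓞 K)) (κ : 𝓞 K) (nn : Fin m → ℕ) (s : Fin n → Kˣ)
    (α : Fin n → Fin m → ℤ) (A : ℝ) (a : ℤ × (Fin n → ℤ)) : ℝ :=
  4 * ∑ i, |Real.log ‖σ i (gelS κ s a)‖| + 4 * A * |(a.1 : ℝ)| +
    4 * ∑ j, |((a.1 * nn j + ∑ i, a.2 i * α i j : ℤ) : ℝ)| * Real.log (Ideal.absNorm (P j))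

/-- pairs `(k, u)`, `u` an `S`-unit, `κ ^ k u` of size at most `ρ` -/
def TS {K : Type} [Field K] [NumberField K] {m : ℕ} (P : Fin m → Ideal (𝓞 K)) (κ : 𝓞 K)
    (nn : Fin m → ℕ) (A ρ : ℝ) : Set (ℤ × Kˣ) :=
  {x | |(x.1 : ℝ)| * A ≤ ρ ∧ (∀ σ : K →+* ℂ,
      |Real.log ‖σ (x.2 : K)‖ + (x.1 : ℝ) * Real.log ‖σ (κ : K)‖| ≤ ρ) ∧
    ∃ a : Fin m → ℤ, SU P a x.2 ∧
      ∀ j, |((a j + x.1 * nn j : ℤ) : ℝ)| * Real.log (Ideal.absNorm (P j)) ≤ ρ}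

/-- the last coordinate is multiplicative -/
def tv (v : ℕ) : Fin (v + 1) → Bool := fun i => decide (i = Fin.last v)

/-- the vector `(ζ, lam)` -/
noncomputable def vc {v : ℕ} (ζ : Fin v → ℤ) (lam : ℂ) : Fin (v + 1) → ℂ :=
  fun i => if h : (i : ℕ) < v then ((ζ ⟨i, h⟩ : ℤ) : ℂ) else lam

/-- discriminant of `t³ + a t² + b t + c` -/
def dis (a b c : ℤ) : ℤ := a ^ 2 * b ^ 2 - 4 * b ^ 3 - 4 * a ^ 3 * c - 27 * c ^ 2 + 18 * a * b * c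

end Pool.Helper99.SZ
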