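import Mathlib
import Pool.Agent.Helper99.SZ.Defs
import Pool.Agent.Helper99.BK.Stmts
import Pool.Agent.Helper60.BK.ARI
import Pool.Agent.Helper17.Trs.Defs

/-! Statements of the modules (discriminants of elliptic curves, MP_bde085_nt). -/

set_option autoImplicit false

namespace Pool.Helper99.SZ

open NumberField

/-! ## A. The local ring at `P`, the product formula -/

def ST_DVB : Prop := ∀ (L : Type) [Field L] [NumberField L] (P : Ideal (𝓞 L)), P.IsPrime → P ≠ ⊥ →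
    (∀ x : 𝓞 L, Dv P 0 (x : L)) ∧
    (∀ (s t : ℕ) (x : L), s ≤ t → Dv P t x → Dv P s x) ∧
    (∀ (t : ℕ) (x y : L), Dv P t x → Dv P t y → Dv P t (x + y)) ∧
    (∀ (t : ℕ) (x : L), Dv P t x → Dv P t (-x)) ∧
    (∀ (s t : ℕ) (x y : L), Dv P s x → Dv P t y → Dv P (s + t) (x * y)) ∧
    (∀ x : L, Dv P 1 (x - 1) → x ≠ 0 ∧ Dv P 0 x ∧ Dv P 0 x⁻¹) ∧
    (∀ (t : ℕ) (x : L) (k : ℤ), 1 ≤ t → Dv P t (x - 1) → Dv P t (x ^ k - 1)) ∧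
    (∀ (t : ℕ) (x y : L), 1 ≤ t → Dv P t (x - 1) → Dv P t (y - 1) → Dv P t (x * y - 1)) ∧
    (∀ (t : ℕ) (w : 𝓞 L), Dv P t (w : L) → w ∈ P ^ t)

def ST_VAL : Prop := ∀ (K : Type) [Field K] [NumberField K] (P : Ideal (𝓞 K)), P.IsPrime → P ≠ ⊥ →
    ∃ v : Kˣ → ℤ, IsVal P v

def ST_VALS : Prop := ∀ (K : Type) [Field K] [NumberField K] (m : ℕ) (P : Fin m → Ideal (𝓞 K)),
    Function.Injective P → (∀ j, (P j).IsPrime ∧ P j ≠ ⊥) → ∀ (a : Fin m → ℤ) (u : Kˣ), SU P a u →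
    ∀ (Q : Ideal (𝓞 K)), Q.IsPrime → Q ≠ ⊥ → ∀ v : Kˣ → ℤ, IsVal Q v →
    (∀ j, P j = Q → v u = a j) ∧ ((∀ j, P j ≠ Q) → v u = 0)

def ST_PLV : Prop := ∀ (L : Type) [Field L] [NumberField L] (P : Ideal (𝓞 L)), P.IsPrime → P ≠ ⊥ →
    ∀ p : ℕ, p.Prime → (p : 𝓞 L) ∈ P → ∀ (t : ℕ) (w : 𝓞 L), w ≠ 0 → w ∈ P ^ t → ∀ M : ℝ, 1 ≤ M →
    (∀ τ : L →+* ℂ, ‖τ (w : L)‖ ≤ M) → (t : ℝ) * Real.log p ≤ Module.finrank ℚ L * Real.log M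

def ST_PAR : Prop := ∀ (L : Type) [Field L] [NumberField L] (P : Ideal (𝓞 L)), P.IsPrime → P ≠ ⊥ →
    ∀ p : ℕ, p.Prime → (p : 𝓞 L) ∈ P → ∀ (ι : Type) [Fintype ι] [DecidableEq ι]
    (M : Matrix ι ι L), M.det ≠ 0 → ∀ q : ι → ℕ, (∀ i, 0 < q i) →
    (∀ i j, IsIntegral ℤ ((q i : L) * M i j)) → ∀ Q B : ℝ, 1 ≤ Q → 1 ≤ B →
    (∀ (τ : L →+* ℂ) (i j : ι), ‖τ (M i j)‖ ≤ B) → (∀ i, (q i : ℝ) ≤ Q) → ∀ t : ℕ,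
    Dv P t M.det → (t : ℝ) * Real.log p ≤ Module.finrank ℚ L * ((Fintype.card ι : ℝ) *
      (Real.log Q + Real.log (Fintype.card ι) + Real.log B))

/-! ## B. The `P`-adic size of the interpolation determinant -/

def ST_DEGV : Prop := ∀ (n v s : ℕ) (ι : Type) [Fintype ι] (V : Submodule ℚ (Fin n → ℚ)),
    Module.finrank ℚ V ≤ v → ∀ z : ι → Fin n → ℤ, (∀ r, (fun i => ((z r i : ℤ) : ℚ)) ∈ V) →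
    ∃ W : Submodule ℚ (ι → ℚ), Module.finrank ℚ W ≤ (s + 1) ^ v ∧
      ∀ f : MvPolynomial (Fin n) ℚ, f.totalDegree ≤ s →
        (fun r => MvPolynomial.eval (fun i => ((z r i : ℤ) : ℚ)) f) ∈ W

def ST_PDL : Prop := ∀ (L : Type) [Field L] [NumberField L] (P : Ideal (𝓞 L)), P.IsPrime → P ≠ ⊥ →
    ∀ (ι : Type) [Fintype ι] [DecidableEq ι] (M : Matrix ι ι L) (b R T t : ℕ)
    (W : Submodule ℚ (ι → ℚ)), 4 * Module.finrank ℚ W ≤ Fintype.card ι →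
    2 * t ≤ Fintype.card ι * T → 4 * t + 4 * Fintype.card ι * b ≤ Fintype.card ι * R →
    (∀ j, ∃ (s : ℕ) (c : Fin s → L) (a : Fin s → ℕ) (y : Fin s → ι → ℤ) (ω : L) (err : ι → L),
      Dv P 0 ω ∧ (∀ k, Dv P (a k) (c k)) ∧
      (∀ k, b + a k < R → (fun r => ((y k r : ℤ) : ℚ)) ∈ W) ∧ (∀ r, Dv P T (err r)) ∧
      ∀ r, M r j = ω * ∑ k, c k * ((y k r : ℤ) : L) + err r) →
    Dv P t M.det

def ST_PDX : Prop := ∀ (L : Type) [Field L] [NumberField L] (P : Ideal (𝓞 L)), P.IsPrime → P ≠ ⊥ →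
    ∀ (n v K R T : ℕ) (V : Submodule ℚ (Fin n → ℚ)), Module.finrank ℚ V ≤ v →
    ∀ (J : Fin v → Fin n) (ι : Type) [Fintype ι] (z : ι → Fin n → ℤ),
    (∀ r, (fun i => ((z r i : ℤ) : ℚ)) ∈ V) → ∀ (g : Fin n → L), (∀ i, Dv P 1 (g i - 1)) →
    ∀ (w : ι → L), 1 ≤ T → (∀ r, Dv P T (w r - 1)) →
    ∃ W : Submodule ℚ (ι → ℚ), Module.finrank ℚ W ≤ R ^ v ∧
      ∀ (e : Fin v → Fin K) (l : ℕ),
      ∃ (s : ℕ) (c : Fin s → L) (a : Fin s → ℕ) (y : Fin s → ι → ℤ) (ω : L) (err : ι → L),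
        Dv P 0 ω ∧ (∀ k, Dv P (a k) (c k)) ∧
        (∀ k, v * K + a k < R → (fun r => ((y k r : ℤ) : ℚ)) ∈ W) ∧ (∀ r, Dv P T (err r)) ∧
        ∀ r, (∏ i, ((z r (J i) : ℤ) : L) ^ (e i : ℕ)) * ((∏ i, g i ^ (z r i)) * w r) ^ l =
          ω * ∑ k, c k * ((y k r : ℤ) : L) + err r

def ST_PDET : Prop := ∀ (L : Type) [Field L] [NumberField L] (P : Ideal (𝓞 L)), P.IsPrime → P ≠ ⊥ →
    ∀ (n v K Lc R T t : ℕ) (V : Submodule ℚ (Fin n → ℚ)), Module.finrank ℚ V ≤ v →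
    ∀ (J : Fin v → Fin n) (z : (Fin v → Fin K) × Fin Lc → Fin n → ℤ),
    (∀ r, (fun i => ((z r i : ℤ) : ℚ)) ∈ V) → ∀ (g : Fin n → L), (∀ i, Dv P 1 (g i - 1)) →
    ∀ (w : (Fin v → Fin K) × Fin Lc → L), 1 ≤ T → (∀ r, Dv P T (w r - 1)) →
    4 * R ^ v ≤ K ^ v * Lc → 2 * t ≤ K ^ v * Lc * T →
    4 * t + 4 * (K ^ v * Lc) * (v * K) ≤ K ^ v * Lc * R →
    Dv P t (Matrix.of (fun r j : (Fin v → Fin K) × Fin Lc =>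
      (∏ i, ((z r (J i) : ℤ) : L) ^ (j.1 i : ℕ)) *
        ((∏ i, g i ^ (z r i)) * w r) ^ (j.2 : ℕ))).det

/-! ## C. Zero estimates -/

def ST_JEX : Prop := ∀ (n v : ℕ) (V : Submodule ℚ (Fin n → ℚ)), Module.finrank ℚ V = v →
    ∃ J : Fin v → Fin n, Function.Injective J ∧ ∀ x ∈ V, (∀ i, x (J i) = 0) → x = 0

def ST_ZCH : Prop := ∀ (n : ℕ) (tor : Fin n → Bool) (G : Type) [AddCommGroup G] [DecidableEq G]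
    (f : G →+ (Fin n → ℂ)) (S : Finset G) (d : Fin n → ℕ), 0 ∈ S → (∀ g ∈ S, -g ∈ S) →
    (∀ i, 1 ≤ d i) → ∀ F : Trs.Rg n, F ≠ 0 → (∀ i, F.degreeOf i ≤ d i) →
    (∀ l : List G, l.length = 2 * n → (∀ g ∈ l, g ∈ S) → Trs.ev tor (f l.sum) F = 0) →
    ∃ q : Ideal (Trs.Rg n), q.IsPrime ∧ q ≠ ⊥ ∧ q ≤ RingHom.ker (Trs.ev tor 0) ∧
      ∀ I, Trs.Bas q I → ∀ E : Finset G, E ⊆ S →
        (∀ g ∈ E, ∀ h ∈ E, Trs.Stb tor q (f (g - h)) → g = h) →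
        E.card ≤ Trs.KZ n * ∏ i ∈ Iᶜ, d i

def ST_ZVQ : Prop := ∀ (v K Lc : ℕ), 1 ≤ K → 1 ≤ Lc → ∀ q : Ideal (Trs.Rg (v + 1)), q.IsPrime →
    q ≠ ⊥ → q ≤ RingHom.ker (Trs.ev (tv v) 0) → ∀ H : Set ((Fin v → ℤ) × ℂ),
    (∀ h ∈ H, Trs.Stb (tv v) q (vc h.1 h.2)) → ∀ w : ℕ,
    w = Module.finrank ℚ (Submodule.span ℚ {u : Fin v → ℚ | ∃ h ∈ H,
      u = fun i => ((h.1 i : ℤ) : ℚ)}) →
    w ≤ v ∧ (w = v → ∀ h ∈ H, Complex.exp h.2 = 1) ∧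
    ∃ I, Trs.Bas q I ∧ ∏ i ∈ Iᶜ, (if i = Fin.last v then Lc else K) ≤ K ^ (v - w) * Lc

def ST_ZV : Prop := ∀ (v : ℕ), 1 ≤ v → ∀ (G : Type) [AddCommGroup G] [DecidableEq G]
    (ζ : G →+ (Fin v → ℤ)) (lam : G →+ ℂ) (K Lc : ℕ), 1 ≤ K → 1 ≤ Lc →
    ∀ (x : (Fin v → Fin K) × Fin Lc → ℂ), x ≠ 0 →
    ∀ S : Finset G, 0 ∈ S → (∀ a ∈ S, -a ∈ S) →
    (∀ l : List G, l.length = 2 * (v + 1) → (∀ a ∈ l, a ∈ S) →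
      ∑ j : (Fin v → Fin K) × Fin Lc, x j * ((∏ i, ((ζ l.sum i : ℤ) : ℂ) ^ (j.1 i : ℕ)) *
        Complex.exp (lam l.sum) ^ (j.2 : ℕ)) = 0) →
    ∃ S1 : Finset G, S1 ⊆ S ∧ S1.Nonempty ∧ ∃ w : ℕ, w ≤ v ∧
      w = Module.finrank ℚ (Submodule.span ℚ {u : Fin v → ℚ | ∃ a ∈ S1, ∃ b ∈ S1,
        u = fun i => ((ζ (a - b) i : ℤ) : ℚ)}) ∧
      S.card ≤ 2 ^ (v + 1) * (v + 1).factorial * (K ^ (v - w) * Lc) * S1.card ∧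
      (w = v → ∀ a ∈ S1, ∀ b ∈ S1, Complex.exp (lam (a - b)) = 1)

/-! ## D. The theorem on `P`-adic linear forms -/

def ST_PNP : Prop := ∀ (n D v : ℕ), 1 ≤ v → ∃ c : ℕ, 1 ≤ c ∧
    ∀ (L : Type) [Field L] [NumberField L], Module.finrank ℚ L ≤ D →
    ∀ (P : Ideal (𝓞 L)) (p : ℕ) (g0 : L) (g : Fin n → L) (nrm : ℤ × (Fin n → ℤ) → ℝ)
      (U Z ℓ : ℝ) (T : ℕ), 1 ≤ U → 1 ≤ Z → 1 ≤ ℓ → Real.log Z ≤ ℓ →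
      PD L P p n g0 g nrm U Z T →
      ∀ V : Submodule ℚ (Fin n → ℚ), Module.finrank ℚ V ≤ v → ∀ (J : Fin v → Fin n) (r K : ℕ),
      (c : ℝ) * ℓ ≤ r → (c : ℝ) * U * (r : ℝ) ^ v ≤ K →
      (∀ x : (Fin v → Fin K) × Fin (4 * r ^ v) → L, (∀ a : ℤ × (Fin n → ℤ), nrm a ≤ U →
        (fun i => ((a.2 i : ℤ) : ℚ)) ∈ V →
        ∑ j, x j * ((∏ i, ((a.2 (J i) : ℤ) : L) ^ (j.1 i : ℕ)) *
          (g0 ^ a.1 * ∏ i, g i ^ (a.2 i)) ^ (j.2 : ℕ)) = 0) → x = 0) →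
      T ≤ K * r

def ST_PR0 : Prop := ∀ n D : ℕ, ∃ C : ℝ, 1 ≤ C ∧ ∃ A : ℕ, PRst n D 0 C A

def ST_PRS : Prop := ∀ n D v : ℕ, 1 ≤ v →
    (∀ w < v, ∃ C : ℝ, 1 ≤ C ∧ ∃ A : ℕ, PRst n D w C A) → ∃ C : ℝ, 1 ≤ C ∧ ∃ A : ℕ, PRst n D v C A

def ST_PMN : Prop := ∀ n D : ℕ, ∃ C : ℝ, 1 ≤ C ∧ ∃ A : ℕ,
    ∀ (L : Type) [Field L] [NumberField L], Module.finrank ℚ L ≤ D →
    ∀ (P : Ideal (𝓞 L)) (p : ℕ) (g0 : L) (g : Fin n → L) (nrm : ℤ × (Fin n → ℤ) → ℝ)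
      (X U Z ℓ : ℝ) (T : ℕ), 1 ≤ X → 1 ≤ Z → 1 ≤ ℓ → U = C * X * ℓ ^ A → Real.log X ≤ ℓ →
      Real.log Z ≤ ℓ → Real.log p ≤ ℓ → PD L P p n g0 g nrm U Z T →
      (∀ ρ, X ≤ ρ → ρ ≤ U → ρ ^ (n + 1) ≤ X * ({a : ℤ × (Fin n → ℤ) | nrm a ≤ ρ}.ncard : ℝ)) →
      (T : ℝ) * Real.log p ≤ C * U * ℓ ^ A

/-! ## E. `S`-units of cubic fields -/

def ST_SUF : Prop := ∀ (K : Type) [Field K] [NumberField K] (m : ℕ) (P : Fin m → Ideal (𝓞 K)),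
    Function.Injective P → (∀ j, (P j).IsPrime ∧ P j ≠ ⊥) →
    (∀ a b u w, SU P a u → SU P b w → SU P (a + b) (u * w)) ∧
    (∀ a u, SU P a u → SU P (-a) u⁻¹) ∧
    (∀ a b u, SU P a u → SU P b u → a = b) ∧
    (∀ u, SU P 0 u ↔ ∃ e : (𝓞 K)ˣ, (u : K) = ((e : 𝓞 K) : K)) ∧
    (∀ a u, SU P a u → ∀ q : ℕ, (q : ℝ) = ∏ j, (Ideal.absNorm (P j) : ℝ) ^ ((a j).natAbs) →
      IsIntegral ℤ ((q : K) * u)) ∧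
    (∀ B : ℝ, {x : Kˣ | ∃ a, SU P a x ∧ (∀ j, |((a j : ℤ) : ℝ)| ≤ B) ∧
      ∀ σ : K →+* ℂ, |Real.log ‖σ (x : K)‖| ≤ B}.Finite)

def ST_RBN : Prop := ∀ n : ℕ, ∃ C : ℝ, 1 ≤ C ∧ ∀ (E : Type) [NormedAddCommGroup E]
    [InnerProductSpace ℝ E] (Λ : Type) [AddCommGroup Λ] [Module.Finite ℤ Λ] [Module.Free ℤ Λ],
    Module.finrank ℤ Λ = n → ∀ ι : Λ →+ E, (∀ x, x ≠ 0 → 1 ≤ ‖ι x‖) →
    ∃ b : Module.Basis (Fin n) ℤ Λ, ∀ x i, |((b.repr x i : ℤ) : ℝ)| ≤ C * ‖ι x‖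

/-- the bound for the coordinates -/
def CB {K : Type} [Field K] [NumberField K] {m n : ℕ} (σ : Fin 3 → (K →+* ℂ))
    (P : Fin m → Ideal (𝓞 K)) (s : Fin n → Kˣ) (α : Fin n → Fin m → ℤ) (C : ℝ) : Prop :=
  ∀ (z : Fin n → ℤ) (i : Fin n), |((z i : ℤ) : ℝ)| ≤
    C * (∑ k, |Real.log ‖σ k (∏ i, ((s i : Kˣ) : K) ^ (z i))‖| +
      ∑ j, |((∑ i, z i * α i j : ℤ) : ℝ)| * Real.log (Ideal.absNorm (P j)))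

def ST_SUB : Prop := ∀ m : ℕ, ∃ C : ℝ, 1 ≤ C ∧ ∀ (K : Type) [Field K] [NumberField K],
    Module.finrank ℚ K = 3 → ∀ σ : Fin 3 → (K →+* ℂ), Function.Injective σ →
    ∀ P : Fin m → Ideal (𝓞 K), Function.Injective P → (∀ j, (P j).IsPrime ∧ P j ≠ ⊥) →
    ∀ G1 : Subgroup Kˣ, -1 ∈ G1 → (∀ u ∈ G1, ∃ a, SU P a u) →
    ∃ (n : ℕ) (s : Fin n → Kˣ) (α : Fin n → Fin m → ℤ),
      n + 1 ≤ Fintype.card (InfinitePlace K) + m ∧ (∀ i, s i ∈ G1) ∧ (∀ i, SU P (α i) (s i)) ∧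
      (∀ u ∈ G1, ∃ z : Fin n → ℤ, u = ∏ i, s i ^ (z i) ∨ u = -∏ i, s i ^ (z i)) ∧
      CB σ P s α C

def ST_GEL1 : Prop := ∀ (K : Type) [Field K] [NumberField K] (κ : 𝓞 K), κ ≠ 0 →
    ∀ (m n : ℕ) (s : Fin n → Kˣ),
    (∀ a, gelS κ s a ≠ 0) ∧ (∀ a b, gelS κ s (a + b) = gelS κ s a * gelS κ s b) ∧
    (∀ (k : ℤ) a, gelS κ s (k • a) = gelS κ s a ^ k) ∧
    ∀ (σ : Fin 3 → (K →+* ℂ)) (P : Fin m → Ideal (𝓞 K)), (∀ j, P j ≠ ⊥) →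
    ∀ (nn : Fin m → ℕ) (α : Fin n → Fin m → ℤ) (A : ℝ), 0 ≤ A →
      (∀ a, 0 ≤ nrmS σ P κ nn s α A a) ∧
      (∀ a b, nrmS σ P κ nn s α A (a + b) ≤ nrmS σ P κ nn s α A a + nrmS σ P κ nn s α A b) ∧
      (∀ (k : ℤ) a, nrmS σ P κ nn s α A (k • a) = |(k : ℝ)| * nrmS σ P κ nn s α A a)

def ST_GEL2 : Prop := ∀ (K : Type) [Field K] [NumberField K] (κ : 𝓞 K), κ ≠ 0 →
    ∀ (m n : ℕ) (s : Fin n → Kˣ) (P : Fin m → Ideal (𝓞 K)), Function.Injective P →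
    (∀ j, (P j).IsPrime ∧ P j ≠ ⊥) → ∀ (nn : Fin m → ℕ) (𝔞 : Ideal (𝓞 K)),
    Ideal.span {κ} = 𝔞 * ∏ j, P j ^ nn j →
    ∀ (α : Fin n → Fin m → ℤ), (∀ i, SU P (α i) (s i)) →
    ∀ (a : ℤ × (Fin n → ℤ)) (q : ℕ), q = Ideal.absNorm 𝔞 ^ a.1.natAbs *
      ∏ j, Ideal.absNorm (P j) ^ (a.1 * nn j + ∑ i, a.2 i * α i j).natAbs →
      0 < q ∧ IsIntegral ℤ ((q : K) * gelS κ s a) ∧ IsIntegral ℤ ((q : K) * (gelS κ s a)⁻¹)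

def ST_PHSa : Prop := ∀ (K : Type) [Field K] [NumberField K], Module.finrank ℚ K = 3 →
    ∀ h : ℝ, 1 ≤ h → Real.log |(NumberField.discr K : ℝ)| ≤ h → ∀ I : Ideal (𝓞 K), I ≠ ⊥ →
    ∀ t : InfinitePlace K → ℝ,
    ∑ w, (InfinitePlace.mult w : ℝ) * t w = Real.log (Ideal.absNorm I) →
    ∃ c : 𝓞 K, c ≠ 0 ∧ (∀ w : InfinitePlace K, |Real.log (w (c : K)) - t w| ≤ 3 * h) ∧
      ∃ J ∈ BK.ID K (2 * Real.sqrt |(NumberField.discr K : ℝ)|), Ideal.span {c} = I * J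

def ST_PHS : Prop := ∀ m : ℕ, ∃ C : ℝ, 1 ≤ C ∧ ∀ (K : Type) [Field K] [NumberField K],
    Module.finrank ℚ K = 3 → ∀ P : Fin m → Ideal (𝓞 K), Function.Injective P →
    (∀ j, (P j).IsPrime ∧ P j ≠ ⊥) → ∀ κ : 𝓞 K, κ ≠ 0 → ∀ (nn : Fin m → ℕ) (𝔞 : Ideal (𝓞 K)),
    Ideal.span {κ} = 𝔞 * ∏ j, P j ^ nn j → ∀ A h ν ρ : ℝ, 1 ≤ h →
    Real.log |(NumberField.discr K : ℝ)| ≤ h → 1 ≤ A → Real.log (Ideal.absNorm 𝔞) ≤ A →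
    ((BK.ID K (2 * Real.sqrt |(NumberField.discr K : ℝ)|)).ncard : ℝ) ≤ ν →
    C * (A + h + ∑ j, Real.log (Ideal.absNorm (P j))) ≤ ρ →
    (TS P κ nn A ρ).Finite ∧ ρ ^ (Fintype.card (InfinitePlace K) + m) ≤
      C * ν * A * h ^ (Fintype.card (InfinitePlace K) - 1) *
        (∏ j, Real.log (Ideal.absNorm (P j))) * ((TS P κ nn A ρ).ncard : ℝ)

def ST_CNT : Prop := ∀ m : ℕ, ∃ C : ℝ, 1 ≤ C ∧ ∀ (K : Type) [Field K] [NumberField K],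
    Module.finrank ℚ K = 3 → ∀ σ : Fin 3 → (K →+* ℂ), Function.Injective σ →
    ∀ P : Fin m → Ideal (𝓞 K), Function.Injective P → (∀ j, (P j).IsPrime ∧ P j ≠ ⊥) →
    ∀ κ : 𝓞 K, κ ≠ 0 → ∀ (nn : Fin m → ℕ) (𝔞 : Ideal (𝓞 K)),
    Ideal.span {κ} = 𝔞 * ∏ j, P j ^ nn j →
    ∀ G1 : Subgroup Kˣ, -1 ∈ G1 → (∀ u ∈ G1, ∃ a, SU P a u) → ∀ q0 : ℕ,
    (∀ (ι : Type) [Fintype ι] (f : ι → Kˣ), (∀ i, ∃ a, SU P a (f i)) →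
      ∃ F : Finset ι, Fintype.card ι ≤ q0 * F.card ∧ ∀ i ∈ F, ∀ j ∈ F, f i * (f j)⁻¹ ∈ G1) →
    ∃ (n : ℕ) (s : Fin n → Kˣ) (α : Fin n → Fin m → ℤ),
      n + 1 ≤ Fintype.card (InfinitePlace K) + m ∧ (∀ i, s i ∈ G1) ∧ (∀ i, SU P (α i) (s i)) ∧
      CB σ P s α C ∧ ∀ A h ν ρ : ℝ, 1 ≤ h → Real.log |(NumberField.discr K : ℝ)| ≤ h → 1 ≤ A →
      Real.log (Ideal.absNorm 𝔞) ≤ A →
      ((BK.ID K (2 * Real.sqrt |(NumberField.discr K : ℝ)|)).ncard : ℝ) ≤ ν →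
      C * (A + h + ∑ j, Real.log (Ideal.absNorm (P j))) ≤ ρ →
      ρ ^ (Fintype.card (InfinitePlace K) + m) ≤
        C * q0 * ν * A * h ^ (Fintype.card (InfinitePlace K) - 1) *
        (∏ j, Real.log (Ideal.absNorm (P j))) *
        ({a : ℤ × (Fin n → ℤ) | nrmS σ P κ nn s α A a ≤ ρ}.ncard : ℝ)

/-! ## F. The data for a cubic field -/

def ST_LF2 : Prop := ∀ (K : Type) [Field K] [NumberField K], Module.finrank ℚ K = 3 →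
    ∀ σ : Fin 3 → (K →+* ℂ), Function.Injective σ →
    ∃ (L : Type) (_ : Field L) (_ : NumberField L) (e : Fin 3 → (K →+* L)),
      Module.finrank ℚ L ≤ 27 ∧ Function.Injective e ∧
      ∀ (τ : L →+* ℂ) (i : Fin 3), ∃ j : Fin 3, ∀ x : K, τ (e i x) = σ j x

def ST_PDC : Prop := ∀ m : ℕ, ∃ C : ℝ, 1 ≤ C ∧ ∀ (K : Type) [Field K] [NumberField K],
    Module.finrank ℚ K = 3 → ∀ σ : Fin 3 → (K →+* ℂ), Function.Injective σ →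
    ∀ (L : Type) [Field L] [NumberField L] (e : Fin 3 → (K →+* L)), Function.Injective e →
    (∀ (τ : L →+* ℂ) (i : Fin 3), ∃ j : Fin 3, ∀ x : K, τ (e i x) = σ j x) →
    ∀ P : Fin m → Ideal (𝓞 K), Function.Injective P → (∀ j, (P j).IsPrime ∧ P j ≠ ⊥) →
    (∀ (q : ℚ) (u : Kˣ) (a : Fin m → ℤ), (u : K) = algebraMap ℚ K q → SU P a u → a = 0) →
    ∀ κ : 𝓞 K, κ ≠ 0 → ∀ (nn : Fin m → ℕ) (𝔞 : Ideal (𝓞 K)),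
    Ideal.span {κ} = 𝔞 * ∏ j, P j ^ nn j →
    ∀ (n : ℕ) (s : Fin n → Kˣ) (α : Fin n → Fin m → ℤ), (∀ i, SU P (α i) (s i)) →
    ∀ A B S U Z : ℝ, 1 ≤ A → Real.log (Ideal.absNorm 𝔞) ≤ A → 1 ≤ B → CB σ P s α B → 0 ≤ S →
    (∀ i, |Real.log ‖σ i (κ : K)‖| ≤ S) → (∀ j, (nn j : ℝ) * Real.log (Ideal.absNorm (P j)) ≤ S) →
    1 ≤ U → C * B * (1 + S) * U ≤ Z → ∀ (Q : Ideal (𝓞 L)) (p T : ℕ), Q.IsPrime → Q ≠ ⊥ →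
    p.Prime → (p : 𝓞 L) ∈ Q → 1 ≤ T → e 2 (κ : K) ≠ e 1 (κ : K) →
    Dv Q T (e 2 (κ : K) / e 1 (κ : K) - 1) →
    (∀ i, Dv Q 1 (e 2 ((s i : Kˣ) : K) / e 1 ((s i : Kˣ) : K) - 1)) →
    PD L Q p n (e 2 (κ : K) / e 1 (κ : K)) (fun i => e 2 ((s i : Kˣ) : K) / e 1 ((s i : Kˣ) : K))
      (nrmS σ P κ nn s α A) U Z T

/-- a cubic field with its root `β` -/
structure CF (K : Type) [Field K] [NumberField K] (β : K) (a b c : ℤ) (κ : 𝓞 K) : Prop where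
  deg : Module.finrank ℚ K = 3
  eq : β ^ 3 + (a : K) * β ^ 2 + (b : K) * β + (c : K) = 0
  irr : ∀ q : ℚ, β ≠ algebraMap ℚ K q
  kap : (κ : K) = (a : K) ^ 2 - 4 * b - 2 * a * β - 3 * β ^ 2

def ST_CU1 : Prop :=
    (∀ (K : Type) [Field K] [NumberField K] (β : K) (a b c : ℤ),
      β ^ 3 + (a : K) * β ^ 2 + (b : K) * β + (c : K) = 0 →
      ∃ κ : 𝓞 K, (κ : K) = (a : K) ^ 2 - 4 * b - 2 * a * β - 3 * β ^ 2) ∧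
    ∀ (K : Type) [Field K] [NumberField K] (β : K) (a b c : ℤ) (κ : 𝓞 K), CF K β a b c κ →
      (κ : K) * (3 * β ^ 2 + 2 * a * β + b) ^ 2 = dis a b c ∧
      (κ : K) + (3 * β ^ 2 + 2 * a * β + b) = (a ^ 2 - 3 * b : ℤ) ∧
      |Algebra.norm ℤ κ| = |dis a b c| ∧ dis a b c ≠ 0 ∧ κ ≠ 0 ∧
      ∀ (F : Type) [Field F] [CharZero F] (e : Fin 3 → (K →+* F)), Function.Injective e →
        (∀ i j, i ≠ j → e i β ≠ e j β) ∧ e 0 β + e 1 β + e 2 β = -a ∧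
        (∀ i j k, i ≠ j → i ≠ k → j ≠ k → (e j β - e k β) ^ 2 = e i (κ : K)) ∧
        e 2 (κ : K) ≠ e 1 (κ : K)

/-- the prime ideals of a cubic field belonging to the primes `p_j` -/
structure CD (K : Type) [Field K] [NumberField K] (β : K) (a b c : ℤ) (κ : 𝓞 K) (m : ℕ)
    (p : Fin m → ℕ) (P : Fin m → Ideal (𝓞 K)) (𝔞 : Ideal (𝓞 K)) : Prop where
  cf : CF K β a b c κ
  pinj : Function.Injective p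
  pp : ∀ j, (p j).Prime
  pd : ∀ j, (p j : ℤ) ∣ dis a b c
  pI : ∀ j, ¬ (p j : ℤ) ∣ a ^ 2 - 3 * b
  inj : Function.Injective P
  pr : ∀ j, (P j).IsPrime ∧ P j ≠ ⊥
  pm : ∀ j, ((p j : ℕ) : 𝓞 K) ∈ P j
  km : ∀ j, κ ∈ P j
  nm : ∀ j, Ideal.absNorm (P j) = p j
  uni : ∀ j (Q : Ideal (𝓞 K)), Q.IsPrime → ((p j : ℕ) : 𝓞 K) ∈ Q → κ ∈ Q → Q = P j
  oth : ∀ j, ∃ Q : Ideal (𝓞 K), Q.IsPrime ∧ ((p j : ℕ) : 𝓞 K) ∈ Q ∧ Q ≠ P j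
  fac : Ideal.span {κ} = 𝔞 * ∏ j, P j ^ ((dis a b c).natAbs.factorization (p j))
  na : Ideal.absNorm 𝔞 * ∏ j, p j ^ ((dis a b c).natAbs.factorization (p j)) =
    (dis a b c).natAbs

def ST_CU2 : Prop := ∀ (K : Type) [Field K] [NumberField K] (β : K) (a b c : ℤ) (κ : 𝓞 K),
    CF K β a b c κ → ∀ (m : ℕ) (p : Fin m → ℕ), Function.Injective p → (∀ j, (p j).Prime) →
    (∀ j, (p j : ℤ) ∣ dis a b c) → (∀ j, ¬ (p j : ℤ) ∣ a ^ 2 - 3 * b) →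
    ∃ (P : Fin m → Ideal (𝓞 K)) (𝔞 : Ideal (𝓞 K)), CD K β a b c κ m p P 𝔞

def ST_CU3 : Prop := ∀ (K : Type) [Field K] [NumberField K] (β : K) (a b c : ℤ) (κ : 𝓞 K) (m : ℕ)
    (p : Fin m → ℕ) (P : Fin m → Ideal (𝓞 K)) (𝔞 : Ideal (𝓞 K)), CD K β a b c κ m p P 𝔞 →
    ∀ (q : ℚ) (u : Kˣ) (a : Fin m → ℤ), (u : K) = algebraMap ℚ K q → SU P a u → a = 0

/-- a prime ideal `Q` of `𝓞 L` over `P j0` (for the embedding `e 0`) -/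
structure CQ (K : Type) [Field K] [NumberField K] (κ : 𝓞 K) {m : ℕ} (p : Fin m → ℕ)
    (P : Fin m → Ideal (𝓞 K)) (L : Type) [Field L] [NumberField L] (e : Fin 3 → (K →+* L))
    (j0 : Fin m) (v : ℕ) (Q : Ideal (𝓞 L)) : Prop where
  pr : Q.IsPrime
  bot : Q ≠ ⊥
  pm : ((p j0 : ℕ) : 𝓞 L) ∈ Q
  ovr : ∀ x : 𝓞 K, RingOfIntegers.mapRingHom (e 0) x ∈ Q ↔ x ∈ P j0
  T : Dv Q ((v + 1) / 2) (e 2 (κ : K) / e 1 (κ : K) - 1)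
  un : ∀ (u : Kˣ) (x : Fin m → ℤ), SU P x u → ∀ i : Fin 3, i ≠ 0 →
    Dv Q 0 (e i (u : K)) ∧ Dv Q 0 (e i (u : K))⁻¹

def ST_CU4 : Prop := ∀ (K : Type) [Field K] [NumberField K] (β : K) (a b c : ℤ) (κ : 𝓞 K) (m : ℕ)
    (p : Fin m → ℕ) (P : Fin m → Ideal (𝓞 K)) (𝔞 : Ideal (𝓞 K)), CD K β a b c κ m p P 𝔞 →
    ∀ (L : Type) [Field L] [NumberField L] (e : Fin 3 → (K →+* L)), Function.Injective e →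
    ∀ j0 : Fin m, ∃ Q : Ideal (𝓞 L),
      CQ K κ p P L e j0 ((dis a b c).natAbs.factorization (p j0)) Q

def ST_ODD : Prop := ∀ (K : Type) [Field K] [NumberField K] (β : K) (a b c : ℤ) (κ : 𝓞 K) (m : ℕ)
    (p : Fin m → ℕ) (P : Fin m → Ideal (𝓞 K)) (𝔞 : Ideal (𝓞 K)), CD K β a b c κ m p P 𝔞 →
    ∀ (L : Type) [Field L] [NumberField L] (e : Fin 3 → (K →+* L)), Function.Injective e →
    ∀ (j0 : Fin m) (Q : Ideal (𝓞 L)),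
      CQ K κ p P L e j0 ((dis a b c).natAbs.factorization (p j0)) Q →
      Odd ((dis a b c).natAbs.factorization (p j0)) →
      ∀ (u : Kˣ) (x : Fin m → ℤ), SU P x u → Dv Q 1 (e 2 (u : K) / e 1 (u : K) - 1)

def ST_EVEN : Prop := ∀ (K : Type) [Field K] [NumberField K] (β : K) (a b c : ℤ) (κ : 𝓞 K) (m : ℕ)
    (p : Fin m → ℕ) (P : Fin m → Ideal (𝓞 K)) (𝔞 : Ideal (𝓞 K)), CD K β a b c κ m p P 𝔞 →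
    ∀ (L : Type) [Field L] [NumberField L] (e : Fin 3 → (K →+* L)), Function.Injective e →
    ∀ (j0 : Fin m) (Q : Ideal (𝓞 L)),
      CQ K κ p P L e j0 ((dis a b c).natAbs.factorization (p j0)) Q →
      ∀ (ι : Type) [Fintype ι] (f : ι → Kˣ), (∀ i, ∃ x, SU P x (f i)) →
      ∃ F : Finset ι, Fintype.card ι ≤ 2 * p j0 * F.card ∧ ∀ i ∈ F, ∀ j ∈ F,
        Dv Q 1 (e 2 ((f i * (f j)⁻¹ : Kˣ) : K) / e 1 ((f i * (f j)⁻¹ : Kˣ) : K) - 1)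

def ST_ONE : Prop := ∀ m : ℕ, ∃ C : ℝ, 1 ≤ C ∧ ∃ A : ℕ, ∀ (K : Type) [Field K] [NumberField K]
    (β : K) (a b c : ℤ) (κ : 𝓞 K) (p : Fin m → ℕ) (P : Fin m → Ideal (𝓞 K)) (𝔞 : Ideal (𝓞 K)),
    CD K β a b c κ m p P 𝔞 → ∀ σ : Fin 3 → (K →+* ℂ), Function.Injective σ →
    ∀ Y S ν : ℝ, 3 ≤ Y → |(NumberField.discr K : ℝ)| ≤ Y → (Ideal.absNorm 𝔞 : ℝ) ≤ Y →
    (∀ j, (p j : ℝ) ≤ Y) → 3 ≤ S → (∀ i, |Real.log ‖σ i (κ : K)‖| ≤ S) →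
    (∀ j, ((dis a b c).natAbs.factorization (p j) : ℝ) * Real.log (p j) ≤ S) →
    ((BK.ID K (2 * Real.sqrt |(NumberField.discr K : ℝ)|)).ncard : ℝ) ≤ ν → 1 ≤ ν → ν ≤ Y ^ 4 →
    ∀ j0 : Fin m, ((dis a b c).natAbs.factorization (p j0) : ℝ) * Real.log (p j0) ≤
      C * ν * (if Odd ((dis a b c).natAbs.factorization (p j0)) then 1 else (p j0 : ℝ)) *
        (Real.log Y + Real.log S) ^ A

/-! ## G. Elliptic curves -/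

def ST_SIZ : Prop := ∃ C : ℝ, 1 ≤ C ∧ ∀ (K : Type) [Field K] [NumberField K] (β : K) (a b c : ℤ)
    (κ : 𝓞 K), CF K β a b c κ → ∀ σ : Fin 3 → (K →+* ℂ), Function.Injective σ → ∀ i,
    |Real.log ‖σ i (κ : K)‖| ≤ C * (1 + Real.log (1 + |((a ^ 2 - 3 * b : ℤ) : ℝ)|) +
      Real.log |((dis a b c : ℤ) : ℝ)|)

/-- `p²` for `p ∣ Δ`, `p ∣ c₄`; `p` for `p ∤ c₄`, `v_p(Δ)` odd -/
def cond (W : WeierstrassCurve ℤ) : ℕ :=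
  ∏ p ∈ W.Δ.natAbs.primeFactors,
    if (p : ℤ) ∣ W.c₄ then p ^ 2 else p ^ (W.Δ.natAbs.factorization p % 2)

def ST_FLW : Prop := ∀ W : WeierstrassCurve ℤ, W.Δ ≠ 0 →
    (∀ x : ℚ, 4 * x ^ 3 + W.b₂ * x ^ 2 + 2 * W.b₄ * x + W.b₆ ≠ 0) →
    dis W.b₂ (8 * W.b₄) (16 * W.b₆) = 256 * W.Δ ∧ W.b₂ ^ 2 - 3 * (8 * W.b₄) = W.c₄ ∧
    ∃ (K : Type) (_ : Field K) (_ : NumberField K) (β : K) (κ : 𝓞 K) (σ : Fin 3 → (K →+* ℂ)),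
      CF K β W.b₂ (8 * W.b₄) (16 * W.b₆) κ ∧ Function.Injective σ ∧
      |(NumberField.discr K : ℝ)| ≤ 5000 * cond W

def ST_NNC : Prop := ∀ W : WeierstrassCurve ℤ, W.Δ ≠ 0 →
    BK.NN W.c₄ (-(1728 * W.Δ)) ≤ 36 * cond W

def ST_HPL : Prop := ∃ C : ℝ, 1 ≤ C ∧ ∀ W : WeierstrassCurve ℤ, W.Δ ≠ 0 →
    Real.log |(W.c₄ : ℝ)| ≤ C * Real.sqrt (cond W) * (1 + Real.log |(W.Δ : ℝ)|) ^ 19

def ST_CALS : Prop := ∀ (C : ℝ) (A : ℕ), 1 ≤ C → ∃ C' : ℝ, 1 ≤ C' ∧ ∀ t M R : ℝ, 1 ≤ M → 1 ≤ R →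
    M ≤ Real.exp (C * R) → 0 ≤ t → t ≤ C * M * (R + Real.log (1 + t)) ^ A → t ≤ C' * M * R ^ A

def ST_SZF : Prop := ∀ m : ℕ, ∃ C : ℝ, ∃ k : ℕ, ∀ W : WeierstrassCurve ℤ, W.Δ ≠ 0 →
    (∀ x : ℚ, 4 * x ^ 3 + W.b₂ * x ^ 2 + 2 * W.b₄ * x + W.b₆ ≠ 0) →
    ∀ s : Finset ℕ, s.card ≤ m → (∀ p ∈ s, p.Prime ∧ (p : ℤ) ∣ W.Δ ∧ ¬ (p : ℤ) ∣ W.c₄) →
    ∀ B : ℝ, 1 ≤ B → (∀ p ∈ s, Even (W.Δ.natAbs.factorization p) → (p : ℝ) ≤ B) →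
    ∑ p ∈ s, (W.Δ.natAbs.factorization p : ℝ) * Real.log p ≤
      C * Real.sqrt (cond W) * B * (1 + Real.log |(W.Δ : ℝ)| -
        ∑ p ∈ s, ((W.Δ.natAbs.factorization p : ℝ) - 1) * Real.log p) ^ k

end Pool.Helper99.SZ
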