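import Mathlib
import Pool.Agent.Helper99.SZ.Stmts

/-! Statements of the modules, second part: explicit dependence on the number of primes. -/

set_option autoImplicit false

namespace Pool.Helper99.SZ

open NumberField

/-- exponents of the monomials of degree at most `K` -/
abbrev Sx (v K : ℕ) : Type := {k : Fin v → Fin (K + 1) // ∑ i, (k i : ℕ) ≤ K}

/-- exponents of the monomials of degree at most `K` without the variable `j1` -/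
abbrev Sb (v K : ℕ) (j1 : Fin v) : Type :=
  {k : Fin v → Fin (K + 1) // (k j1 : ℕ) = 0 ∧ ∑ i, (k i : ℕ) ≤ K}

/-- `x` is integral at `p` -/
def pint (p : ℕ) (x : ℚ) : Prop := ¬ p ∣ x.den

/-- the `g i` are powers of one element, up to order `T` -/
def OD {L : Type} [Field L] [NumberField L] (P : Ideal (𝓞 L)) (T : ℕ) {n : ℕ} (g : Fin n → L) :
    Prop :=
  ∃ (u : L) (c : Fin n → ℤ), Dv P 1 (u - 1) ∧ ∀ i, Dv P T (g i - u ^ (c i))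

/-! ## H. The determinant -/

def ST_PDG : Prop := ∀ (L : Type) [Field L] [NumberField L] (P : Ideal (𝓞 L)), P.IsPrime → P ≠ ⊥ →
    ∀ (ι β : Type) [Fintype ι] [DecidableEq ι] [Fintype β] [DecidableEq β] (M : Matrix ι ι L)
    (K T t : ℕ) (grp : ι → β) (b0 : ι → ℕ) (W : β → ℕ → Submodule ℚ (ι → ℚ)), (∀ j, b0 j ≤ K) →
    (∀ b s, Module.finrank ℚ (W b s) ≤ s + 1) →
    (∀ n' : β → ℕ, Fintype.card ι ≤ 2 * ∑ b, n' b →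
      2 * t + 2 * K * ∑ b, n' b ≤ ∑ b, n' b * (n' b - 1)) →
    2 * t ≤ Fintype.card ι * T →
    (∀ j, ∃ (s : ℕ) (c : Fin s → L) (a : Fin s → ℕ) (y : Fin s → ι → ℤ) (ω : L) (err : ι → L),
      Dv P 0 ω ∧ (∀ k, Dv P (a k) (c k)) ∧
      (∀ k s', b0 j + a k ≤ s' → (fun r => ((y k r : ℤ) : ℚ)) ∈ W (grp j) s') ∧
      (∀ r, Dv P T (err r)) ∧ ∀ r, M r j = ω * ∑ k, c k * ((y k r : ℤ) : L) + err r) →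
    Dv P t M.det

def ST_SIM : Prop := ∀ (v K : ℕ) (j1 : Fin v),
    K * Fintype.card (Sb v K j1) ≤ v * Fintype.card (Sx v K)

def ST_CMB : Prop := ∀ (v K Lc t : ℕ) (j1 : Fin v), 1 ≤ K → 32 * v ≤ Lc →
    16 * v * t ≤ Fintype.card (Sx v K × Fin Lc) * Lc * K →
    ∀ n' : Sb v K j1 → ℕ, Fintype.card (Sx v K × Fin Lc) ≤ 2 * ∑ b, n' b →
      2 * t + 2 * K * ∑ b, n' b ≤ ∑ b, n' b * (n' b - 1)

def ST_CHG : Prop := ∀ p : ℕ, p.Prime → ∀ (v K : ℕ) (j1 : Fin v) (α : ℚ) (e : Fin v → ℚ),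
    pint p α → (∀ j, pint p (e j)) → ∃ β : Sx v K → Sx v K → ℚ, (∀ k k', pint p (β k k')) ∧
    ∀ (ζ : Fin v → ℚ) (y : ℚ), ζ j1 = α * y + ∑ j ∈ Finset.univ.erase j1, e j * ζ j → ∀ k : Sx v K,
      ∏ i, ζ i ^ (k.1 i : ℕ) =
        ∑ k' : Sx v K, β k k' * (y ^ (k'.1 j1 : ℕ) * ∏ i ∈ Finset.univ.erase j1, ζ i ^ (k'.1 i : ℕ))

def ST_PX3 : Prop := ∀ (L : Type) [Field L] [NumberField L] (P : Ideal (𝓞 L)), P.IsPrime → P ≠ ⊥ →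
    ∀ (v K T : ℕ) (j1 : Fin v) (ι : Type) [Fintype ι] (ζ : ι → Fin v → ℤ) (y : ι → ℤ) (x : ι → L)
    (u : L), Dv P 1 (u - 1) → 1 ≤ T → (∀ r, Dv P T (x r - u ^ (y r))) →
    ∃ W : Sb v K j1 → ℕ → Submodule ℚ (ι → ℚ), (∀ b s, Module.finrank ℚ (W b s) ≤ s + 1) ∧
      ∀ (k : Sx v K) (b : Sb v K j1), (∀ i, i ≠ j1 → (b.1 i : ℕ) = (k.1 i : ℕ)) → ∀ l : ℕ,
      ∃ (s : ℕ) (c : Fin s → L) (a : Fin s → ℕ) (w : Fin s → ι → ℤ) (ω : L) (err : ι → L),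
        Dv P 0 ω ∧ (∀ q, Dv P (a q) (c q)) ∧
        (∀ q s', (k.1 j1 : ℕ) + a q ≤ s' → (fun r => ((w q r : ℤ) : ℚ)) ∈ W b s') ∧
        (∀ r, Dv P T (err r)) ∧
        ∀ r, ((y r : ℤ) : L) ^ (k.1 j1 : ℕ) *
          (∏ i ∈ Finset.univ.erase j1, ((ζ r i : ℤ) : L) ^ (k.1 i : ℕ)) * x r ^ l =
            ω * ∑ q, c q * ((w q r : ℤ) : L) + err r

def ST_SHP : Prop := ∀ (L : Type) [Field L] [NumberField L] (P : Ideal (𝓞 L)), P.IsPrime → P ≠ ⊥ →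
    ∀ p : ℕ, p.Prime → (p : 𝓞 L) ∈ P → ∀ (n v : ℕ), 1 ≤ v → ∀ V : Submodule ℚ (Fin n → ℚ),
    Module.finrank ℚ V = v → ∀ J : Fin v → Fin n, (∀ x ∈ V, (∀ i, x (J i) = 0) → x = 0) →
    ∀ (ι : Type) (z : ι → Fin n → ℤ), (∀ r, (fun i => ((z r i : ℤ) : ℚ)) ∈ V) →
    ∀ (u : L) (c : Fin n → ℤ), Dv P 1 (u - 1) →
    ∃ (j1 : Fin v) (u' : L) (y : ι → ℤ) (α : ℚ) (e : Fin v → ℚ), Dv P 1 (u' - 1) ∧
      (∀ r, u' ^ (y r) = u ^ (∑ i, c i * z r i)) ∧ pint p α ∧ (∀ j, pint p (e j)) ∧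
      ∀ r, ((z r (J j1) : ℤ) : ℚ) = α * y r + ∑ j ∈ Finset.univ.erase j1, e j * z r (J j)

def ST_PD2 : Prop := ∀ (L : Type) [Field L] [NumberField L] (P : Ideal (𝓞 L)), P.IsPrime → P ≠ ⊥ →
    ∀ p : ℕ, p.Prime → (p : 𝓞 L) ∈ P → ∀ (n v K Lc T t : ℕ), 1 ≤ v →
    ∀ V : Submodule ℚ (Fin n → ℚ), Module.finrank ℚ V = v →
    ∀ J : Fin v → Fin n, (∀ x ∈ V, (∀ i, x (J i) = 0) → x = 0) →
    ∀ z : Sx v K × Fin Lc → Fin n → ℤ, (∀ r, (fun i => ((z r i : ℤ) : ℚ)) ∈ V) →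
    ∀ g : Fin n → L, (∀ i, Dv P 1 (g i - 1)) → OD P T g →
    ∀ w : Sx v K × Fin Lc → L, 1 ≤ T → (∀ r, Dv P T (w r - 1)) → 1 ≤ K → 32 * v ≤ Lc →
    16 * v * t ≤ Fintype.card (Sx v K × Fin Lc) * Lc * K →
    2 * t ≤ Fintype.card (Sx v K × Fin Lc) * T →
    Dv P t (Matrix.of (fun r j : Sx v K × Fin Lc =>
      (∏ i, ((z r (J i) : ℤ) : L) ^ (j.1.1 i : ℕ)) *
        ((∏ i, g i ^ (z r i)) * w r) ^ (j.2 : ℕ))).det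

/-! ## I. Zero estimates -/

def ST_COR : Prop := ∀ (n c : ℕ) (I : Finset (Fin n)), c + I.card = n →
    ∀ d : Fin n → ℕ, (∀ i, 1 ≤ d i) → ∀ (T : Type) [Fintype T] (q : T → Ideal (Trs.Rg n)),
    Function.Injective q → (∀ t, (q t).IsPrime) → (∀ t, (q t).height = c) →
    (∀ t, Trs.Ind (q t) I) → ∀ V : Submodule ℂ (Trs.Rg n),
    (∀ t, q t ∈ (Ideal.span (V : Set (Trs.Rg n))).minimalPrimes) →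
    (∀ v ∈ V, ∀ i, v.degreeOf i ≤ d i) → Fintype.card T ≤ c.factorial * ∏ i ∈ Iᶜ, d i

def ST_ZC2 : Prop := ∀ (n : ℕ) (tor : Fin n → Bool) (G : Type) [AddCommGroup G] [DecidableEq G]
    (f : G →+ (Fin n → ℂ)) (S : Finset G) (d : Fin n → ℕ), 0 ∈ S → (∀ g ∈ S, -g ∈ S) →
    (∀ i, 1 ≤ d i) → ∀ F : Trs.Rg n, F ≠ 0 → (∀ i, F.degreeOf i ≤ d i) →
    (∀ l : List G, l.length = 2 * n → (∀ g ∈ l, g ∈ S) → Trs.ev tor (f l.sum) F = 0) →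
    ∃ q : Ideal (Trs.Rg n), q.IsPrime ∧ q ≠ ⊥ ∧ q ≤ RingHom.ker (Trs.ev tor 0) ∧
      ∀ I, Trs.Bas q I → ∀ E : Finset G, E ⊆ S →
        (∀ g ∈ E, ∀ h ∈ E, Trs.Stb tor q (f (g - h)) → g = h) →
        E.card ≤ (Iᶜ.card).factorial * ∏ i ∈ Iᶜ, d i

def ST_ZQ2 : Prop := ∀ (v K Lc : ℕ), 1 ≤ K → 1 ≤ Lc → ∀ q : Ideal (Trs.Rg (v + 1)), q.IsPrime →
    q ≠ ⊥ → q ≤ RingHom.ker (Trs.ev (tv v) 0) → ∀ H : Set ((Fin v → ℤ) × ℂ),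
    (∀ h ∈ H, Trs.Stb (tv v) q (vc h.1 h.2)) → ∀ w : ℕ,
    w = Module.finrank ℚ (Submodule.span ℚ {u : Fin v → ℚ | ∃ h ∈ H,
      u = fun i => ((h.1 i : ℤ) : ℚ)}) →
    w ≤ v ∧ (w = v → ∀ h ∈ H, Complex.exp h.2 = 1) ∧
    ∃ I, Trs.Bas q I ∧ Iᶜ.card ≤ v - w + 1 ∧
      ∏ i ∈ Iᶜ, (if i = Fin.last v then Lc else K) ≤ K ^ (v - w) * Lc

def ST_ZV2 : Prop := ∀ (v : ℕ), 1 ≤ v → ∀ (G : Type) [AddCommGroup G] [DecidableEq G]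
    (ζ : G →+ (Fin v → ℤ)) (lam : G →+ ℂ) (K Lc : ℕ), 1 ≤ K → 1 ≤ Lc →
    ∀ (x : Sx v K × Fin Lc → ℂ), x ≠ 0 →
    ∀ S : Finset G, 0 ∈ S → (∀ a ∈ S, -a ∈ S) →
    (∀ l : List G, l.length = 2 * (v + 1) → (∀ a ∈ l, a ∈ S) →
      ∑ j : Sx v K × Fin Lc, x j * ((∏ i, ((ζ l.sum i : ℤ) : ℂ) ^ (j.1.1 i : ℕ)) *
        Complex.exp (lam l.sum) ^ (j.2 : ℕ)) = 0) →
    ∃ (H : AddSubgroup G) (w : ℕ), w ≤ v ∧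
      w = Module.finrank ℚ (Submodule.span ℚ {u : Fin v → ℚ | ∃ a ∈ H,
        u = fun i => ((ζ a i : ℤ) : ℚ)}) ∧
      (∀ E : Finset G, E ⊆ S → (∀ a ∈ E, ∀ b ∈ E, a - b ∈ H → a = b) →
        E.card ≤ (v - w + 1).factorial * (K ^ (v - w) * Lc)) ∧
      (w = v → ∀ a ∈ H, Complex.exp (lam a) = 1)

/-! ## J. The recursion -/

def ST_ENG : Prop := ∀ (G : Type) [AddCommGroup G] [DecidableEq G] (S : Finset G)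
    (GV H : AddSubgroup G), H ≤ GV → ∀ M : ℕ,
    (∀ E : Finset G, (∀ a ∈ E, a ∈ GV ∧ ∃ x ∈ S, ∃ y ∈ S, a = x - y) →
      (∀ a ∈ E, ∀ b ∈ E, a - b ∈ H → a = b) → E.card ≤ M) →
    {z : G × G | z.1 ∈ S ∧ z.2 ∈ S ∧ z.1 - z.2 ∈ GV}.ncard ≤
      M * {z : G × G | z.1 ∈ S ∧ z.2 ∈ S ∧ z.1 - z.2 ∈ H}.ncard

def ST_PN2 : Prop := ∀ (n D v : ℕ), 1 ≤ v → 1 ≤ D →
    ∀ (L : Type) [Field L] [NumberField L], Module.finrank ℚ L ≤ D →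
    ∀ (P : Ideal (𝓞 L)) (p : ℕ) (g0 : L) (g : Fin n → L) (nrm : ℤ × (Fin n → ℤ) → ℝ)
      (U Z ℓ : ℝ) (T : ℕ), 1 ≤ U → 1 ≤ Z → 1 ≤ ℓ → Real.log Z ≤ ℓ →
      PD L P p n g0 g nrm U Z T → OD P T g →
      ∀ V : Submodule ℚ (Fin n → ℚ), Module.finrank ℚ V = v → ∀ J : Fin v → Fin n,
      (∀ x ∈ V, (∀ i, x (J i) = 0) → x = 0) → ∀ K Lc : ℕ, 2000 * (v : ℝ) * D * U ≤ K →
      1000 * (v : ℝ) * D * ℓ ≤ Lc → Real.log ((K : ℝ) + 1) ≤ 1000 * ℓ →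
      (∀ x : Sx v K × Fin Lc → L, (∀ a : ℤ × (Fin n → ℤ), nrm a ≤ U →
        (fun i => ((a.2 i : ℤ) : ℚ)) ∈ V →
        ∑ j, x j * ((∏ i, ((a.2 (J i) : ℤ) : L) ^ (j.1.1 i : ℕ)) *
          (g0 ^ a.1 * ∏ i, g i ^ (a.2 i)) ^ (j.2 : ℕ)) = 0) → x = 0) →
      T ≤ K * Lc

def ST_RC2 : Prop := ∀ (n D : ℕ), 1 ≤ D →
    ∀ (L : Type) [Field L] [NumberField L], Module.finrank ℚ L ≤ D →
    ∀ (P : Ideal (𝓞 L)) (p : ℕ) (g0 : L) (g : Fin n → L) (nrm : ℤ × (Fin n → ℤ) → ℝ)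
      (U Z ℓ ρ : ℝ) (T : ℕ), 1 ≤ ρ → 4 * ((n : ℝ) + 1) * ρ ≤ U → 1 ≤ Z → 1 ≤ ℓ →
      Real.log Z ≤ ℓ → Real.log p ≤ ℓ → PD L P p n g0 g nrm U Z T → OD P T g →
      ∀ K Lc : ℕ, 2000 * ((n : ℝ) + 1) * D * U ≤ K → 1000 * ((n : ℝ) + 1) * D * ℓ ≤ Lc →
      Real.log ((K : ℝ) + 1) ≤ 1000 * ℓ →
      ∀ (v : ℕ) (V : Submodule ℚ (Fin n → ℚ)), Module.finrank ℚ V = v →
      2 * (4 * ((n : ℝ) + 1) * K * Lc) ^ v * ({a : ℤ × (Fin n → ℤ) | nrm a ≤ ρ}.ncard : ℝ) ≤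
        ({z : (ℤ × (Fin n → ℤ)) × (ℤ × (Fin n → ℤ)) | nrm z.1 ≤ ρ ∧ nrm z.2 ≤ ρ ∧
          (fun i => (((z.1 - z.2).2 i : ℤ) : ℚ)) ∈ V}.ncard : ℝ) →
      (T : ℝ) * Real.log p ≤ K * Lc * ℓ + 3 * D * U

def ST_PM2 : Prop := ∀ (n D : ℕ), 1 ≤ D →
    ∀ (L : Type) [Field L] [NumberField L], Module.finrank ℚ L ≤ D →
    ∀ (P : Ideal (𝓞 L)) (p : ℕ) (g0 : L) (g : Fin n → L) (nrm : ℤ × (Fin n → ℤ) → ℝ)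
      (X U Z ℓ Θ : ℝ) (T : ℕ), Θ = 10 ^ 9 * ((n : ℝ) + 1) ^ 4 * D ^ 2 * ℓ → 1 ≤ X → 1 ≤ ℓ →
      U = 8 * ((n : ℝ) + 1) * X * Θ ^ n → U ≤ Z → Real.log Z ≤ ℓ → Real.log p ≤ ℓ →
      Real.log D ≤ ℓ →
      PD L P p n g0 g nrm U Z T → OD P T g →
      (∀ ρ, X ≤ ρ → ρ ≤ U → ρ ^ (n + 1) ≤ X * ({a : ℤ × (Fin n → ℤ) | nrm a ≤ ρ}.ncard : ℝ)) →
      (T : ℝ) * Real.log p ≤ X * Θ ^ (n + 2)

/-! ## K. One-dimensionality, twelfth powers -/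

def ST_P12 : Prop := ∀ (L : Type) [Field L] [NumberField L] (P : Ideal (𝓞 L)) (p n : ℕ) (g0 : L)
    (g : Fin n → L) (nrm : ℤ × (Fin n → ℤ) → ℝ) (U Z : ℝ) (T : ℕ), PD L P p n g0 g nrm U Z T →
    g0 ^ 12 ≠ 1 → PD L P p n (g0 ^ 12) (fun i => g i ^ 12) (fun a => 12 * nrm a) U Z T

def ST_KNE : Prop := ∀ (K : Type) [Field K] [NumberField K] (β : K) (a b c : ℤ) (κ : 𝓞 K) (m : ℕ)
    (p : Fin m → ℕ) (P : Fin m → Ideal (𝓞 K)) (𝔞 : Ideal (𝓞 K)), CD K β a b c κ m p P 𝔞 →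
    ∀ (L : Type) [Field L] [NumberField L] (e : Fin 3 → (K →+* L)), Function.Injective e →
    ∀ _ : Fin m, (e 2 (κ : K) / e 1 (κ : K)) ^ 12 ≠ 1

def ST_ODB : Prop := ∀ (L : Type) [Field L] [NumberField L] (P : Ideal (𝓞 L)), P.IsPrime → P ≠ ⊥ →
    ∀ p : ℕ, p.Prime → ∀ E a : ℕ, 1 ≤ E → E < (p - 1) * a → Dv P E (p : L) → ∀ x : L,
    Dv P a (x - 1) → ∀ j c0 : ℕ,
    Dv P (a + j * E + 1) (x ^ (c0 * p ^ j) - 1 - (c0 * p ^ j : ℕ) * (x - 1))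

def ST_ODV : Prop := ∀ (K : Type) [Field K] [NumberField K] (β : K) (a b c : ℤ) (κ : 𝓞 K) (m : ℕ)
    (p : Fin m → ℕ) (P : Fin m → Ideal (𝓞 K)) (𝔞 : Ideal (𝓞 K)), CD K β a b c κ m p P 𝔞 →
    ∀ (L : Type) [Field L] [NumberField L] (e : Fin 3 → (K →+* L)), Function.Injective e →
    ∀ (j0 : Fin m) (Q : Ideal (𝓞 L)),
      CQ K κ p P L e j0 ((dis a b c).natAbs.factorization (p j0)) Q →
    ∀ vQ : Lˣ → ℤ, IsVal Q vQ → ∃ E : ℕ, 1 ≤ E ∧ (∀ x : Lˣ, (x : L) = (p j0 : L) → vQ x = E) ∧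
      (∀ y : Kˣ, Dv Q 1 (e 2 (y : K) / e 1 (y : K) - 1) →
        Dv Q ((E + 1) / 2) (e 2 (y : K) / e 1 (y : K) - 1)) ∧
      ∀ (y y' : Kˣ) (x x' : Lˣ), (x : L) = e 2 (y : K) / e 1 (y : K) - 1 →
        (x' : L) = e 2 (y' : K) / e 1 (y' : K) - 1 → 1 ≤ vQ x' → vQ x' ≤ vQ x →
        (∀ x2 : Lˣ, (x2 : L) = 2 → vQ x2 < vQ x') →
        ∃ j c0 : ℕ, vQ x = vQ x' + j * E ∧
          Dv Q ((vQ x).toNat + 1) ((x : L) - (c0 * p j0 ^ j : ℕ) * (x' : L))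

def ST_ODM : Prop := ∀ (K : Type) [Field K] [NumberField K] (β : K) (a b c : ℤ) (κ : 𝓞 K) (m : ℕ)
    (p : Fin m → ℕ) (P : Fin m → Ideal (𝓞 K)) (𝔞 : Ideal (𝓞 K)), CD K β a b c κ m p P 𝔞 →
    ∀ (L : Type) [Field L] [NumberField L] (e : Fin 3 → (K →+* L)), Function.Injective e →
    ∀ (j0 : Fin m) (Q : Ideal (𝓞 L)),
      CQ K κ p P L e j0 ((dis a b c).natAbs.factorization (p j0)) Q →
    ∀ (n : ℕ) (s : Fin n → Kˣ),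
      (∀ i, Dv Q 1 (e 2 ((s i : Kˣ) : K) / e 1 ((s i : Kˣ) : K) - 1)) → ∀ T : ℕ,
      OD Q T (fun i => (e 2 ((s i : Kˣ) : K) / e 1 ((s i : Kˣ) : K)) ^ 12)

/-! ## L. Explicit constants -/

def ST_RB2 : Prop := ∀ n : ℕ, ∀ (E : Type) [NormedAddCommGroup E]
    [InnerProductSpace ℝ E] (Λ : Type) [AddCommGroup Λ] [Module.Finite ℤ Λ] [Module.Free ℤ Λ],
    Module.finrank ℤ Λ = n → ∀ ι : Λ →+ E, (∀ x, x ≠ 0 → 1 ≤ ‖ι x‖) →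
    ∃ b : Module.Basis (Fin n) ℤ Λ, ∀ x i,
      |((b.repr x i : ℤ) : ℝ)| ≤ ((n + 1).factorial : ℝ) * ‖ι x‖

def ST_SB2 : Prop := ∃ c : ℝ, 1 ≤ c ∧ ∀ m : ℕ, ∀ C : ℝ, C = c * ((m + 5).factorial : ℝ) →
    ∀ (K : Type) [Field K] [NumberField K],
    Module.finrank ℚ K = 3 → ∀ σ : Fin 3 → (K →+* ℂ), Function.Injective σ →
    ∀ P : Fin m → Ideal (𝓞 K), Function.Injective P → (∀ j, (P j).IsPrime ∧ P j ≠ ⊥) →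
    ∀ G1 : Subgroup Kˣ, -1 ∈ G1 → (∀ u ∈ G1, ∃ a, SU P a u) →
    ∃ (n : ℕ) (s : Fin n → Kˣ) (α : Fin n → Fin m → ℤ),
      n + 1 ≤ Fintype.card (InfinitePlace K) + m ∧ (∀ i, s i ∈ G1) ∧ (∀ i, SU P (α i) (s i)) ∧
      (∀ u ∈ G1, ∃ z : Fin n → ℤ, u = ∏ i, s i ^ (z i) ∨ u = -∏ i, s i ^ (z i)) ∧
      CB σ P s α C

def ST_PH2 : Prop := ∀ m : ℕ, ∀ C : ℝ, C = 100000 * (10 * ((m : ℝ) + 1)) ^ m →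
    ∀ (K : Type) [Field K] [NumberField K],
    Module.finrank ℚ K = 3 → ∀ P : Fin m → Ideal (𝓞 K), Function.Injective P →
    (∀ j, (P j).IsPrime ∧ P j ≠ ⊥) → ∀ κ : 𝓞 K, κ ≠ 0 → ∀ (nn : Fin m → ℕ) (𝔞 : Ideal (𝓞 K)),
    Ideal.span {κ} = 𝔞 * ∏ j, P j ^ nn j → ∀ A h ν ρ : ℝ, 1 ≤ h →
    Real.log |(NumberField.discr K : ℝ)| ≤ h → 1 ≤ A → Real.log (Ideal.absNorm 𝔞) ≤ A →
    ((BK.ID K (2 * Real.sqrt |(NumberField.discr K : ℝ)|)).ncard : ℝ) ≤ ν →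
    C * (A + h + ∑ j, Real.log (Ideal.absNorm (P j))) ≤ ρ →
    (TS P κ nn A ρ).Finite ∧ ρ ^ (Fintype.card (InfinitePlace K) + m) ≤
      C * ν * A * h ^ (Fintype.card (InfinitePlace K) - 1) *
        (∏ j, Real.log (Ideal.absNorm (P j))) * ((TS P κ nn A ρ).ncard : ℝ)

def ST_CN2 : Prop := ∃ c1 : ℕ, 1 ≤ c1 ∧ ∀ m : ℕ, ∀ C : ℝ,
    C = ((c1 : ℝ) * (m + 1)) ^ (c1 * (m + 1)) → ∀ (K : Type) [Field K] [NumberField K],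
    Module.finrank ℚ K = 3 → ∀ σ : Fin 3 → (K →+* ℂ), Function.Injective σ →
    ∀ P : Fin m → Ideal (𝓞 K), Function.Injective P → (∀ j, (P j).IsPrime ∧ P j ≠ ⊥) →
    ∀ κ : 𝓞 K, κ ≠ 0 → ∀ (nn : Fin m → ℕ) (𝔞 : Ideal (𝓞 K)),
    Ideal.span {κ} = 𝔞 * ∏ j, P j ^ nn j →
    ∀ G1 : Subgroup Kˣ, -1 ∈ G1 → (∀ u ∈ G1, ∃ a, SU P a u) → ∀ q0 : ℕ,
    (∀ (ι : Type) [Fintype ι] (f : ι → Kˣ), (∀ i, ∃ a, SU P a (f i)) →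
      ∃ F : Finset ι, Fintype.card ι ≤ q0 * F.card ∧ ∀ i ∈ F, ∀ j ∈ F, f i * (f j)⁻¹ ∈ G1) →
    ∃ (n : ℕ) (s : Fin n → Kˣ) (α : Fin n → Fin m → ℤ),
      n + 1 ≤ Fintype.card (InfinitePlace K) + m ∧ (∀ i, s i ∈ G1) ∧ (∀ i, SU P (α i) (s i)) ∧
      CB σ P s α C ∧ ∀ A h ν ρ : ℝ, 1 ≤ h → Real.log |(NumberField.discr K : ℝ)| ≤ h → 1 ≤ A →
      Real.log (Ideal.absNorm 𝔞) ≤ A →
      ((BK.ID K (2 * Real.sqrt |(NumberField.discr K : ℝ)|)).ncard : ℝ) ≤ ν →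
      C * (A + h + ∑ j, Real.log (Ideal.absNorm (P j))) ≤ ρ →
      ρ ^ (Fintype.card (InfinitePlace K) + m) ≤
        C * q0 * ν * A * h ^ (Fintype.card (InfinitePlace K) - 1) *
        (∏ j, Real.log (Ideal.absNorm (P j))) *
        ({a : ℤ × (Fin n → ℤ) | nrmS σ P κ nn s α A a ≤ ρ}.ncard : ℝ)

def ST_PC2 : Prop := ∀ (m : ℕ) (K : Type) [Field K] [NumberField K],
    Module.finrank ℚ K = 3 → ∀ σ : Fin 3 → (K →+* ℂ), Function.Injective σ →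
    ∀ (L : Type) [Field L] [NumberField L] (e : Fin 3 → (K →+* L)), Function.Injective e →
    (∀ (τ : L →+* ℂ) (i : Fin 3), ∃ j : Fin 3, ∀ x : K, τ (e i x) = σ j x) →
    ∀ P : Fin m → Ideal (𝓞 K), Function.Injective P → (∀ j, (P j).IsPrime ∧ P j ≠ ⊥) →
    (∀ (q : ℚ) (u : Kˣ) (a : Fin m → ℤ), (u : K) = algebraMap ℚ K q → SU P a u → a = 0) →
    ∀ κ : 𝓞 K, κ ≠ 0 → ∀ (nn : Fin m → ℕ) (𝔞 : Ideal (𝓞 K)),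
    Ideal.span {κ} = 𝔞 * ∏ j, P j ^ nn j →
    ∀ (n : ℕ) (s : Fin n → Kˣ) (α : Fin n → Fin m → ℤ), (∀ i, SU P (α i) (s i)) →
    ∀ A B S U Z : ℝ, 1 ≤ A → Real.log (Ideal.absNorm 𝔞) ≤ A → 1 ≤ B → CB σ P s α B → 0 ≤ S →
    (∀ i, |Real.log ‖σ i (κ : K)‖| ≤ S) → (∀ j, (nn j : ℝ) * Real.log (Ideal.absNorm (P j)) ≤ S) →
    1 ≤ U → ((m : ℝ) + 4) * B * (1 + S) * U ≤ Z → ∀ (Q : Ideal (𝓞 L)) (p T : ℕ), Q.IsPrime →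
    Q ≠ ⊥ → p.Prime → (p : 𝓞 L) ∈ Q → 1 ≤ T → e 2 (κ : K) ≠ e 1 (κ : K) →
    Dv Q T (e 2 (κ : K) / e 1 (κ : K) - 1) →
    (∀ i, Dv Q 1 (e 2 ((s i : Kˣ) : K) / e 1 ((s i : Kˣ) : K) - 1)) →
    PD L Q p n (e 2 (κ : K) / e 1 (κ : K)) (fun i => e 2 ((s i : Kˣ) : K) / e 1 ((s i : Kˣ) : K))
      (nrmS σ P κ nn s α A) U Z T

def ST_ON2 : Prop := ∃ c1 : ℕ, 1 ≤ c1 ∧ ∀ (m : ℕ) (K : Type) [Field K] [NumberField K]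
    (β : K) (a b c : ℤ) (κ : 𝓞 K) (p : Fin m → ℕ) (P : Fin m → Ideal (𝓞 K)) (𝔞 : Ideal (𝓞 K)),
    CD K β a b c κ m p P 𝔞 → ∀ σ : Fin 3 → (K →+* ℂ), Function.Injective σ →
    ∀ Y S ν : ℝ, 3 ≤ Y → (m : ℝ) ≤ Y → |(NumberField.discr K : ℝ)| ≤ Y →
    (Ideal.absNorm 𝔞 : ℝ) ≤ Y →
    (∀ j, (p j : ℝ) ≤ Y) → 3 ≤ S → (∀ i, |Real.log ‖σ i (κ : K)‖| ≤ S) →
    (∀ j, ((dis a b c).natAbs.factorization (p j) : ℝ) * Real.log (p j) ≤ S) →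
    ((BK.ID K (2 * Real.sqrt |(NumberField.discr K : ℝ)|)).ncard : ℝ) ≤ ν → 1 ≤ ν → ν ≤ Y ^ 4 →
    ∀ j0 : Fin m, ((dis a b c).natAbs.factorization (p j0) : ℝ) * Real.log (p j0) ≤
      ν * (if Odd ((dis a b c).natAbs.factorization (p j0)) then 1 else (p j0 : ℝ)) *
        ((c1 : ℝ) * (m + 1) * (Real.log Y + Real.log S)) ^ (c1 * (m + 1))

def ST_CL2 : Prop := ∀ c : ℕ, 1 ≤ c → ∃ C' : ℝ, 1 ≤ C' ∧ ∀ (m : ℕ) (t R : ℝ), 1 ≤ R →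
    (m : ℝ) + 1 ≤ c * R → 0 ≤ t →
    t ≤ Real.exp (c * R) * ((c : ℝ) * R * (R + Real.log (1 + t))) ^ (c * (m + 1)) →
    Real.log (1 + t) ≤ C' * R ^ 2

def ST_SF2 : Prop := ∃ C : ℕ, ∀ W : WeierstrassCurve ℤ, W.Δ ≠ 0 →
    (∀ x : ℚ, 4 * x ^ 3 + W.b₂ * x ^ 2 + 2 * W.b₄ * x + W.b₆ ≠ 0) →
    ∀ s : Finset ℕ, (∀ p ∈ s, p.Prime ∧ (p : ℤ) ∣ W.Δ ∧ ¬ (p : ℤ) ∣ W.c₄) → ∀ p ∈ s,
    (W.Δ.natAbs.factorization p : ℝ) * Real.log p ≤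
      Real.sqrt (cond W) * (if Even (W.Δ.natAbs.factorization p) then (p : ℝ) else 1) *
        (C * (1 + Real.log |(W.Δ : ℝ)| -
          ∑ q ∈ s, ((W.Δ.natAbs.factorization q : ℝ) - 1) * Real.log q)) ^ (C * (s.card + 1))

end Pool.Helper99.SZ
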