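import Mathlib
import Pool.Agent.Helper99.SZ.Stmts2

/-! Definitions, third part: lattices of bounded rank. -/

set_option autoImplicit false

namespace Pool.Helper99.SZ

open NumberField

/-- a size function on the group `ℤ × ℤ ^ n`, mapped to `Lˣ` -/
structure LD (L : Type) [Field L] [NumberField L] (n : ℕ) (g0 : L) (g : Fin n → L)
    (nrm : ℤ × (Fin n → ℤ) → ℝ) (G Z : ℝ) : Prop where
  ne0 : g0 ≠ 0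
  ne : ∀ i, g i ≠ 0
  add : ∀ a b, nrm (a + b) ≤ nrm a + nrm b
  smul : ∀ (k : ℤ) a, nrm (k • a) = |(k : ℝ)| * nrm a
  conj : ∀ a (τ : L →+* ℂ), ‖τ (g0 ^ a.1 * ∏ i, g i ^ (a.2 i))‖ ≤ Real.exp (nrm a)
  den : ∀ a, ∃ q : ℕ, 0 < q ∧ (q : ℝ) ≤ Real.exp (nrm a) ∧
    IsIntegral ℤ ((q : L) * (g0 ^ a.1 * ∏ i, g i ^ (a.2 i)))
  co0 : ∀ a, |(a.1 : ℝ)| ≤ nrm a
  coo : ∀ a i, |((a.2 i : ℤ) : ℝ)| ≤ Z * nrm a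
  fin : ∀ ρ : ℝ, {a : ℤ × (Fin n → ℤ) | nrm a ≤ ρ}.Finite
  tor : ∀ k : ℤ, k ≠ 0 → g0 ^ k ≠ 1
  ker : ∀ a, a ≠ 0 → g0 ^ a.1 * ∏ i, g i ^ (a.2 i) = 1 → G ≤ nrm a

/-- for every subspace `V ≠ 0` some non-zero polynomial of degrees `K`, `Lc` vanishes on the points
of `V` of size at most `U` -/
def VAN (L : Type) [Field L] [NumberField L] (n : ℕ) (g0 : L) (g : Fin n → L)
    (nrm : ℤ × (Fin n → ℤ) → ℝ) (U : ℝ) (K Lc : ℕ) : Prop :=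
  ∀ (v : ℕ) (V : Submodule ℚ (Fin n → ℚ)), 1 ≤ v → Module.finrank ℚ V = v → ∀ J : Fin v → Fin n,
    (∀ x ∈ V, (∀ i, x (J i) = 0) → x = 0) →
    ∃ x : Sx v K × Fin Lc → L, x ≠ 0 ∧ ∀ a : ℤ × (Fin n → ℤ), nrm a ≤ U →
      (fun i => ((a.2 i : ℤ) : ℚ)) ∈ V →
      ∑ j, x j * ((∏ i, ((a.2 (J i) : ℤ) : L) ^ (j.1.1 i : ℕ)) *
        (g0 ^ a.1 * ∏ i, g i ^ (a.2 i)) ^ (j.2 : ℕ)) = 0

/-- the `g i` are powers of one element close to `1`, up to order `T` -/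
def ODj {L : Type} [Field L] [NumberField L] (P : Ideal (𝓞 L)) (jj T : ℕ) {n : ℕ}
    (g : Fin n → L) : Prop :=
  ∃ (u : L) (c : Fin n → ℤ), Dv P jj (u - 1) ∧ ∀ i, Dv P T (g i - u ^ (c i))

/-- the bound `Tst ≤ X Θ ^ (d + 1)` for all sublattices spanned by `(1, 0)` and `d` elements -/
def HT (L : Type) [Field L] [NumberField L] (D n : ℕ) (g0 : L) (g : Fin n → L)
    (nrm : ℤ × (Fin n → ℤ) → ℝ) (G Tst : ℝ) (d : ℕ) : Prop :=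
  ∀ z : Fin d → Fin n → ℤ, LinearIndependent ℤ z → ∀ Z X U ℓ Θ : ℝ, 1 ≤ Z → G ≤ X → 1 ≤ ℓ →
    10 ^ 9 * ((d : ℝ) + 1) ^ 5 * (D : ℝ) ^ 2 * (1 + ℓ / G) ≤ Θ →
    U = 8 * ((d : ℝ) + 1) * X * Θ ^ d → Real.log (Z * U) ≤ ℓ →
    LD L d g0 (fun i => ∏ j, g j ^ (z i j)) (fun a => nrm (a.1, ∑ i, a.2 i • z i)) G Z →
    (∀ ρ, X ≤ ρ → ρ ≤ U → ρ ^ (d + 1) ≤ X * G ^ d *
      ({a : ℤ × (Fin d → ℤ) | nrm (a.1, ∑ i, a.2 i • z i) ≤ ρ}.ncard : ℝ)) →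
    Tst ≤ X * Θ ^ (d + 1)

/-- `z` is at distance at most `w` from the line spanned by `(1, 0)` -/
def nl {n : ℕ} (nrm : ℤ × (Fin n → ℤ) → ℝ) (z : Fin n → ℤ) (w : ℝ) : Prop :=
  ∃ Q : ℕ, 1 ≤ Q ∧ ∃ j : ℤ, nrm (j, (Q : ℤ) • z) ≤ Q * w

/-- pairs `(k, u)`, `u` an `S`-unit, `κ ^ k u` of height at most `ρ` -/
def TS1 {K : Type} [Field K] [NumberField K] {m : ℕ} (P : Fin m → Ideal (𝓞 K)) (κ : 𝓞 K)
    (nn : Fin m → ℕ) (A ρ : ℝ) : Set (ℤ × Kˣ) :=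
  {x | |(x.1 : ℝ)| * A ≤ ρ ∧ (∀ σ : K →+* ℂ,
      |Real.log ‖σ (x.2 : K)‖ + (x.1 : ℝ) * Real.log ‖σ (κ : K)‖| ≤ ρ) ∧
    ∃ a : Fin m → ℤ, SU P a x.2 ∧
      ∑ j, |((a j + x.1 * nn j : ℤ) : ℝ)| * Real.log (Ideal.absNorm (P j)) ≤ ρ}

/-- a subgroup of the group of `S`-units of index at most `q0` (pigeonhole form) -/
def PIG {K : Type} [Field K] [NumberField K] {m : ℕ} (P : Fin m → Ideal (𝓞 K))
    (G1 : Subgroup Kˣ) (q0 : ℕ) : Prop :=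
  ∀ (ι : Type) [Fintype ι] (f : ι → Kˣ), (∀ i, ∃ a, SU P a (f i)) →
    ∃ F : Finset ι, Fintype.card ι ≤ q0 * F.card ∧ ∀ i ∈ F, ∀ j ∈ F, f i * (f j)⁻¹ ∈ G1

/-- the archimedean configuration: three real embeddings, or `σ 0` real and `σ 1`, `σ 2`
complex conjugate -/
def CFG {K : Type} [Field K] (σ : Fin 3 → (K →+* ℂ)) : Prop :=
  (∀ i x, (σ i x).im = 0) ∨
    ((∀ x, σ 2 x = (starRingEnd ℂ) (σ 1 x)) ∧ (∀ x, (σ 0 x).im = 0))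

end Pool.Helper99.SZ
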