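import Mathlib
import Pool.Agent.Helper99.SZ.Defs3

/-! Statements of the modules, third part: all conductors, no condition on the number of primes. -/

set_option autoImplicit false

namespace Pool.Helper99.SZ

open NumberField

/-! ## M. The recursion, for an arbitrary place -/

def ST_RCU : Prop := ∀ (L : Type) [Field L] [NumberField L] (n : ℕ) (g0 : L) (g : Fin n → L)
    (nrm : ℤ × (Fin n → ℤ) → ℝ) (G Z U ρ : ℝ) (K Lc : ℕ), 0 < G → LD L n g0 g nrm G Z → 0 ≤ ρ →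
    4 * ((n : ℝ) + 1) * ρ ≤ U → U < nrm (1, 0) → U + G ≤ K * G → 1 ≤ Lc →
    VAN L n g0 g nrm U K Lc → ∀ (v : ℕ) (V : Submodule ℚ (Fin n → ℚ)), Module.finrank ℚ V = v →
    ({z : (ℤ × (Fin n → ℤ)) × (ℤ × (Fin n → ℤ)) | nrm z.1 ≤ ρ ∧ nrm z.2 ≤ ρ ∧
      (fun i => (((z.1 - z.2).2 i : ℤ) : ℚ)) ∈ V}.ncard : ℝ) <
      2 * (4 * ((n : ℝ) + 1) * K * Lc) ^ v * ({a : ℤ × (Fin n → ℤ) | nrm a ≤ ρ}.ncard : ℝ)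

def ST_PMU : Prop := ∀ (n D : ℕ), 1 ≤ D → ∀ (L : Type) [Field L] [NumberField L] (g0 : L)
    (g : Fin n → L) (nrm : ℤ × (Fin n → ℤ) → ℝ) (G Z X U ℓ Θ : ℝ) (K Lc : ℕ), 1 ≤ G →
    LD L n g0 g nrm G Z → G ≤ X → 1 ≤ ℓ →
    10 ^ 9 * ((n : ℝ) + 1) ^ 5 * (D : ℝ) ^ 2 * (1 + ℓ / G) ≤ Θ →
    U = 8 * ((n : ℝ) + 1) * X * Θ ^ n → K = ⌈4096 * ((n : ℝ) + 1) * D * U / G⌉₊ →
    Lc = ⌈4096 * ((n : ℝ) + 1) ^ 2 * D * ℓ / G⌉₊ + 32 * (n + 1) →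
    (∀ ρ, X ≤ ρ → ρ ≤ U → ρ ^ (n + 1) ≤ X * G ^ n *
      ({a : ℤ × (Fin n → ℤ) | nrm a ≤ ρ}.ncard : ℝ)) →
    U < nrm (1, 0) → ¬ VAN L n g0 g nrm U K Lc

/-! ## N. The `P`-adic theorem -/

def ST_PDG3 : Prop := ∀ (L : Type) [Field L] [NumberField L] (P : Ideal (𝓞 L)), P.IsPrime →
    P ≠ ⊥ →
    ∀ (ι β : Type) [Fintype ι] [DecidableEq ι] [Fintype β] [DecidableEq β] (M : Matrix ι ι L)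
    (K T t jj : ℕ) (grp : ι → β) (b0 : ι → ℕ) (W : β → ℕ → Submodule ℚ (ι → ℚ)), (∀ j, b0 j ≤ K) →
    (∀ b s, Module.finrank ℚ (W b s) ≤ s + 1) →
    (∀ n' : β → ℕ, Fintype.card ι ≤ 2 * ∑ b, n' b →
      2 * t + 2 * K * ∑ b, n' b ≤ ∑ b, n' b * (n' b - 1)) →
    2 * (jj * t) ≤ Fintype.card ι * T →
    (∀ j, ∃ (s : ℕ) (c : Fin s → L) (a : Fin s → ℕ) (y : Fin s → ι → ℤ) (ω : L) (err : ι → L),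
      Dv P 0 ω ∧ (∀ k, Dv P (jj * a k) (c k)) ∧
      (∀ k s', b0 j + a k ≤ s' → (fun r => ((y k r : ℤ) : ℚ)) ∈ W (grp j) s') ∧
      (∀ r, Dv P T (err r)) ∧ ∀ r, M r j = ω * ∑ k, c k * ((y k r : ℤ) : L) + err r) →
    Dv P (jj * t) M.det

def ST_PX4 : Prop := ∀ (L : Type) [Field L] [NumberField L] (P : Ideal (𝓞 L)), P.IsPrime → P ≠ ⊥ →
    ∀ (v K T jj : ℕ) (j1 : Fin v) (ι : Type) [Fintype ι] (ζ : ι → Fin v → ℤ) (y : ι → ℤ)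
    (x : ι → L) (u : L), 1 ≤ jj → Dv P jj (u - 1) → 1 ≤ T → (∀ r, Dv P T (x r - u ^ (y r))) →
    ∃ W : Sb v K j1 → ℕ → Submodule ℚ (ι → ℚ), (∀ b s, Module.finrank ℚ (W b s) ≤ s + 1) ∧
      ∀ (k : Sx v K) (b : Sb v K j1), (∀ i, i ≠ j1 → (b.1 i : ℕ) = (k.1 i : ℕ)) → ∀ l : ℕ,
      ∃ (s : ℕ) (c : Fin s → L) (a : Fin s → ℕ) (w : Fin s → ι → ℤ) (ω : L) (err : ι → L),
        Dv P 0 ω ∧ (∀ q, Dv P (jj * a q) (c q)) ∧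
        (∀ q s', (k.1 j1 : ℕ) + a q ≤ s' → (fun r => ((w q r : ℤ) : ℚ)) ∈ W b s') ∧
        (∀ r, Dv P T (err r)) ∧
        ∀ r, ((y r : ℤ) : L) ^ (k.1 j1 : ℕ) *
          (∏ i ∈ Finset.univ.erase j1, ((ζ r i : ℤ) : L) ^ (k.1 i : ℕ)) * x r ^ l =
            ω * ∑ q, c q * ((w q r : ℤ) : L) + err r

def ST_SHP3 : Prop := ∀ (L : Type) [Field L] [NumberField L] (P : Ideal (𝓞 L)), P.IsPrime →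
    P ≠ ⊥ →
    ∀ p : ℕ, p.Prime → (p : 𝓞 L) ∈ P → ∀ (n v jj : ℕ), 1 ≤ v → 1 ≤ jj →
    ∀ V : Submodule ℚ (Fin n → ℚ),
    Module.finrank ℚ V = v → ∀ J : Fin v → Fin n, (∀ x ∈ V, (∀ i, x (J i) = 0) → x = 0) →
    ∀ (ι : Type) (z : ι → Fin n → ℤ), (∀ r, (fun i => ((z r i : ℤ) : ℚ)) ∈ V) →
    ∀ (u : L) (c : Fin n → ℤ), Dv P jj (u - 1) →
    ∃ (j1 : Fin v) (u' : L) (y : ι → ℤ) (α : ℚ) (e : Fin v → ℚ), Dv P jj (u' - 1) ∧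
      (∀ r, u' ^ (y r) = u ^ (∑ i, c i * z r i)) ∧ pint p α ∧ (∀ j, pint p (e j)) ∧
      ∀ r, ((z r (J j1) : ℤ) : ℚ) = α * y r + ∑ j ∈ Finset.univ.erase j1, e j * z r (J j)

def ST_PD3 : Prop := ∀ (L : Type) [Field L] [NumberField L] (P : Ideal (𝓞 L)), P.IsPrime → P ≠ ⊥ →
    ∀ p : ℕ, p.Prime → (p : 𝓞 L) ∈ P → ∀ (n v K Lc T t jj : ℕ), 1 ≤ v → 1 ≤ jj →
    ∀ V : Submodule ℚ (Fin n → ℚ), Module.finrank ℚ V = v →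
    ∀ J : Fin v → Fin n, (∀ x ∈ V, (∀ i, x (J i) = 0) → x = 0) →
    ∀ z : Sx v K × Fin Lc → Fin n → ℤ, (∀ r, (fun i => ((z r i : ℤ) : ℚ)) ∈ V) →
    ∀ g : Fin n → L, (∀ i, Dv P jj (g i - 1)) → ODj P jj T g →
    ∀ w : Sx v K × Fin Lc → L, 1 ≤ T → (∀ r, Dv P T (w r - 1)) → 1 ≤ K → 32 * v ≤ Lc →
    16 * v * t ≤ Fintype.card (Sx v K × Fin Lc) * Lc * K →
    2 * (jj * t) ≤ Fintype.card (Sx v K × Fin Lc) * T →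
    Dv P (jj * t) (Matrix.of (fun r j : Sx v K × Fin Lc =>
      (∏ i, ((z r (J i) : ℤ) : L) ^ (j.1.1 i : ℕ)) *
        ((∏ i, g i ^ (z r i)) * w r) ^ (j.2 : ℕ))).det

def ST_PN3 : Prop := ∀ (n D : ℕ), 1 ≤ D → ∀ (L : Type) [Field L] [NumberField L],
    Module.finrank ℚ L ≤ D → ∀ (P : Ideal (𝓞 L)), P.IsPrime → P ≠ ⊥ → ∀ p : ℕ, p.Prime →
    (p : 𝓞 L) ∈ P → ∀ (jj T : ℕ) (g0 : L) (g : Fin n → L) (nrm : ℤ × (Fin n → ℤ) → ℝ)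
      (G Z U ℓ : ℝ) (K Lc : ℕ), 1 ≤ jj → 1 ≤ G → 1 ≤ Z → G ≤ jj * Real.log p →
      LD L n g0 g nrm G Z → Dv P T (g0 - 1) → (∀ i, Dv P jj (g i - 1)) → ODj P jj T g → 1 ≤ U → 1 ≤ ℓ →
      Real.log (Z * U) ≤ ℓ → 4096 * ((n : ℝ) + 1) * D * U ≤ K * G →
      4096 * ((n : ℝ) + 1) ^ 2 * D * ℓ ≤ Lc * G → 32 * (n + 1) ≤ Lc → K * Lc * jj ≤ T →
      VAN L n g0 g nrm U K Lc

/-- Liouville -/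
def ST_LIP : Prop := ∀ (n D : ℕ) (L : Type) [Field L] [NumberField L], Module.finrank ℚ L ≤ D →
    ∀ (P : Ideal (𝓞 L)), P.IsPrime → P ≠ ⊥ → ∀ p : ℕ, p.Prime → (p : 𝓞 L) ∈ P →
    ∀ (T : ℕ) (g0 : L) (g : Fin n → L) (nrm : ℤ × (Fin n → ℤ) → ℝ) (G Z : ℝ),
      LD L n g0 g nrm G Z → Dv P T (g0 - 1) → (T : ℝ) * Real.log p ≤ 3 * D * nrm (1, 0)

def ST_PM3 : Prop := ∀ (n D : ℕ), 1 ≤ D → ∀ (L : Type) [Field L] [NumberField L],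
    Module.finrank ℚ L ≤ D → ∀ (P : Ideal (𝓞 L)), P.IsPrime → P ≠ ⊥ → ∀ p : ℕ, p.Prime →
    (p : 𝓞 L) ∈ P → ∀ (jj T : ℕ) (g0 : L) (g : Fin n → L) (nrm : ℤ × (Fin n → ℤ) → ℝ)
      (G Z X U ℓ Θ : ℝ), 1 ≤ jj → 1 ≤ G → 1 ≤ Z → G = jj * Real.log p → LD L n g0 g nrm G Z →
      Dv P T (g0 - 1) → (∀ i, Dv P jj (g i - 1)) → ODj P jj T g → G ≤ X → 1 ≤ ℓ →
      10 ^ 9 * ((n : ℝ) + 1) ^ 5 * (D : ℝ) ^ 2 * (1 + ℓ / G) ≤ Θ →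
      U = 8 * ((n : ℝ) + 1) * X * Θ ^ n → Real.log (Z * U) ≤ ℓ →
      (∀ ρ, X ≤ ρ → ρ ≤ U → ρ ^ (n + 1) ≤ X * G ^ n *
        ({a : ℤ × (Fin n → ℤ) | nrm a ≤ ρ}.ncard : ℝ)) →
      (T : ℝ) * Real.log p ≤ X * Θ ^ (n + 1)

def ST_HTP : Prop := ∀ (n D : ℕ), 1 ≤ D → ∀ (L : Type) [Field L] [NumberField L],
    Module.finrank ℚ L ≤ D → ∀ (P : Ideal (𝓞 L)), P.IsPrime → P ≠ ⊥ → ∀ p : ℕ, p.Prime →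
    (p : 𝓞 L) ∈ P → ∀ (jj T : ℕ) (g0 : L) (g : Fin n → L) (nrm : ℤ × (Fin n → ℤ) → ℝ)
      (G : ℝ), 1 ≤ jj → 1 ≤ G → G = jj * Real.log p →
      Dv P T (g0 - 1) → (∀ i, Dv P jj (g i - 1)) →
      (∀ (d : ℕ) (z : Fin d → Fin n → ℤ), ODj P jj T (fun i => ∏ j, g j ^ (z i j))) →
      ∀ d : ℕ, HT L D n g0 g nrm G ((T : ℝ) * Real.log p) d

/-! ## O. The archimedean theorem -/

def ST_ANG : Prop := ∀ (ι β : Type) [Fintype ι] [DecidableEq ι] [DecidableEq β] (I : Finset ι)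
    (grp : ι → β) (T : ℕ) (e : β → ℕ → ι → ℂ),
    (∀ t : ι → ℕ, (∀ b s, (I.filter (fun j => grp j = b ∧ t j = s)).card ≤ 1) →
      T ≤ ∑ j ∈ I, t j) →
    ∀ (c : ι → ℕ → ℂ) (r : ι → ι → ℂ → ℂ), (∀ j p, Differentiable ℂ (r j p)) →
    ∀ (A : Matrix ι ι ℂ), ∃ g : ℂ → ℂ, Differentiable ℂ g ∧ ∀ w : ℂ,
      (Matrix.of (fun p j => if j ∈ I then (∑ s ∈ Finset.range T, w ^ s * (c j s * e (grp j) s p)) +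
        w ^ T * r j p w else A p j)).det = w ^ T * g w

def ST_AN5R : Prop := ∀ (T : ℕ) (f g : ℂ → ℂ), Differentiable ℂ g → (∀ w, f w = w ^ T * g w) →
    ∀ M R : ℝ, 1 ≤ R → (∀ w : ℂ, ‖w‖ = R → ‖f w‖ ≤ M) → ‖f 1‖ * R ^ T ≤ M

/-- for a fixed set `I` of main columns -/
def ST_AD0 : Prop := ∀ (v K Lc t : ℕ) (j1 : Fin v), 1 ≤ K → 32 * v ≤ Lc →
    16 * v * t ≤ Fintype.card (Sx v K × Fin Lc) * Lc * K →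
    ∀ I : Finset (Sx v K × Fin Lc), Fintype.card (Sx v K × Fin Lc) ≤ 2 * I.card →
    ∀ (x : Sx v K × Fin Lc → ℂ) (ζ : Sx v K × Fin Lc → Fin v → ℂ) (c : ℂ)
      (A : Matrix (Sx v K × Fin Lc) (Sx v K × Fin Lc) ℂ) (X1 Z1 Y G B : ℝ), 1 ≤ X1 → 1 ≤ Z1 →
      0 ≤ Y → 0 ≤ G → (∀ r, ‖x r‖ ≤ X1) → (∀ r i, ‖ζ r i‖ ≤ Z1) →
      (∀ r, ‖c * x r‖ * Real.exp G ≤ Y) → X1 ^ K * Z1 ^ K * Real.exp (Lc * Y) ≤ B →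
      (∀ p j, ‖A p j‖ ≤ B) →
      ‖(Matrix.of (fun r j : Sx v K × Fin Lc => if j ∈ I then
        (x r ^ (j.1.1 j1 : ℕ) * ∏ i ∈ Finset.univ.erase j1, ζ r i ^ (j.1.1 i : ℕ)) *
          Complex.exp (((j.2 : ℕ) : ℂ) * (c * x r)) else A r j)).det‖ ≤
      ((Fintype.card (Sx v K × Fin Lc)).factorial : ℝ) * B ^ Fintype.card (Sx v K × Fin Lc) *
        Real.exp (-(G * t))

def ST_AD1 : Prop := ∀ (v K Lc t : ℕ) (j1 : Fin v), 1 ≤ K → 32 * v ≤ Lc →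
    16 * v * t ≤ Fintype.card (Sx v K × Fin Lc) * Lc * K →
    ∀ (x : Sx v K × Fin Lc → ℂ) (ζ : Sx v K × Fin Lc → Fin v → ℂ) (c : ℂ)
      (δ : Sx v K × Fin Lc → Fin Lc → ℂ) (X1 Z1 Y G T' : ℝ), 1 ≤ X1 → 1 ≤ Z1 → 0 ≤ Y → 0 ≤ G →
      (∀ r, ‖x r‖ ≤ X1) → (∀ r i, ‖ζ r i‖ ≤ Z1) → (∀ r, ‖c * x r‖ * Real.exp G ≤ Y) →
      (∀ r l, ‖δ r l‖ ≤ Real.exp (-T')) → 0 ≤ T' →
      2 * G * t ≤ Fintype.card (Sx v K × Fin Lc) * T' →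
      ‖(Matrix.of (fun r j : Sx v K × Fin Lc =>
        (x r ^ (j.1.1 j1 : ℕ) * ∏ i ∈ Finset.univ.erase j1, ζ r i ^ (j.1.1 i : ℕ)) *
          (Complex.exp (((j.2 : ℕ) : ℂ) * (c * x r)) * (1 + δ r j.2)))).det‖ ≤
      2 ^ Fintype.card (Sx v K × Fin Lc) * (((Fintype.card (Sx v K × Fin Lc)).factorial : ℝ) *
        (X1 ^ K * Z1 ^ K * Real.exp (Lc * Y)) ^ Fintype.card (Sx v K × Fin Lc)) *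
        Real.exp (-(G * t))

def ST_CHA : Prop := ∀ (v K : ℕ) (j1 : Fin v) (e : Fin v → ℂ), (∀ j, ‖e j‖ ≤ 1) →
    ∃ β : Sx v K → Sx v K → ℂ, (∀ k k', ‖β k k'‖ ≤ (v : ℝ) ^ K) ∧
    ∀ (ζ : Fin v → ℂ) (y : ℂ), ζ j1 = y + ∑ j ∈ Finset.univ.erase j1, e j * ζ j → ∀ k : Sx v K,
      ∏ i, ζ i ^ (k.1 i : ℕ) =
        ∑ k' : Sx v K, β k k' * (y ^ (k'.1 j1 : ℕ) * ∏ i ∈ Finset.univ.erase j1, ζ i ^ (k'.1 i : ℕ))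

def ST_SHA : Prop := ∀ (n v : ℕ), 1 ≤ v → ∀ V : Submodule ℚ (Fin n → ℚ), Module.finrank ℚ V = v →
    ∀ J : Fin v → Fin n, (∀ x ∈ V, (∀ i, x (J i) = 0) → x = 0) → ∀ c : Fin n → ℝ,
    ∃ (j1 : Fin v) (d : ℝ) (e : Fin v → ℝ), (∀ j, |e j| ≤ 1) ∧ ∀ z : Fin n → ℤ,
      (fun i => ((z i : ℤ) : ℚ)) ∈ V →
      ∑ i, c i * (z i : ℝ) = d * ((z (J j1) : ℝ) - ∑ j ∈ Finset.univ.erase j1, e j * (z (J j) : ℝ))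

def ST_AD3 : Prop := ∀ (n v K Lc t : ℕ), 1 ≤ v → ∀ V : Submodule ℚ (Fin n → ℚ),
    Module.finrank ℚ V = v → ∀ J : Fin v → Fin n, (∀ x ∈ V, (∀ i, x (J i) = 0) → x = 0) →
    1 ≤ K → 32 * v ≤ Lc → 16 * v * t ≤ Fintype.card (Sx v K × Fin Lc) * Lc * K →
    ∀ z : Sx v K × Fin Lc → Fin n → ℤ, (∀ r, (fun i => ((z r i : ℤ) : ℚ)) ∈ V) →
    ∀ (c : Fin n → ℝ) (ω : ℂ) (w : Sx v K × Fin Lc → ℂ) (Z1 Y G T' : ℝ), 1 ≤ Z1 → 0 ≤ Y →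
      0 ≤ G → 0 ≤ T' → (∀ r i, |((z r i : ℤ) : ℝ)| ≤ Z1) →
      (∀ r, ‖((∑ i, c i * (z r i : ℝ) : ℝ) : ℂ) * ω‖ * Real.exp G ≤ Y) →
      (∀ r, ∀ l : Fin Lc, ‖Complex.exp (((l : ℕ) : ℂ) * w r) - 1‖ ≤ Real.exp (-T')) →
      2 * G * t ≤ Fintype.card (Sx v K × Fin Lc) * T' →
      ‖(Matrix.of (fun r j : Sx v K × Fin Lc => (∏ i, ((z r (J i) : ℤ) : ℂ) ^ (j.1.1 i : ℕ)) *
        Complex.exp (((∑ i, c i * (z r i : ℝ) : ℝ) : ℂ) * ω + w r) ^ (j.2 : ℕ))).det‖ ≤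
      2 ^ Fintype.card (Sx v K × Fin Lc) *
        (((Fintype.card (Sx v K × Fin Lc)).factorial : ℝ) ^ 2 *
        ((v : ℝ) ^ (2 * K) * Z1 ^ (2 * K) * Real.exp (Lc * Y)) ^
          Fintype.card (Sx v K × Fin Lc)) * Real.exp (-(G * t))

def ST_PNA : Prop := ∀ (n D : ℕ), 1 ≤ D → ∀ (L : Type) [Field L] [NumberField L],
    Module.finrank ℚ L ≤ D → ∀ (φ : L →+* ℂ) (g0 : L) (g : Fin n → L)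
      (nrm : ℤ × (Fin n → ℤ) → ℝ) (G Z U ℓ Ti : ℝ) (K Lc : ℕ) (c : Fin n → ℝ) (ω lam0 : ℂ),
      1 ≤ G → 1 ≤ Z → LD L n g0 g nrm G Z → Complex.exp lam0 = φ g0 →
      (∀ i, Complex.exp ((c i : ℂ) * ω) = φ (g i)) →
      (∀ a : ℤ × (Fin n → ℤ), ‖((∑ i, c i * (a.2 i : ℝ) : ℝ) : ℂ) * ω‖ * Real.exp G ≤ nrm a) →
      ‖lam0‖ ≤ Real.exp (-Ti) → 1 ≤ U → 1 ≤ ℓ → Real.log (Z * U) ≤ ℓ →
      4096 * ((n : ℝ) + 1) * D * U ≤ K * G → 4096 * ((n : ℝ) + 1) ^ 2 * D * ℓ ≤ Lc * G →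
      32 * (n + 1) ≤ Lc → 2 * K * Lc * G ≤ Ti → VAN L n g0 g nrm U K Lc

/-- Liouville -/
def ST_LIA : Prop := ∀ (n D : ℕ) (L : Type) [Field L] [NumberField L], Module.finrank ℚ L ≤ D →
    ∀ (φ : L →+* ℂ) (g0 : L) (g : Fin n → L) (nrm : ℤ × (Fin n → ℤ) → ℝ) (G Z Ti : ℝ)
      (lam0 : ℂ), LD L n g0 g nrm G Z → Complex.exp lam0 = φ g0 → 0 ≤ Ti →
      ‖lam0‖ ≤ Real.exp (-Ti) → Ti ≤ 3 * D * nrm (1, 0)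

def ST_AM3 : Prop := ∀ (n D : ℕ), 1 ≤ D → ∀ (L : Type) [Field L] [NumberField L],
    Module.finrank ℚ L ≤ D → ∀ (φ : L →+* ℂ) (g0 : L) (g : Fin n → L)
      (nrm : ℤ × (Fin n → ℤ) → ℝ) (G Z X U ℓ Θ Ti : ℝ) (c : Fin n → ℝ) (ω lam0 : ℂ),
      1 ≤ G → 1 ≤ Z → LD L n g0 g nrm G Z → Complex.exp lam0 = φ g0 →
      (∀ i, Complex.exp ((c i : ℂ) * ω) = φ (g i)) →
      (∀ a : ℤ × (Fin n → ℤ), ‖((∑ i, c i * (a.2 i : ℝ) : ℝ) : ℂ) * ω‖ * Real.exp G ≤ nrm a) →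
      0 ≤ Ti → ‖lam0‖ ≤ Real.exp (-Ti) → G ≤ X → 1 ≤ ℓ →
      10 ^ 9 * ((n : ℝ) + 1) ^ 5 * (D : ℝ) ^ 2 * (1 + ℓ / G) ≤ Θ →
      U = 8 * ((n : ℝ) + 1) * X * Θ ^ n → Real.log (Z * U) ≤ ℓ →
      (∀ ρ, X ≤ ρ → ρ ≤ U → ρ ^ (n + 1) ≤ X * G ^ n *
        ({a : ℤ × (Fin n → ℤ) | nrm a ≤ ρ}.ncard : ℝ)) →
      Ti ≤ X * Θ ^ (n + 1)

def ST_HTA : Prop := ∀ (n D : ℕ), 1 ≤ D → ∀ (L : Type) [Field L] [NumberField L],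
    Module.finrank ℚ L ≤ D → ∀ (φ : L →+* ℂ) (g0 : L) (g : Fin n → L)
      (nrm : ℤ × (Fin n → ℤ) → ℝ) (G Ti : ℝ) (c : Fin n → ℝ) (ω lam0 : ℂ),
      1 ≤ G → Complex.exp lam0 = φ g0 → (∀ i, Complex.exp ((c i : ℂ) * ω) = φ (g i)) →
      (∀ a : ℤ × (Fin n → ℤ), ‖((∑ i, c i * (a.2 i : ℝ) : ℝ) : ℂ) * ω‖ * Real.exp G ≤ nrm a) →
      0 ≤ Ti → ‖lam0‖ ≤ Real.exp (-Ti) → ∀ d : ℕ, HT L D n g0 g nrm G Ti d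

/-- the size which includes a real logarithm -/
def ST_ARR : Prop := ∀ (L : Type) [Field L] [NumberField L] (n : ℕ) (φ : L →+* ℂ) (g0 : L)
    (g : Fin n → L) (nrm : ℤ × (Fin n → ℤ) → ℝ) (G Z : ℝ) (c : Fin n → ℝ) (lam0 : ℂ),
    1 ≤ G → 0 ≤ Z → LD L n g0 g nrm G Z → Complex.exp lam0 = φ g0 → ‖lam0‖ ≤ 1 →
    (∀ i, Complex.exp (c i : ℂ) = φ (g i)) →
    LD L n g0 g (fun a => nrm a + Real.exp G * |∑ i, c i * (a.2 i : ℝ)|) G Z ∧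
    ∀ ρ : ℝ, 0 ≤ ρ → ({a : ℤ × (Fin n → ℤ) | nrm a ≤ ρ}.ncard : ℝ) ≤ 20 * Real.exp G *
      ({a : ℤ × (Fin n → ℤ) | nrm a + Real.exp G * |∑ i, c i * (a.2 i : ℝ)| ≤ 4 * ρ}.ncard : ℝ)

/-- the size which includes an argument; the new generator `1` has the logarithm `2 π i` -/
def ST_ARC : Prop := ∀ (L : Type) [Field L] [NumberField L] (n : ℕ) (φ : L →+* ℂ) (g0 : L)
    (g : Fin n → L) (nrm : ℤ × (Fin n → ℤ) → ℝ) (G Z : ℝ) (c : Fin n → ℝ) (lam0 : ℂ),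
    1 ≤ G → 0 ≤ Z → LD L n g0 g nrm G Z → Complex.exp lam0 = φ g0 → ‖lam0‖ ≤ 1 →
    (∀ i, |c i| ≤ 40) → (∀ i, Complex.exp ((c i : ℂ) * Complex.I) = φ (g i)) →
    ∀ (c' : Fin (n + 1) → ℝ) (g' : Fin (n + 1) → L) (nrm' : ℤ × (Fin (n + 1) → ℤ) → ℝ),
    c' 0 = 2 * Real.pi → (∀ i : Fin n, c' i.succ = c i) → g' 0 = 1 →
    (∀ i : Fin n, g' i.succ = g i) →
    (∀ a, nrm' a = nrm (a.1, fun i => a.2 i.succ) +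
      Real.exp G * |∑ i, c' i * (a.2 i : ℝ)|) →
    LD L (n + 1) g0 g' nrm' G (1 + 40 * ((n : ℝ) + 1) * Z) ∧
    (∀ i, Complex.exp ((c' i : ℂ) * Complex.I) = φ (g' i)) ∧
    ∀ ρ : ℝ, 1 ≤ ρ → ρ * ({a : ℤ × (Fin n → ℤ) | nrm a ≤ ρ}.ncard : ℝ) ≤ 20 * Real.exp G *
      ({a : ℤ × (Fin (n + 1) → ℤ) | nrm' a ≤ 4 * ρ}.ncard : ℝ)

/-! ## P. Sublattices of bounded rank -/

def ST_SEL : Prop := ∀ (n : ℕ) (nrm : ℤ × (Fin n → ℤ) → ℝ),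
    (∀ a b, nrm (a + b) ≤ nrm a + nrm b) → (∀ (k : ℤ) a, nrm (k • a) = |(k : ℝ)| * nrm a) →
    (∀ ρ : ℝ, {a : ℤ × (Fin n → ℤ) | nrm a ≤ ρ}.Finite) → 0 < nrm (1, 0) →
    ∀ X0 ρ0 w : ℝ, 0 < X0 → 0 < w →
    (∀ ρ, ρ0 ≤ ρ → ρ ^ (n + 1) ≤ X0 * ({a : ℤ × (Fin n → ℤ) | nrm a ≤ ρ}.ncard : ℝ)) →
    ∀ v0 q : ℕ, 1 ≤ v0 → 1 ≤ q →
    (∃ z : Fin v0 → Fin n → ℤ, LinearIndependent ℤ z ∧ ∀ i, nl nrm (z i) w) ∨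
    (∃ y : Fin n → ℤ, y ≠ 0 ∧ nl nrm y (2 * w / q)) ∨
    (w / 2) ^ n * nrm (1, 0) ≤ 3 * X0 * (q : ℝ) ^ (v0 - 1)

def ST_COU : Prop := ∀ (n : ℕ) (nrm : ℤ × (Fin n → ℤ) → ℝ),
    (∀ a b, nrm (a + b) ≤ nrm a + nrm b) → (∀ (k : ℤ) a, nrm (k • a) = |(k : ℝ)| * nrm a) →
    0 < nrm (1, 0) → ∀ (d : ℕ) (z : Fin d → Fin n → ℤ) (w : ℝ), 1 ≤ d → 0 < w →
    (∀ i, nl nrm (z i) w) → ∀ ρ : ℝ, 0 < ρ → ρ ≤ nrm (1, 0) →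
    {a : ℤ × (Fin d → ℤ) | nrm (a.1, ∑ i, a.2 i • z i) ≤ ρ}.Finite →
    ρ ^ (d + 1) ≤ 5 * nrm (1, 0) * (8 * d * w) ^ d *
      ({a : ℤ × (Fin d → ℤ) | nrm (a.1, ∑ i, a.2 i • z i) ≤ ρ}.ncard : ℝ)

def ST_SLD : Prop := ∀ (L : Type) [Field L] [NumberField L] (n : ℕ) (g0 : L) (g : Fin n → L)
    (nrm : ℤ × (Fin n → ℤ) → ℝ) (G Z : ℝ), LD L n g0 g nrm G Z →
    ∀ (d : ℕ) (z : Fin d → Fin n → ℤ) (w : ℝ), 1 ≤ d → LinearIndependent ℤ z →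
    (∀ i, nl nrm (z i) w) → 1 ≤ Z * w ∧
      LD L d g0 (fun i => ∏ j, g j ^ (z i j)) (fun a => nrm (a.1, ∑ i, a.2 i • z i)) G
        ((d.factorial : ℝ) * (Z * w) ^ (d - 1) * Z)

def ST_BR : Prop := ∀ (L : Type) [Field L] [NumberField L] (D n v0 : ℕ) (g0 : L) (g : Fin n → L)
    (nrm : ℤ × (Fin n → ℤ) → ℝ) (G Z X0 ρ0 Tst H η ℓ Θ : ℝ), 1 ≤ D → 1 ≤ v0 → 1 ≤ G → 1 ≤ Z →
    0 < X0 → LD L n g0 g nrm G Z → (∀ d, 1 ≤ d → d ≤ v0 → HT L D n g0 g nrm G Tst d) →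
    (∀ ρ, ρ0 ≤ ρ → ρ ^ (n + 1) ≤ X0 * ({a : ℤ × (Fin n → ℤ) | nrm a ≤ ρ}.ncard : ℝ)) →
    0 < Tst → 1 ≤ H → nrm (1, 0) ≤ H * Tst → Tst ≤ 4 * D * nrm (1, 0) → 1 ≤ η →
    10 * H ≤ η ^ v0 → 1 ≤ ℓ →
    Real.log ((v0.factorial : ℝ) * (Z * G) ^ v0 * nrm (1, 0)) ≤ ℓ →
    10 ^ 9 * ((v0 : ℝ) + 1) ^ 5 * (D : ℝ) ^ 2 * (1 + ℓ / G) ≤ Θ →
    Tst ≤ G * Θ ^ (v0 + 1) ∨
      nrm (1, 0) ≤ 3 * X0 * (16 * v0 * Θ ^ 2 * η / G) ^ n * (200 * H * Θ ^ 2) ^ v0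

def ST_GRW : Prop := ∀ (n M : ℕ) (nrm : ℤ × (Fin n → ℤ) → ℝ) (Z X0 ρ0 : ℝ),
    (∀ a : ℤ × (Fin n → ℤ), |(a.1 : ℝ)| ≤ nrm a) →
    (∀ (a : ℤ × (Fin n → ℤ)) (i : Fin n), |((a.2 i : ℤ) : ℝ)| ≤ Z * nrm a) →
    (∀ ρ, ρ0 ≤ ρ → ρ ^ M ≤ X0 * ({a : ℤ × (Fin n → ℤ) | nrm a ≤ ρ}.ncard : ℝ)) → M ≤ n + 1

/-! ## Q. Cubic fields -/

def ST_PH3 : Prop := ∀ m : ℕ, ∀ C : ℝ, C = 100000 * (10 * ((m : ℝ) + 1)) ^ m →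
    ∀ (K : Type) [Field K] [NumberField K],
    Module.finrank ℚ K = 3 → ∀ P : Fin m → Ideal (𝓞 K), Function.Injective P →
    (∀ j, (P j).IsPrime ∧ P j ≠ ⊥) → ∀ κ : 𝓞 K, κ ≠ 0 → ∀ (nn : Fin m → ℕ) (𝔞 : Ideal (𝓞 K)),
    Ideal.span {κ} = 𝔞 * ∏ j, P j ^ nn j → ∀ A h ν ρ : ℝ, 1 ≤ h →
    Real.log |(NumberField.discr K : ℝ)| ≤ h → 1 ≤ A → Real.log (Ideal.absNorm 𝔞) ≤ A →
    ((BK.ID K (2 * Real.sqrt |(NumberField.discr K : ℝ)|)).ncard : ℝ) ≤ ν →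
    C * (A + h + ∑ j, Real.log (Ideal.absNorm (P j))) ≤ ρ →
    (TS1 P κ nn A ρ).Finite ∧ ρ ^ (Fintype.card (InfinitePlace K) + m) ≤
      C * ν * A * h ^ (Fintype.card (InfinitePlace K) - 1) *
        (∏ j, Real.log (Ideal.absNorm (P j))) * ((TS1 P κ nn A ρ).ncard : ℝ)

def ST_CN3 : Prop := ∃ c : ℝ, 1 ≤ c ∧ ∀ (m : ℕ) (K : Type) [Field K] [NumberField K],
    Module.finrank ℚ K = 3 → ∀ σ : Fin 3 → (K →+* ℂ), Function.Injective σ →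
    ∀ P : Fin m → Ideal (𝓞 K), Function.Injective P → (∀ j, (P j).IsPrime ∧ P j ≠ ⊥) →
    ∀ κ : 𝓞 K, κ ≠ 0 → ∀ (nn : Fin m → ℕ) (𝔞 : Ideal (𝓞 K)),
    Ideal.span {κ} = 𝔞 * ∏ j, P j ^ nn j →
    ∀ G1 : Subgroup Kˣ, -1 ∈ G1 → (∀ u ∈ G1, ∃ a, SU P a u) → ∀ q0 : ℕ, PIG P G1 q0 →
    ∃ (n : ℕ) (s : Fin n → Kˣ) (α : Fin n → Fin m → ℤ),
      n + 1 ≤ Fintype.card (InfinitePlace K) + m ∧ (∀ i, s i ∈ G1) ∧ (∀ i, SU P (α i) (s i)) ∧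
      CB σ P s α (c * ((m + 5).factorial : ℝ)) ∧ ∀ A h ν : ℝ, 1 ≤ h →
      Real.log |(NumberField.discr K : ℝ)| ≤ h → 1 ≤ A → Real.log (Ideal.absNorm 𝔞) ≤ A →
      ((BK.ID K (2 * Real.sqrt |(NumberField.discr K : ℝ)|)).ncard : ℝ) ≤ ν →
      ∃ ρ0 : ℝ, ∀ ρ, ρ0 ≤ ρ → ρ ^ (Fintype.card (InfinitePlace K) + m) ≤
        c ^ (m + 1) * ((m : ℝ) + 1) ^ m * q0 * ν * A * h ^ 2 *
        (∏ j, Real.log (Ideal.absNorm (P j))) *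
        ({a : ℤ × (Fin n → ℤ) | nrmS σ P κ nn s α A a ≤ ρ}.ncard : ℝ)

def ST_PC3 : Prop := ∀ (m : ℕ) (K : Type) [Field K] [NumberField K],
    Module.finrank ℚ K = 3 → ∀ σ : Fin 3 → (K →+* ℂ), Function.Injective σ →
    ∀ (L : Type) [Field L] [NumberField L] (e : Fin 3 → (K →+* L)), Function.Injective e →
    (∀ (τ : L →+* ℂ) (i : Fin 3), ∃ j : Fin 3, ∀ x : K, τ (e i x) = σ j x) →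
    ∀ P : Fin m → Ideal (𝓞 K), Function.Injective P → (∀ j, (P j).IsPrime ∧ P j ≠ ⊥) →
    (∀ (q : ℚ) (u : Kˣ) (a : Fin m → ℤ), (u : K) = algebraMap ℚ K q → SU P a u → a = 0) →
    ∀ κ : 𝓞 K, κ ≠ 0 → ∀ (nn : Fin m → ℕ) (𝔞 : Ideal (𝓞 K)),
    Ideal.span {κ} = 𝔞 * ∏ j, P j ^ nn j →
    ∀ (n : ℕ) (s : Fin n → Kˣ) (α : Fin n → Fin m → ℤ), (∀ i, SU P (α i) (s i)) →
    ∀ A B S G : ℝ, 1 ≤ A → Real.log (Ideal.absNorm 𝔞) ≤ A → 1 ≤ B → CB σ P s α B → 0 ≤ S →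
    (∀ i, |Real.log ‖σ i (κ : K)‖| ≤ S) → (∀ j, (nn j : ℝ) * Real.log (Ideal.absNorm (P j)) ≤ S) →
    G ≤ 4 * A → (∀ k : ℤ, k ≠ 0 → (e 2 (κ : K) / e 1 (κ : K)) ^ k ≠ 1) →
    LD L n (e 2 (κ : K) / e 1 (κ : K)) (fun i => e 2 ((s i : Kˣ) : K) / e 1 ((s i : Kˣ) : K))
      (nrmS σ P κ nn s α A) G (((m : ℝ) + 4) * B * (1 + S))

def ST_P123 : Prop := ∀ (L : Type) [Field L] [NumberField L] (n : ℕ) (g0 : L) (g : Fin n → L)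
    (nrm : ℤ × (Fin n → ℤ) → ℝ) (G Z : ℝ), LD L n g0 g nrm G Z →
    LD L n (g0 ^ 12) (fun i => g i ^ 12) (fun a => 12 * nrm a) G Z

def ST_KN3 : Prop := ∀ (K : Type) [Field K] [NumberField K] (β : K) (a b c : ℤ) (κ : 𝓞 K) (m : ℕ)
    (p : Fin m → ℕ) (P : Fin m → Ideal (𝓞 K)) (𝔞 : Ideal (𝓞 K)), CD K β a b c κ m p P 𝔞 →
    ∀ (L : Type) [Field L] [NumberField L] (e : Fin 3 → (K →+* L)), Function.Injective e →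
    ∀ _ : Fin m, ∀ k : ℤ, k ≠ 0 → (e 2 (κ : K) / e 1 (κ : K)) ^ k ≠ 1

def ST_TOR3 : Prop := ∀ (K : Type) [Field K] [NumberField K], Module.finrank ℚ K = 3 →
    ∀ σ : Fin 3 → (K →+* ℂ), Function.Injective σ → ∀ κ : 𝓞 K, κ ≠ 0 →
    ‖σ 0 (κ : K)‖ ≠ ‖σ 1 (κ : K)‖ → ∀ k : ℤ, k ≠ 0 → (σ 2 (κ : K) / σ 1 (κ : K)) ^ k ≠ 1

def ST_LF3 : Prop := ∀ (K : Type) [Field K] [NumberField K], Module.finrank ℚ K = 3 →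
    ∀ σ : Fin 3 → (K →+* ℂ), Function.Injective σ →
    ∃ (L : Type) (_ : Field L) (_ : NumberField L) (e : Fin 3 → (K →+* L)) (φ : L →+* ℂ),
      Module.finrank ℚ L ≤ 27 ∧ Function.Injective e ∧
      (∀ (τ : L →+* ℂ) (i : Fin 3), ∃ j : Fin 3, ∀ x : K, τ (e i x) = σ j x) ∧
      ∀ i x, φ (e i x) = σ i x

def ST_IDX : Prop := ∀ (K : Type) [Field K] [NumberField K] (β : K) (a b c : ℤ) (κ : 𝓞 K) (m : ℕ)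
    (p : Fin m → ℕ) (P : Fin m → Ideal (𝓞 K)) (𝔞 : Ideal (𝓞 K)), CD K β a b c κ m p P 𝔞 →
    ∀ (L : Type) [Field L] [NumberField L], Module.finrank ℚ L ≤ 27 →
    ∀ (e : Fin 3 → (K →+* L)), Function.Injective e → ∀ (j0 : Fin m) (Q : Ideal (𝓞 L)),
      CQ K κ p P L e j0 ((dis a b c).natAbs.factorization (p j0)) Q → ∀ jj : ℕ, 1 ≤ jj →
      ∃ (G1 : Subgroup Kˣ) (q0 : ℕ), -1 ∈ G1 ∧ (∀ u ∈ G1, ∃ a, SU P a u) ∧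
        (∀ u ∈ G1, Dv Q jj (e 2 ((u : Kˣ) : K) / e 1 ((u : Kˣ) : K) - 1)) ∧ 1 ≤ q0 ∧
        q0 ≤ p j0 ^ (27 * jj) ∧ PIG P G1 q0 ∧
        (jj = 1 → (q0 : ℝ) ≤ 2 * (if Odd ((dis a b c).natAbs.factorization (p j0)) then 1
          else (p j0 : ℝ)))

def ST_OD3 : Prop := ∀ (K : Type) [Field K] [NumberField K] (β : K) (a b c : ℤ) (κ : 𝓞 K) (m : ℕ)
    (p : Fin m → ℕ) (P : Fin m → Ideal (𝓞 K)) (𝔞 : Ideal (𝓞 K)), CD K β a b c κ m p P 𝔞 →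
    ∀ (L : Type) [Field L] [NumberField L] (e : Fin 3 → (K →+* L)), Function.Injective e →
    ∀ (j0 : Fin m) (Q : Ideal (𝓞 L)),
      CQ K κ p P L e j0 ((dis a b c).natAbs.factorization (p j0)) Q →
    ∀ (n jj : ℕ) (s : Fin n → Kˣ), 1 ≤ jj →
      (∀ i, Dv Q jj (e 2 ((s i : Kˣ) : K) / e 1 ((s i : Kˣ) : K) - 1)) → ∀ T : ℕ,
      ODj Q jj T (fun i => (e 2 ((s i : Kˣ) : K) / e 1 ((s i : Kˣ) : K)) ^ 12)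

/-! ## R. The end -/

def ST_CLA : Prop := ∀ (δ C1 : ℝ), 0 < δ → 1 ≤ C1 → ∃ C2 : ℝ, 1 ≤ C2 ∧ ∀ (m : ℕ) (R : ℝ)
    (p : Fin m → ℕ), 1 ≤ R → Function.Injective p → (∀ j, (p j).Prime) →
    ∑ j, Real.log (p j) ≤ R → (m : ℝ) + 1 ≤ 2 * R ∧ C1 ^ m ≤ C2 * Real.exp (δ * R) ∧
      ∏ j, Real.log (p j) ≤ C2 * Real.exp (δ * R) ∧
      Real.log ((m + 5).factorial : ℝ) ≤ C2 * R ∧ R ^ m ≤ Real.exp (4 * R)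

def ST_TPA : Prop := ∀ (δ C0 : ℝ), 0 < δ → 1 ≤ C0 → ∃ C : ℝ, 1 ≤ C ∧ ∀ (m : ℕ) (K : Type)
    [Field K] [NumberField K] (β : K) (a b c : ℤ) (κ : 𝓞 K) (p : Fin m → ℕ)
    (P : Fin m → Ideal (𝓞 K)) (𝔞 : Ideal (𝓞 K)), CD K β a b c κ m p P 𝔞 →
    ∀ σ : Fin 3 → (K →+* ℂ), Function.Injective σ → ∀ R S ν A : ℝ, 1 ≤ R →
    Real.log |(NumberField.discr K : ℝ)| ≤ C0 * R → ∑ j, Real.log (p j) ≤ R → 1 ≤ A →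
    Real.log (Ideal.absNorm 𝔞 : ℝ) ≤ A → Real.log A ≤ C0 * R → 1 ≤ S → Real.log S ≤ C0 * R →
    (∀ i, |Real.log ‖σ i (κ : K)‖| ≤ S) →
    (∀ j, ((dis a b c).natAbs.factorization (p j) : ℝ) * Real.log (p j) ≤ S) →
    ((BK.ID K (2 * Real.sqrt |(NumberField.discr K : ℝ)|)).ncard : ℝ) ≤ ν → 1 ≤ ν →
    ∀ j0 : Fin m,
      S ≤ C0 * R * (((dis a b c).natAbs.factorization (p j0) : ℝ) * Real.log (p j0)) →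
      ((dis a b c).natAbs.factorization (p j0) : ℝ) * Real.log (p j0) ≤
        C * ν * A * (if Odd ((dis a b c).natAbs.factorization (p j0)) then 1 else (p j0 : ℝ)) *
          Real.exp (δ * R)

def ST_TAR : Prop := ∀ (δ C0 : ℝ), 0 < δ → 1 ≤ C0 → ∃ C : ℝ, 1 ≤ C ∧ ∀ (m : ℕ) (K : Type)
    [Field K] [NumberField K] (β : K) (a b c : ℤ) (κ : 𝓞 K) (p : Fin m → ℕ)
    (P : Fin m → Ideal (𝓞 K)) (𝔞 : Ideal (𝓞 K)), CD K β a b c κ m p P 𝔞 →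
    ∀ σ : Fin 3 → (K →+* ℂ), Function.Injective σ → CFG σ → ∀ R S ν A Ti : ℝ, 1 ≤ R →
    Real.log |(NumberField.discr K : ℝ)| ≤ C0 * R → ∑ j, Real.log (p j) ≤ R → 1 ≤ A →
    Real.log (Ideal.absNorm 𝔞 : ℝ) ≤ A → Real.log A ≤ C0 * R → 1 ≤ S → Real.log S ≤ C0 * R →
    (∀ i, |Real.log ‖σ i (κ : K)‖| ≤ S) →
    (∀ j, ((dis a b c).natAbs.factorization (p j) : ℝ) * Real.log (p j) ≤ S) →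
    ((BK.ID K (2 * Real.sqrt |(NumberField.discr K : ℝ)|)).ncard : ℝ) ≤ ν → 1 ≤ ν →
    ‖σ 0 (κ : K)‖ ≠ ‖σ 1 (κ : K)‖ → 0 ≤ Ti →
    ‖σ 2 (κ : K) / σ 1 (κ : K) - 1‖ ≤ Real.exp (-Ti) → S ≤ C0 * R * Ti →
      Ti ≤ C * ν * A * Real.exp (δ * R)

/-- either the logarithms of the conjugates are bounded by the discriminant, or two roots are
close -/
def ST_HDI : Prop := ∃ C : ℝ, 1 ≤ C ∧ ∀ (K : Type) [Field K] [NumberField K] (β : K)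
    (a b c : ℤ) (κ : 𝓞 K), CF K β a b c κ → ∀ σ : Fin 3 → (K →+* ℂ), Function.Injective σ →
    ∀ S : ℝ, (∀ i, |Real.log ‖σ i (κ : K)‖| ≤ S) → (∃ i, |Real.log ‖σ i (κ : K)‖| = S) →
    S ≤ C * (1 + Real.log |((dis a b c : ℤ) : ℝ)|) ∨
    ∃ σ' : Fin 3 → (K →+* ℂ), Function.Injective σ' ∧ (∀ i, ∃ j, σ' i = σ j) ∧ CFG σ' ∧
      ‖σ' 0 (κ : K)‖ ≠ ‖σ' 1 (κ : K)‖ ∧
      ‖σ' 2 (κ : K) / σ' 1 (κ : K) - 1‖ ≤ Real.exp (-(S / 2))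

def ST_C4L : Prop := ∀ (K : Type) [Field K] [NumberField K] (β : K) (a b c : ℤ) (κ : 𝓞 K),
    CF K β a b c κ → ∀ σ : Fin 3 → (K →+* ℂ), Function.Injective σ → ∀ S : ℝ, 0 ≤ S →
    (∀ i, |Real.log ‖σ i (κ : K)‖| ≤ S) →
    Real.log |((a ^ 2 - 3 * b : ℤ) : ℝ)| ≤ 2 + S

def ST_FI3 : Prop := ∀ ε : ℝ, 0 < ε → ∃ C : ℝ, 1 ≤ C ∧ ∀ W : WeierstrassCurve ℤ, W.Δ ≠ 0 →
    (∀ x : ℚ, 4 * x ^ 3 + W.b₂ * x ^ 2 + 2 * W.b₄ * x + W.b₆ ≠ 0) →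
    ∀ B : ℝ, 1 ≤ B → (∀ p ∈ W.Δ.natAbs.primeFactors, ¬ (p : ℤ) ∣ W.c₄ →
      Even (W.Δ.natAbs.factorization p) → (p : ℝ) ≤ B) → ∀ R : ℝ,
    R = 1 + ∑ p ∈ W.Δ.natAbs.primeFactors,
      (if (p : ℤ) ∣ W.c₄ then (W.Δ.natAbs.factorization p : ℝ) else 1) * Real.log p →
    Real.log |(W.Δ : ℝ)| ≤ C * Real.sqrt (cond W) * B * Real.exp (ε * R) ∧
    Real.log |(W.c₄ : ℝ)| ≤ C * Real.sqrt (cond W) * B * Real.exp (ε * R)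

end Pool.Helper99.SZ
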