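import Mathlib
import Pool.Agent.Helper99.SZ.Stmts3

/-! Definitions, fourth part: quadratic fields (curves with one rational point of order two). -/

set_option autoImplicit false

namespace Pool.Helper99.SZ

open NumberField

/-- the size, quadratic fields -/
noncomputable def nrmQ {K : Type} [Field K] [NumberField K] {m n : ℕ} (σ : Fin 2 → (K →+* ℂ))
    (P : Fin m → Ideal (𝓞 K)) (κ : 𝓞 K) (nn : Fin m → ℕ) (s : Fin n → Kˣ)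
    (α : Fin n → Fin m → ℤ) (A : ℝ) (a : ℤ × (Fin n → ℤ)) : ℝ :=
  4 * ∑ i, |Real.log ‖σ i (gelS κ s a)‖| + 4 * A * |(a.1 : ℝ)| +
    4 * ∑ j, |((a.1 * nn j + ∑ i, a.2 i * α i j : ℤ) : ℝ)| * Real.log (Ideal.absNorm (P j))

/-- the bound for the coordinates, quadratic fields -/
def CBQ {K : Type} [Field K] [NumberField K] {m n : ℕ} (σ : Fin 2 → (K →+* ℂ))
    (P : Fin m → Ideal (𝓞 K)) (s : Fin n → Kˣ) (α : Fin n → Fin m → ℤ) (C : ℝ) : Prop :=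
  ∀ (z : Fin n → ℤ) (i : Fin n), |((z i : ℤ) : ℝ)| ≤
    C * (∑ k, |Real.log ‖σ k (∏ i, ((s i : Kˣ) : K) ^ (z i))‖| +
      ∑ j, |((∑ i, z i * α i j : ℤ) : ℝ)| * Real.log (Ideal.absNorm (P j)))

/-- a quadratic field with conjugation `τ` and the root `β` of `t² + a t + b` -/
structure QF (K : Type) [Field K] [NumberField K] (τ : K →+* K) (β : 𝓞 K) (a b : ℤ) : Prop where
  deg : Module.finrank ℚ K = 2
  inv : ∀ x, τ (τ x) = x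
  fix : ∀ x, τ x = x → ∃ q : ℚ, x = algebraMap ℚ K q
  add : (β : K) + τ (β : K) = -(a : K)
  mul : (β : K) * τ (β : K) = (b : K)
  ne : τ (β : K) ≠ (β : K)
  b0 : b ≠ 0

/-- the two embeddings of a quadratic field -/
structure QS (K : Type) [Field K] [NumberField K] (τ : K →+* K) (σ : Fin 2 → (K →+* ℂ)) :
    Prop where
  inj : Function.Injective σ
  c0 : ∀ x, σ 0 (τ x) = σ 1 x
  c1 : ∀ x, σ 1 (τ x) = σ 0 x
  all : ∀ φ : K →+* ℂ, ∃ i, φ = σ i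
  nrm : ∀ x : 𝓞 K, ∏ i, ‖σ i (x : K)‖ = |(Algebra.norm ℤ x : ℝ)|
  cfg : (∀ i x, (σ i x).im = 0) ∨ ∀ x, σ 1 x = (starRingEnd ℂ) (σ 0 x)

/-- the prime ideals of a quadratic field belonging to the primes `p_j` dividing `b` -/
structure QD (K : Type) [Field K] [NumberField K] (τ : K →+* K) (β : 𝓞 K) (a b : ℤ) (m : ℕ)
    (p : Fin m → ℕ) (P : Fin m → Ideal (𝓞 K)) (𝔞 : Ideal (𝓞 K)) : Prop where
  qf : QF K τ β a b
  pinj : Function.Injective p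
  pp : ∀ j, (p j).Prime
  pd : ∀ j, (p j : ℤ) ∣ b
  pa : ∀ j, ¬ (p j : ℤ) ∣ a
  inj : Function.Injective P
  pr : ∀ j, (P j).IsPrime ∧ P j ≠ ⊥
  pm : ∀ j, ((p j : ℕ) : 𝓞 K) ∈ P j
  km : ∀ j, β ∈ P j
  nm : ∀ j, Ideal.absNorm (P j) = p j
  uni : ∀ j (Q : Ideal (𝓞 K)), Q.IsPrime → ((p j : ℕ) : 𝓞 K) ∈ Q → β ∈ Q → Q = P j
  oth : ∀ j, ∃ Q : Ideal (𝓞 K), Q.IsPrime ∧ ((p j : ℕ) : 𝓞 K) ∈ Q ∧ Q ≠ P j
  fac : Ideal.span {β} = 𝔞 * ∏ j, P j ^ (b.natAbs.factorization (p j))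
  na : Ideal.absNorm 𝔞 * ∏ j, p j ^ (b.natAbs.factorization (p j)) = b.natAbs

/-- a prime ideal `Q` over a prime `q` dividing `a² - 4b` but not `b` (`v` the exponent of `q` in
`a² - 4b`) -/
structure QQ (K : Type) [Field K] [NumberField K] (τ : K →+* K) (β : 𝓞 K) {m : ℕ}
    (P : Fin m → Ideal (𝓞 K)) (q v : ℕ) (Q : Ideal (𝓞 K)) : Prop where
  pr : Q.IsPrime
  bot : Q ≠ ⊥
  pm : ((q : ℕ) : 𝓞 K) ∈ Q
  T : Dv Q ((v + 1) / 2) ((β : K) / τ (β : K) - 1)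
  un : ∀ (u : Kˣ) (x : Fin m → ℤ), SU P x u →
    (Dv Q 0 (u : K) ∧ Dv Q 0 (u : K)⁻¹) ∧ Dv Q 0 (τ (u : K)) ∧ Dv Q 0 (τ (u : K))⁻¹
  ram : Odd v → ∀ x : 𝓞 K, Dv Q 1 ((x : K) - τ (x : K))

end Pool.Helper99.SZ
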