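import Mathlib
import Pool.Agent.Helper99.SZ.Defs4

/-! Statements of the modules, fourth part: quadratic fields, curves with one rational point of
order two. -/

set_option autoImplicit false

namespace Pool.Helper99.SZ

open NumberField

/-! ## T. Quadratic fields -/

def ST_QFX : Prop := ∀ a b : ℤ, b ≠ 0 → (∀ n : ℤ, n ^ 2 ≠ a ^ 2 - 4 * b) →
    ∃ (K : Type) (_ : Field K) (_ : NumberField K) (τ : K →+* K) (β : 𝓞 K), QF K τ β a b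

def ST_QEM : Prop := ∀ (K : Type) [Field K] [NumberField K] (τ : K →+* K) (β : 𝓞 K) (a b : ℤ),
    QF K τ β a b → ∃ σ : Fin 2 → (K →+* ℂ), QS K τ σ

def ST_QDI : Prop := ∀ (K : Type) [Field K] [NumberField K] (τ : K →+* K) (β : 𝓞 K) (a b d : ℤ),
    QF K τ β a b → d = a ^ 2 - 4 * b → |(NumberField.discr K : ℝ)| ≤
      4 * ((∏ q ∈ d.natAbs.primeFactors, q ^ (d.natAbs.factorization q % 2) : ℕ) : ℝ)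

def ST_QID : Prop := ∀ (K : Type) [Field K] [NumberField K],
    Module.finrank ℚ K = 2 → ∀ t : ℝ, 1 ≤ t →
    ((BK.ID K t).ncard : ℝ) ≤ t * (1 + Real.log t) ^ 8

def ST_QUB : Prop := ∃ c : ℝ, 0 < c ∧ ∀ (K : Type) [Field K] [NumberField K],
    Module.finrank ℚ K = 2 →
    ∀ u : (𝓞 K)ˣ, u ^ 12 ≠ 1 → ∃ σ : K →+* ℂ, c ≤ |Real.log ‖σ ((u : 𝓞 K) : K)‖|

/-- a root of unity `β / τ β` -/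
def ST_QRO : Prop := ∀ (K : Type) [Field K] [NumberField K] (τ : K →+* K) (β : 𝓞 K) (a b : ℤ),
    QF K τ β a b → ∀ k : ℤ, k ≠ 0 → ((β : K) / τ (β : K)) ^ k = 1 →
    ∃ t : ℤ, 1 ≤ |t| ∧ |t| ≤ 4 ∧ a ^ 2 - 4 * b = b * t

/-! ## U. Counting -/

def ST_QHa : Prop := ∀ (K : Type) [Field K] [NumberField K], Module.finrank ℚ K = 2 →
    ∀ h : ℝ, 1 ≤ h → Real.log |(NumberField.discr K : ℝ)| ≤ h → ∀ I : Ideal (𝓞 K), I ≠ ⊥ →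
    ∀ t : InfinitePlace K → ℝ,
    ∑ w, (InfinitePlace.mult w : ℝ) * t w = Real.log (Ideal.absNorm I) →
    ∃ c : 𝓞 K, c ≠ 0 ∧ (∀ w : InfinitePlace K, |Real.log (w (c : K)) - t w| ≤ 3 * h) ∧
      ∃ J ∈ BK.ID K (2 * Real.sqrt |(NumberField.discr K : ℝ)|), Ideal.span {c} = I * J

def ST_QPH : Prop := ∀ m : ℕ, ∀ C : ℝ, C = 100000 * (10 * ((m : ℝ) + 1)) ^ m →
    ∀ (K : Type) [Field K] [NumberField K],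
    Module.finrank ℚ K = 2 → ∀ P : Fin m → Ideal (𝓞 K), Function.Injective P →
    (∀ j, (P j).IsPrime ∧ P j ≠ ⊥) → ∀ κ : 𝓞 K, κ ≠ 0 → ∀ (nn : Fin m → ℕ) (𝔞 : Ideal (𝓞 K)),
    Ideal.span {κ} = 𝔞 * ∏ j, P j ^ nn j → ∀ A h ν ρ : ℝ, 1 ≤ h →
    Real.log |(NumberField.discr K : ℝ)| ≤ h → 1 ≤ A → Real.log (Ideal.absNorm 𝔞) ≤ A →
    ((BK.ID K (2 * Real.sqrt |(NumberField.discr K : ℝ)|)).ncard : ℝ) ≤ ν →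
    C * (A + h + ∑ j, Real.log (Ideal.absNorm (P j))) ≤ ρ →
    (TS1 P κ nn A ρ).Finite ∧ ρ ^ (Fintype.card (InfinitePlace K) + m) ≤
      C * ν * A * h ^ (Fintype.card (InfinitePlace K) - 1) *
        (∏ j, Real.log (Ideal.absNorm (P j))) * ((TS1 P κ nn A ρ).ncard : ℝ)

def ST_QSB : Prop := ∃ c : ℝ, 1 ≤ c ∧ ∀ m : ℕ, ∀ C : ℝ, C = c * ((m + 5).factorial : ℝ) →
    ∀ (K : Type) [Field K] [NumberField K],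
    Module.finrank ℚ K = 2 → ∀ σ : Fin 2 → (K →+* ℂ), Function.Injective σ →
    ∀ P : Fin m → Ideal (𝓞 K), Function.Injective P → (∀ j, (P j).IsPrime ∧ P j ≠ ⊥) →
    ∀ G1 : Subgroup Kˣ, (∀ u ∈ G1, ∃ a, SU P a u) →
    ∃ (n : ℕ) (s : Fin n → Kˣ) (α : Fin n → Fin m → ℤ),
      n + 1 ≤ Fintype.card (InfinitePlace K) + m ∧ (∀ i, s i ∈ G1) ∧ (∀ i, SU P (α i) (s i)) ∧
      (∀ u ∈ G1, ∃ (ζ : Kˣ) (z : Fin n → ℤ), ζ ^ 12 = 1 ∧ u = ζ * ∏ i, s i ^ (z i)) ∧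
      CBQ σ P s α C

def ST_QGE : Prop := ∀ (K : Type) [Field K] [NumberField K] (κ : 𝓞 K), κ ≠ 0 →
    ∀ (m n : ℕ) (s : Fin n → Kˣ) (σ : Fin 2 → (K →+* ℂ)) (P : Fin m → Ideal (𝓞 K)),
    (∀ j, P j ≠ ⊥) → ∀ (nn : Fin m → ℕ) (α : Fin n → Fin m → ℤ) (A : ℝ), 0 ≤ A →
      (∀ a, 0 ≤ nrmQ σ P κ nn s α A a) ∧
      (∀ a b, nrmQ σ P κ nn s α A (a + b) ≤ nrmQ σ P κ nn s α A a + nrmQ σ P κ nn s α A b) ∧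
      (∀ (k : ℤ) a, nrmQ σ P κ nn s α A (k • a) = |(k : ℝ)| * nrmQ σ P κ nn s α A a)

def ST_QCN : Prop := ∃ c : ℝ, 1 ≤ c ∧ ∀ (m : ℕ) (K : Type) [Field K] [NumberField K],
    Module.finrank ℚ K = 2 → ∀ σ : Fin 2 → (K →+* ℂ), Function.Injective σ →
    (∀ φ : K →+* ℂ, ∃ i, φ = σ i) →
    ∀ P : Fin m → Ideal (𝓞 K), Function.Injective P → (∀ j, (P j).IsPrime ∧ P j ≠ ⊥) →
    ∀ κ : 𝓞 K, κ ≠ 0 → ∀ (nn : Fin m → ℕ) (𝔞 : Ideal (𝓞 K)),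
    Ideal.span {κ} = 𝔞 * ∏ j, P j ^ nn j →
    ∀ G1 : Subgroup Kˣ, (∀ u ∈ G1, ∃ a, SU P a u) → ∀ q0 : ℕ, PIG P G1 q0 →
    ∃ (n : ℕ) (s : Fin n → Kˣ) (α : Fin n → Fin m → ℤ),
      n + 1 ≤ Fintype.card (InfinitePlace K) + m ∧ (∀ i, s i ∈ G1) ∧ (∀ i, SU P (α i) (s i)) ∧
      CBQ σ P s α (c * ((m + 5).factorial : ℝ)) ∧ ∀ A h ν : ℝ, 1 ≤ h →
      Real.log |(NumberField.discr K : ℝ)| ≤ h → 1 ≤ A → Real.log (Ideal.absNorm 𝔞) ≤ A →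
      ((BK.ID K (2 * Real.sqrt |(NumberField.discr K : ℝ)|)).ncard : ℝ) ≤ ν →
      ∃ ρ0 : ℝ, ∀ ρ, ρ0 ≤ ρ → ρ ^ (Fintype.card (InfinitePlace K) + m) ≤
        c ^ (m + 1) * ((m : ℝ) + 1) ^ m * q0 * ν * A * h ^ 2 *
        (∏ j, Real.log (Ideal.absNorm (P j))) *
        ({a : ℤ × (Fin n → ℤ) | nrmQ σ P κ nn s α A a ≤ ρ}.ncard : ℝ)

def ST_QPC : Prop := ∀ (m : ℕ) (K : Type) [Field K] [NumberField K] (τ : K →+* K) (β : 𝓞 K)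
    (a b : ℤ), QF K τ β a b → ∀ σ : Fin 2 → (K →+* ℂ), QS K τ σ →
    ∀ P : Fin m → Ideal (𝓞 K), Function.Injective P → (∀ j, (P j).IsPrime ∧ P j ≠ ⊥) →
    (∀ (q : ℚ) (u : Kˣ) (x : Fin m → ℤ), (u : K) = algebraMap ℚ K q → SU P x u → x = 0) →
    ∀ (nn : Fin m → ℕ) (𝔞 : Ideal (𝓞 K)), Ideal.span {β} = 𝔞 * ∏ j, P j ^ nn j →
    ∀ (n : ℕ) (s : Fin n → Kˣ) (α : Fin n → Fin m → ℤ), (∀ i, SU P (α i) (s i)) →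
    ∀ A B S G : ℝ, 1 ≤ A → Real.log (Ideal.absNorm 𝔞) ≤ A → 1 ≤ B → CBQ σ P s α B → 0 ≤ S →
    (∀ i, |Real.log ‖σ i (β : K)‖| ≤ S) → (∀ j, (nn j : ℝ) * Real.log (Ideal.absNorm (P j)) ≤ S) →
    G ≤ 4 * A → (∀ k : ℤ, k ≠ 0 → ((β : K) / τ (β : K)) ^ k ≠ 1) →
    LD K n ((β : K) / τ (β : K)) (fun i => ((s i : Kˣ) : K) / τ ((s i : Kˣ) : K))
      (nrmQ σ P β nn s α A) G (((m : ℝ) + 4) * B * (1 + S))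

/-! ## V. The data -/

def ST_QCU : Prop := ∀ (K : Type) [Field K] [NumberField K] (τ : K →+* K) (β : 𝓞 K) (a b : ℤ),
    QF K τ β a b → ∀ (m : ℕ) (p : Fin m → ℕ), Function.Injective p → (∀ j, (p j).Prime) →
    (∀ j, (p j : ℤ) ∣ b) → (∀ j, ¬ (p j : ℤ) ∣ a) →
    ∃ (P : Fin m → Ideal (𝓞 K)) (𝔞 : Ideal (𝓞 K)), QD K τ β a b m p P 𝔞

def ST_QC3 : Prop := ∀ (K : Type) [Field K] [NumberField K] (τ : K →+* K) (β : 𝓞 K) (a b : ℤ)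
    (m : ℕ) (p : Fin m → ℕ) (P : Fin m → Ideal (𝓞 K)) (𝔞 : Ideal (𝓞 K)),
    QD K τ β a b m p P 𝔞 →
    ∀ (q : ℚ) (u : Kˣ) (x : Fin m → ℤ), (u : K) = algebraMap ℚ K q → SU P x u → x = 0

def ST_QQX : Prop := ∀ (K : Type) [Field K] [NumberField K] (τ : K →+* K) (β : 𝓞 K) (a b : ℤ)
    (m : ℕ) (p : Fin m → ℕ) (P : Fin m → Ideal (𝓞 K)) (𝔞 : Ideal (𝓞 K)),
    QD K τ β a b m p P 𝔞 → ∀ q : ℕ, q.Prime → (q : ℤ) ∣ a ^ 2 - 4 * b → ¬ (q : ℤ) ∣ b →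
    ∃ Q : Ideal (𝓞 K), QQ K τ β P q ((a ^ 2 - 4 * b).natAbs.factorization q) Q

def ST_QIX : Prop := ∀ (K : Type) [Field K] [NumberField K] (τ : K →+* K) (β : 𝓞 K) (a b : ℤ)
    (m : ℕ) (p : Fin m → ℕ) (P : Fin m → Ideal (𝓞 K)) (𝔞 : Ideal (𝓞 K)),
    QD K τ β a b m p P 𝔞 → ∀ (q v : ℕ) (Q : Ideal (𝓞 K)), q.Prime → QQ K τ β P q v Q →
    ∀ jj : ℕ, 1 ≤ jj →
      ∃ (G1 : Subgroup Kˣ) (q0 : ℕ), (∀ u ∈ G1, ∃ x, SU P x u) ∧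
        (∀ u ∈ G1, Dv Q jj (((u : Kˣ) : K) / τ ((u : Kˣ) : K) - 1)) ∧ 1 ≤ q0 ∧
        q0 ≤ q ^ (27 * jj) ∧ PIG P G1 q0 ∧
        (jj = 1 → (q0 : ℝ) ≤ 2 * (if Odd v then 1 else (q : ℝ)))

def ST_QOV : Prop := ∀ (K : Type) [Field K] [NumberField K] (τ : K →+* K) (β : 𝓞 K) (a b : ℤ)
    (m : ℕ) (p : Fin m → ℕ) (P : Fin m → Ideal (𝓞 K)) (𝔞 : Ideal (𝓞 K)),
    QD K τ β a b m p P 𝔞 → ∀ (q v : ℕ) (Q : Ideal (𝓞 K)), q.Prime → QQ K τ β P q v Q →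
    ∀ vQ : Kˣ → ℤ, IsVal Q vQ → ∃ E : ℕ, 1 ≤ E ∧ E ≤ 2 ∧
      (∀ x : Kˣ, (x : K) = (q : K) → vQ x = E) ∧
      ∀ (y y' x x' : Kˣ), vQ y = 0 → vQ y' = 0 → (x : K) = (y : K) / τ (y : K) - 1 →
        (x' : K) = (y' : K) / τ (y' : K) - 1 → 1 ≤ vQ x' → vQ x' ≤ vQ x →
        ∃ j c0 : ℕ, vQ x = vQ x' + j * E ∧
          Dv Q ((vQ x).toNat + 1) ((x : K) - (c0 * q ^ j : ℕ) * (x' : K))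

def ST_QOD : Prop := ∀ (K : Type) [Field K] [NumberField K] (τ : K →+* K) (β : 𝓞 K) (a b : ℤ)
    (m : ℕ) (p : Fin m → ℕ) (P : Fin m → Ideal (𝓞 K)) (𝔞 : Ideal (𝓞 K)),
    QD K τ β a b m p P 𝔞 → ∀ (q v : ℕ) (Q : Ideal (𝓞 K)), q.Prime → QQ K τ β P q v Q →
    ∀ (n jj : ℕ) (s : Fin n → Kˣ), (∀ i, ∃ x, SU P x (s i)) → 1 ≤ jj →
      (∀ i, Dv Q jj (((s i : Kˣ) : K) / τ ((s i : Kˣ) : K) - 1)) → ∀ T : ℕ,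
      ODj Q jj T (fun i => (((s i : Kˣ) : K) / τ ((s i : Kˣ) : K)) ^ 12)

/-! ## W. The end -/

def ST_QTP : Prop := ∀ (δ C0 : ℝ), 0 < δ → 1 ≤ C0 → ∃ C : ℝ, 1 ≤ C ∧ ∀ (m : ℕ) (K : Type)
    [Field K] [NumberField K] (τ : K →+* K) (β : 𝓞 K) (a b : ℤ) (p : Fin m → ℕ)
    (P : Fin m → Ideal (𝓞 K)) (𝔞 : Ideal (𝓞 K)), QD K τ β a b m p P 𝔞 →
    (∀ k : ℤ, k ≠ 0 → ((β : K) / τ (β : K)) ^ k ≠ 1) →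
    ∀ σ : Fin 2 → (K →+* ℂ), QS K τ σ → ∀ R S ν A : ℝ, 1 ≤ R →
    Real.log |(NumberField.discr K : ℝ)| ≤ C0 * R → ∑ j, Real.log (p j) ≤ R → 1 ≤ A →
    Real.log (Ideal.absNorm 𝔞 : ℝ) ≤ A → Real.log A ≤ C0 * R → 1 ≤ S → Real.log S ≤ C0 * R →
    (∀ i, |Real.log ‖σ i (β : K)‖| ≤ S) →
    (∀ j, (b.natAbs.factorization (p j) : ℝ) * Real.log (p j) ≤ S) →
    ((BK.ID K (2 * Real.sqrt |(NumberField.discr K : ℝ)|)).ncard : ℝ) ≤ ν → 1 ≤ ν →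
    ∀ q : ℕ, q.Prime → (q : ℤ) ∣ a ^ 2 - 4 * b → ¬ (q : ℤ) ∣ b → Real.log q ≤ R →
      S ≤ C0 * R * (((a ^ 2 - 4 * b).natAbs.factorization q : ℝ) * Real.log q) →
      ((a ^ 2 - 4 * b).natAbs.factorization q : ℝ) * Real.log q ≤
        C * ν * A * (if Odd ((a ^ 2 - 4 * b).natAbs.factorization q) then 1 else (q : ℝ)) *
          Real.exp (δ * R)

def ST_QTA : Prop := ∀ (δ C0 : ℝ), 0 < δ → 1 ≤ C0 → ∃ C : ℝ, 1 ≤ C ∧ ∀ (m : ℕ) (K : Type)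
    [Field K] [NumberField K] (τ : K →+* K) (β : 𝓞 K) (a b : ℤ) (p : Fin m → ℕ)
    (P : Fin m → Ideal (𝓞 K)) (𝔞 : Ideal (𝓞 K)), QD K τ β a b m p P 𝔞 →
    (∀ k : ℤ, k ≠ 0 → ((β : K) / τ (β : K)) ^ k ≠ 1) →
    ∀ σ : Fin 2 → (K →+* ℂ), QS K τ σ → ∀ R S ν A Ti : ℝ, 1 ≤ R →
    Real.log |(NumberField.discr K : ℝ)| ≤ C0 * R → ∑ j, Real.log (p j) ≤ R → 1 ≤ A →
    Real.log (Ideal.absNorm 𝔞 : ℝ) ≤ A → Real.log A ≤ C0 * R → 1 ≤ S → Real.log S ≤ C0 * R →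
    (∀ i, |Real.log ‖σ i (β : K)‖| ≤ S) →
    (∀ j, (b.natAbs.factorization (p j) : ℝ) * Real.log (p j) ≤ S) →
    ((BK.ID K (2 * Real.sqrt |(NumberField.discr K : ℝ)|)).ncard : ℝ) ≤ ν → 1 ≤ ν →
    0 ≤ Ti → ‖σ 0 (β : K) / σ 1 (β : K) - 1‖ ≤ Real.exp (-Ti) → S ≤ C0 * R * Ti →
      Ti ≤ C * ν * A * Real.exp (δ * R)

def ST_QMN : Prop := ∀ δ : ℝ, 0 < δ → ∃ C : ℝ, 1 ≤ C ∧ ∀ a b d : ℤ, d = a ^ 2 - 4 * b → b ≠ 0 →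
    (∀ n : ℤ, n ^ 2 ≠ d) → ∀ R B : ℝ, 1 ≤ B →
    (∀ q ∈ d.natAbs.primeFactors, ¬ (q : ℤ) ∣ b → Even (d.natAbs.factorization q) →
      (q : ℝ) ≤ B) →
    1 + ∑ p ∈ (b * d).natAbs.primeFactors, (if (p : ℤ) ∣ b ∧ (p : ℤ) ∣ d then
      ((b.natAbs.factorization p : ℝ) + (d.natAbs.factorization p : ℝ)) else 1) *
        Real.log p ≤ R →
    Real.log (|(a : ℝ)| + |(b : ℝ)| + |(d : ℝ)|) ≤ C * Real.sqrt ((∏ q ∈ d.natAbs.primeFactors,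
      q ^ (d.natAbs.factorization q % 2) : ℕ) : ℝ) * B * Real.exp (δ * R)

/-! ## X. The split case: rational roots -/

/-- the lattice -/
def ST_RLT : Prop := ∃ c : ℝ, 1 ≤ c ∧ ∀ (m : ℕ) (p : Fin m → ℕ), Function.Injective p →
    (∀ j, (p j).Prime) → ∀ (e : Fin m → ℤ) (x0 y0 : ℤ), x0 ≠ 0 → y0 ≠ 0 → ∀ g0 : ℚ,
    g0 = (x0 : ℚ) / (y0 : ℚ) * ∏ j, (p j : ℚ) ^ (e j) → (∀ k : ℤ, k ≠ 0 → g0 ^ k ≠ 1) →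
    ∀ A S G : ℝ, 1 ≤ A → Real.log |(x0 : ℝ)| ≤ A → Real.log |(y0 : ℝ)| ≤ A → 0 ≤ S →
    (∀ j, |((e j : ℤ) : ℝ)| * Real.log (p j) ≤ S) → G ≤ 4 * A →
    ∀ (Λ : AddSubgroup (Fin m → ℤ)) (q0 : ℕ), Λ.index ≠ 0 → Λ.index ≤ q0 →
    ∃ (s : Fin m → Fin m → ℤ) (nrm : ℤ × (Fin m → ℤ) → ℝ) (X0 ρ0 : ℝ), (∀ i, s i ∈ Λ) ∧
      LD ℚ m (g0 ^ 12) (fun i => (∏ j, (p j : ℚ) ^ (s i j)) ^ 12) nrm G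
        (((m : ℝ) + 4) * (c * ((m + 5).factorial : ℝ)) * (1 + S)) ∧ 0 < X0 ∧
      X0 = (12 ^ 3 * c) ^ (m + 1) * ((m : ℝ) + 1) ^ m * q0 * A * ∏ j, Real.log (p j) ∧
      (∀ ρ, ρ0 ≤ ρ → ρ ^ (m + 1) ≤ X0 * ({x : ℤ × (Fin m → ℤ) | nrm x ≤ ρ}.ncard : ℝ)) ∧
      nrm (1, 0) ≤ 12 * ((12 + 4 * m) * S + 4 * A)

/-- one-dimensionality over the rational numbers; residue classes -/
def ST_ROD : Prop := ∀ q : ℕ, q.Prime → ∃ Q : Ideal (𝓞 ℚ), Q.IsPrime ∧ Q ≠ ⊥ ∧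
    ((q : ℕ) : 𝓞 ℚ) ∈ Q ∧
    (∀ (T : ℕ) (x : ℚ), 1 ≤ T → ((q : ℤ) ^ T) ∣ (x - 1).num → Dv Q T (x - 1)) ∧
    (∀ (n jj : ℕ) (s : Fin n → ℚ), 1 ≤ jj → (∀ i, Dv Q jj (s i - 1)) → ∀ T : ℕ,
      ODj Q jj T (fun i => s i ^ 12)) ∧
    ∀ (m : ℕ) (p : Fin m → ℕ), (∀ j, (p j).Prime) → (∀ j, p j ≠ q) → ∀ jj : ℕ, 1 ≤ jj →
      ∃ Λ : AddSubgroup (Fin m → ℤ), Λ.index ≠ 0 ∧ Λ.index ≤ q ^ jj ∧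
        ∀ x ∈ Λ, Dv Q jj (∏ j, (p j : ℚ) ^ (x j) - 1)

def ST_RTP : Prop := ∀ (δ C0 : ℝ), 0 < δ → 1 ≤ C0 → ∃ C : ℝ, 1 ≤ C ∧ ∀ (m : ℕ)
    (p : Fin m → ℕ), Function.Injective p → (∀ j, (p j).Prime) → ∀ (e : Fin m → ℤ) (x0 y0 : ℤ),
    x0 ≠ 0 → y0 ≠ 0 → ∀ g0 : ℚ, g0 = (x0 : ℚ) / (y0 : ℚ) * ∏ j, (p j : ℚ) ^ (e j) →
    (∀ k : ℤ, k ≠ 0 → g0 ^ k ≠ 1) → ∀ R S A : ℝ, 1 ≤ R → ∑ j, Real.log (p j) ≤ R → 1 ≤ A →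
    Real.log |(x0 : ℝ)| ≤ A → Real.log |(y0 : ℝ)| ≤ A → Real.log A ≤ C0 * R → 1 ≤ S →
    Real.log S ≤ C0 * R → (∀ j, |((e j : ℤ) : ℝ)| * Real.log (p j) ≤ S) → ∀ q T : ℕ, q.Prime →
    (∀ j, p j ≠ q) → 1 ≤ T → ((q : ℤ) ^ T) ∣ (g0 - 1).num → Real.log q ≤ R →
    S ≤ C0 * R * (T * Real.log q) → (T : ℝ) * Real.log q ≤ C * A * q * Real.exp (δ * R)

def ST_RTA : Prop := ∀ (δ C0 : ℝ), 0 < δ → 1 ≤ C0 → ∃ C : ℝ, 1 ≤ C ∧ ∀ (m : ℕ)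
    (p : Fin m → ℕ), Function.Injective p → (∀ j, (p j).Prime) → ∀ (e : Fin m → ℤ) (x0 y0 : ℤ),
    x0 ≠ 0 → y0 ≠ 0 → ∀ g0 : ℚ, g0 = (x0 : ℚ) / (y0 : ℚ) * ∏ j, (p j : ℚ) ^ (e j) →
    (∀ k : ℤ, k ≠ 0 → g0 ^ k ≠ 1) → ∀ R S A Ti : ℝ, 1 ≤ R → ∑ j, Real.log (p j) ≤ R → 1 ≤ A →
    Real.log |(x0 : ℝ)| ≤ A → Real.log |(y0 : ℝ)| ≤ A → Real.log A ≤ C0 * R → 1 ≤ S →
    Real.log S ≤ C0 * R → (∀ j, |((e j : ℤ) : ℝ)| * Real.log (p j) ≤ S) → 0 ≤ Ti →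
    |(g0 : ℝ) - 1| ≤ Real.exp (-Ti) → S ≤ C0 * R * Ti → Ti ≤ C * A * Real.exp (δ * R)

def ST_RMN : Prop := ∀ δ : ℝ, 0 < δ → ∃ C : ℝ, 1 ≤ C ∧ ∀ a b d f : ℤ, d = a ^ 2 - 4 * b →
    b ≠ 0 → d = f ^ 2 → f ≠ 0 → ∀ R B : ℝ, 1 ≤ B →
    (∀ q ∈ d.natAbs.primeFactors, ¬ (q : ℤ) ∣ b → (q : ℝ) ≤ B) →
    1 + ∑ p ∈ (b * d).natAbs.primeFactors, (if (p : ℤ) ∣ b ∧ (p : ℤ) ∣ d then
      ((b.natAbs.factorization p : ℝ) + (d.natAbs.factorization p : ℝ)) else 1) *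
        Real.log p ≤ R →
    Real.log (|(a : ℝ)| + |(b : ℝ)| + |(d : ℝ)|) ≤ C * B * Real.exp (δ * R)

/-! ## Y. The theorem -/

def ST_QFI : Prop := ∀ ε : ℝ, 0 < ε → ∃ C : ℝ, 1 ≤ C ∧ ∀ W : WeierstrassCurve ℤ, W.Δ ≠ 0 →
    (∃ x : ℚ, 4 * x ^ 3 + W.b₂ * x ^ 2 + 2 * W.b₄ * x + W.b₆ = 0) →
    ∀ R : ℝ, R = 1 + ∑ p ∈ W.Δ.natAbs.primeFactors,
      (if (p : ℤ) ∣ W.c₄ then (W.Δ.natAbs.factorization p : ℝ) else 1) * Real.log p →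
    Real.log |(W.Δ : ℝ)| ≤ C * Real.sqrt ((∏ p ∈ W.Δ.natAbs.primeFactors,
      (if (p : ℤ) ∣ W.c₄ then p ^ 2 else p) : ℕ) : ℝ) * Real.exp (ε * R) ∧
    Real.log |(W.c₄ : ℝ)| ≤ C * Real.sqrt ((∏ p ∈ W.Δ.natAbs.primeFactors,
      (if (p : ℤ) ∣ W.c₄ then p ^ 2 else p) : ℕ) : ℝ) * Real.exp (ε * R)

end Pool.Helper99.SZ
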