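import Mathlib
import Pool.Agent.Helper99.SZ.Stmts3
import Pool.Agent.Helper60.BK.ARI

/-! Statements of the modules, fifth part: a bound for integral points on Mordell curves which is
linear in `log |d|`. -/

set_option autoImplicit false

namespace Pool.Helper99.SZ

open NumberField

/-- as `ST_AD3`, for the scaled variables `z / Z1` -/
def ST_HAD : Prop := ∀ (n v K Lc t : ℕ), 1 ≤ v → ∀ V : Submodule ℚ (Fin n → ℚ),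
    Module.finrank ℚ V = v → ∀ J : Fin v → Fin n, (∀ x ∈ V, (∀ i, x (J i) = 0) → x = 0) →
    1 ≤ K → 32 * v ≤ Lc → 16 * v * t ≤ Fintype.card (Sx v K × Fin Lc) * Lc * K →
    ∀ z : Sx v K × Fin Lc → Fin n → ℤ, (∀ r, (fun i => ((z r i : ℤ) : ℚ)) ∈ V) →
    ∀ (c : Fin n → ℝ) (ω : ℂ) (w : Sx v K × Fin Lc → ℂ) (Z1 Y G T' : ℝ), 1 ≤ Z1 → 0 ≤ Y →
      0 ≤ G → 0 ≤ T' → (∀ r i, |((z r i : ℤ) : ℝ)| ≤ Z1) →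
      (∀ r, ‖((∑ i, c i * (z r i : ℝ) : ℝ) : ℂ) * ω‖ * Real.exp G ≤ Y) →
      (∀ r, ∀ l : Fin Lc, ‖Complex.exp (((l : ℕ) : ℂ) * w r) - 1‖ ≤ Real.exp (-T')) →
      2 * G * t ≤ Fintype.card (Sx v K × Fin Lc) * T' →
      ‖(Matrix.of (fun r j : Sx v K × Fin Lc =>
        (∏ i, (((z r (J i) : ℤ) : ℂ) / (Z1 : ℂ)) ^ (j.1.1 i : ℕ)) *
        Complex.exp (((∑ i, c i * (z r i : ℝ) : ℝ) : ℂ) * ω + w r) ^ (j.2 : ℕ))).det‖ ≤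
      2 ^ Fintype.card (Sx v K × Fin Lc) *
        (((Fintype.card (Sx v K × Fin Lc)).factorial : ℝ) ^ 2 *
        ((v : ℝ) ^ (2 * K) * Real.exp (Lc * Y)) ^
          Fintype.card (Sx v K × Fin Lc)) * Real.exp (-(G * t))

/-- products of binomial polynomials and monomials -/
def ST_HTR : Prop := ∀ (v K : ℕ), 1 ≤ K → ∃ τ : Sx v K → Sx v K → ℤ,
    (∀ k k', τ k k' ≠ 0 → ∀ i, (k'.1 i : ℕ) ≤ (k.1 i : ℕ)) ∧ (∀ k, τ k k = 1) ∧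
    (∀ (z : Fin v → ℤ) (k : Sx v K), (∏ i, ((k.1 i : ℕ).factorial : ℤ)) *
      ∏ i, Ring.choose (z i) (k.1 i : ℕ) = ∑ k' : Sx v K, τ k k' * ∏ i, z i ^ (k'.1 i : ℕ)) ∧
    (∀ (s : ℝ) (k k' : Sx v K), 1 ≤ s → |((τ k k' : ℤ) : ℝ)| * s ^ (∑ i, (k'.1 i : ℕ)) /
      (∏ i, ((k.1 i : ℕ).factorial : ℝ)) ≤ (1 + s / K) ^ K * Real.exp (v * K)) ∧
    ∀ (s : ℝ) (z : Fin v → ℤ) (k : Sx v K), 1 ≤ s → (∀ i, |((z i : ℤ) : ℝ)| ≤ s) →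
      |((∏ i, Ring.choose (z i) (k.1 i : ℕ) : ℤ) : ℝ)| ≤ (1 + s / K) ^ K * Real.exp (v * K)

/-- as `ST_PNA`, with binomial polynomials: only `log (1 + Z G) ≤ ℓ` is needed -/
def ST_HPN : Prop := ∀ (n D : ℕ), 1 ≤ D → ∀ (L : Type) [Field L] [NumberField L],
    Module.finrank ℚ L ≤ D → ∀ (φ : L →+* ℂ) (g0 : L) (g : Fin n → L)
      (nrm : ℤ × (Fin n → ℤ) → ℝ) (G Z U ℓ Ti : ℝ) (K Lc : ℕ) (c : Fin n → ℝ) (ω lam0 : ℂ),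
      1 ≤ G → 1 ≤ Z → LD L n g0 g nrm G Z → Complex.exp lam0 = φ g0 →
      (∀ i, Complex.exp ((c i : ℂ) * ω) = φ (g i)) →
      (∀ a : ℤ × (Fin n → ℤ), ‖((∑ i, c i * (a.2 i : ℝ) : ℝ) : ℂ) * ω‖ * Real.exp G ≤ nrm a) →
      ‖lam0‖ ≤ Real.exp (-Ti) → 1 ≤ U → 1 ≤ ℓ → Real.log (1 + Z * G) ≤ ℓ →
      4096 * ((n : ℝ) + 1) * D * U ≤ K * G → 4096 * ((n : ℝ) + 1) ^ 2 * D * ℓ ≤ Lc * G →
      32 * (n + 1) ≤ Lc → 2 * K * Lc * G ≤ Ti → VAN L n g0 g nrm U K Lc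

/-- as `ST_AM3`: only `log (1 + Z G) ≤ ℓ` is needed -/
def ST_HAM : Prop := ∀ (n D : ℕ), 1 ≤ D → ∀ (L : Type) [Field L] [NumberField L],
    Module.finrank ℚ L ≤ D → ∀ (φ : L →+* ℂ) (g0 : L) (g : Fin n → L)
      (nrm : ℤ × (Fin n → ℤ) → ℝ) (G Z X U ℓ Θ Ti : ℝ) (c : Fin n → ℝ) (ω lam0 : ℂ),
      1 ≤ G → 1 ≤ Z → LD L n g0 g nrm G Z → Complex.exp lam0 = φ g0 →
      (∀ i, Complex.exp ((c i : ℂ) * ω) = φ (g i)) →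
      (∀ a : ℤ × (Fin n → ℤ), ‖((∑ i, c i * (a.2 i : ℝ) : ℝ) : ℂ) * ω‖ * Real.exp G ≤ nrm a) →
      0 ≤ Ti → ‖lam0‖ ≤ Real.exp (-Ti) → G ≤ X → 1 ≤ ℓ →
      10 ^ 9 * ((n : ℝ) + 1) ^ 5 * (D : ℝ) ^ 2 * (1 + ℓ / G) ≤ Θ →
      U = 8 * ((n : ℝ) + 1) * X * Θ ^ n → Real.log (1 + Z * G) ≤ ℓ →
      (∀ ρ, X ≤ ρ → ρ ≤ U → ρ ^ (n + 1) ≤ X * G ^ n *
        ({a : ℤ × (Fin n → ℤ) | nrm a ≤ ρ}.ncard : ℝ)) →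
      Ti ≤ X * Θ ^ (n + 1)

/-- two close conjugates in a cubic field -/
def ST_HAR : Prop := ∃ C : ℝ, 1 ≤ C ∧ ∀ (K : Type) [Field K] [NumberField K],
    Module.finrank ℚ K = 3 → ∀ σ : Fin 3 → (K →+* ℂ), Function.Injective σ → CFG σ →
    ∀ κ : 𝓞 K, κ ≠ 0 → ∀ h ν A S Ti : ℝ, 1 ≤ h → Real.log |(NumberField.discr K : ℝ)| ≤ h →
    1 ≤ A → Real.log (Ideal.absNorm (Ideal.span {κ}) : ℝ) ≤ A →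
    (∀ i, |Real.log ‖σ i (κ : K)‖| ≤ S) →
    ((BK.ID K (2 * Real.sqrt |(NumberField.discr K : ℝ)|)).ncard : ℝ) ≤ ν → 1 ≤ ν →
    ‖σ 0 (κ : K)‖ ≠ ‖σ 1 (κ : K)‖ → 0 ≤ Ti →
    ‖σ 2 (κ : K) / σ 1 (κ : K) - 1‖ ≤ Real.exp (-Ti) →
      Ti ≤ C * ν * h ^ 2 * A * (1 + Real.log (1 + S / A)) ^ 3

/-- a calculation -/
def ST_HCL : Prop := ∀ C : ℝ, 1 ≤ C → ∃ C' : ℝ, 1 ≤ C' ∧ ∀ V r : ℝ, 1 ≤ V → 0 ≤ r →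
    r ≤ C * V * (1 + Real.log (1 + r)) ^ 3 → r ≤ C' * V * (1 + Real.log V) ^ 3

/-- the bound for the integral points, `p² ∣ N` for `p ∣ x` as in `BK.NN` -/
def ST_HFI : Prop := ∃ C : ℝ, ∀ d x y : ℤ, d ≠ 0 → y ^ 2 = x ^ 3 + d →
    Real.log |(x : ℝ)| ≤ C * Real.sqrt (BK.NN x d) * (1 + Real.log (BK.NN x d)) ^ 13 *
      (1 + Real.log |(d : ℝ)|)

end Pool.Helper99.SZ
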