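import Mathlib
import Pool.Agent.Helper99.SZ.Stmts4

/-! Statements of the modules, sixth part: only the primes `p` for which `v_p(Δ)` is even and at
least `√M` matter. -/

set_option autoImplicit false

namespace Pool.Helper99.SZ

open NumberField

/-- as `ST_FI3`, the condition only for the `p` with `√cond ≤ v_p(Δ)` -/
def ST_FIY : Prop := ∀ ε : ℝ, 0 < ε → ∃ C : ℝ, 1 ≤ C ∧ ∀ W : WeierstrassCurve ℤ, W.Δ ≠ 0 →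
    (∀ x : ℚ, 4 * x ^ 3 + W.b₂ * x ^ 2 + 2 * W.b₄ * x + W.b₆ ≠ 0) →
    ∀ B : ℝ, 1 ≤ B → (∀ p ∈ W.Δ.natAbs.primeFactors, ¬ (p : ℤ) ∣ W.c₄ →
      Even (W.Δ.natAbs.factorization p) →
      Real.sqrt (cond W) ≤ (W.Δ.natAbs.factorization p : ℝ) → (p : ℝ) ≤ B) → ∀ R : ℝ,
    R = 1 + ∑ p ∈ W.Δ.natAbs.primeFactors,
      (if (p : ℤ) ∣ W.c₄ then (W.Δ.natAbs.factorization p : ℝ) else 1) * Real.log p →
    Real.log |(W.Δ : ℝ)| ≤ C * Real.sqrt (cond W) * B * Real.exp (ε * R) ∧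
    Real.log |(W.c₄ : ℝ)| ≤ C * Real.sqrt (cond W) * B * Real.exp (ε * R)

/-- as `ST_QMN`, the condition only for the `q` with `Y ≤ v_q(d)` -/
def ST_QMY : Prop := ∀ δ : ℝ, 0 < δ → ∃ C : ℝ, 1 ≤ C ∧ ∀ a b d : ℤ, d = a ^ 2 - 4 * b → b ≠ 0 →
    (∀ n : ℤ, n ^ 2 ≠ d) → ∀ R B Y : ℝ, 1 ≤ B → 0 ≤ Y →
    (∀ q ∈ d.natAbs.primeFactors, ¬ (q : ℤ) ∣ b → Even (d.natAbs.factorization q) →
      Y ≤ (d.natAbs.factorization q : ℝ) → (q : ℝ) ≤ B) →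
    1 + ∑ p ∈ (b * d).natAbs.primeFactors, (if (p : ℤ) ∣ b ∧ (p : ℤ) ∣ d then
      ((b.natAbs.factorization p : ℝ) + (d.natAbs.factorization p : ℝ)) else 1) *
        Real.log p ≤ R →
    Real.log (|(a : ℝ)| + |(b : ℝ)| + |(d : ℝ)|) ≤ C * (Real.sqrt ((∏ q ∈ d.natAbs.primeFactors,
      q ^ (d.natAbs.factorization q % 2) : ℕ) : ℝ) * B + Y) * Real.exp (δ * R)

/-- as `ST_RMN`, the condition only for the `q` with `Y ≤ v_q(d)` -/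
def ST_RMY : Prop := ∀ δ : ℝ, 0 < δ → ∃ C : ℝ, 1 ≤ C ∧ ∀ a b d f : ℤ, d = a ^ 2 - 4 * b →
    b ≠ 0 → d = f ^ 2 → f ≠ 0 → ∀ R B Y : ℝ, 1 ≤ B → 0 ≤ Y →
    (∀ q ∈ d.natAbs.primeFactors, ¬ (q : ℤ) ∣ b → Y ≤ (d.natAbs.factorization q : ℝ) →
      (q : ℝ) ≤ B) →
    1 + ∑ p ∈ (b * d).natAbs.primeFactors, (if (p : ℤ) ∣ b ∧ (p : ℤ) ∣ d then
      ((b.natAbs.factorization p : ℝ) + (d.natAbs.factorization p : ℝ)) else 1) *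
        Real.log p ≤ R →
    Real.log (|(a : ℝ)| + |(b : ℝ)| + |(d : ℝ)|) ≤ C * (B + Y) * Real.exp (δ * R)

/-- all elliptic curves -/
def ST_AFY : Prop := ∀ ε : ℝ, 0 < ε → ∃ C : ℝ, 1 ≤ C ∧ ∀ W : WeierstrassCurve ℤ, W.Δ ≠ 0 →
    ∀ B : ℝ, 1 ≤ B → (∀ p ∈ W.Δ.natAbs.primeFactors, ¬ (p : ℤ) ∣ W.c₄ →
      Even (W.Δ.natAbs.factorization p) →
      Real.sqrt (cond W) ≤ (W.Δ.natAbs.factorization p : ℝ) → (p : ℝ) ≤ B) → ∀ R : ℝ,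
    R = 1 + ∑ p ∈ W.Δ.natAbs.primeFactors,
      (if (p : ℤ) ∣ W.c₄ then (W.Δ.natAbs.factorization p : ℝ) else 1) * Real.log p →
    Real.log |(W.Δ : ℝ)| ≤ C * Real.sqrt (cond W) * B * Real.exp (ε * R) ∧
    Real.log |(W.c₄ : ℝ)| ≤ C * Real.sqrt (cond W) * B * Real.exp (ε * R)

end Pool.Helper99.SZ
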