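import Pool.Agent.Helper99.SZ.Stmts3

/-!
# Numerical estimates
-/

set_option autoImplicit false

namespace Pool.Helper99.SZ

open NumberField

/-- powers of `R` -/
theorem n3_pow (k : ℕ) (δ R : ℝ) (hδ : 0 < δ) (hR : 0 ≤ R) :
    R ^ k ≤ ((k.factorial : ℝ) / δ ^ k) * Real.exp (δ * R) := by
  have h1 : (δ * R) ^ k / (k.factorial : ℝ) ≤ Real.exp (δ * R) :=
    Real.pow_div_factorial_le_exp _ (by positivity) _
  have h2 : (0 : ℝ) < k.factorial := by exact_mod_cast Nat.factorial_pos k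
  rw [div_le_iff₀ h2] at h1
  rw [div_mul_eq_mul_div, le_div_iff₀ (by positivity)]
  calc R ^ k * δ ^ k = (δ * R) ^ k := by rw [mul_pow]; ring
    _ ≤ _ := h1
    _ = _ := by ring

/-- `η ^ (m + 3)` -/
theorem n3_eta (m v0 : ℕ) (δ a R η : ℝ) (ha : 1 ≤ a) (hR : 1 ≤ R) (hm : (m : ℝ) + 1 ≤ 2 * R)
    (hRm : R ^ m ≤ Real.exp (4 * R)) (hv0 : 1 ≤ v0) (hv : 4 * Real.log (10 * a) + 14 ≤ δ * v0)
    (_hη : 1 ≤ η) (hη2 : η ^ v0 = 10 * (a * R ^ 2)) : η ^ (m + 3) ≤ Real.exp (δ * R) := by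
  have e0 : 0 ≤ Real.log (10 * a) := Real.log_nonneg (by linarith)
  have e1 : (η ^ (m + 3)) ^ v0 ≤ (Real.exp (δ * R)) ^ v0 := by
    have f1 : (η ^ (m + 3)) ^ v0 = (10 * a) ^ (m + 3) * ((R ^ m) ^ 2 * R ^ 6) := by
      rw [← pow_mul, mul_comm (m + 3) v0, pow_mul, hη2]
      ring
    have f2 : (10 * a) ^ (m + 3) ≤ Real.exp (4 * Real.log (10 * a) * R) := by
      have g1 : (10 * a) ^ (m + 3) = Real.exp (((m : ℝ) + 3) * Real.log (10 * a)) := by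
        rw [show ((m : ℝ) + 3) = ((m + 3 : ℕ) : ℝ) by push_cast; ring, Real.exp_nat_mul,
          Real.exp_log (by linarith)]
      rw [g1, Real.exp_le_exp]
      have : (m : ℝ) + 3 ≤ 4 * R := by linarith
      nlinarith
    have f3 : (R ^ m) ^ 2 ≤ Real.exp (8 * R) := by
      calc (R ^ m) ^ 2 ≤ (Real.exp (4 * R)) ^ 2 := pow_le_pow_left₀ (by positivity) hRm 2
        _ = Real.exp (8 * R) := by rw [← Real.exp_nat_mul]; congr 1; push_cast; ring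
    have f4 : R ^ 6 ≤ Real.exp (6 * R) := by
      have g1 : R ≤ Real.exp R := by
        have := Real.add_one_le_exp R
        linarith
      calc R ^ 6 ≤ (Real.exp R) ^ 6 := pow_le_pow_left₀ (by linarith) g1 6
        _ = Real.exp (6 * R) := by rw [← Real.exp_nat_mul]; congr 1
    rw [f1]
    calc (10 * a) ^ (m + 3) * ((R ^ m) ^ 2 * R ^ 6)
        ≤ Real.exp (4 * Real.log (10 * a) * R) * (Real.exp (8 * R) * Real.exp (6 * R)) :=
          mul_le_mul f2 (mul_le_mul f3 f4 (by positivity) (Real.exp_pos _).le) (by positivity)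
            (Real.exp_pos _).le
      _ = Real.exp ((4 * Real.log (10 * a) + 14) * R) := by
          rw [← Real.exp_add, ← Real.exp_add]; congr 1; ring
      _ ≤ Real.exp (δ * v0 * R) := by
          rw [Real.exp_le_exp]
          exact mul_le_mul_of_nonneg_right hv (by linarith)
      _ = _ := by rw [← Real.exp_nat_mul]; congr 1; ring
  exact le_of_pow_le_pow_left₀ (by omega) (Real.exp_pos _).le e1

theorem n3_main (hCLA : ST_CLA) (δ ε a c5 Θ : ℝ) (v0 : ℕ) (hδ : 0 < δ) (hε : 0 < ε) (hε1 : ε ≤ 1)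
    (ha : 1 ≤ a) (hc5 : 1 ≤ c5) (hΘ : 1 ≤ Θ) (hv0 : 1 ≤ v0)
    (hv : 4 * Real.log (10 * a) + 14 ≤ δ * v0) : ∃ C : ℝ, 1 ≤ C ∧
    ∀ (m n : ℕ) (R G H η X0 qq ν A h : ℝ) (p : Fin m → ℕ), 1 ≤ R → Function.Injective p →
    (∀ j, (p j).Prime) → ∑ j, Real.log (p j) ≤ R → m ≤ n → n ≤ m + 3 → 1 ≤ G → ε * R ≤ G →
    H = a * R ^ 2 → 1 ≤ η → η ^ v0 = 10 * H → 1 ≤ qq → 1 ≤ ν → 1 ≤ A → 0 ≤ X0 →
    X0 ≤ c5 ^ (m + 1) * ((m : ℝ) + 1) ^ m * qq * ν * A * R ^ 2 * ∏ j, Real.log (p j) →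
    h ≤ 3 * X0 * (16 * v0 * Θ ^ 2 * η / G) ^ n * (200 * H * Θ ^ 2) ^ v0 →
    h ≤ C * Real.exp (4 * δ * R) * (qq * ν * A) := by
  have hv01 : (1 : ℝ) ≤ v0 := by exact_mod_cast hv0
  obtain ⟨b, hb⟩ : ∃ b : ℝ, b = 16 * v0 * Θ ^ 2 := ⟨_, rfl⟩
  have hΘ2 : 1 ≤ Θ ^ 2 := one_le_pow₀ hΘ
  have hb1 : 1 ≤ b := by
    rw [hb]
    nlinarith
  obtain ⟨C1, hC1⟩ : ∃ C1 : ℝ, C1 = c5 * (2 / ε) * b := ⟨_, rfl⟩
  have h2ε : 1 ≤ 2 / ε := by
    rw [le_div_iff₀ hε]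
    linarith
  have hC11 : 1 ≤ C1 := by
    rw [hC1]
    have : 1 ≤ c5 * (2 / ε) := by nlinarith
    nlinarith
  obtain ⟨C2, hC2, hcla⟩ := hCLA δ C1 hδ hC11
  obtain ⟨C3, hC3⟩ : ∃ C3 : ℝ, C3 = ((2 + 2 * v0).factorial : ℝ) / δ ^ (2 + 2 * v0) := ⟨_, rfl⟩
  have hC30 : 0 < C3 := by
    rw [hC3]
    have : (0 : ℝ) < (2 + 2 * v0).factorial := by exact_mod_cast Nat.factorial_pos _
    positivity
  refine ⟨3 * c5 * b ^ 3 * (200 * a * Θ ^ 2) ^ v0 * C2 * C2 * C3 + 1, ?_, ?_⟩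
  · have : 0 ≤ 3 * c5 * b ^ 3 * (200 * a * Θ ^ 2) ^ v0 * C2 * C2 * C3 := by positivity
    linarith
  intro m n R G H η X0 qq ν A h p hR hpinj hpp hpR hmn hnm hG hεG hH hη hη2 hqq hν hA hX00 hX0 hh
  obtain ⟨k1, k2, k3, k4, k5⟩ := hcla m R p hR hpinj hpp hpR
  have k6 := n3_eta m v0 δ a R η ha hR k1 k5 hv0 hv hη (by rw [hη2, hH])
  have k7 := n3_pow (2 + 2 * v0) δ R hδ (by linarith)
  rw [← hC3] at k7
  have hlp : 0 ≤ ∏ j, Real.log (p j) := Finset.prod_nonneg fun j _ =>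
    Real.log_nonneg (by exact_mod_cast (hpp j).one_lt.le)
  obtain ⟨Λ, hΛ⟩ : ∃ Λ : ℝ, Λ = ∏ j, Real.log (p j) := ⟨_, rfl⟩
  rw [← hΛ] at k3 hX0 hlp
  have hG0 : 0 < G := by linarith
  have hR0 : 0 < R := by linarith
  -- the power of `1 / G`
  have e1 : (b * η / G) ^ n ≤ b ^ (m + 3) * η ^ (m + 3) / G ^ m := by
    rw [div_pow, mul_pow]
    have f1 : b ^ n ≤ b ^ (m + 3) := pow_le_pow_right₀ hb1 hnm
    have f2 : η ^ n ≤ η ^ (m + 3) := pow_le_pow_right₀ hη hnm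
    have f3 : G ^ m ≤ G ^ n := pow_le_pow_right₀ hG hmn
    exact div_le_div₀ (by positivity) (mul_le_mul f1 f2 (by positivity) (by positivity))
      (by positivity) f3
  have e2 : ((m : ℝ) + 1) ^ m / G ^ m ≤ (2 / ε) ^ m := by
    rw [← div_pow]
    refine pow_le_pow_left₀ (by positivity) ?_ m
    rw [div_le_div_iff₀ hG0 hε]
    nlinarith
  have e3 : (200 * H * Θ ^ 2) ^ v0 = (200 * a * Θ ^ 2) ^ v0 * R ^ (2 * v0) := by
    rw [hH, pow_mul R 2 v0, ← mul_pow]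
    congr 1
    ring
  have hqνA : 0 ≤ qq * ν * A := by positivity
  have hW : 0 ≤ (200 * a * Θ ^ 2) ^ v0 := by positivity
  calc h ≤ 3 * X0 * (16 * v0 * Θ ^ 2 * η / G) ^ n * (200 * H * Θ ^ 2) ^ v0 := hh
    _ = 3 * X0 * (b * η / G) ^ n * ((200 * a * Θ ^ 2) ^ v0 * R ^ (2 * v0)) := by rw [e3, hb]
    _ ≤ 3 * (c5 ^ (m + 1) * ((m : ℝ) + 1) ^ m * qq * ν * A * R ^ 2 * Λ) *
          (b ^ (m + 3) * η ^ (m + 3) / G ^ m) * ((200 * a * Θ ^ 2) ^ v0 * R ^ (2 * v0)) := by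
        refine mul_le_mul_of_nonneg_right ?_ (by positivity)
        exact mul_le_mul (mul_le_mul_of_nonneg_left hX0 (by norm_num)) e1 (by positivity)
          (by positivity)
    _ = 3 * c5 * b ^ 3 * (200 * a * Θ ^ 2) ^ v0 * ((c5 * b) ^ m * (((m : ℝ) + 1) ^ m / G ^ m)) *
          Λ * η ^ (m + 3) * R ^ (2 + 2 * v0) * (qq * ν * A) := by
        rw [pow_succ c5 m, pow_add b m 3, pow_add R 2 (2 * v0), mul_pow c5 b m]
        ring
    _ ≤ 3 * c5 * b ^ 3 * (200 * a * Θ ^ 2) ^ v0 * (C2 * Real.exp (δ * R)) *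
          (C2 * Real.exp (δ * R)) * Real.exp (δ * R) * (C3 * Real.exp (δ * R)) * (qq * ν * A) := by
        refine mul_le_mul_of_nonneg_right ?_ hqνA
        have f1 : (c5 * b) ^ m * (((m : ℝ) + 1) ^ m / G ^ m) ≤ C2 * Real.exp (δ * R) := by
          refine le_trans ?_ k2
          calc (c5 * b) ^ m * (((m : ℝ) + 1) ^ m / G ^ m) ≤ (c5 * b) ^ m * (2 / ε) ^ m :=
                mul_le_mul_of_nonneg_left e2 (by positivity)
            _ = C1 ^ m := by rw [← mul_pow, hC1]; congr 1; ring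
        refine mul_le_mul (mul_le_mul (mul_le_mul (mul_le_mul_of_nonneg_left f1 (by positivity)) k3
          hlp (by positivity)) k6 (by positivity) (by positivity)) k7 (by positivity) (by positivity)
    _ = (3 * c5 * b ^ 3 * (200 * a * Θ ^ 2) ^ v0 * C2 * C2 * C3) * Real.exp (4 * δ * R) *
          (qq * ν * A) := by
        have : Real.exp (4 * δ * R) = Real.exp (δ * R) * Real.exp (δ * R) * Real.exp (δ * R) *
            Real.exp (δ * R) := by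
          rw [← Real.exp_add, ← Real.exp_add, ← Real.exp_add]
          congr 1
          ring
        rw [this]
        ring
    _ ≤ _ := by
        refine mul_le_mul_of_nonneg_right (mul_le_mul_of_nonneg_right (by linarith)
          (Real.exp_pos _).le) hqνA

/-- sizes of logarithms -/
theorem n3_log (c C0 C1 C2 : ℝ) (v0 : ℕ) (hc : 1 ≤ c) (hC0 : 1 ≤ C0) (hC1 : 1 ≤ C1)
    (hC2 : 1 ≤ C2) : ∃ cl : ℝ, 1 ≤ cl ∧ ∀ (m : ℕ) (R S A G Z h : ℝ), 1 ≤ R →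
    (m : ℝ) + 1 ≤ 2 * R → Real.log ((m + 5).factorial : ℝ) ≤ C2 * R → 1 ≤ S →
    Real.log S ≤ C0 * R → 1 ≤ A → Real.log A ≤ C1 * R → 1 ≤ G → G ≤ 3 * R → 1 ≤ Z →
    Z ≤ 41 * ((m : ℝ) + 4) ^ 2 * (c * ((m + 5).factorial : ℝ)) * (1 + S) → 0 < h →
    h ≤ 192 * ((m : ℝ) + 1) * S * A → Real.log ((v0.factorial : ℝ) * (Z * G) ^ v0 * h) ≤ cl * R := by
  have hsub : ∀ x : ℝ, 0 < x → Real.log x ≤ x := fun x hx => by
    have := Real.log_le_sub_one_of_pos hx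
    linarith
  have hf0 : (0 : ℝ) < v0.factorial := by exact_mod_cast Nat.factorial_pos v0
  have hv00 : (0 : ℝ) ≤ v0 := Nat.cast_nonneg _
  refine ⟨(v0.factorial : ℝ) + v0 * (41 + 16 + c + C2 + (1 + C0) + 3) + (192 + 2 + C0 + C1) + 1,
    ?_, ?_⟩
  · have : 0 ≤ v0 * (41 + 16 + c + C2 + (1 + C0) + 3) := by positivity
    linarith
  intro m R S A G Z h hR hm hf hS hSR hA hAR hG hGR hZ hZ2 hh hh2
  have hm0 : (0 : ℝ) ≤ m := Nat.cast_nonneg _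
  have hff : (0 : ℝ) < ((m + 5).factorial : ℝ) := by exact_mod_cast Nat.factorial_pos _
  have g1 : Real.log Z ≤ (41 + 16 + c + C2 + (1 + C0)) * R := by
    refine (Real.log_le_log (by linarith) hZ2).trans ?_
    rw [Real.log_mul (by positivity) (by positivity), Real.log_mul (by positivity) (by positivity),
      Real.log_mul (by positivity) (by positivity), Real.log_mul (by positivity) (by positivity),
      Real.log_pow]
    have f1 := hsub 41 (by norm_num)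
    have f2 : Real.log ((m : ℝ) + 4) ≤ 8 * R := by
      have := hsub ((m : ℝ) + 4) (by linarith)
      linarith
    have f3 := hsub c (by linarith)
    have f4 : Real.log (1 + S) ≤ 1 + C0 * R := by
      have f5 := Real.log_le_log (by linarith) (show 1 + S ≤ 2 * S by linarith)
      rw [Real.log_mul (by norm_num) (by linarith)] at f5
      have := Real.log_two_lt_d9
      linarith
    have f6 : (41 : ℝ) ≤ 41 * R := by linarith
    have f7 : c ≤ c * R := le_mul_of_one_le_right (by linarith) hR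
    push_cast
    nlinarith
  have g2 : Real.log G ≤ 3 * R := (hsub G (by linarith)).trans hGR
  have g3 : Real.log h ≤ (192 + 2 + C0 + C1) * R := by
    refine (Real.log_le_log hh hh2).trans ?_
    rw [Real.log_mul (by positivity) (by positivity), Real.log_mul (by positivity) (by positivity),
      Real.log_mul (by positivity) (by positivity)]
    have f1 := hsub 192 (by norm_num)
    have f2 := hsub ((m : ℝ) + 1) (by linarith)
    have f6 : (192 : ℝ) ≤ 192 * R := by linarith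
    nlinarith
  have g4 := hsub (v0.factorial : ℝ) hf0
  have hZ0 : 0 < Z := by linarith
  have hG0 : 0 < G := by linarith
  rw [Real.log_mul (by positivity) (by positivity), Real.log_mul (by positivity) (by positivity),
    Real.log_pow, Real.log_mul (by positivity) (by positivity)]
  have g5 : (v0 : ℝ) * (Real.log Z + Real.log G) ≤
      v0 * ((41 + 16 + c + C2 + (1 + C0) + 3) * R) := by
    refine mul_le_mul_of_nonneg_left ?_ hv00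
    linarith
  have g6 : (v0.factorial : ℝ) ≤ (v0.factorial : ℝ) * R := le_mul_of_one_le_right hf0.le hR
  have e : ((v0.factorial : ℝ) + v0 * (41 + 16 + c + C2 + (1 + C0) + 3) + (192 + 2 + C0 + C1) + 1)
      * R = (v0.factorial : ℝ) * R + v0 * ((41 + 16 + c + C2 + (1 + C0) + 3) * R) +
      (192 + 2 + C0 + C1) * R + R := by ring
  rw [e]
  linarith

/-- the constants -/
theorem n3_v0 (δ a : ℝ) (hδ : 0 < δ) : ∃ v0 : ℕ, 1 ≤ v0 ∧
    4 * Real.log (10 * a) + 14 ≤ δ * v0 := by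
  refine ⟨⌈(4 * Real.log (10 * a) + 14) / δ⌉₊ + 1, by omega, ?_⟩
  have h1 := Nat.le_ceil ((4 * Real.log (10 * a) + 14) / δ)
  rw [div_le_iff₀ hδ] at h1
  push_cast
  nlinarith

/-- the end of the proof, common for all places -/
theorem n3_end (hBR : ST_BR) (hCLA : ST_CLA) (δ ε a c C0 C1 c5 : ℝ) (hδ : 0 < δ) (hε : 0 < ε)
    (hε1 : ε ≤ 1) (ha : 1 ≤ a) (hc : 1 ≤ c) (hC0 : 1 ≤ C0) (hC1 : 1 ≤ C1) (hc5 : 1 ≤ c5) :
    ∃ (v0 : ℕ) (Θ C : ℝ), 1 ≤ Θ ∧ 1 ≤ C ∧ ∀ (m n : ℕ) (R S A G Z X0 ρ0 Tst qq ν : ℝ)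
    (p : Fin m → ℕ) (L : Type) [Field L] [NumberField L] (g0 : L) (g : Fin n → L)
    (nrm : ℤ × (Fin n → ℤ) → ℝ), 1 ≤ R → Function.Injective p → (∀ j, (p j).Prime) →
    ∑ j, Real.log (p j) ≤ R → m ≤ n → n ≤ m + 3 → 1 ≤ S → Real.log S ≤ C0 * R → 1 ≤ A →
    Real.log A ≤ C1 * R → 1 ≤ G → ε * R ≤ G → G ≤ 3 * R → 1 ≤ Z →
    Z ≤ 41 * ((m : ℝ) + 4) ^ 2 * (c * ((m + 5).factorial : ℝ)) * (1 + S) →
    LD L n g0 g nrm G Z → (∀ d : ℕ, HT L 27 n g0 g nrm G Tst d) →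
    (∀ ρ, ρ0 ≤ ρ → ρ ^ (n + 1) ≤ X0 * ({a : ℤ × (Fin n → ℤ) | nrm a ≤ ρ}.ncard : ℝ)) →
    0 < X0 → X0 ≤ c5 ^ (m + 1) * ((m : ℝ) + 1) ^ m * qq * ν * A * R ^ 2 * ∏ j, Real.log (p j) →
    1 ≤ qq → 1 ≤ ν → nrm (1, 0) ≤ 192 * ((m : ℝ) + 1) * S * A → 0 < Tst →
    Tst ≤ 108 * nrm (1, 0) → nrm (1, 0) ≤ a * R ^ 2 * Tst →
    Tst ≤ G * Θ ^ (v0 + 1) ∨ nrm (1, 0) ≤ C * Real.exp (4 * δ * R) * (qq * ν * A) := by
  obtain ⟨v0, hv01, hv0⟩ := n3_v0 δ a hδ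
  obtain ⟨C2, hC2, hcla⟩ := hCLA 1 1 one_pos le_rfl
  obtain ⟨cl, hcl, hlog⟩ := n3_log c C0 C1 C2 v0 hc hC0 hC1 hC2
  obtain ⟨Θ, hΘ⟩ : ∃ Θ, Θ = 10 ^ 9 * ((v0 : ℝ) + 1) ^ 5 * ((27 : ℕ) : ℝ) ^ 2 * (1 + cl / ε) :=
    ⟨_, rfl⟩
  have hclε : 0 ≤ cl / ε := by positivity
  have hΘ1 : 1 ≤ Θ := by
    have e1 : 1 ≤ ((v0 : ℝ) + 1) ^ 5 := one_le_pow₀ (by
      have : (0 : ℝ) ≤ v0 := Nat.cast_nonneg _
      linarith)
    have e2 : 1 ≤ 10 ^ 9 * ((v0 : ℝ) + 1) ^ 5 * ((27 : ℕ) : ℝ) ^ 2 := by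
      push_cast
      nlinarith
    rw [hΘ]
    nlinarith
  obtain ⟨C3, hC3, hmain⟩ := n3_main hCLA δ ε a c5 Θ v0 hδ hε hε1 ha hc5 hΘ1 hv01 hv0
  refine ⟨v0, Θ, C3, hΘ1, hC3, ?_⟩
  intro m n R S A G Z X0 ρ0 Tst qq ν p L _ _ g0 g nrm hR hpinj hpp hpR hmn hnm hS hSR hA hAR hG
    hεG hG3 hZ hZ2 hLD hHT hgrow hX0 hX02 hqq hν h192 hTst hTst2 hhT
  obtain ⟨kl1, _, _, kl4, _⟩ := hcla m R p hR hpinj hpp hpR
  obtain ⟨h, hh⟩ : ∃ h, h = nrm (1, 0) := ⟨_, rfl⟩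
  rw [← hh] at h192 hTst2 hhT ⊢
  have hh0 : 0 < h := by linarith
  have hℓ := hlog m R S A G Z h hR kl1 kl4 hS hSR hA hAR hG hG3 hZ hZ2 hh0 h192
  obtain ⟨H, hH⟩ : ∃ H, H = a * R ^ 2 := ⟨_, rfl⟩
  have hR2 : 1 ≤ R ^ 2 := one_le_pow₀ hR
  have hH1 : 1 ≤ H := by rw [hH]; nlinarith
  rw [← hH] at hhT
  obtain ⟨η, hη⟩ : ∃ η : ℝ, η = (10 * H) ^ ((1 : ℝ) / v0) := ⟨_, rfl⟩
  have hv0r : (0 : ℝ) < v0 := by exact_mod_cast hv01
  have hη1 : 1 ≤ η := by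
    rw [hη]
    exact Real.one_le_rpow (by linarith) (by positivity)
  have hηv : η ^ v0 = 10 * H := by
    rw [hη, ← Real.rpow_natCast, ← Real.rpow_mul (by linarith), one_div,
      inv_mul_cancel₀ hv0r.ne', Real.rpow_one]
  have hΘG : 10 ^ 9 * ((v0 : ℝ) + 1) ^ 5 * ((27 : ℕ) : ℝ) ^ 2 * (1 + cl * R / G) ≤ Θ := by
    rw [hΘ]
    refine mul_le_mul_of_nonneg_left ?_ (by positivity)
    have : cl * R / G ≤ cl / ε := by
      rw [div_le_div_iff₀ (by linarith) hε]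
      nlinarith
    linarith
  have hℓ1 : 1 ≤ cl * R := by nlinarith
  have hbr := hBR L 27 n v0 g0 g nrm G Z X0 ρ0 Tst H η (cl * R) Θ
    (by norm_num) hv01 hG hZ hX0 hLD (fun d _ _ => hHT d) hgrow hTst hH1
    (by rw [← hh]; exact hhT) (by
      rw [← hh]
      push_cast
      linarith) hη1 (le_of_eq hηv.symm) hℓ1 (by rw [← hh]; exact hℓ) hΘG
  rw [← hh] at hbr
  refine hbr.imp id fun hb2 => ?_
  exact hmain m n R G H η X0 qq ν A h p hR hpinj hpp hpR hmn hnm hG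
      hεG hH hη1 hηv hqq hν hA hX0.le hX02 hb2

end Pool.Helper99.SZ
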