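import Pool.Agent.Helper99.SZ.Stmts

/-!
# The final bound
-/

set_option autoImplicit false

namespace Pool.Helper99.SZ

open NumberField

theorem szf_log (D : ℕ) (hD : D ≠ 0) :
    Real.log D = ∑ p ∈ D.primeFactors, (D.factorization p : ℝ) * Real.log p := by
  conv_lhs => rw [← Nat.prod_factorization_pow_eq_self hD]
  rw [Nat.prod_factorization_eq_prod_primeFactors, Nat.cast_prod, Real.log_prod]
  · refine Finset.sum_congr rfl fun p _ => ?_
    rw [Nat.cast_pow, Real.log_pow]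
  · intro p hp
    have := (Nat.prime_of_mem_primeFactors hp).pos
    positivity

theorem szf_log256 : Real.log 256 ≤ 6 := by
  have h1 : (256 : ℝ) = 2 ^ 8 := by norm_num
  rw [h1, Real.log_pow]
  have := Real.log_two_lt_d9
  norm_num
  linarith

/-- decomposition of `R` -/
theorem szf_R (D : ℕ) (hD : D ≠ 0) (s : Finset ℕ) (hs : s ⊆ D.primeFactors) :
    1 + Real.log D - ∑ p ∈ s, ((D.factorization p : ℝ) - 1) * Real.log p =
      1 + ∑ p ∈ D.primeFactors \ s, (D.factorization p : ℝ) * Real.log p +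
        ∑ p ∈ s, Real.log p := by
  rw [szf_log D hD, ← Finset.sum_sdiff hs]
  have : ∑ p ∈ s, ((D.factorization p : ℝ) - 1) * Real.log p =
      ∑ p ∈ s, (D.factorization p : ℝ) * Real.log p - ∑ p ∈ s, Real.log p := by
    rw [← Finset.sum_sub_distrib]
    exact Finset.sum_congr rfl fun p _ => by ring
  rw [this]
  ring

theorem szf_nonneg (D : ℕ) (s : Finset ℕ) (hs : s ⊆ D.primeFactors) (p : ℕ) (hp : p ∈ s) :
    0 ≤ Real.log p :=
  Real.log_nonneg (by exact_mod_cast (Nat.prime_of_mem_primeFactors (hs hp)).one_lt.le)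

theorem szf_cond (W : WeierstrassCurve ℤ) (hD : W.Δ ≠ 0) (s : Finset ℕ)
    (hs : s ⊆ W.Δ.natAbs.primeFactors) (hc : ∀ p ∈ s, ¬ (p : ℤ) ∣ W.c₄) :
    1 ≤ cond W ∧ Real.log (cond W : ℝ) ≤
      2 * (∑ p ∈ W.Δ.natAbs.primeFactors \ s, (W.Δ.natAbs.factorization p : ℝ) * Real.log p +
        ∑ p ∈ s, Real.log p) := by
  have hpos : ∀ p ∈ W.Δ.natAbs.primeFactors, 0 <
      (if (p : ℤ) ∣ W.c₄ then p ^ 2 else p ^ (W.Δ.natAbs.factorization p % 2)) := by
    intro p hp
    have := (Nat.prime_of_mem_primeFactors hp).pos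
    split_ifs <;> positivity
  have h0 : 0 < cond W := Finset.prod_pos hpos
  refine ⟨h0, ?_⟩
  unfold cond
  rw [Nat.cast_prod, Real.log_prod (fun p hp => by exact_mod_cast (hpos p hp).ne'),
    ← Finset.sum_sdiff hs, mul_add]
  refine add_le_add ?_ ?_
  · rw [Finset.mul_sum]
    refine Finset.sum_le_sum fun p hp => ?_
    have hp' := (Finset.mem_sdiff.1 hp).1
    have hpp := Nat.prime_of_mem_primeFactors hp'
    have h1 : 1 ≤ W.Δ.natAbs.factorization p :=
      hpp.factorization_pos_of_dvd (Int.natAbs_ne_zero.2 hD) (Nat.dvd_of_mem_primeFactors hp')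
    have h2 : (1 : ℝ) ≤ (W.Δ.natAbs.factorization p : ℝ) := by exact_mod_cast h1
    have h3 : 0 ≤ Real.log p := Real.log_nonneg (by exact_mod_cast hpp.one_lt.le)
    split_ifs
    · rw [Nat.cast_pow, Real.log_pow]
      push_cast
      nlinarith
    · rw [Nat.cast_pow, Real.log_pow]
      have h4 : ((W.Δ.natAbs.factorization p % 2 : ℕ) : ℝ) ≤ 1 := by
        have : W.Δ.natAbs.factorization p % 2 ≤ 1 := by omega
        exact_mod_cast this
      nlinarith
  · rw [Finset.mul_sum]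
    refine Finset.sum_le_sum fun p hp => ?_
    have h3 : 0 ≤ Real.log p := szf_nonneg _ s hs p hp
    rw [if_neg (hc p hp), Nat.cast_pow, Real.log_pow]
    have h4 : ((W.Δ.natAbs.factorization p % 2 : ℕ) : ℝ) ≤ 1 := by
      have : W.Δ.natAbs.factorization p % 2 ≤ 1 := by omega
      exact_mod_cast this
    nlinarith

theorem szf_fac (D : ℤ) (hD : D ≠ 0) (p : ℕ) :
    ∃ r : ℕ, (256 * D).natAbs.factorization p = 2 * r + D.natAbs.factorization p := by
  refine ⟨4 * (2 : ℕ).factorization p, ?_⟩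
  rw [Int.natAbs_mul, Nat.factorization_mul (by norm_num) (Int.natAbs_ne_zero.2 hD)]
  have : (256 : ℤ).natAbs = 2 ^ 8 := by norm_num
  rw [this, Nat.factorization_pow]
  simp only [Finsupp.coe_add, Finsupp.coe_smul, Pi.add_apply, Pi.smul_apply, smul_eq_mul]
  ring

theorem szf_exp (x : ℝ) (n : ℕ) (h : x ≤ 2.7182818283 ^ n) : x ≤ Real.exp n := by
  refine h.trans ?_
  have h1 := Real.exp_one_gt_d9
  have h2 : Real.exp n = Real.exp 1 ^ n := by rw [← Real.exp_nat_mul, mul_one]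
  rw [h2]
  exact pow_le_pow_left₀ (by norm_num) h1.le n

theorem szf_nu (R c d : ℝ) (hR : 1 ≤ R) (hc : 1 ≤ c) (hcR : Real.log c ≤ 2 * R) (hd : 1 ≤ d)
    (hd2 : d ≤ 5000 * c) : d ≤ Real.exp (11 * R) ∧
    (2 * Real.sqrt d) * (1 + Real.log (2 * Real.sqrt d)) ^ 8 ≤ 142 * Real.sqrt c * (8 * R) ^ 8 ∧
    1 ≤ 142 * Real.sqrt c * (8 * R) ^ 8 ∧
    142 * Real.sqrt c * (8 * R) ^ 8 ≤ Real.exp (11 * R) ^ 4 := by
  have hc0 : 0 < c := by linarith
  have hd0 : 0 < d := by linarith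
  have hce : c ≤ Real.exp (2 * R) := by
    rw [← Real.log_le_iff_le_exp hc0]
    exact hcR
  have hde : d ≤ Real.exp (11 * R) := by
    have h1 : (5000 : ℝ) ≤ Real.exp 9 := by
      have := szf_exp 5000 9 (by norm_num)
      exact_mod_cast this
    calc d ≤ 5000 * c := hd2
      _ ≤ Real.exp 9 * Real.exp (2 * R) := mul_le_mul h1 hce hc0.le (Real.exp_pos _).le
      _ = Real.exp (9 + 2 * R) := by rw [Real.exp_add]
      _ ≤ Real.exp (11 * R) := Real.exp_le_exp.2 (by linarith)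
  have hlogd : Real.log d ≤ 11 * R := by
    rw [Real.log_le_iff_le_exp hd0]
    exact hde
  have hsc : 1 ≤ Real.sqrt c := by
    rw [← Real.sqrt_one]
    exact Real.sqrt_le_sqrt hc
  have hsd : 1 ≤ Real.sqrt d := by
    rw [← Real.sqrt_one]
    exact Real.sqrt_le_sqrt hd
  have h71 : Real.sqrt d ≤ 71 * Real.sqrt c := by
    rw [Real.sqrt_le_left (by positivity), mul_pow, Real.sq_sqrt hc0.le]
    linarith
  have hsce : Real.sqrt c ≤ Real.exp R := by
    rw [Real.sqrt_le_left (Real.exp_pos _).le, ← Real.exp_nat_mul]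
    exact_mod_cast hce
  have hR8 : 1 ≤ (8 * R) ^ 8 := one_le_pow₀ (by linarith)
  refine ⟨hde, ?_, ?_, ?_⟩
  · have h1 : 1 + Real.log (2 * Real.sqrt d) ≤ 8 * R := by
      rw [Real.log_mul (by norm_num) (by positivity), Real.log_sqrt hd0.le]
      have := Real.log_two_lt_d9
      linarith
    have h2 : 0 ≤ 1 + Real.log (2 * Real.sqrt d) := by
      have : 0 ≤ Real.log (2 * Real.sqrt d) := Real.log_nonneg (by linarith)
      linarith
    have h3 := pow_le_pow_left₀ h2 h1 8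
    exact mul_le_mul (by linarith) h3 (by positivity) (by positivity)
  · nlinarith
  · have h1 : (142 : ℝ) ≤ Real.exp 5 := by
      have := szf_exp 142 5 (by norm_num)
      exact_mod_cast this
    have h2 : 8 * R ≤ Real.exp 3 * Real.exp R := by
      have h3 : (8 : ℝ) ≤ Real.exp 3 := by
        have := szf_exp 8 3 (by norm_num)
        exact_mod_cast this
      have h4 : R ≤ Real.exp R := by
        have := Real.add_one_le_exp R
        linarith
      exact mul_le_mul h3 h4 (by linarith) (Real.exp_pos _).le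
    have h5 : (8 * R) ^ 8 ≤ Real.exp (24 + 8 * R) := by
      refine (pow_le_pow_left₀ (by linarith) h2 8).trans (le_of_eq ?_)
      rw [← Real.exp_add, ← Real.exp_nat_mul]
      congr 1
      push_cast
      ring
    calc 142 * Real.sqrt c * (8 * R) ^ 8 ≤ Real.exp 5 * Real.exp R * Real.exp (24 + 8 * R) :=
          mul_le_mul (mul_le_mul h1 hsce (by positivity) (Real.exp_pos _).le) h5 (by positivity)
            (by positivity)
      _ = Real.exp (5 + R + (24 + 8 * R)) := by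
          rw [Real.exp_add (5 + R) (24 + 8 * R), Real.exp_add 5 R]
      _ ≤ Real.exp (44 * R) := Real.exp_le_exp.2 (by linarith)
      _ = Real.exp (11 * R) ^ 4 := by
          rw [← Real.exp_nat_mul]
          congr 1
          push_cast
          ring

theorem st_SZF (hONE : ST_ONE) (hSIZ : ST_SIZ) (hFLW : ST_FLW) (hHPL : ST_HPL) (hCALS : ST_CALS)
    (hCU2 : ST_CU2) (hIDC : BK.ST_IDC) : ST_SZF := by
  intro m
  have hone : ∀ i : ℕ, ∃ C : ℝ, 1 ≤ C ∧ ∃ A : ℕ, ∀ (K : Type) [Field K] [NumberField K]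
    (β : K) (a b c : ℤ) (κ : 𝓞 K) (p : Fin i → ℕ) (P : Fin i → Ideal (𝓞 K)) (𝔞 : Ideal (𝓞 K)),
    CD K β a b c κ i p P 𝔞 → ∀ σ : Fin 3 → (K →+* ℂ), Function.Injective σ →
    ∀ Y S ν : ℝ, 3 ≤ Y → |(NumberField.discr K : ℝ)| ≤ Y → (Ideal.absNorm 𝔞 : ℝ) ≤ Y →
    (∀ j, (p j : ℝ) ≤ Y) → 3 ≤ S → (∀ i, |Real.log ‖σ i (κ : K)‖| ≤ S) →
    (∀ j, ((dis a b c).natAbs.factorization (p j) : ℝ) * Real.log (p j) ≤ S) →
    ((BK.ID K (2 * Real.sqrt |(NumberField.discr K : ℝ)|)).ncard : ℝ) ≤ ν → 1 ≤ ν → ν ≤ Y ^ 4 →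
    ∀ j0 : Fin i, ((dis a b c).natAbs.factorization (p j0) : ℝ) * Real.log (p j0) ≤
      C * ν * (if Odd ((dis a b c).natAbs.factorization (p j0)) then 1 else (p j0 : ℝ)) *
        (Real.log Y + Real.log S) ^ A := fun i => hONE i
  choose C1 hC1 A1 hone using hone
  obtain ⟨C1', hC1'⟩ : ∃ x : ℝ, x = ∑ i ∈ Finset.range (m + 1), C1 i := ⟨_, rfl⟩
  obtain ⟨A1', hA1'⟩ : ∃ x : ℕ, x = ∑ i ∈ Finset.range (m + 1), A1 i := ⟨_, rfl⟩
  have hC1le : ∀ i, i ≤ m → C1 i ≤ C1' := by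
    intro i hi
    rw [hC1']
    exact Finset.single_le_sum (f := C1) (fun j _ => by linarith [hC1 j])
      (Finset.mem_range.2 (by omega))
  have hA1le : ∀ i, i ≤ m → A1 i ≤ A1' := by
    intro i hi
    rw [hA1']
    exact Finset.single_le_sum (f := A1) (fun j _ => Nat.zero_le _)
      (Finset.mem_range.2 (by omega))
  have hC1'1 : 1 ≤ C1' := (hC1 0).trans (hC1le 0 (by omega))
  obtain ⟨C2, hC2, hsiz⟩ := hSIZ
  obtain ⟨C3, hC3, hhpl⟩ := hHPL
  obtain ⟨c5, hc5⟩ : ∃ c5 : ℝ, c5 = 10 * C2 * C3 + 31 := ⟨_, rfl⟩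
  have hc51 : 1 ≤ c5 := by
    have : 0 ≤ C2 * C3 := by positivity
    rw [hc5]
    linarith
  obtain ⟨C4, hC4⟩ : ∃ C4 : ℝ, C4 = m * (C1' * (142 * 8 ^ 8) * c5 ^ A1') + 2 := ⟨_, rfl⟩
  have hC41 : 2 ≤ C4 := by
    have : 0 ≤ (m : ℝ) * (C1' * (142 * 8 ^ 8) * c5 ^ A1') := by positivity
    rw [hC4]
    linarith
  obtain ⟨C', hC'1, hcals⟩ := hCALS C4 (A1' + 8) (by linarith)
  refine ⟨C', A1' + 8, ?_⟩
  intro W hΔ hirr s hsm hs B hB hBs
  -- the primes
  have hspf : s ⊆ W.Δ.natAbs.primeFactors := by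
    intro p hp
    obtain ⟨h1, h2, h3⟩ := hs p hp
    exact Nat.mem_primeFactors.2 ⟨h1, Int.natCast_dvd.1 h2, Int.natAbs_ne_zero.2 hΔ⟩
  have hDne : W.Δ.natAbs ≠ 0 := Int.natAbs_ne_zero.2 hΔ
  have habs : Real.log |(W.Δ : ℝ)| = Real.log (W.Δ.natAbs : ℝ) := by
    rw [Nat.cast_natAbs, Int.cast_abs]
  have hRdef := szf_R W.Δ.natAbs hDne s hspf
  rw [← habs] at hRdef
  rw [hRdef]
  obtain ⟨R0, hR0⟩ : ∃ R0 : ℝ, R0 = ∑ p ∈ W.Δ.natAbs.primeFactors \ s,
    (W.Δ.natAbs.factorization p : ℝ) * Real.log p := ⟨_, rfl⟩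
  obtain ⟨R1, hR1⟩ : ∃ R1 : ℝ, R1 = ∑ p ∈ s, Real.log p := ⟨_, rfl⟩
  obtain ⟨t, ht⟩ : ∃ t : ℝ, t = ∑ p ∈ s, (W.Δ.natAbs.factorization p : ℝ) * Real.log p := ⟨_, rfl⟩
  rw [← hR0, ← hR1] at hRdef ⊢
  rw [← ht]
  have hR00 : 0 ≤ R0 := by
    rw [hR0]
    refine Finset.sum_nonneg fun p hp => mul_nonneg (Nat.cast_nonneg _) ?_
    have := (Nat.prime_of_mem_primeFactors (Finset.mem_sdiff.1 hp).1).one_lt.le
    exact Real.log_nonneg (by exact_mod_cast this)
  have hR10 : 0 ≤ R1 := by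
    rw [hR1]
    exact Finset.sum_nonneg fun p hp => szf_nonneg _ s hspf p hp
  have ht0 : 0 ≤ t := by
    rw [ht]
    exact Finset.sum_nonneg fun p hp => mul_nonneg (Nat.cast_nonneg _) (szf_nonneg _ s hspf p hp)
  obtain ⟨R, hR⟩ : ∃ R : ℝ, R = 1 + R0 + R1 := ⟨_, rfl⟩
  rw [← hR] at hRdef ⊢
  have hR1' : 1 ≤ R := by linarith
  have hLD : Real.log |(W.Δ : ℝ)| = R0 + t := by
    rw [habs, szf_log _ hDne, ← Finset.sum_sdiff hspf, ← hR0, ← ht]
  obtain ⟨hcond1, hcond2⟩ := szf_cond W hΔ s hspf (fun p hp => (hs p hp).2.2)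
  rw [← hR0, ← hR1] at hcond2
  have hcondR : (1 : ℝ) ≤ (cond W : ℝ) := by exact_mod_cast hcond1
  -- the field
  obtain ⟨f1, f2, K, iK, iN, β, κ, σ, hCF, hσ, hdisc⟩ := hFLW W hΔ hirr
  obtain ⟨pp, hpp⟩ : ∃ pp : Fin s.card → ℕ, ∀ i, pp i = (s.equivFin.symm i : ℕ) := ⟨_, fun _ => rfl⟩
  have hpps : ∀ i, pp i ∈ s := fun i => by rw [hpp]; exact (s.equivFin.symm i).2
  have hppinj : Function.Injective pp := by
    intro i j hij
    rw [hpp, hpp] at hij
    exact s.equivFin.symm.injective (Subtype.ext hij)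
  obtain ⟨P, 𝔞, hCD⟩ := hCU2 K β W.b₂ (8 * W.b₄) (16 * W.b₆) κ hCF s.card pp hppinj
    (fun j => (hs _ (hpps j)).1) (fun j => by
      rw [f1]
      exact Dvd.dvd.mul_left (hs _ (hpps j)).2.1 _)
    (fun j => by
      rw [f2]
      exact (hs _ (hpps j)).2.2)
  have hpR : ∀ p ∈ s, Real.log p ≤ R := by
    intro p hp
    have h1 : Real.log p ≤ R1 := by
      rw [hR1]
      exact Finset.single_le_sum (f := fun p : ℕ => Real.log (p : ℝ))
        (fun j hj => szf_nonneg _ s hspf j hj) hp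
    linarith
  have hpe : ∀ p ∈ s, (p : ℝ) ≤ Real.exp R := by
    intro p hp
    rw [← Real.log_le_iff_le_exp (by exact_mod_cast (hs p hp).1.pos)]
    exact hpR p hp
  have hdne : NumberField.discr K ≠ 0 := NumberField.discr_ne_zero K
  have hd1 : (1 : ℝ) ≤ |(NumberField.discr K : ℝ)| := by
    have := Int.one_le_abs hdne
    exact_mod_cast this
  obtain ⟨n1, n2, n3, n4⟩ := szf_nu R (cond W) |(NumberField.discr K : ℝ)| hR1' hcondR
    (by linarith) hd1 hdisc
  obtain ⟨sc, hsc⟩ : ∃ sc : ℝ, sc = Real.sqrt (cond W : ℝ) := ⟨_, rfl⟩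
  rw [← hsc] at n2 n3 n4 ⊢
  have hsc1 : 1 ≤ sc := by
    rw [hsc, ← Real.sqrt_one]
    exact Real.sqrt_le_sqrt hcondR
  obtain ⟨ν, hν⟩ : ∃ ν : ℝ, ν = 142 * sc * (8 * R) ^ 8 := ⟨_, rfl⟩
  rw [← hν] at n2 n3 n4
  -- the norm of 𝔞
  have hna1 : Ideal.absNorm 𝔞 ≠ 0 := by
    intro h8
    have h6 := hCD.na
    rw [h8, zero_mul, f1] at h6
    have : (256 * W.Δ).natAbs ≠ 0 := Int.natAbs_ne_zero.2 (by omega)
    exact this h6.symm
  have hnalog : Real.log (Ideal.absNorm 𝔞 : ℝ) ≤ 6 * R := by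
    have h6 := hCD.na
    rw [f1] at h6
    have h7 : Real.log (Ideal.absNorm 𝔞 : ℝ) +
        ∑ j, ((256 * W.Δ).natAbs.factorization (pp j) : ℝ) * Real.log (pp j) =
        Real.log 256 + Real.log (W.Δ.natAbs : ℝ) := by
      have h8 : ((Ideal.absNorm 𝔞 * ∏ j, pp j ^ ((256 * W.Δ).natAbs.factorization (pp j)) : ℕ) : ℝ) =
          256 * (W.Δ.natAbs : ℝ) := by
        rw [h6, Int.natAbs_mul]
        push_cast
        norm_num
      have h9 : ∀ j, (pp j : ℝ) ≠ 0 := fun j => by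
        have := (hs _ (hpps j)).1.pos
        positivity
      have h10 := congrArg Real.log h8
      rw [Nat.cast_mul, Nat.cast_prod, Real.log_mul (by exact_mod_cast hna1)
        (Finset.prod_ne_zero_iff.2 fun j _ => by rw [Nat.cast_pow]; exact pow_ne_zero _ (h9 j)),
        Real.log_prod (fun j _ => by rw [Nat.cast_pow]; exact pow_ne_zero _ (h9 j)),
        Real.log_mul (by norm_num) (by exact_mod_cast hDne)] at h10
      rw [← h10]
      congr 1
      exact Finset.sum_congr rfl fun j _ => by rw [Nat.cast_pow, Real.log_pow]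
    have h8 : t ≤ ∑ j, ((256 * W.Δ).natAbs.factorization (pp j) : ℝ) * Real.log (pp j) := by
      have h9 : t = ∑ j, (W.Δ.natAbs.factorization (pp j) : ℝ) * Real.log (pp j) := by
        rw [ht, ← Finset.sum_coe_sort s, ← Equiv.sum_comp s.equivFin.symm]
        exact Finset.sum_congr rfl fun j _ => by rw [hpp]
      rw [h9]
      refine Finset.sum_le_sum fun j _ => mul_le_mul_of_nonneg_right ?_ (szf_nonneg _ s hspf _ (hpps j))
      obtain ⟨r, hr⟩ := szf_fac W.Δ hΔ (pp j)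
      rw [hr]
      push_cast
      have : (0 : ℝ) ≤ r := Nat.cast_nonneg _
      linarith
    rw [← habs, hLD] at h7
    have := szf_log256
    linarith
  have hexpR : Real.exp R ≤ Real.exp (11 * R) := Real.exp_le_exp.2 (by linarith)
  have hY3 : 3 ≤ Real.exp (11 * R) := by
    have := Real.add_one_le_exp (11 * R)
    linarith
  have hnaY : (Ideal.absNorm 𝔞 : ℝ) ≤ Real.exp (11 * R) := by
    rw [← Real.log_le_iff_le_exp (by exact_mod_cast Nat.pos_of_ne_zero hna1)]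
    linarith
  -- the sizes
  obtain ⟨LD, hLD'⟩ : ∃ LD : ℝ, LD = Real.log |(W.Δ : ℝ)| := ⟨_, rfl⟩
  have hLDt : LD = R0 + t := by rw [hLD', hLD]
  have hLD0 : 0 ≤ LD := by linarith
  obtain ⟨H, hH⟩ : ∃ H : ℝ, H = C3 * sc * (1 + LD) ^ 19 := ⟨_, rfl⟩
  have hLD19 : 1 + LD ≤ (1 + LD) ^ 19 := le_self_pow₀ (by linarith) (by norm_num)
  have hH1 : 1 + LD ≤ H := by
    have h1 : 1 ≤ C3 * sc := by nlinarith
    have h2 : 0 ≤ (1 + LD) ^ 19 := by positivity
    rw [hH]
    nlinarith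
  obtain ⟨S, hS⟩ : ∃ S : ℝ, S = 10 * C2 * H := ⟨_, rfl⟩
  have hS10 : 10 * H ≤ S := by
    rw [hS]
    nlinarith
  have hlog256Δ : Real.log |((256 * W.Δ : ℤ) : ℝ)| ≤ 6 + LD := by
    have h1 : (W.Δ : ℝ) ≠ 0 := by exact_mod_cast hΔ
    rw [Int.cast_mul, abs_mul, Real.log_mul (by norm_num) (abs_ne_zero.2 h1), hLD']
    have h2 : |((256 : ℤ) : ℝ)| = 256 := by norm_num
    rw [h2]
    have := szf_log256
    linarith
  have hc4 : Real.log (1 + |(W.c₄ : ℝ)|) ≤ 1 + H := by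
    by_cases h0 : W.c₄ = 0
    · rw [h0]
      simp only [Int.cast_zero, abs_zero, add_zero, Real.log_one]
      linarith
    · have h1 : (1 : ℝ) ≤ |(W.c₄ : ℝ)| := by
        have := Int.one_le_abs h0
        exact_mod_cast this
      have h2 := hhpl W hΔ
      rw [← hsc, ← hLD', ← hH] at h2
      have h3 : Real.log (1 + |(W.c₄ : ℝ)|) ≤ Real.log (2 * |(W.c₄ : ℝ)|) :=
        Real.log_le_log (by linarith) (by linarith)
      rw [Real.log_mul (by norm_num) (by linarith)] at h3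
      have := Real.log_two_lt_d9
      linarith
  have hσS : ∀ i, |Real.log ‖σ i (κ : K)‖| ≤ S := by
    intro i
    have h1 := hsiz K β W.b₂ (8 * W.b₄) (16 * W.b₆) κ hCF σ hσ i
    rw [f1, f2] at h1
    refine h1.trans ?_
    have h2 : 1 + Real.log (1 + |(W.c₄ : ℝ)|) + Real.log |((256 * W.Δ : ℤ) : ℝ)| ≤ 10 * H := by
      linarith
    calc C2 * (1 + Real.log (1 + |(W.c₄ : ℝ)|) + Real.log |((256 * W.Δ : ℤ) : ℝ)|)
        ≤ C2 * (10 * H) := mul_le_mul_of_nonneg_left h2 (by linarith)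
      _ = S := by rw [hS]; ring
  have hvS : ∀ j, ((dis W.b₂ (8 * W.b₄) (16 * W.b₆)).natAbs.factorization (pp j) : ℝ) *
      Real.log (pp j) ≤ S := by
    intro j
    rw [f1]
    have h256 : (256 * W.Δ).natAbs ≠ 0 := Int.natAbs_ne_zero.2 (by omega)
    have h1 : Real.log ((256 * W.Δ).natAbs : ℝ) ≤ 6 + LD := by
      rw [Nat.cast_natAbs, Int.cast_abs]
      exact hlog256Δ
    have h2 : ((256 * W.Δ).natAbs.factorization (pp j) : ℝ) * Real.log (pp j) ≤
        Real.log ((256 * W.Δ).natAbs : ℝ) := by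
      rw [szf_log _ h256]
      refine Finset.single_le_sum (f := fun p : ℕ => ((256 * W.Δ).natAbs.factorization p : ℝ) *
        Real.log (p : ℝ)) (fun q hq => mul_nonneg (Nat.cast_nonneg _) (Real.log_nonneg (by
          exact_mod_cast (Nat.prime_of_mem_primeFactors hq).one_lt.le))) ?_
      refine Nat.mem_primeFactors.2 ⟨(hs _ (hpps j)).1, ?_, h256⟩
      exact Int.natCast_dvd.1 (Dvd.dvd.mul_left (hs _ (hpps j)).2.1 _)
    linarith
  -- logarithms
  obtain ⟨Lt, hLt⟩ : ∃ Lt : ℝ, Lt = Real.log (1 + t) := ⟨_, rfl⟩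
  have hLt0 : 0 ≤ Lt := by
    rw [hLt]
    exact Real.log_nonneg (by linarith)
  have hlogLD : Real.log (1 + LD) ≤ R + Lt := by
    have h1 : 1 + LD ≤ R * (1 + t) := by nlinarith
    have h2 := Real.log_le_log (by linarith) h1
    rw [Real.log_mul (by linarith) (by linarith), ← hLt] at h2
    have h3 := Real.log_le_sub_one_of_pos (show 0 < R by linarith)
    linarith
  have hlogS : Real.log S ≤ (10 * C2 * C3 + 20) * (R + Lt) := by
    have e1 : S = (10 * C2 * C3) * sc * (1 + LD) ^ 19 := by rw [hS, hH]; ring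
    rw [e1, Real.log_mul (by positivity) (by positivity), Real.log_mul (by positivity) (by positivity),
      Real.log_pow, hsc, Real.log_sqrt (by linarith)]
    have e2 := Real.log_le_sub_one_of_pos (show 0 < 10 * C2 * C3 by positivity)
    have e3 : 10 * C2 * C3 ≤ 10 * C2 * C3 * (R + Lt) :=
      le_mul_of_one_le_right (by positivity) (by linarith)
    push_cast
    linarith
  have hlogs : Real.log (Real.exp (11 * R)) + Real.log S ≤ c5 * (R + Lt) := by
    rw [Real.log_exp, hc5]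
    linarith
  have hS3 : 3 ≤ S := by linarith
  have hlogS0 : 0 ≤ Real.log S := Real.log_nonneg (by linarith)
  -- the bound for `B`
  obtain ⟨B', hB'⟩ : ∃ B' : ℝ, B' = min B (Real.exp R) := ⟨_, rfl⟩
  have hB'1 : 1 ≤ B' := by
    rw [hB']
    exact le_min hB (by
      have := Real.add_one_le_exp R
      linarith)
  have hB'B : B' ≤ B := by rw [hB']; exact min_le_left _ _
  have hB'e : B' ≤ Real.exp R := by rw [hB']; exact min_le_right _ _
  have hIDle : ((BK.ID K (2 * Real.sqrt |(NumberField.discr K : ℝ)|)).ncard : ℝ) ≤ ν := by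
    refine (hIDC K hCF.deg _ ?_).trans n2
    have : 1 ≤ Real.sqrt |(NumberField.discr K : ℝ)| := by
      rw [← Real.sqrt_one]
      exact Real.sqrt_le_sqrt hd1
    linarith
  -- every prime
  have hone' : ∀ j, (W.Δ.natAbs.factorization (pp j) : ℝ) * Real.log (pp j) ≤
      C1' * ν * B' * (c5 * (R + Lt)) ^ A1' := by
    intro j
    have h1 := hone s.card K β W.b₂ (8 * W.b₄) (16 * W.b₆) κ pp P 𝔞 hCD σ hσ (Real.exp (11 * R)) S ν
      hY3 n1 hnaY (fun j => (hpe _ (hpps j)).trans hexpR) hS3 hσS hvS hIDle n3 n4 j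
    rw [f1] at h1
    obtain ⟨r, hr⟩ := szf_fac W.Δ hΔ (pp j)
    have h2 : (W.Δ.natAbs.factorization (pp j) : ℝ) * Real.log (pp j) ≤
        ((256 * W.Δ).natAbs.factorization (pp j) : ℝ) * Real.log (pp j) := by
      refine mul_le_mul_of_nonneg_right ?_ (szf_nonneg _ s hspf _ (hpps j))
      rw [hr]
      push_cast
      have : (0 : ℝ) ≤ r := Nat.cast_nonneg _
      linarith
    refine (h2.trans h1).trans ?_
    have h3 : (if Odd ((256 * W.Δ).natAbs.factorization (pp j)) then 1 else (pp j : ℝ)) ≤ B' := by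
      split_ifs with hodd
      · exact hB'1
      · rw [hB']
        refine le_min (hBs _ (hpps j) ?_) (hpe _ (hpps j))
        rw [Nat.not_odd_iff_even, hr, Nat.even_add] at hodd
        exact hodd.1 (even_two_mul r)
    have h4 : 0 ≤ (if Odd ((256 * W.Δ).natAbs.factorization (pp j)) then 1 else (pp j : ℝ)) := by
      split_ifs
      · norm_num
      · exact Nat.cast_nonneg _
    have h5 : (Real.log (Real.exp (11 * R)) + Real.log S) ^ A1 s.card ≤ (c5 * (R + Lt)) ^ A1' := by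
      have e1 : 0 ≤ Real.log (Real.exp (11 * R)) + Real.log S := by
        rw [Real.log_exp]
        linarith
      have e2 : 1 ≤ c5 * (R + Lt) := by nlinarith
      exact (pow_le_pow_left₀ e1 hlogs _).trans (pow_le_pow_right₀ e2 (hA1le _ hsm))
    have h6 : 0 ≤ (Real.log (Real.exp (11 * R)) + Real.log S) ^ A1 s.card := by
      rw [Real.log_exp]
      positivity
    have hν0 : 0 ≤ ν := by linarith
    have h7 : C1 s.card * ν ≤ C1' * ν := mul_le_mul_of_nonneg_right (hC1le _ hsm) hν0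
    exact mul_le_mul (mul_le_mul h7 h3 h4 (by positivity)) h5 h6 (by positivity)
  have hsum : t ≤ C4 * (sc * B') * (R + Real.log (1 + t)) ^ (A1' + 8) := by
    rw [← hLt]
    have h9 : t = ∑ j, (W.Δ.natAbs.factorization (pp j) : ℝ) * Real.log (pp j) := by
      rw [ht, ← Finset.sum_coe_sort s, ← Equiv.sum_comp s.equivFin.symm]
      exact Finset.sum_congr rfl fun j _ => by rw [hpp]
    have h10 : t ≤ m * (C1' * ν * B' * (c5 * (R + Lt)) ^ A1') := by
      rw [h9]
      refine (Finset.sum_le_sum fun j _ => hone' j).trans ?_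
      rw [Finset.sum_const, Finset.card_univ, Fintype.card_fin, nsmul_eq_mul]
      have hν0 : 0 ≤ ν := by linarith
      have : 0 ≤ c5 * (R + Lt) := by positivity
      exact mul_le_mul_of_nonneg_right (by exact_mod_cast hsm) (by positivity)
    refine h10.trans ?_
    have h11 : R ^ 8 ≤ (R + Lt) ^ 8 := pow_le_pow_left₀ (by linarith) (by linarith) 8
    have h12 : (m : ℝ) * (C1' * ν * B' * (c5 * (R + Lt)) ^ A1') =
        (m * (C1' * (142 * 8 ^ 8) * c5 ^ A1')) * (sc * B') * (R + Lt) ^ A1' * R ^ 8 := by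
      rw [hν, mul_pow, mul_pow]
      ring
    rw [h12]
    have h13 : (m * (C1' * (142 * 8 ^ 8) * c5 ^ A1')) ≤ C4 := by
      rw [hC4]
      linarith
    calc (m * (C1' * (142 * 8 ^ 8) * c5 ^ A1')) * (sc * B') * (R + Lt) ^ A1' * R ^ 8
        ≤ (m * (C1' * (142 * 8 ^ 8) * c5 ^ A1')) * (sc * B') * (R + Lt) ^ A1' * (R + Lt) ^ 8 :=
          mul_le_mul_of_nonneg_left h11 (by positivity)
      _ ≤ C4 * (sc * B') * (R + Lt) ^ A1' * (R + Lt) ^ 8 :=
          mul_le_mul_of_nonneg_right (mul_le_mul_of_nonneg_right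
            (mul_le_mul_of_nonneg_right h13 (by positivity)) (by positivity)) (by positivity)
      _ = C4 * (sc * B') * (R + Lt) ^ (A1' + 8) := by rw [pow_add]; ring
  have hM1 : 1 ≤ sc * B' := by nlinarith
  have hMe : sc * B' ≤ Real.exp (C4 * R) := by
    have h1 : sc ≤ Real.exp R := by
      rw [hsc, Real.sqrt_le_left (Real.exp_pos _).le, ← Real.exp_nat_mul,
        ← Real.log_le_iff_le_exp (by linarith)]
      push_cast
      linarith
    calc sc * B' ≤ Real.exp R * Real.exp R := mul_le_mul h1 hB'e (by linarith) (Real.exp_pos _).le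
      _ = Real.exp (2 * R) := by rw [← Real.exp_add]; ring_nf
      _ ≤ Real.exp (C4 * R) := Real.exp_le_exp.2 (mul_le_mul_of_nonneg_right hC41 (by linarith))
  have hfin := hcals t (sc * B') R hM1 hR1' hMe ht0 hsum
  refine hfin.trans ?_
  rw [mul_assoc C' sc B]
  exact mul_le_mul_of_nonneg_right (mul_le_mul_of_nonneg_left
    (mul_le_mul_of_nonneg_left hB'B (by linarith)) (by linarith)) (by positivity)

end Pool.Helper99.SZ
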