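import Pool.Agent.Helper99.SZ.Stmts2
import Pool.Agent.Helper99.SZ.SZF

/-!
# The bound with explicit dependence on the number of primes
-/

set_option autoImplicit false

namespace Pool.Helper99.SZ

open NumberField

theorem sf2_m (D : ℕ) (s : Finset ℕ) (hs : s ⊆ D.primeFactors) :
    (s.card : ℝ) + 1 ≤ 2 * (1 + ∑ p ∈ s, Real.log p) := by
  have h1 : (s.card : ℝ) * Real.log 2 ≤ ∑ p ∈ s, Real.log p := by
    rw [← nsmul_eq_mul]
    refine Finset.card_nsmul_le_sum s (fun p : ℕ => Real.log (p : ℝ)) _ fun p hp => ?_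
    refine Real.log_le_log (by norm_num) ?_
    exact_mod_cast (Nat.prime_of_mem_primeFactors (hs hp)).two_le
  have h2 := Real.log_two_gt_d9
  have h3 : (0 : ℝ) ≤ s.card := Nat.cast_nonneg _
  nlinarith

theorem sf2_end (c1 C m : ℕ) (c5 C' R Lt sc q ν : ℝ) (hc1 : 1 ≤ c1) (hc5 : 1 ≤ c5) (hC' : 1 ≤ C')
    (hR : 1 ≤ R) (hLt : Lt ≤ C' * R ^ 2) (hLt0 : 0 ≤ Lt) (hq : 0 ≤ q) (hsc : 0 ≤ sc)
    (hν : ν = 142 * sc * (8 * R) ^ 8)
    (hC1 : 2 * c1 * c5 * (1 + C') ≤ C) (hC2 : 16 ≤ C) (hC3 : 8 + 3 * c1 ≤ C) :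
    ν * q * (2 * c1 * c5 * R * (R + Lt)) ^ (c1 * (m + 1)) ≤ sc * q * (C * R) ^ (C * (m + 1)) := by
  have hC16 : (16 : ℝ) ≤ C := by exact_mod_cast hC2
  have hc1' : (1 : ℝ) ≤ c1 := by exact_mod_cast hc1
  have hCR : 1 ≤ (C : ℝ) * R := by nlinarith
  have h1 : 142 * (8 * R) ^ 8 ≤ ((C : ℝ) * R) ^ (8 * (m + 1)) := by
    calc 142 * (8 * R) ^ 8 ≤ (16 * R) ^ 8 := by
          rw [mul_pow, mul_pow]
          have : 0 ≤ R ^ 8 := by positivity
          nlinarith
      _ ≤ ((C : ℝ) * R) ^ 8 := pow_le_pow_left₀ (by positivity)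
          (mul_le_mul_of_nonneg_right hC16 (by linarith)) 8
      _ ≤ ((C : ℝ) * R) ^ (8 * (m + 1)) := pow_le_pow_right₀ hCR (by omega)
  have h2 : (2 * c1 * c5 * R * (R + Lt)) ^ (c1 * (m + 1)) ≤ ((C : ℝ) * R) ^ (3 * c1 * (m + 1)) := by
    have e1 : R + Lt ≤ (1 + C') * R ^ 2 := by nlinarith
    have e2 : 2 * c1 * c5 * R * (R + Lt) ≤ ((C : ℝ) * R) ^ 3 := by
      calc 2 * c1 * c5 * R * (R + Lt) ≤ 2 * c1 * c5 * R * ((1 + C') * R ^ 2) :=
            mul_le_mul_of_nonneg_left e1 (by positivity)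
        _ = (2 * c1 * c5 * (1 + C')) * R ^ 3 := by ring
        _ ≤ C * R ^ 3 := mul_le_mul_of_nonneg_right hC1 (by positivity)
        _ ≤ (C : ℝ) ^ 3 * R ^ 3 := mul_le_mul_of_nonneg_right
            (le_self_pow₀ (by linarith) (by norm_num)) (by positivity)
        _ = ((C : ℝ) * R) ^ 3 := by rw [mul_pow]
    calc (2 * c1 * c5 * R * (R + Lt)) ^ (c1 * (m + 1)) ≤ (((C : ℝ) * R) ^ 3) ^ (c1 * (m + 1)) :=
          pow_le_pow_left₀ (by positivity) e2 _
      _ = ((C : ℝ) * R) ^ (3 * c1 * (m + 1)) := by rw [← pow_mul]; ring_nf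
  calc ν * q * (2 * c1 * c5 * R * (R + Lt)) ^ (c1 * (m + 1))
      = sc * q * ((142 * (8 * R) ^ 8) * (2 * c1 * c5 * R * (R + Lt)) ^ (c1 * (m + 1))) := by
        rw [hν]
        ring
    _ ≤ sc * q * (((C : ℝ) * R) ^ (8 * (m + 1)) * ((C : ℝ) * R) ^ (3 * c1 * (m + 1))) :=
        mul_le_mul_of_nonneg_left (mul_le_mul h1 h2 (by positivity) (by positivity)) (by positivity)
    _ = sc * q * ((C : ℝ) * R) ^ ((8 + 3 * c1) * (m + 1)) := by
        rw [← pow_add]
        congr 2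
        ring
    _ ≤ sc * q * ((C : ℝ) * R) ^ (C * (m + 1)) :=
        mul_le_mul_of_nonneg_left (pow_le_pow_right₀ hCR (Nat.mul_le_mul_right _ hC3))
          (by positivity)

theorem sf2_sum (c1 c m : ℕ) (c5 R Lt ν : ℝ) (hc1 : 1 ≤ c1) (hc5 : 1 ≤ c5)
    (hR : 1 ≤ R) (hLt0 : 0 ≤ Lt) (hm : (m : ℝ) + 1 ≤ 2 * R) (hν : ν ≤ Real.exp (11 * R) ^ 4)
    (h0 : 0 ≤ ν) (hC1 : 2 * c1 * c5 ≤ c) (hC2 : 50 ≤ c) (hC3 : c1 ≤ c) :
    m * (ν * Real.exp R * (2 * c1 * c5 * R * (R + Lt)) ^ (c1 * (m + 1))) ≤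
      Real.exp (c * R) * (c * R * (R + Lt)) ^ (c * (m + 1)) := by
  have hc1' : (1 : ℝ) ≤ c1 := by exact_mod_cast hc1
  have hc50 : (50 : ℝ) ≤ c := by exact_mod_cast hC2
  have h1 : (m : ℝ) ≤ Real.exp (2 * R) := by
    have := Real.add_one_le_exp (2 * R)
    linarith
  have h2 : (m : ℝ) * (ν * Real.exp R) ≤ Real.exp (c * R) := by
    calc (m : ℝ) * (ν * Real.exp R) ≤ Real.exp (2 * R) * (Real.exp (11 * R) ^ 4 * Real.exp R) :=
          mul_le_mul h1 (mul_le_mul_of_nonneg_right hν (Real.exp_pos _).le) (by positivity)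
            (Real.exp_pos _).le
      _ = Real.exp (2 * R + (44 * R + R)) := by
          rw [← Real.exp_nat_mul, ← Real.exp_add, ← Real.exp_add]
          congr 1
          push_cast
          ring
      _ ≤ Real.exp (c * R) := Real.exp_le_exp.2 (by nlinarith)
  have h3 : (2 * c1 * c5 * R * (R + Lt)) ^ (c1 * (m + 1)) ≤ (c * R * (R + Lt)) ^ (c * (m + 1)) := by
    have e1 : 2 * c1 * c5 * R * (R + Lt) ≤ c * R * (R + Lt) :=
      mul_le_mul_of_nonneg_right (mul_le_mul_of_nonneg_right hC1 (by linarith)) (by linarith)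
    have e2 : 1 ≤ c * R * (R + Lt) := by
      have : 1 ≤ (c : ℝ) * R := by nlinarith
      nlinarith
    exact (pow_le_pow_left₀ (by positivity) e1 _).trans
      (pow_le_pow_right₀ e2 (Nat.mul_le_mul_right _ hC3))
  calc m * (ν * Real.exp R * (2 * c1 * c5 * R * (R + Lt)) ^ (c1 * (m + 1)))
      = m * (ν * Real.exp R) * (2 * c1 * c5 * R * (R + Lt)) ^ (c1 * (m + 1)) := by ring
    _ ≤ Real.exp (c * R) * (c * R * (R + Lt)) ^ (c * (m + 1)) :=
        mul_le_mul h2 h3 (by positivity) (Real.exp_pos _).le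

theorem st_SF2 (hON2 : ST_ON2) (hSIZ : ST_SIZ) (hFLW : ST_FLW) (hHPL : ST_HPL) (hCL2 : ST_CL2)
    (hCU2 : ST_CU2) (hIDC : BK.ST_IDC) : ST_SF2 := by
  obtain ⟨c1, hc11, hone⟩ := hON2
  obtain ⟨C2, hC2, hsiz⟩ := hSIZ
  obtain ⟨C3, hC3, hhpl⟩ := hHPL
  obtain ⟨c5, hc5⟩ : ∃ c5 : ℝ, c5 = 10 * C2 * C3 + 31 := ⟨_, rfl⟩
  have hc51 : 1 ≤ c5 := by
    have : 0 ≤ C2 * C3 := by positivity
    rw [hc5]
    linarith
  obtain ⟨c, hc⟩ : ∃ c : ℕ, c = ⌈2 * c1 * c5⌉₊ + 50 + c1 := ⟨_, rfl⟩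
  have hcc1 : 2 * c1 * c5 ≤ c := by
    have := Nat.le_ceil (2 * c1 * c5)
    rw [hc]
    push_cast
    have h0 : (0 : ℝ) ≤ c1 := Nat.cast_nonneg _
    linarith
  obtain ⟨C', hC'1, hcl2⟩ := hCL2 c (by omega)
  obtain ⟨C, hC⟩ : ∃ C : ℕ, C = ⌈2 * c1 * c5 * (1 + C')⌉₊ + 16 + (8 + 3 * c1) := ⟨_, rfl⟩
  have hCC : 2 * c1 * c5 * (1 + C') ≤ C := by
    have := Nat.le_ceil (2 * c1 * c5 * (1 + C'))
    rw [hC]
    push_cast
    have h0 : (0 : ℝ) ≤ c1 := Nat.cast_nonneg _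
    linarith
  refine ⟨C, ?_⟩
  intro W hΔ hirr s hs
  -- the primes
  have hspf : s ⊆ W.Δ.natAbs.primeFactors := by
    intro p hp
    obtain ⟨h1, h2, h3⟩ := hs p hp
    exact Nat.mem_primeFactors.2 ⟨h1, Int.natCast_dvd.1 h2, Int.natAbs_ne_zero.2 hΔ⟩
  have hDne : W.Δ.natAbs ≠ 0 := Int.natAbs_ne_zero.2 hΔ
  have habs : Real.log |(W.Δ : ℝ)| = Real.log (W.Δ.natAbs : ℝ) := by
    rw [Nat.cast_natAbs, Int.cast_abs]
  have hRdef := szf_R W.Δ.natAbs hDne s hspf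
  rw [← habs] at hRdef
  rw [hRdef]
  obtain ⟨R0, hR0⟩ : ∃ R0 : ℝ, R0 = ∑ p ∈ W.Δ.natAbs.primeFactors \ s,
    (W.Δ.natAbs.factorization p : ℝ) * Real.log p := ⟨_, rfl⟩
  obtain ⟨R1, hR1⟩ : ∃ R1 : ℝ, R1 = ∑ p ∈ s, Real.log p := ⟨_, rfl⟩
  obtain ⟨t, ht⟩ : ∃ t : ℝ, t = ∑ p ∈ s, (W.Δ.natAbs.factorization p : ℝ) * Real.log p := ⟨_, rfl⟩
  rw [← hR0, ← hR1] at hRdef ⊢
  have hR00 : 0 ≤ R0 := by
    rw [hR0]
    refine Finset.sum_nonneg fun p hp => mul_nonneg (Nat.cast_nonneg _) ?_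
    have := (Nat.prime_of_mem_primeFactors (Finset.mem_sdiff.1 hp).1).one_lt.le
    exact Real.log_nonneg (by exact_mod_cast this)
  have hR10 : 0 ≤ R1 := by
    rw [hR1]
    exact Finset.sum_nonneg fun p hp => szf_nonneg _ s hspf p hp
  have ht0 : 0 ≤ t := by
    rw [ht]
    exact Finset.sum_nonneg fun p hp => mul_nonneg (Nat.cast_nonneg _) (szf_nonneg _ s hspf p hp)
  obtain ⟨R, hR⟩ : ∃ R : ℝ, R = 1 + R0 + R1 := ⟨_, rfl⟩
  rw [← hR] at hRdef ⊢
  have hR1' : 1 ≤ R := by linarith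
  have hLD : Real.log |(W.Δ : ℝ)| = R0 + t := by
    rw [habs, szf_log _ hDne, ← Finset.sum_sdiff hspf, ← hR0, ← ht]
  obtain ⟨hcond1, hcond2⟩ := szf_cond W hΔ s hspf (fun p hp => (hs p hp).2.2)
  rw [← hR0, ← hR1] at hcond2
  have hcondR : (1 : ℝ) ≤ (cond W : ℝ) := by exact_mod_cast hcond1
  -- the field
  obtain ⟨f1, f2, K, iK, iN, β, κ, σ, hCF, hσ, hdisc⟩ := hFLW W hΔ hirr
  obtain ⟨pp, hpp⟩ : ∃ pp : Fin s.card → ℕ, ∀ i, pp i = (s.equivFin.symm i : ℕ) := ⟨_, fun _ => rfl⟩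
  have hpps : ∀ i, pp i ∈ s := fun i => by rw [hpp]; exact (s.equivFin.symm i).2
  have hppinj : Function.Injective pp := by
    intro i j hij
    rw [hpp, hpp] at hij
    exact s.equivFin.symm.injective (Subtype.ext hij)
  obtain ⟨P, 𝔞, hCD⟩ := hCU2 K β W.b₂ (8 * W.b₄) (16 * W.b₆) κ hCF s.card pp hppinj
    (fun j => (hs _ (hpps j)).1) (fun j => by
      rw [f1]
      exact Dvd.dvd.mul_left (hs _ (hpps j)).2.1 _)
    (fun j => by
      rw [f2]
      exact (hs _ (hpps j)).2.2)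
  have hpR : ∀ p ∈ s, Real.log p ≤ R := by
    intro p hp
    have h1 : Real.log p ≤ R1 := by
      rw [hR1]
      exact Finset.single_le_sum (f := fun p : ℕ => Real.log (p : ℝ))
        (fun j hj => szf_nonneg _ s hspf j hj) hp
    linarith
  have hpe : ∀ p ∈ s, (p : ℝ) ≤ Real.exp R := by
    intro p hp
    rw [← Real.log_le_iff_le_exp (by exact_mod_cast (hs p hp).1.pos)]
    exact hpR p hp
  have hdne : NumberField.discr K ≠ 0 := NumberField.discr_ne_zero K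
  have hd1 : (1 : ℝ) ≤ |(NumberField.discr K : ℝ)| := by
    have := Int.one_le_abs hdne
    exact_mod_cast this
  obtain ⟨n1, n2, n3, n4⟩ := szf_nu R (cond W) |(NumberField.discr K : ℝ)| hR1' hcondR
    (by linarith) hd1 hdisc
  obtain ⟨sc, hsc⟩ : ∃ sc : ℝ, sc = Real.sqrt (cond W : ℝ) := ⟨_, rfl⟩
  rw [← hsc] at n2 n3 n4 ⊢
  have hsc1 : 1 ≤ sc := by
    rw [hsc, ← Real.sqrt_one]
    exact Real.sqrt_le_sqrt hcondR
  obtain ⟨ν, hν⟩ : ∃ ν : ℝ, ν = 142 * sc * (8 * R) ^ 8 := ⟨_, rfl⟩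
  rw [← hν] at n2 n3 n4
  -- the norm of 𝔞
  have hna1 : Ideal.absNorm 𝔞 ≠ 0 := by
    intro h8
    have h6 := hCD.na
    rw [h8, zero_mul, f1] at h6
    have : (256 * W.Δ).natAbs ≠ 0 := Int.natAbs_ne_zero.2 (by omega)
    exact this h6.symm
  have hnalog : Real.log (Ideal.absNorm 𝔞 : ℝ) ≤ 6 * R := by
    have h6 := hCD.na
    rw [f1] at h6
    have h7 : Real.log (Ideal.absNorm 𝔞 : ℝ) +
        ∑ j, ((256 * W.Δ).natAbs.factorization (pp j) : ℝ) * Real.log (pp j) =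
        Real.log 256 + Real.log (W.Δ.natAbs : ℝ) := by
      have h8 : ((Ideal.absNorm 𝔞 * ∏ j, pp j ^ ((256 * W.Δ).natAbs.factorization (pp j)) : ℕ) : ℝ) =
          256 * (W.Δ.natAbs : ℝ) := by
        rw [h6, Int.natAbs_mul]
        push_cast
        norm_num
      have h9 : ∀ j, (pp j : ℝ) ≠ 0 := fun j => by
        have := (hs _ (hpps j)).1.pos
        positivity
      have h10 := congrArg Real.log h8
      rw [Nat.cast_mul, Nat.cast_prod, Real.log_mul (by exact_mod_cast hna1)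
        (Finset.prod_ne_zero_iff.2 fun j _ => by rw [Nat.cast_pow]; exact pow_ne_zero _ (h9 j)),
        Real.log_prod (fun j _ => by rw [Nat.cast_pow]; exact pow_ne_zero _ (h9 j)),
        Real.log_mul (by norm_num) (by exact_mod_cast hDne)] at h10
      rw [← h10]
      congr 1
      exact Finset.sum_congr rfl fun j _ => by rw [Nat.cast_pow, Real.log_pow]
    have h8 : t ≤ ∑ j, ((256 * W.Δ).natAbs.factorization (pp j) : ℝ) * Real.log (pp j) := by
      have h9 : t = ∑ j, (W.Δ.natAbs.factorization (pp j) : ℝ) * Real.log (pp j) := by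
        rw [ht, ← Finset.sum_coe_sort s, ← Equiv.sum_comp s.equivFin.symm]
        exact Finset.sum_congr rfl fun j _ => by rw [hpp]
      rw [h9]
      refine Finset.sum_le_sum fun j _ => mul_le_mul_of_nonneg_right ?_ (szf_nonneg _ s hspf _ (hpps j))
      obtain ⟨r, hr⟩ := szf_fac W.Δ hΔ (pp j)
      rw [hr]
      push_cast
      have : (0 : ℝ) ≤ r := Nat.cast_nonneg _
      linarith
    rw [← habs, hLD] at h7
    have := szf_log256
    linarith
  have hexpR : Real.exp R ≤ Real.exp (11 * R) := Real.exp_le_exp.2 (by linarith)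
  have hY3 : 3 ≤ Real.exp (11 * R) := by
    have := Real.add_one_le_exp (11 * R)
    linarith
  have hnaY : (Ideal.absNorm 𝔞 : ℝ) ≤ Real.exp (11 * R) := by
    rw [← Real.log_le_iff_le_exp (by exact_mod_cast Nat.pos_of_ne_zero hna1)]
    linarith
  -- the sizes
  obtain ⟨LD, hLD'⟩ : ∃ LD : ℝ, LD = Real.log |(W.Δ : ℝ)| := ⟨_, rfl⟩
  have hLDt : LD = R0 + t := by rw [hLD', hLD]
  have hLD0 : 0 ≤ LD := by linarith
  obtain ⟨H, hH⟩ : ∃ H : ℝ, H = C3 * sc * (1 + LD) ^ 19 := ⟨_, rfl⟩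
  have hLD19 : 1 + LD ≤ (1 + LD) ^ 19 := le_self_pow₀ (by linarith) (by norm_num)
  have hH1 : 1 + LD ≤ H := by
    have h1 : 1 ≤ C3 * sc := by nlinarith
    have h2 : 0 ≤ (1 + LD) ^ 19 := by positivity
    rw [hH]
    nlinarith
  obtain ⟨S, hS⟩ : ∃ S : ℝ, S = 10 * C2 * H := ⟨_, rfl⟩
  have hS10 : 10 * H ≤ S := by
    rw [hS]
    nlinarith
  have hlog256Δ : Real.log |((256 * W.Δ : ℤ) : ℝ)| ≤ 6 + LD := by
    have h1 : (W.Δ : ℝ) ≠ 0 := by exact_mod_cast hΔ
    rw [Int.cast_mul, abs_mul, Real.log_mul (by norm_num) (abs_ne_zero.2 h1), hLD']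
    have h2 : |((256 : ℤ) : ℝ)| = 256 := by norm_num
    rw [h2]
    have := szf_log256
    linarith
  have hc4 : Real.log (1 + |(W.c₄ : ℝ)|) ≤ 1 + H := by
    by_cases h0 : W.c₄ = 0
    · rw [h0]
      simp only [Int.cast_zero, abs_zero, add_zero, Real.log_one]
      linarith
    · have h1 : (1 : ℝ) ≤ |(W.c₄ : ℝ)| := by
        have := Int.one_le_abs h0
        exact_mod_cast this
      have h2 := hhpl W hΔ
      rw [← hsc, ← hLD', ← hH] at h2
      have h3 : Real.log (1 + |(W.c₄ : ℝ)|) ≤ Real.log (2 * |(W.c₄ : ℝ)|) :=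
        Real.log_le_log (by linarith) (by linarith)
      rw [Real.log_mul (by norm_num) (by linarith)] at h3
      have := Real.log_two_lt_d9
      linarith
  have hσS : ∀ i, |Real.log ‖σ i (κ : K)‖| ≤ S := by
    intro i
    have h1 := hsiz K β W.b₂ (8 * W.b₄) (16 * W.b₆) κ hCF σ hσ i
    rw [f1, f2] at h1
    refine h1.trans ?_
    have h2 : 1 + Real.log (1 + |(W.c₄ : ℝ)|) + Real.log |((256 * W.Δ : ℤ) : ℝ)| ≤ 10 * H := by
      linarith
    calc C2 * (1 + Real.log (1 + |(W.c₄ : ℝ)|) + Real.log |((256 * W.Δ : ℤ) : ℝ)|)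
        ≤ C2 * (10 * H) := mul_le_mul_of_nonneg_left h2 (by linarith)
      _ = S := by rw [hS]; ring
  have hvS : ∀ j, ((dis W.b₂ (8 * W.b₄) (16 * W.b₆)).natAbs.factorization (pp j) : ℝ) *
      Real.log (pp j) ≤ S := by
    intro j
    rw [f1]
    have h256 : (256 * W.Δ).natAbs ≠ 0 := Int.natAbs_ne_zero.2 (by omega)
    have h1 : Real.log ((256 * W.Δ).natAbs : ℝ) ≤ 6 + LD := by
      rw [Nat.cast_natAbs, Int.cast_abs]
      exact hlog256Δ
    have h2 : ((256 * W.Δ).natAbs.factorization (pp j) : ℝ) * Real.log (pp j) ≤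
        Real.log ((256 * W.Δ).natAbs : ℝ) := by
      rw [szf_log _ h256]
      refine Finset.single_le_sum (f := fun p : ℕ => ((256 * W.Δ).natAbs.factorization p : ℝ) *
        Real.log (p : ℝ)) (fun q hq => mul_nonneg (Nat.cast_nonneg _) (Real.log_nonneg (by
          exact_mod_cast (Nat.prime_of_mem_primeFactors hq).one_lt.le))) ?_
      refine Nat.mem_primeFactors.2 ⟨(hs _ (hpps j)).1, ?_, h256⟩
      exact Int.natCast_dvd.1 (Dvd.dvd.mul_left (hs _ (hpps j)).2.1 _)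
    linarith
  -- logarithms
  obtain ⟨Lt, hLt⟩ : ∃ Lt : ℝ, Lt = Real.log (1 + t) := ⟨_, rfl⟩
  have hLt0 : 0 ≤ Lt := by
    rw [hLt]
    exact Real.log_nonneg (by linarith)
  have hlogLD : Real.log (1 + LD) ≤ R + Lt := by
    have h1 : 1 + LD ≤ R * (1 + t) := by nlinarith
    have h2 := Real.log_le_log (by linarith) h1
    rw [Real.log_mul (by linarith) (by linarith), ← hLt] at h2
    have h3 := Real.log_le_sub_one_of_pos (show 0 < R by linarith)
    linarith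
  have hlogS : Real.log S ≤ (10 * C2 * C3 + 20) * (R + Lt) := by
    have e1 : S = (10 * C2 * C3) * sc * (1 + LD) ^ 19 := by rw [hS, hH]; ring
    rw [e1, Real.log_mul (by positivity) (by positivity), Real.log_mul (by positivity) (by positivity),
      Real.log_pow, hsc, Real.log_sqrt (by linarith)]
    have e2 := Real.log_le_sub_one_of_pos (show 0 < 10 * C2 * C3 by positivity)
    have e3 : 10 * C2 * C3 ≤ 10 * C2 * C3 * (R + Lt) :=
      le_mul_of_one_le_right (by positivity) (by linarith)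
    push_cast
    linarith
  have hlogs : Real.log (Real.exp (11 * R)) + Real.log S ≤ c5 * (R + Lt) := by
    rw [Real.log_exp, hc5]
    linarith
  have hS3 : 3 ≤ S := by linarith
  have hlogS0 : 0 ≤ Real.log S := Real.log_nonneg (by linarith)
  obtain ⟨m, hm⟩ : ∃ m : ℕ, m = s.card := ⟨_, rfl⟩
  have hm2 : (m : ℝ) + 1 ≤ 2 * R := by
    have h1 := sf2_m W.Δ.natAbs s hspf
    rw [← hR1] at h1
    rw [hm]
    linarith
  have hIDle : ((BK.ID K (2 * Real.sqrt |(NumberField.discr K : ℝ)|)).ncard : ℝ) ≤ ν := by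
    refine (hIDC K hCF.deg _ ?_).trans n2
    have : 1 ≤ Real.sqrt |(NumberField.discr K : ℝ)| := by
      rw [← Real.sqrt_one]
      exact Real.sqrt_le_sqrt hd1
    linarith
  have hmY : (s.card : ℝ) ≤ Real.exp (11 * R) := by
    have := Real.add_one_le_exp (11 * R)
    rw [← hm]
    linarith
  have hν0 : 0 ≤ ν := by linarith
  have hc1R : (1 : ℝ) ≤ c1 := by exact_mod_cast hc11
  -- every prime
  have hone' : ∀ j, (W.Δ.natAbs.factorization (pp j) : ℝ) * Real.log (pp j) ≤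
      ν * (if Even (W.Δ.natAbs.factorization (pp j)) then (pp j : ℝ) else 1) *
        (2 * c1 * c5 * R * (R + Lt)) ^ (c1 * (m + 1)) := by
    intro j
    have h1 := hone s.card K β W.b₂ (8 * W.b₄) (16 * W.b₆) κ pp P 𝔞 hCD σ hσ (Real.exp (11 * R)) S ν
      hY3 hmY n1 hnaY (fun j => (hpe _ (hpps j)).trans hexpR) hS3 hσS hvS hIDle n3 n4 j
    rw [f1, ← hm] at h1
    obtain ⟨r, hr⟩ := szf_fac W.Δ hΔ (pp j)
    have h2 : (W.Δ.natAbs.factorization (pp j) : ℝ) * Real.log (pp j) ≤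
        ((256 * W.Δ).natAbs.factorization (pp j) : ℝ) * Real.log (pp j) := by
      refine mul_le_mul_of_nonneg_right ?_ (szf_nonneg _ s hspf _ (hpps j))
      rw [hr]
      push_cast
      have : (0 : ℝ) ≤ r := Nat.cast_nonneg _
      linarith
    refine (h2.trans h1).trans ?_
    have h3 : (if Odd ((256 * W.Δ).natAbs.factorization (pp j)) then 1 else (pp j : ℝ)) =
        (if Even (W.Δ.natAbs.factorization (pp j)) then (pp j : ℝ) else 1) := by
      have e1 : Odd ((256 * W.Δ).natAbs.factorization (pp j)) ↔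
          ¬ Even (W.Δ.natAbs.factorization (pp j)) := by
        rw [Nat.not_even_iff_odd, hr]
        constructor
        · intro h
          have := Nat.odd_add.1 h
          by_contra h8
          exact (Nat.not_odd_iff_even.2 (even_two_mul r)) (this.2 (Nat.not_odd_iff_even.1 h8))
        · intro h
          exact Nat.odd_add.2 ⟨fun h8 => absurd (even_two_mul r) (Nat.not_even_iff_odd.2 h8),
            fun h8 => absurd h8 (Nat.not_even_iff_odd.2 h)⟩
      by_cases he : Even (W.Δ.natAbs.factorization (pp j))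
      · rw [if_pos he, if_neg (fun h => e1.1 h he)]
      · rw [if_neg he, if_pos (e1.2 he)]
    rw [h3]
    have h4 : 0 ≤ (if Even (W.Δ.natAbs.factorization (pp j)) then (pp j : ℝ) else 1) := by
      split_ifs
      · exact Nat.cast_nonneg _
      · norm_num
    have h5 : (c1 : ℝ) * (m + 1) * (Real.log (Real.exp (11 * R)) + Real.log S) ≤
        2 * c1 * c5 * R * (R + Lt) := by
      have e1 : 0 ≤ Real.log (Real.exp (11 * R)) + Real.log S := by
        rw [Real.log_exp]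
        linarith
      calc (c1 : ℝ) * (m + 1) * (Real.log (Real.exp (11 * R)) + Real.log S)
          ≤ (c1 * (2 * R)) * (c5 * (R + Lt)) :=
            mul_le_mul (mul_le_mul_of_nonneg_left hm2 (by linarith)) hlogs e1 (by positivity)
        _ = 2 * c1 * c5 * R * (R + Lt) := by ring
    have h6 : 0 ≤ (c1 : ℝ) * (m + 1) * (Real.log (Real.exp (11 * R)) + Real.log S) := by
      rw [Real.log_exp]
      positivity
    exact mul_le_mul_of_nonneg_left (pow_le_pow_left₀ h6 h5 _) (by positivity)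
  have hsum : t ≤ Real.exp (c * R) * ((c : ℝ) * R * (R + Real.log (1 + t))) ^ (c * (m + 1)) := by
    rw [← hLt]
    have h9 : t = ∑ j, (W.Δ.natAbs.factorization (pp j) : ℝ) * Real.log (pp j) := by
      rw [ht, ← Finset.sum_coe_sort s, ← Equiv.sum_comp s.equivFin.symm]
      exact Finset.sum_congr rfl fun j _ => by rw [hpp]
    have h10 : t ≤ m * (ν * Real.exp R * (2 * c1 * c5 * R * (R + Lt)) ^ (c1 * (m + 1))) := by
      rw [h9]
      refine (Finset.sum_le_sum (g := fun _ => ν * Real.exp R *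
        (2 * c1 * c5 * R * (R + Lt)) ^ (c1 * (m + 1))) fun j _ => (hone' j).trans ?_).trans ?_
      · refine mul_le_mul_of_nonneg_right (mul_le_mul_of_nonneg_left ?_ hν0) (by positivity)
        split_ifs
        · exact hpe _ (hpps j)
        · have := Real.add_one_le_exp R
          linarith
      · rw [Finset.sum_const, Finset.card_univ, Fintype.card_fin, nsmul_eq_mul, hm]
    exact h10.trans (sf2_sum c1 c m c5 R Lt ν hc11 hc51 hR1' hLt0 hm2 n4 hν0 hcc1 (by omega)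
      (by omega))
  have hcR : (m : ℝ) + 1 ≤ c * R := by
    have h50 : (2 : ℝ) ≤ c := by exact_mod_cast (show 2 ≤ c by omega)
    have := mul_le_mul_of_nonneg_right h50 (show 0 ≤ R by linarith)
    linarith
  have hL := hcl2 m t R hR1' hcR ht0 hsum
  rw [← hLt] at hL
  intro p hp
  obtain ⟨j, hj⟩ : ∃ j, pp j = p := ⟨s.equivFin ⟨p, hp⟩, by rw [hpp, Equiv.symm_apply_apply]⟩
  have h1 := hone' j
  rw [hj] at h1
  rw [← hm]
  refine h1.trans (sf2_end c1 C m c5 C' R Lt sc _ ν hc11 hc51 hC'1 hR1' hL hLt0 ?_ (by linarith) hν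
    hCC (by omega) (by omega))
  split_ifs
  · exact Nat.cast_nonneg _
  · norm_num

end Pool.Helper99.SZ
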