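import Pool.Agent.Helper99.SZ.AFI
import Pool.Agent.Helper99.SZ.Stmts6

/-!
# All elliptic curves: only the primes with a large even exponent matter
-/

set_option autoImplicit false

namespace Pool.Helper99.SZ

lemma afy_core (hQ : ST_QMY) (hRM : ST_RMY) (ε : ℝ) (hε : 0 < ε) : ∃ C : ℝ, 1 ≤ C ∧
    ∀ a b d D c : ℤ, d = a ^ 2 - 4 * b → b ^ 2 * d = 256 * D → c = d + b → D ≠ 0 →
    ∀ M : ℕ, M = ∏ p ∈ D.natAbs.primeFactors,
      (if (p : ℤ) ∣ c then p ^ 2 else p ^ (D.natAbs.factorization p % 2)) →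
    ∀ B : ℝ, 1 ≤ B → (∀ p ∈ D.natAbs.primeFactors, ¬ (p : ℤ) ∣ c →
      Even (D.natAbs.factorization p) →
      Real.sqrt M ≤ (D.natAbs.factorization p : ℝ) → (p : ℝ) ≤ B) →
    ∀ R : ℝ, R = 1 + ∑ p ∈ D.natAbs.primeFactors,
      (if (p : ℤ) ∣ c then (D.natAbs.factorization p : ℝ) else 1) * Real.log p →
    ∀ L : ℝ, (L = Real.log |(D : ℝ)| ∨ L = Real.log |(c : ℝ)|) →
    L ≤ C * Real.sqrt (M : ℝ) * B * Real.exp (ε * R) := by
  obtain ⟨C1, hC1, h1⟩ := hQ ε hε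
  obtain ⟨C2, hC2, h2⟩ := hRM ε hε
  obtain ⟨C3, hC3⟩ : ∃ C3, C3 = max C1 C2 := ⟨_, rfl⟩
  have hC31 : C1 ≤ C3 := by rw [hC3]; exact le_max_left _ _
  have hC32 : C2 ≤ C3 := by rw [hC3]; exact le_max_right _ _
  have hC30 : 0 ≤ C3 := by linarith
  have hexp1 : 1 ≤ Real.exp (ε * (20 * Real.log 2)) :=
    Real.one_le_exp (mul_nonneg hε.le (mul_nonneg (by norm_num) (Real.log_nonneg (by norm_num))))
  refine ⟨30 * C3 * Real.exp (ε * (20 * Real.log 2)), by nlinarith, ?_⟩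
  intro a b d D c hd hbd hc hD M hM B hB hBp R hR L hL
  have hb : b ≠ 0 := by
    rintro rfl
    apply hD
    have : (256 : ℤ) * D = 0 := by rw [← hbd]; ring
    omega
  have hd0 : d ≠ 0 := by
    intro h
    apply hD
    have : (256 : ℤ) * D = 0 := by rw [← hbd, h]; ring
    omega
  have rb : (1 : ℝ) ≤ |(b : ℝ)| := by exact_mod_cast Int.one_le_abs hb
  have rd : (1 : ℝ) ≤ |(d : ℝ)| := by exact_mod_cast Int.one_le_abs hd0
  have rD : |(b : ℝ)| ^ 2 * |(d : ℝ)| = 256 * |(D : ℝ)| := by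
    have : |((b ^ 2 * d : ℤ) : ℝ)| = |((256 * D : ℤ) : ℝ)| := by rw [hbd]
    push_cast at this
    rw [abs_mul, abs_pow, abs_mul] at this
    rw [this]
    norm_num
  have rc : |(c : ℝ)| ≤ |(d : ℝ)| + |(b : ℝ)| := by
    rw [hc]
    push_cast
    exact abs_add_le _ _
  have ra : 0 ≤ |(a : ℝ)| := abs_nonneg _
  obtain ⟨S, hS⟩ : ∃ S : ℝ, S = |(a : ℝ)| + |(b : ℝ)| + |(d : ℝ)| := ⟨_, rfl⟩
  have hS2 : 2 ≤ S := by linarith
  have hlog : L ≤ 5 * Real.log S := by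
    have h3 : Real.log (S ^ 5) = 5 * Real.log S := by
      rw [Real.log_pow]
      norm_num
    have hb5 : |(b : ℝ)| ≤ S := by linarith
    have hd5 : |(d : ℝ)| ≤ S := by linarith
    have hS1 : 1 ≤ S := by linarith
    have h4 : |(D : ℝ)| ≤ S ^ 5 := by
      calc |(D : ℝ)| ≤ |(b : ℝ)| ^ 2 * |(d : ℝ)| := by
            rw [rD]
            linarith [abs_nonneg (D : ℝ)]
        _ ≤ S ^ 2 * S := by gcongr
        _ = S ^ 3 := by ring
        _ ≤ S ^ 5 := pow_le_pow_right₀ hS1 (by norm_num)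
    have h5 : |(c : ℝ)| ≤ S ^ 5 := by
      calc |(c : ℝ)| ≤ S ^ 1 := by rw [pow_one]; linarith
        _ ≤ S ^ 5 := pow_le_pow_right₀ hS1 (by norm_num)
    rcases hL with rfl | rfl
    · rw [← h3]
      exact Real.log_le_log (abs_pos.mpr (by exact_mod_cast hD)) h4
    · by_cases hc0 : c = 0
      · rw [hc0]
        have := Real.log_nonneg hS1
        simp only [Int.cast_zero, abs_zero, Real.log_zero]
        linarith
      · rw [← h3]
        exact Real.log_le_log (abs_pos.mpr (by exact_mod_cast hc0)) h5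
  have hv2 := qfi_val0 b d D hb hd0 hD hbd 2 Nat.prime_two
  rw [if_pos rfl] at hv2
  have hRR : 1 + ∑ p ∈ (b * d).natAbs.primeFactors, (if (p : ℤ) ∣ b ∧ (p : ℤ) ∣ d then
      ((b.natAbs.factorization p : ℝ) + (d.natAbs.factorization p : ℝ)) else 1) *
        Real.log p ≤ R + 20 * Real.log 2 := by
    rw [hR]
    exact qfi_R b d D c hb hd0 hD (qfi_hyp b d D c b d hb hd0 hD hb hd0 hbd hc
      (fun p _ _ => Or.inl ⟨rfl, rfl⟩)
      (by
        intro h1 h2
        refine ⟨by rw [hc]; exact dvd_add h2 h1, ?_⟩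
        omega))
  have hB2 : ∀ q ∈ d.natAbs.primeFactors, ¬ (q : ℤ) ∣ b → Even (d.natAbs.factorization q) →
      Real.sqrt M ≤ (d.natAbs.factorization q : ℝ) → (q : ℝ) ≤ 2 * B := by
    intro q hq hqb hqe hqY
    have hqp : q.Prime := Nat.prime_of_mem_primeFactors hq
    by_cases hq2 : q = 2
    · rw [hq2]
      push_cast
      linarith
    · have hqd' : (q : ℤ) ∣ d := Int.natCast_dvd.mpr (Nat.dvd_of_mem_primeFactors hq)
      have hv := qfi_val b d D hb hd0 hD hbd q hqp hq2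
      have hb0 : b.natAbs.factorization q = 0 := by
        rw [qfi_dvd q hqp b hb] at hqb
        omega
      rw [hb0, mul_zero, zero_add] at hv
      have hqD : (q : ℤ) ∣ D := by
        rw [qfi_dvd q hqp D hD]
        rw [qfi_dvd q hqp d hd0] at hqd'
        omega
      have hqD' : q ∈ D.natAbs.primeFactors := by
        rw [Nat.mem_primeFactors]
        exact ⟨hqp, Int.natCast_dvd.mp hqD, Int.natAbs_ne_zero.mpr hD⟩
      have hqc : ¬ (q : ℤ) ∣ c := by
        intro h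
        rw [hc] at h
        exact hqb ((Int.dvd_add_right hqd').1 h)
      have := hBp q hqD' hqc (by rw [← hv]; exact hqe) (by rw [← hv]; exact hqY)
      linarith
  obtain ⟨Md, hMd⟩ : ∃ Md : ℕ, Md = ∏ q ∈ d.natAbs.primeFactors,
    q ^ (d.natAbs.factorization q % 2) := ⟨_, rfl⟩
  have hMM : Md ≤ 2 * M := by
    rw [hMd, hM]
    exact afi_prod b d D c hb hd0 hD hbd hc
  have hM1 : 1 ≤ M := by
    rw [hM]
    refine Finset.one_le_prod' (fun q hq => ?_)
    have := (Nat.prime_of_mem_primeFactors hq).pos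
    split_ifs
    · exact Nat.one_le_pow _ _ this
    · exact Nat.one_le_pow _ _ this
  have hM1' : (1 : ℝ) ≤ M := by exact_mod_cast hM1
  have hsM1 : 1 ≤ Real.sqrt M := by
    rw [Real.one_le_sqrt]
    exact hM1'
  obtain ⟨E, hE⟩ : ∃ E, E = Real.exp (ε * (R + 20 * Real.log 2)) := ⟨_, rfl⟩
  have hE0 : 0 < E := by rw [hE]; exact Real.exp_pos _
  have hE2 : E = Real.exp (ε * (20 * Real.log 2)) * Real.exp (ε * R) := by
    rw [hE, ← Real.exp_add]
    congr 1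
    ring
  have hmain : Real.log S ≤ C3 * (3 * Real.sqrt M * (2 * B)) * E := by
    rw [hS, hE]
    by_cases hsq : ∃ n : ℤ, n ^ 2 = d
    · obtain ⟨f, hf⟩ := hsq
      have hf0 : f ≠ 0 := by
        rintro rfl
        apply hd0
        rw [← hf]
        ring
      have h3 := h2 a b d f hd hb hf.symm hf0 (R + 20 * Real.log 2) (2 * B) (Real.sqrt M)
        (by linarith) (by linarith)
        (by
          intro q hq hqb hqY
          refine hB2 q hq hqb ?_ hqY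
          rw [← hf, Int.natAbs_pow, Nat.factorization_pow, Finsupp.smul_apply, smul_eq_mul]
          exact even_two_mul _) hRR
      refine h3.trans ?_
      have h4 : 2 * B + Real.sqrt M ≤ 3 * Real.sqrt M * (2 * B) := by nlinarith
      gcongr
    · push Not at hsq
      have h3 := h1 a b d hd hb hsq (R + 20 * Real.log 2) (2 * B) (Real.sqrt M)
        (by linarith) (by linarith) hB2 hRR
      refine h3.trans ?_
      rw [← hMd]
      have h5 : Real.sqrt (Md : ℝ) ≤ 2 * Real.sqrt M := by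
        rw [show (2 : ℝ) * Real.sqrt M = Real.sqrt (2 ^ 2 * M) by
          rw [Real.sqrt_mul (by norm_num), Real.sqrt_sq (by norm_num)]]
        apply Real.sqrt_le_sqrt
        have : (Md : ℝ) ≤ 2 * M := by exact_mod_cast hMM
        linarith
      have h6 : Real.sqrt (Md : ℝ) * (2 * B) ≤ 2 * Real.sqrt M * (2 * B) :=
        mul_le_mul_of_nonneg_right h5 (by linarith)
      have h4 : Real.sqrt (Md : ℝ) * (2 * B) + Real.sqrt M ≤ 3 * Real.sqrt M * (2 * B) := by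
        nlinarith
      gcongr
  calc L ≤ 5 * Real.log S := hlog
    _ ≤ 5 * (C3 * (3 * Real.sqrt M * (2 * B)) * E) := by linarith
    _ = _ := by rw [hE2]; ring

theorem st_AFY (hFIY : ST_FIY) (hQ : ST_QMY) (hRM : ST_RMY) : ST_AFY := by
  intro ε hε
  obtain ⟨C1, hC1, h1⟩ := hFIY ε hε
  obtain ⟨C2, hC2, h2⟩ := afy_core hQ hRM ε hε
  refine ⟨max C1 C2, le_max_of_le_left hC1, ?_⟩
  intro W hΔ B hB hBp R hR
  have hE := Real.exp_pos (ε * R)
  have hs := Real.sqrt_nonneg (cond W : ℝ)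
  by_cases hx : ∃ x : ℚ, 4 * x ^ 3 + W.b₂ * x ^ 2 + 2 * W.b₄ * x + W.b₆ = 0
  · obtain ⟨x, hx⟩ := hx
    obtain ⟨n, hn⟩ := qfi_root W.b₂ W.b₄ W.b₆ x hx
    have e1 : (3 * n ^ 2 + 2 * W.b₂ * n + 8 * W.b₄) ^ 2 *
        ((3 * n + W.b₂) ^ 2 - 4 * (3 * n ^ 2 + 2 * W.b₂ * n + 8 * W.b₄)) = 256 * W.Δ := by
      have h2 := W.b_relation
      rw [WeierstrassCurve.Δ]
      linear_combination (4 * W.b₂ ^ 3 + 27 * (16 * W.b₆ - (n ^ 3 + W.b₂ * n ^ 2 +
        8 * W.b₄ * n)) - 18 * W.b₂ * (8 * W.b₄)) * hn + 64 * W.b₂ ^ 2 * h2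
    have e2 : W.c₄ = ((3 * n + W.b₂) ^ 2 - 4 * (3 * n ^ 2 + 2 * W.b₂ * n + 8 * W.b₄)) +
        (3 * n ^ 2 + 2 * W.b₂ * n + 8 * W.b₄) := by
      rw [WeierstrassCurve.c₄]
      ring
    have e3 := h2 (3 * n + W.b₂) (3 * n ^ 2 + 2 * W.b₂ * n + 8 * W.b₄) _ W.Δ W.c₄ rfl e1 e2 hΔ (cond W) rfl B hB
      hBp R hR
    have hmax : C2 ≤ max C1 C2 := le_max_right _ _
    refine ⟨(e3 _ (Or.inl rfl)).trans ?_, (e3 _ (Or.inr rfl)).trans ?_⟩
    · show C2 * Real.sqrt (cond W : ℝ) * B * Real.exp (ε * R) ≤ _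
      gcongr
    · show C2 * Real.sqrt (cond W : ℝ) * B * Real.exp (ε * R) ≤ _
      gcongr
  · push Not at hx
    obtain ⟨e1, e2⟩ := h1 W hΔ hx B hB hBp R hR
    have hmax : C1 ≤ max C1 C2 := le_max_left _ _
    refine ⟨e1.trans ?_, e2.trans ?_⟩
    · gcongr
    · gcongr

end Pool.Helper99.SZ
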