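import Pool.Agent.Helper99.SZ.Stmts

/-!
# The bound for one exponent
-/

set_option autoImplicit false

namespace Pool.Helper99.SZ

open NumberField

theorem one_log (A3 : ℕ) (W : ℝ) (hW : 0 ≤ W) : ∃ c4 : ℝ, 1 ≤ c4 ∧ ∀ M : ℝ, 1 ≤ M →
    W * M + A3 * Real.log (c4 * M) ≤ c4 * M := by
  have h1 : 0 ≤ Real.log (2 * ((A3 : ℝ) + 1)) := Real.log_nonneg (by
    have : (0 : ℝ) ≤ A3 := Nat.cast_nonneg _
    linarith)
  refine ⟨2 * (W + A3 * Real.log (2 * ((A3 : ℝ) + 1))) + 1, ?_, ?_⟩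
  · have : 0 ≤ (A3 : ℝ) * Real.log (2 * ((A3 : ℝ) + 1)) := by positivity
    linarith
  · intro M hM
    set c4 : ℝ := 2 * (W + A3 * Real.log (2 * ((A3 : ℝ) + 1))) + 1 with hc4
    have hA : (0 : ℝ) ≤ A3 := Nat.cast_nonneg _
    have hB : 0 ≤ (A3 : ℝ) * Real.log (2 * ((A3 : ℝ) + 1)) := by positivity
    have hc : 1 ≤ c4 := by rw [hc4]; linarith
    have hy : 0 < c4 * M := by positivity
    have h2 : Real.log (c4 * M) ≤ Real.log (2 * ((A3 : ℝ) + 1)) + c4 * M / (2 * ((A3 : ℝ) + 1)) := by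
      have h3 : Real.log (c4 * M / (2 * ((A3 : ℝ) + 1))) ≤ c4 * M / (2 * ((A3 : ℝ) + 1)) - 1 :=
        Real.log_le_sub_one_of_pos (by positivity)
      rw [Real.log_div hy.ne' (by positivity)] at h3
      linarith
    have h4 : (A3 : ℝ) * (c4 * M / (2 * ((A3 : ℝ) + 1))) ≤ c4 * M / 2 := by
      rw [mul_div_assoc', div_le_div_iff₀ (by positivity) (by norm_num)]
      nlinarith
    have h5 := mul_le_mul_of_nonneg_left h2 hA
    have h6 : (A3 : ℝ) * Real.log (2 * ((A3 : ℝ) + 1)) ≤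
        (A3 : ℝ) * Real.log (2 * ((A3 : ℝ) + 1)) * M := le_mul_of_one_le_right hB hM
    have h7 : (W + A3 * Real.log (2 * ((A3 : ℝ) + 1))) * M ≤ c4 * M / 2 := by
      rw [hc4]
      nlinarith
    linarith [mul_add (A3 : ℝ) (Real.log (2 * ((A3 : ℝ) + 1))) (c4 * M / (2 * ((A3 : ℝ) + 1)))]

/-- the choice of the group -/
theorem one_group (hSUF : ST_SUF) (hODD : ST_ODD) (hEVEN : ST_EVEN) (hDVB : ST_DVB)
    (K : Type) [Field K] [NumberField K] (β : K) (a b c : ℤ) (κ : 𝓞 K) (m : ℕ)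
    (p : Fin m → ℕ) (P : Fin m → Ideal (𝓞 K)) (𝔞 : Ideal (𝓞 K)) (hCD : CD K β a b c κ m p P 𝔞)
    (L : Type) [Field L] [NumberField L] (e : Fin 3 → (K →+* L)) (he : Function.Injective e)
    (j0 : Fin m) (Q : Ideal (𝓞 L))
    (hQ : CQ K κ p P L e j0 ((dis a b c).natAbs.factorization (p j0)) Q) :
    ∃ (G1 : Subgroup Kˣ) (q0 : ℕ), -1 ∈ G1 ∧ (∀ u ∈ G1, ∃ a, SU P a u) ∧
      (∀ u ∈ G1, Dv Q 1 (e 2 (u : K) / e 1 (u : K) - 1)) ∧ 1 ≤ q0 ∧
      (q0 : ℝ) ≤ 2 * (if Odd ((dis a b c).natAbs.factorization (p j0)) then 1 else (p j0 : ℝ)) ∧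
      (∀ (ι : Type) [Fintype ι] (f : ι → Kˣ), (∀ i, ∃ a, SU P a (f i)) →
        ∃ F : Finset ι, Fintype.card ι ≤ q0 * F.card ∧ ∀ i ∈ F, ∀ j ∈ F, f i * (f j)⁻¹ ∈ G1) := by
  obtain ⟨s1, s2, s3, s4, s5, s6⟩ := hSUF K m P hCD.inj hCD.pr
  have hone : SU P 0 (1 : Kˣ) := (s4 1).2 ⟨1, by simp⟩
  have hneg : SU P 0 (-1 : Kˣ) := (s4 (-1)).2 ⟨-1, by simp⟩
  by_cases hodd : Odd ((dis a b c).natAbs.factorization (p j0))
  · refine ⟨{ carrier := {u | ∃ a, SU P a u}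
              mul_mem' := fun {x y} hx hy => by
                obtain ⟨a1, h1⟩ := hx
                obtain ⟨a2, h2⟩ := hy
                exact ⟨_, s1 _ _ _ _ h1 h2⟩
              one_mem' := ⟨0, hone⟩
              inv_mem' := fun {x} hx => by
                obtain ⟨a1, h1⟩ := hx
                exact ⟨_, s2 _ _ h1⟩ }, 1, ⟨0, hneg⟩, fun u hu => hu, ?_, le_rfl, ?_, ?_⟩
    · intro u hu
      obtain ⟨x, hx⟩ := hu
      exact hODD K β a b c κ m p P 𝔞 hCD L e he j0 Q hQ hodd u x hx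
    · rw [if_pos hodd]
      norm_num
    · intro ι _ f hf
      refine ⟨Finset.univ, ?_, ?_⟩
      · rw [one_mul]
        exact le_rfl
      · intro i _ j _
        obtain ⟨a1, h1⟩ := hf i
        obtain ⟨a2, h2⟩ := hf j
        exact ⟨_, s1 _ _ _ _ h1 (s2 _ _ h2)⟩
  · obtain ⟨d1, d2, d3, d4, d5, d6, d7, d8, d9⟩ := hDVB L Q hQ.pr hQ.bot
    have hp : 1 ≤ p j0 := (hCD.pp j0).one_lt.le
    have q1 : ∀ (x y : Kˣ), e 2 ((x * y : Kˣ) : K) / e 1 ((x * y : Kˣ) : K) =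
        (e 2 (x : K) / e 1 (x : K)) * (e 2 (y : K) / e 1 (y : K)) := by
      intro x y
      rw [Units.val_mul, map_mul, map_mul, mul_div_mul_comm]
    have q2 : ∀ (x : Kˣ), e 2 ((x⁻¹ : Kˣ) : K) / e 1 ((x⁻¹ : Kˣ) : K) =
        (e 2 (x : K) / e 1 (x : K)) ^ (-1 : ℤ) := by
      intro x
      rw [Units.val_inv_eq_inv_val, map_inv₀, map_inv₀, zpow_neg_one, inv_div_inv, inv_div]
    have hz : Dv Q 1 (0 : L) := ⟨0, 1, fun h => hQ.pr.ne_top ((Ideal.eq_top_iff_one Q).2 h),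
      Ideal.zero_mem _, by simp⟩
    refine ⟨{ carrier := {u | (∃ a, SU P a u) ∧ Dv Q 1 (e 2 (u : K) / e 1 (u : K) - 1)}
              mul_mem' := fun {x y} hx hy => by
                obtain ⟨⟨a1, h1⟩, h3⟩ := hx
                obtain ⟨⟨a2, h2⟩, h4⟩ := hy
                refine ⟨⟨_, s1 _ _ _ _ h1 h2⟩, ?_⟩
                rw [q1]
                exact d8 1 _ _ le_rfl h3 h4
              one_mem' := ⟨⟨0, hone⟩, by
                rw [Units.val_one, map_one, map_one, div_one, sub_self]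
                exact hz⟩
              inv_mem' := fun {x} hx => by
                obtain ⟨⟨a1, h1⟩, h3⟩ := hx
                refine ⟨⟨_, s2 _ _ h1⟩, ?_⟩
                rw [q2]
                exact d7 1 _ (-1) le_rfl h3 }, 2 * p j0, ?_, fun u hu => hu.1, fun u hu => hu.2,
              by omega, ?_, ?_⟩
    · refine ⟨⟨0, hneg⟩, ?_⟩
      rw [Units.val_neg, Units.val_one, map_neg, map_one, map_neg, map_one, neg_div_neg_eq, div_one,
        sub_self]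
      exact hz
    · rw [if_neg hodd]
      push_cast
      exact le_rfl
    · intro ι _ f hf
      obtain ⟨F, hF1, hF2⟩ := hEVEN K β a b c κ m p P 𝔞 hCD L e he j0 Q hQ ι f hf
      refine ⟨F, hF1, fun i hi j hj => ⟨?_, hF2 i hi j hj⟩⟩
      obtain ⟨a1, h1⟩ := hf i
      obtain ⟨a2, h2⟩ := hf j
      exact ⟨_, s1 _ _ _ _ h1 (s2 _ _ h2)⟩

theorem st_ONE (hPMN : ST_PMN) (hCNT : ST_CNT) (hPDC : ST_PDC) (hLF2 : ST_LF2) (hCU1 : ST_CU1)
    (hCU3 : ST_CU3) (hCU4 : ST_CU4) (hODD : ST_ODD) (hEVEN : ST_EVEN) (hDVB : ST_DVB)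
    (hSUF : ST_SUF) : ST_ONE := by
  intro m
  obtain ⟨C1, hC1, hcnt⟩ := hCNT m
  obtain ⟨C2, hC2, hpdc⟩ := hPDC m
  have h3 : ∀ n : ℕ, ∃ C : ℝ, 1 ≤ C ∧ ∃ A : ℕ,
      ∀ (L : Type) [Field L] [NumberField L], Module.finrank ℚ L ≤ 27 →
      ∀ (P : Ideal (𝓞 L)) (p : ℕ) (g0 : L) (g : Fin n → L) (nrm : ℤ × (Fin n → ℤ) → ℝ)
        (X U Z ℓ : ℝ) (T : ℕ), 1 ≤ X → 1 ≤ Z → 1 ≤ ℓ → U = C * X * ℓ ^ A → Real.log X ≤ ℓ →
        Real.log Z ≤ ℓ → Real.log p ≤ ℓ → PD L P p n g0 g nrm U Z T →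
        (∀ ρ, X ≤ ρ → ρ ≤ U → ρ ^ (n + 1) ≤ X * ({a : ℤ × (Fin n → ℤ) | nrm a ≤ ρ}.ncard : ℝ)) →
        (T : ℝ) * Real.log p ≤ C * U * ℓ ^ A := fun n => hPMN n 27
  choose C3 hC3 A3 hpmn using h3
  obtain ⟨C3', hC3'⟩ : ∃ C3' : ℝ, C3' = ∑ n ∈ Finset.range (m + 3), C3 n := ⟨_, rfl⟩
  obtain ⟨A3', hA3'⟩ : ∃ A3' : ℕ, A3' = ∑ n ∈ Finset.range (m + 3), A3 n := ⟨_, rfl⟩
  have hC3le : ∀ n, n < m + 3 → C3 n ≤ C3' := by
    intro n hn
    rw [hC3']
    exact Finset.single_le_sum (f := C3) (fun i _ => by linarith [hC3 i]) (Finset.mem_range.2 hn)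
  have hA3le : ∀ n, n < m + 3 → A3 n ≤ A3' := by
    intro n hn
    rw [hA3']
    exact Finset.single_le_sum (f := A3) (fun i _ => Nat.zero_le _) (Finset.mem_range.2 hn)
  have hC3'1 : 1 ≤ C3' := (hC3 0).trans (hC3le 0 (by omega))
  obtain ⟨W, hW⟩ : ∃ W : ℝ, W = C2 + C1 + C3' + 2 + (C1 * (m + 2) + m + 9) := ⟨_, rfl⟩
  have hW0 : 0 ≤ W := by
    have : (0 : ℝ) ≤ C1 * (m + 2) := by positivity
    have : (0 : ℝ) ≤ m := Nat.cast_nonneg _
    rw [hW]
    linarith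
  obtain ⟨c4, hc4, hlog⟩ := one_log A3' W hW0
  refine ⟨4 * C3' ^ 2 * (C1 * (m + 2)) * c4 ^ (2 * A3') + 1, ?_, m + 3 + 2 * A3', ?_⟩
  · have : 0 ≤ 4 * C3' ^ 2 * (C1 * (m + 2)) * c4 ^ (2 * A3') := by positivity
    linarith
  intro K _ _ β a b c κ p P 𝔞 hCD σ hσ Y S ν hY hdisc hna hpY hS hσS hvS hν hν1 hνY j0
  -- number field data
  obtain ⟨L, iL, iN, e, hL27, he, hτ⟩ := hLF2 K hCD.cf.deg σ hσ
  obtain ⟨Q, hQ⟩ := hCU4 K β a b c κ m p P 𝔞 hCD L e he j0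
  obtain ⟨G1, q0, g1, g2, g3, g4, g5, g6⟩ := one_group hSUF hODD hEVEN hDVB K β a b c κ m p P 𝔞
    hCD L e he j0 Q hQ
  obtain ⟨k1, k2, k3, k4, k5, k6⟩ := hCU1.2 K β a b c κ hCD.cf
  obtain ⟨n, s, α, n1, n2, n3, n4, n5⟩ := hcnt K hCD.cf.deg σ hσ P hCD.inj hCD.pr κ k5
    (fun j => (dis a b c).natAbs.factorization (p j)) 𝔞 hCD.fac G1 g1 g2 q0 g6
  obtain ⟨v, hv⟩ : ∃ v, v = (dis a b c).natAbs.factorization (p j0) := ⟨_, rfl⟩
  have hv1 : 1 ≤ v := by
    rw [hv]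
    refine (hCD.pp j0).factorization_pos_of_dvd (Int.natAbs_ne_zero.2 k4) ?_
    exact Int.natCast_dvd.1 (hCD.pd j0)
  rw [← hv] at g5 ⊢
  -- sizes
  obtain ⟨h, hh⟩ : ∃ h, h = Real.log Y := ⟨_, rfl⟩
  obtain ⟨lS, hlS⟩ : ∃ lS, lS = Real.log S := ⟨_, rfl⟩
  have hlog3 : (1 : ℝ) ≤ Real.log 3 := by
    rw [Real.le_log_iff_exp_le (by norm_num)]
    have := Real.exp_one_lt_d9
    linarith
  have hh1 : 1 ≤ h := by
    rw [hh]
    exact hlog3.trans (Real.log_le_log (by norm_num) hY)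
  have hlS1 : 1 ≤ lS := by
    rw [hlS]
    exact hlog3.trans (Real.log_le_log (by norm_num) hS)
  rw [← hh, ← hlS]
  obtain ⟨M, hM⟩ : ∃ M, M = h + lS := ⟨_, rfl⟩
  rw [← hM]
  have hM1 : 1 ≤ M := by linarith
  have hY0 : 0 < Y := by linarith
  obtain ⟨ℓ, hℓ⟩ : ∃ ℓ, ℓ = c4 * M := ⟨_, rfl⟩
  have hℓ1 : 1 ≤ ℓ := by
    rw [hℓ]
    nlinarith
  obtain ⟨qq, hqq⟩ : ∃ qq : ℝ, qq = q0 := ⟨_, rfl⟩
  have hqq1 : 1 ≤ qq := by
    rw [hqq]
    exact_mod_cast g4
  rw [← hqq] at g5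
  have hn3 : n < m + 3 := by
    have h5 : Fintype.card (InfinitePlace K) ≤ 3 := by
      have e1 : ∑ w : InfinitePlace K, InfinitePlace.mult w = 3 := by
        rw [InfinitePlace.sum_mult_eq, hCD.cf.deg]
      rw [← e1]
      calc Fintype.card (InfinitePlace K) = ∑ w : InfinitePlace K, 1 := by simp
        _ ≤ _ := Finset.sum_le_sum fun w _ => InfinitePlace.mult_pos
    omega
  have hcard1 : 1 ≤ Fintype.card (InfinitePlace K) := Fintype.card_pos
  have hcard3 : Fintype.card (InfinitePlace K) ≤ 3 := by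
    have e1 : ∑ w : InfinitePlace K, InfinitePlace.mult w = 3 := by
      rw [InfinitePlace.sum_mult_eq, hCD.cf.deg]
    rw [← e1]
    calc Fintype.card (InfinitePlace K) = ∑ w : InfinitePlace K, 1 := by simp
      _ ≤ _ := Finset.sum_le_sum fun w _ => InfinitePlace.mult_pos
  have hm0 : (0 : ℝ) ≤ m := Nat.cast_nonneg _
  obtain ⟨X, hX⟩ : ∃ X, X = C1 * (m + 2) * qq * ν * h ^ (m + 3) := ⟨_, rfl⟩
  have hhp : 1 ≤ h ^ (m + 3) := one_le_pow₀ hh1
  have hqν : 1 ≤ qq * ν := by nlinarith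
  have hX0 : C1 * (m + 2) * h ≤ X := by
    have e1 : h ≤ h ^ (m + 3) := le_self_pow₀ hh1 (by omega)
    have e2 : h ≤ (qq * ν) * h ^ (m + 3) := by nlinarith
    have e3 : 0 ≤ C1 * (m + 2) := by positivity
    calc C1 * (m + 2) * h ≤ C1 * (m + 2) * ((qq * ν) * h ^ (m + 3)) :=
          mul_le_mul_of_nonneg_left e2 e3
      _ = X := by rw [hX]; ring
  have hX1 : 1 ≤ X := by
    refine le_trans ?_ hX0
    have e1 : 1 ≤ C1 * (m + 2) := by nlinarith
    nlinarith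
  have hXpos : 0 < X := by linarith
  have hℓ0 : 0 < ℓ := by linarith
  obtain ⟨U, hU⟩ : ∃ U, U = C3 n * X * ℓ ^ (A3 n) := ⟨_, rfl⟩
  have hℓA : 1 ≤ ℓ ^ (A3 n) := one_le_pow₀ hℓ1
  have hCX : 1 ≤ C3 n * X := by nlinarith [hC3 n]
  have hU1 : 1 ≤ U := by
    rw [hU]
    nlinarith
  obtain ⟨Z, hZ⟩ : ∃ Z, Z = C2 * C1 * (1 + S) * U := ⟨_, rfl⟩
  have hS1 : 1 ≤ 1 + S := by linarith
  have hC21 : 1 ≤ C2 * C1 := by nlinarith
  have hC21S : 1 ≤ C2 * C1 * (1 + S) := by nlinarith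
  have hZ1 : 1 ≤ Z := by
    rw [hZ]
    nlinarith
  have hp0 : 0 < (p j0 : ℝ) := by exact_mod_cast (hCD.pp j0).pos
  have hlogp0 : ∀ j, 0 ≤ Real.log (p j) := fun j =>
    Real.log_nonneg (by exact_mod_cast (hCD.pp j).one_lt.le)
  have hlogp : ∀ j, Real.log (p j) ≤ h := fun j => by
    rw [hh]
    exact Real.log_le_log (by exact_mod_cast (hCD.pp j).pos) (hpY j)
  have hlogP : ∀ j, Real.log (Ideal.absNorm (P j)) ≤ h := fun j => by
    rw [hCD.nm j]
    exact hlogp j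
  have hlogP0 : ∀ j, 0 ≤ Real.log (Ideal.absNorm (P j)) := fun j => by
    rw [hCD.nm j]
    exact hlogp0 j
  have hna0 : (1 : ℝ) ≤ (Ideal.absNorm 𝔞 : ℝ) := by
    have h6 := hCD.na
    have h7 : Ideal.absNorm 𝔞 ≠ 0 := by
      intro h8
      rw [h8, zero_mul] at h6
      exact Int.natAbs_ne_zero.2 k4 h6.symm
    exact_mod_cast Nat.one_le_iff_ne_zero.2 h7
  have hlogna : Real.log (Ideal.absNorm 𝔞 : ℝ) ≤ h := by
    rw [hh]
    exact Real.log_le_log (by linarith) hna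
  have hdiscne : NumberField.discr K ≠ 0 := NumberField.discr_ne_zero K
  have hlogdisc : Real.log |(NumberField.discr K : ℝ)| ≤ h := by
    rw [hh]
    exact Real.log_le_log (abs_pos.2 (by exact_mod_cast hdiscne)) hdisc
  -- the data
  have hPD := hpdc K hCD.cf.deg σ hσ L e he hτ P hCD.inj hCD.pr
    (hCU3 K β a b c κ m p P 𝔞 hCD) κ k5 (fun j => (dis a b c).natAbs.factorization (p j)) 𝔞
    hCD.fac n s α n3 h C1 S U Z hh1 hlogna hC1 n4 (by linarith) hσS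
    (fun j => by rw [hCD.nm j]; exact hvS j) hU1 (by rw [hZ]) Q (p j0) ((v + 1) / 2) hQ.pr hQ.bot
    (hCD.pp j0) hQ.pm (by omega) (k6 L e he).2.2.2 (by rw [hv]; exact hQ.T)
    (fun i => g3 (s i) (n2 i))
  -- logarithms
  have hlogU : Real.log U = Real.log (C3 n) + Real.log X + A3 n * Real.log ℓ := by
    rw [hU, Real.log_mul (by positivity) (by positivity), Real.log_mul (by linarith [hC3 n])
      hXpos.ne', Real.log_pow]
  have hlogX : Real.log X ≤ (C1 * (m + 2) + m + 9) * M := by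
    rw [hX, Real.log_mul (by positivity) (by positivity), Real.log_mul (by positivity) (by positivity),
      Real.log_mul (by positivity) (by positivity), Real.log_pow]
    have e1 : Real.log (C1 * (m + 2)) ≤ C1 * (m + 2) := by
      have := Real.log_le_sub_one_of_pos (show 0 < C1 * (m + 2) by positivity)
      linarith
    have e2 : Real.log h ≤ h := by
      have := Real.log_le_sub_one_of_pos (show 0 < h by linarith)
      linarith
    have e3 : Real.log ν ≤ 4 * h := by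
      have := Real.log_le_log (by linarith) hνY
      rw [Real.log_pow, ← hh] at this
      exact_mod_cast this
    have e4 : Real.log qq ≤ 2 * h := by
      have e5 : qq ≤ Y ^ 2 := by
        refine g5.trans ?_
        split_ifs
        · nlinarith
        · have := hpY j0
          nlinarith
      have := Real.log_le_log (by linarith) e5
      rw [Real.log_pow, ← hh] at this
      exact_mod_cast this
    have e6 : ((m + 3 : ℕ) : ℝ) * Real.log h ≤ (m + 3) * h := by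
      push_cast
      exact mul_le_mul_of_nonneg_left e2 (by positivity)
    have e7 : C1 * (m + 2) ≤ C1 * (m + 2) * h := le_mul_of_one_le_right (by positivity) hh1
    calc Real.log (C1 * (m + 2)) + Real.log qq + Real.log ν + ((m + 3 : ℕ) : ℝ) * Real.log h
        ≤ C1 * (m + 2) * h + 2 * h + 4 * h + (m + 3) * h := by linarith
      _ = (C1 * (m + 2) + m + 9) * h := by ring
      _ ≤ (C1 * (m + 2) + m + 9) * M := mul_le_mul_of_nonneg_left (by linarith) (by positivity)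
  have hlogC : ∀ x : ℝ, 1 ≤ x → Real.log x ≤ x := fun x hx => by
    have := Real.log_le_sub_one_of_pos (show 0 < x by linarith)
    linarith
  have hA3n : (A3 n : ℝ) * Real.log ℓ ≤ A3' * Real.log ℓ :=
    mul_le_mul_of_nonneg_right (by exact_mod_cast hA3le n hn3) (Real.log_nonneg hℓ1)
  have hA30 : (0 : ℝ) ≤ A3' * Real.log ℓ := mul_nonneg (Nat.cast_nonneg _) (Real.log_nonneg hℓ1)
  have hmain := hlog M hM1
  rw [← hℓ] at hmain
  have hWle : (C1 * (m + 2) + m + 9) * M ≤ W * M := by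
    refine mul_le_mul_of_nonneg_right ?_ (by linarith)
    rw [hW]
    linarith
  have hXℓ : Real.log X ≤ ℓ := by linarith
  have hZℓ : Real.log Z ≤ ℓ := by
    rw [hZ, Real.log_mul (by positivity) (by positivity), Real.log_mul (by positivity) (by positivity),
      Real.log_mul (by positivity) (by positivity), hlogU]
    have e1 : Real.log (1 + S) ≤ 2 * M := by
      have e2 : 1 + S ≤ S ^ 2 := by nlinarith
      have e3 := Real.log_le_log (by linarith) e2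
      rw [Real.log_pow, ← hlS] at e3
      push_cast at e3
      linarith
    have e4 := hlogC C2 hC2
    have e5 := hlogC C1 hC1
    have e6 := (hlogC (C3 n) (hC3 n)).trans (hC3le n hn3)
    have e7 : C2 ≤ C2 * M := le_mul_of_one_le_right (by linarith) hM1
    have e8 : C1 ≤ C1 * M := le_mul_of_one_le_right (by linarith) hM1
    have e9 : C3' ≤ C3' * M := le_mul_of_one_le_right (by linarith) hM1
    have e10 : W * M = C2 * M + C1 * M + C3' * M + 2 * M + (C1 * (m + 2) + m + 9) * M := by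
      rw [hW]
      ring
    linarith
  have hpℓ : Real.log (p j0) ≤ ℓ := by
    have e1 := hlogp j0
    have e2 : M ≤ c4 * M := le_mul_of_one_le_left (by linarith) hc4
    linarith
  -- counting
  have hcount : ∀ ρ, X ≤ ρ → ρ ≤ U → ρ ^ (n + 1) ≤ X *
      ({x : ℤ × (Fin n → ℤ) | nrmS σ P κ (fun j => (dis a b c).natAbs.factorization (p j)) s α h x
        ≤ ρ}.ncard : ℝ) := by
    intro ρ hρ _
    have hρ1 : 1 ≤ ρ := hX1.trans hρ
    have e1 : C1 * (h + h + ∑ j, Real.log (Ideal.absNorm (P j))) ≤ ρ := by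
      refine le_trans ?_ (hX0.trans hρ)
      have e2 : ∑ j, Real.log (Ideal.absNorm (P j)) ≤ m * h := by
        refine (Finset.sum_le_sum fun j _ => hlogP j).trans (le_of_eq ?_)
        rw [Finset.sum_const, Finset.card_univ, Fintype.card_fin, nsmul_eq_mul]
      have e3 : h + h + ∑ j, Real.log (Ideal.absNorm (P j)) ≤ (m + 2) * h := by linarith
      calc C1 * (h + h + ∑ j, Real.log (Ideal.absNorm (P j))) ≤ C1 * ((m + 2) * h) :=
            mul_le_mul_of_nonneg_left e3 (by linarith)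
        _ = C1 * (m + 2) * h := by ring
    have e4 := n5 h h ν ρ hh1 hlogdisc hh1 hlogna hν e1
    rw [← hqq] at e4
    refine (pow_le_pow_right₀ hρ1 n1).trans (e4.trans ?_)
    refine mul_le_mul_of_nonneg_right ?_ (Nat.cast_nonneg _)
    have e5 : ∏ j, Real.log (Ideal.absNorm (P j)) ≤ h ^ m := by
      refine (Finset.prod_le_prod (fun j _ => hlogP0 j) (fun j _ => hlogP j)).trans (le_of_eq ?_)
      rw [Finset.prod_const, Finset.card_univ, Fintype.card_fin]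
    have e6 : h ^ (Fintype.card (InfinitePlace K) - 1) ≤ h ^ 2 :=
      pow_le_pow_right₀ hh1 (by omega)
    have e7 : 0 ≤ ∏ j, Real.log (Ideal.absNorm (P j)) := Finset.prod_nonneg fun j _ => hlogP0 j
    calc C1 * qq * ν * h * h ^ (Fintype.card (InfinitePlace K) - 1) *
          (∏ j, Real.log (Ideal.absNorm (P j)))
        ≤ C1 * qq * ν * h * h ^ 2 * h ^ m := by
          refine mul_le_mul (mul_le_mul_of_nonneg_left e6 (by positivity)) e5 e7 (by positivity)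
      _ = 1 * (C1 * qq * ν * h ^ (m + 3)) := by ring
      _ ≤ (m + 2) * (C1 * qq * ν * h ^ (m + 3)) :=
          mul_le_mul_of_nonneg_right (by linarith) (by positivity)
      _ = X := by rw [hX]; ring
  have hfin := hpmn n L hL27 Q (p j0) _ _ _ X U Z ℓ ((v + 1) / 2) hX1 hZ1 hℓ1 hU hXℓ hZℓ hpℓ hPD
    hcount
  -- conclusion
  have t1 : (v : ℝ) ≤ 2 * (((v + 1) / 2 : ℕ) : ℝ) := by
    have : v ≤ 2 * ((v + 1) / 2) := by omega
    exact_mod_cast this
  have t2 : (v : ℝ) * Real.log (p j0) ≤ 2 * (C3 n * U * ℓ ^ (A3 n)) := by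
    have := mul_le_mul_of_nonneg_right t1 (hlogp0 j0)
    linarith
  have t3 : C3 n * U * ℓ ^ (A3 n) ≤ C3' ^ 2 * X * ℓ ^ (2 * A3') := by
    have e1 : C3 n * U * ℓ ^ (A3 n) = (C3 n) ^ 2 * X * ℓ ^ (2 * A3 n) := by
      rw [hU, two_mul, pow_add]
      ring
    rw [e1]
    have e2 : (C3 n) ^ 2 ≤ C3' ^ 2 := pow_le_pow_left₀ (by linarith [hC3 n]) (hC3le n hn3) 2
    have e3 : ℓ ^ (2 * A3 n) ≤ ℓ ^ (2 * A3') :=
      pow_le_pow_right₀ hℓ1 (by have := hA3le n hn3; omega)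
    exact mul_le_mul (mul_le_mul_of_nonneg_right e2 hXpos.le) e3 (by positivity) (by positivity)
  obtain ⟨D, hD⟩ : ∃ D : ℝ, D = (if Odd v then 1 else (p j0 : ℝ)) := ⟨_, rfl⟩
  rw [← hD] at g5 ⊢
  have hD0 : 0 ≤ D := by linarith
  have t4 : X ≤ C1 * (m + 2) * (2 * D) * ν * M ^ (m + 3) := by
    rw [hX]
    have e1 : h ^ (m + 3) ≤ M ^ (m + 3) := pow_le_pow_left₀ (by linarith) (by linarith) _
    refine mul_le_mul ?_ e1 (by positivity) (by positivity)
    exact mul_le_mul_of_nonneg_right (mul_le_mul_of_nonneg_left g5 (by positivity)) (by linarith)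
  have t5 : ℓ ^ (2 * A3') = c4 ^ (2 * A3') * M ^ (2 * A3') := by rw [hℓ, mul_pow]
  have hM0 : 0 < M := by linarith
  calc (v : ℝ) * Real.log (p j0) ≤ 2 * (C3' ^ 2 * X * ℓ ^ (2 * A3')) := by linarith
    _ ≤ 2 * (C3' ^ 2 * (C1 * (m + 2) * (2 * D) * ν * M ^ (m + 3)) * ℓ ^ (2 * A3')) := by
        refine mul_le_mul_of_nonneg_left (mul_le_mul_of_nonneg_right
          (mul_le_mul_of_nonneg_left t4 (by positivity)) (by positivity)) (by norm_num)
    _ = (4 * C3' ^ 2 * (C1 * (m + 2)) * c4 ^ (2 * A3')) * ν * D * M ^ (m + 3 + 2 * A3') := by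
        rw [t5, pow_add M (m + 3) (2 * A3')]
        ring
    _ ≤ (4 * C3' ^ 2 * (C1 * (m + 2)) * c4 ^ (2 * A3') + 1) * ν * D * M ^ (m + 3 + 2 * A3') := by
        refine mul_le_mul_of_nonneg_right (mul_le_mul_of_nonneg_right
          (mul_le_mul_of_nonneg_right (by linarith) (by linarith)) hD0) (by positivity)

end Pool.Helper99.SZ
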