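import Pool.Agent.Helper99.SZ.Stmts2
import Pool.Agent.Helper99.SZ.ONE

/-!
# The bound for one exponent, explicit in the number of primes
-/

set_option autoImplicit false

namespace Pool.Helper99.SZ

open NumberField

/-- the final numerical estimate -/
theorem on2_num (m n c1 : ℕ) (c4 M h qq ν D C1 Θ X0 : ℝ) (hc1 : 1 ≤ c1) (hc4 : 1 ≤ c4)
    (hM : 1 ≤ M) (hh : 1 ≤ h) (hhM : h ≤ M) (hqq : 1 ≤ qq) (hν : 1 ≤ ν) (hD : qq ≤ 2 * D)
    (hn : n ≤ m + 2) (hC1 : C1 = ((c1 : ℝ) * (m + 1)) ^ (c1 * (m + 1)))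
    (hΘ : Θ = 10 ^ 9 * ((n : ℝ) + 1) ^ 4 * (27 : ℝ) ^ 2 * (c4 * (m + 1) * M))
    (hX0 : X0 = C1 * (m + 2) * qq * ν * h ^ (m + 3)) (c : ℕ) (hc : 10 ^ 14 * c4 ≤ c)
    (hcc : c1 + 28 ≤ c) :
    2 * (12 ^ (n + 1) * X0 * Θ ^ (n + 2)) ≤ ν * D * ((c : ℝ) * (m + 1) * M) ^ (c * (m + 1)) := by
  have hm : (0 : ℝ) ≤ m := Nat.cast_nonneg _
  have hm1 : (1 : ℝ) ≤ (m : ℝ) + 1 := by linarith
  have hc1' : (1 : ℝ) ≤ c1 := by exact_mod_cast hc1
  have hcr : (1 : ℝ) ≤ c := by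
    have : 1 ≤ c := by omega
    exact_mod_cast this
  have hcc1 : (c1 : ℝ) + 28 ≤ c := by exact_mod_cast hcc
  obtain ⟨b, hb⟩ : ∃ b : ℝ, b = (c : ℝ) * (m + 1) * M := ⟨_, rfl⟩
  rw [← hb]
  have hmM : 1 ≤ ((m : ℝ) + 1) * M := by nlinarith
  have hbc : (c : ℝ) ≤ b := by
    rw [hb, mul_assoc]
    exact le_mul_of_one_le_right (by linarith) hmM
  have hb1 : 1 ≤ b := hcr.trans hbc
  have hb12 : 12 ≤ b := by linarith
  have hbM : M ≤ b := by
    rw [hb]
    have : 1 ≤ (c : ℝ) * (m + 1) := by nlinarith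
    exact le_mul_of_one_le_left (by linarith) this
  have hbm : (c : ℝ) * ((m : ℝ) + 1) ≤ b := by
    rw [hb]
    exact le_mul_of_one_le_right (by positivity) hM
  -- the factors
  have e1 : (4 : ℝ) * 12 ^ (n + 1) ≤ b ^ (m + 4) := by
    calc (4 : ℝ) * 12 ^ (n + 1) ≤ b * b ^ (m + 3) := by
          refine mul_le_mul (by linarith) ?_ (by positivity) (by linarith)
          exact (pow_le_pow_right₀ (by norm_num) (by omega)).trans
            (pow_le_pow_left₀ (by norm_num) hb12 _)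
      _ = b ^ (m + 4) := by rw [← pow_succ']
  have e2 : C1 ≤ b ^ (c1 * (m + 1)) := by
    rw [hC1]
    refine pow_le_pow_left₀ (by positivity) ?_ _
    refine le_trans (mul_le_mul_of_nonneg_right ?_ (by linarith)) hbm
    linarith
  have e3 : (m : ℝ) + 2 ≤ b := by
    have : (2 : ℝ) * (m + 1) ≤ (c : ℝ) * (m + 1) := mul_le_mul_of_nonneg_right (by linarith) (by linarith)
    linarith
  have e4 : h ^ (m + 3) ≤ b ^ (m + 3) := pow_le_pow_left₀ (by linarith) (by linarith) _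
  have hnm : (n : ℝ) + 1 ≤ 3 * ((m : ℝ) + 1) := by
    have : (n : ℝ) ≤ m + 2 := by exact_mod_cast hn
    linarith
  have e5 : Θ ≤ b ^ 5 := by
    have f1 : ((n : ℝ) + 1) ^ 4 ≤ 81 * ((m : ℝ) + 1) ^ 4 := by
      refine (pow_le_pow_left₀ (by positivity) hnm 4).trans (le_of_eq ?_)
      ring
    have f2 : Θ ≤ (10 ^ 14 * c4) * (((m : ℝ) + 1) ^ 5 * M) := by
      rw [hΘ]
      calc 10 ^ 9 * ((n : ℝ) + 1) ^ 4 * (27 : ℝ) ^ 2 * (c4 * (m + 1) * M)
          ≤ 10 ^ 9 * (81 * ((m : ℝ) + 1) ^ 4) * (27 : ℝ) ^ 2 * (c4 * (m + 1) * M) := by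
            refine mul_le_mul_of_nonneg_right (mul_le_mul_of_nonneg_right
              (mul_le_mul_of_nonneg_left f1 (by norm_num)) (by norm_num)) (by positivity)
        _ = (10 ^ 9 * 81 * 27 ^ 2) * (c4 * (((m : ℝ) + 1) ^ 5 * M)) := by ring
        _ ≤ 10 ^ 14 * (c4 * (((m : ℝ) + 1) ^ 5 * M)) :=
            mul_le_mul_of_nonneg_right (by norm_num) (by positivity)
        _ = _ := by ring
    have f3 : b ^ 5 = (c : ℝ) ^ 5 * (((m : ℝ) + 1) ^ 5 * M ^ 5) := by rw [hb]; ring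
    rw [f3]
    refine f2.trans (mul_le_mul ?_ ?_ (by positivity) (by positivity))
    · exact hc.trans (le_self_pow₀ hcr (by norm_num))
    · exact mul_le_mul_of_nonneg_left (le_self_pow₀ hM (by norm_num)) (by positivity)
  have hΘ0 : 0 ≤ Θ := by rw [hΘ]; positivity
  have e6 : Θ ^ (n + 2) ≤ b ^ (5 * (m + 4)) := by
    calc Θ ^ (n + 2) ≤ (b ^ 5) ^ (n + 2) := pow_le_pow_left₀ hΘ0 e5 _
      _ = b ^ (5 * (n + 2)) := by rw [← pow_mul]
      _ ≤ b ^ (5 * (m + 4)) := pow_le_pow_right₀ hb1 (by omega)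
  have hb0 : 0 < b := by linarith
  have hC10 : 0 ≤ C1 := by rw [hC1]; positivity
  have hD0 : 0 ≤ D := by linarith
  have e7 : b ^ (m + 4) * b ^ (c1 * (m + 1)) * b * b ^ (m + 3) * b ^ (5 * (m + 4)) ≤
      b ^ (c * (m + 1)) := by
    have : b ^ (m + 4) * b ^ (c1 * (m + 1)) * b * b ^ (m + 3) * b ^ (5 * (m + 4)) =
        b ^ (m + 4 + c1 * (m + 1) + 1 + (m + 3) + 5 * (m + 4)) := by
      rw [← pow_add, ← pow_succ, ← pow_add, ← pow_add]
    rw [this]
    refine pow_le_pow_right₀ hb1 ?_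
    have : (c1 + 28) * (m + 1) ≤ c * (m + 1) := Nat.mul_le_mul_right _ hcc
    nlinarith
  calc 2 * (12 ^ (n + 1) * X0 * Θ ^ (n + 2))
      = (2 * 12 ^ (n + 1)) * C1 * (m + 2) * h ^ (m + 3) * Θ ^ (n + 2) * (qq * ν) := by
        rw [hX0]; ring
    _ ≤ (2 * 12 ^ (n + 1)) * C1 * (m + 2) * h ^ (m + 3) * Θ ^ (n + 2) * (2 * D * ν) := by
        refine mul_le_mul_of_nonneg_left (mul_le_mul_of_nonneg_right hD (by linarith)) (by positivity)
    _ = (4 * 12 ^ (n + 1)) * C1 * (m + 2) * h ^ (m + 3) * Θ ^ (n + 2) * (ν * D) := by ring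
    _ ≤ b ^ (m + 4) * b ^ (c1 * (m + 1)) * b * b ^ (m + 3) * b ^ (5 * (m + 4)) * (ν * D) := by
        refine mul_le_mul_of_nonneg_right ?_ (by positivity)
        refine mul_le_mul ?_ e6 (by positivity) (by positivity)
        refine mul_le_mul ?_ e4 (by positivity) (by positivity)
        refine mul_le_mul ?_ e3 (by positivity) (by positivity)
        exact mul_le_mul e1 e2 hC10 (by positivity)
    _ ≤ b ^ (c * (m + 1)) * (ν * D) := mul_le_mul_of_nonneg_right e7 (by positivity)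
    _ = _ := by ring

/-- the logarithm of `Z` -/
theorem on2_log (m n c1 : ℕ) (c4 M h lS Y S qq ν C1 Θ X0 X U Z : ℝ) (hc1 : 1 ≤ c1)
    (hc4 : 1 ≤ c4) (hY : 3 ≤ Y) (hmY : (m : ℝ) ≤ Y) (hS : 3 ≤ S) (hh : h = Real.log Y)
    (hlS : lS = Real.log S) (hh1 : 1 ≤ h) (hlS1 : 1 ≤ lS) (hMdef : M = h + lS)
    (hqq : 1 ≤ qq) (hqqY : qq ≤ Y ^ 2) (hν : 1 ≤ ν) (hνY : ν ≤ Y ^ 4)
    (hn : n ≤ m + 2) (hC1 : C1 = ((c1 : ℝ) * (m + 1)) ^ (c1 * (m + 1)))
    (hΘ : Θ = 10 ^ 9 * ((n : ℝ) + 1) ^ 4 * (27 : ℝ) ^ 2 * (c4 * (m + 1) * M))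
    (hX0 : X0 = C1 * (m + 2) * qq * ν * h ^ (m + 3)) (hX : X = 12 ^ (n + 1) * X0)
    (hU : U = 8 * ((n : ℝ) + 1) * X * Θ ^ n) (hZ : Z = ((m : ℝ) + 4) * C1 * (1 + S) * U)
    (hlog : (2 * (c1 : ℝ) * (c1 + 2) + 125) * M + 2 * Real.log (c4 * M) ≤ c4 * M) :
    Real.log Z ≤ c4 * (m + 1) * M := by
  have hm : (0 : ℝ) ≤ m := Nat.cast_nonneg _
  have hm1 : (1 : ℝ) ≤ (m : ℝ) + 1 := by linarith
  have hc1' : (1 : ℝ) ≤ c1 := by exact_mod_cast hc1
  have hM1 : 1 ≤ M := by linarith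
  have hnm : (n : ℝ) ≤ m + 2 := by exact_mod_cast hn
  have hn0 : (0 : ℝ) ≤ n := Nat.cast_nonneg _
  have hC11 : 1 ≤ C1 := by
    rw [hC1]
    exact one_le_pow₀ (by nlinarith)
  have hΘ0 : 0 < Θ := by rw [hΘ]; positivity
  have hX00 : 0 < X0 := by rw [hX0]; positivity
  have hX'0 : 0 < X := by rw [hX]; positivity
  have hU0 : 0 < U := by rw [hU]; positivity
  have hsub : ∀ x : ℝ, 0 < x → Real.log x ≤ x := fun x hx => by
    have := Real.log_le_sub_one_of_pos hx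
    linarith
  -- `log (m+1)`
  have g1 : Real.log ((m : ℝ) + 1) ≤ 2 * h := by
    have e1 : (m : ℝ) + 1 ≤ Y ^ 2 := by nlinarith
    have := Real.log_le_log (by linarith) e1
    rw [Real.log_pow, ← hh] at this
    exact_mod_cast this
  have gm : ∀ a : ℝ, 0 < a → Real.log (a * ((m : ℝ) + 1)) ≤ Real.log a + 2 * h := fun a ha => by
    rw [Real.log_mul ha.ne' (by linarith)]
    linarith
  have l2 := Real.log_two_lt_d9
  have l4 : Real.log 4 ≤ 2 := by
    have : (4 : ℝ) = 2 ^ 2 := by norm_num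
    rw [this, Real.log_pow]
    push_cast
    linarith
  have l12 : Real.log 12 ≤ 3 := by
    have e1 : Real.log 12 ≤ Real.log (2 ^ 4) := Real.log_le_log (by norm_num) (by norm_num)
    rw [Real.log_pow] at e1
    push_cast at e1
    linarith
  have l24 : Real.log 24 ≤ 4 := by
    have e1 : Real.log 24 ≤ Real.log (2 ^ 5) := Real.log_le_log (by norm_num) (by norm_num)
    rw [Real.log_pow] at e1
    push_cast at e1
    linarith
  -- pieces
  have p1 : Real.log ((m : ℝ) + 4) ≤ 4 * h := by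
    have e1 := Real.log_le_log (by linarith) (show (m : ℝ) + 4 ≤ 4 * ((m : ℝ) + 1) by linarith)
    have := gm 4 (by norm_num)
    linarith
  have p2 : Real.log C1 ≤ ((m : ℝ) + 1) * ((c1 : ℝ) * (c1 + 2)) * h := by
    rw [hC1, Real.log_pow]
    have e1 := gm c1 (by linarith)
    have e2 := hsub c1 (by linarith)
    have e3 : Real.log ((c1 : ℝ) * (m + 1)) ≤ (c1 + 2) * h := by
      have : (c1 : ℝ) ≤ c1 * h := le_mul_of_one_le_right (by linarith) hh1
      linarith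
    push_cast
    calc (c1 : ℝ) * (m + 1) * Real.log ((c1 : ℝ) * (m + 1)) ≤ (c1 : ℝ) * (m + 1) * ((c1 + 2) * h) :=
          mul_le_mul_of_nonneg_left e3 (by positivity)
      _ = _ := by ring
  have p3 : Real.log (1 + S) ≤ 2 * M := by
    have e2 : 1 + S ≤ S ^ 2 := by nlinarith
    have e3 := Real.log_le_log (by linarith) e2
    rw [Real.log_pow, ← hlS] at e3
    push_cast at e3
    linarith
  have p4 : Real.log (8 * ((n : ℝ) + 1)) ≤ 6 * h := by
    have e1 := Real.log_le_log (by linarith) (show 8 * ((n : ℝ) + 1) ≤ 24 * ((m : ℝ) + 1) by linarith)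
    have := gm 24 (by norm_num)
    linarith
  have p5 : Real.log X ≤ ((m : ℝ) + 1) * ((c1 : ℝ) * (c1 + 2) + 21) * h := by
    rw [hX, hX0, Real.log_mul (by positivity) (by positivity), Real.log_pow,
      Real.log_mul (by positivity) (by positivity), Real.log_mul (by positivity) (by positivity),
      Real.log_mul (by positivity) (by positivity), Real.log_mul (by positivity) (by positivity),
      Real.log_pow]
    have q1 : ((n + 1 : ℕ) : ℝ) * Real.log 12 ≤ 9 * ((m : ℝ) + 1) * h := by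
      push_cast
      have e1 : ((n : ℝ) + 1) * Real.log 12 ≤ ((n : ℝ) + 1) * 3 :=
        mul_le_mul_of_nonneg_left l12 (by linarith)
      have e2 : 9 * ((m : ℝ) + 1) ≤ 9 * ((m : ℝ) + 1) * h := le_mul_of_one_le_right (by positivity) hh1
      linarith
    have q2 : Real.log ((m : ℝ) + 2) ≤ 3 * (((m : ℝ) + 1) * h) := by
      have e1 := Real.log_le_log (by linarith) (show (m : ℝ) + 2 ≤ 2 * ((m : ℝ) + 1) by linarith)
      have e2 := gm 2 (by norm_num)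
      have e3 : h ≤ ((m : ℝ) + 1) * h := le_mul_of_one_le_left (by linarith) hm1
      linarith
    have q3 : Real.log qq ≤ 2 * (((m : ℝ) + 1) * h) := by
      have := Real.log_le_log (by linarith) hqqY
      rw [Real.log_pow, ← hh] at this
      push_cast at this
      have e3 : h ≤ ((m : ℝ) + 1) * h := le_mul_of_one_le_left (by linarith) hm1
      linarith
    have q4 : Real.log ν ≤ 4 * (((m : ℝ) + 1) * h) := by
      have := Real.log_le_log (by linarith) hνY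
      rw [Real.log_pow, ← hh] at this
      push_cast at this
      have e3 : h ≤ ((m : ℝ) + 1) * h := le_mul_of_one_le_left (by linarith) hm1
      linarith
    have q5 : ((m + 3 : ℕ) : ℝ) * Real.log h ≤ 3 * (((m : ℝ) + 1) * h) := by
      push_cast
      have e1 := hsub h (by linarith)
      have e2 : ((m : ℝ) + 3) * Real.log h ≤ ((m : ℝ) + 3) * h := mul_le_mul_of_nonneg_left e1 (by linarith)
      have e3 : ((m : ℝ) + 3) * h ≤ (3 * ((m : ℝ) + 1)) * h :=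
        mul_le_mul_of_nonneg_right (by linarith) (by linarith)
      linarith
    have e : ((m : ℝ) + 1) * ((c1 : ℝ) * (c1 + 2) + 21) * h =
        9 * ((m : ℝ) + 1) * h + (((m : ℝ) + 1) * ((c1 : ℝ) * (c1 + 2)) * h + 3 * (((m : ℝ) + 1) * h) +
        2 * (((m : ℝ) + 1) * h) + 4 * (((m : ℝ) + 1) * h) + 3 * (((m : ℝ) + 1) * h)) := by ring
    rw [e]
    linarith
  have p6 : (n : ℝ) * Real.log Θ ≤ 2 * ((m : ℝ) + 1) * (46 * M + Real.log (c4 * M)) := by
    have e1 : Real.log Θ ≤ 46 * M + Real.log (c4 * M) := by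
      have f1 : Θ = (10 ^ 9 * 27 ^ 2) * ((n : ℝ) + 1) ^ 4 * ((m : ℝ) + 1) * (c4 * M) := by
        rw [hΘ]; ring
      rw [f1, Real.log_mul (by positivity) (by positivity), Real.log_mul (by positivity) (by positivity),
        Real.log_mul (by positivity) (by positivity), Real.log_pow]
      have f2 : Real.log (10 ^ 9 * 27 ^ 2) ≤ 28 := by
        have f3 : Real.log (10 ^ 9 * 27 ^ 2) ≤ Real.log (2 ^ 40) :=
          Real.log_le_log (by norm_num) (by norm_num)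
        rw [Real.log_pow] at f3
        push_cast at f3
        linarith
      have f4 : Real.log ((n : ℝ) + 1) ≤ 4 * h := by
        have f5 := Real.log_le_log (by linarith) (show (n : ℝ) + 1 ≤ 3 * ((m : ℝ) + 1) by linarith)
        have f6 := gm 3 (by norm_num)
        have f7 : Real.log 3 ≤ 2 := (Real.log_le_log (by norm_num) (by norm_num)).trans l4
        linarith
      push_cast
      linarith
    have e2 : 0 ≤ 46 * M + Real.log (c4 * M) := by
      have : 0 ≤ Real.log (c4 * M) := Real.log_nonneg (by nlinarith)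
      linarith
    calc (n : ℝ) * Real.log Θ ≤ n * (46 * M + Real.log (c4 * M)) :=
          mul_le_mul_of_nonneg_left e1 hn0
      _ ≤ (2 * ((m : ℝ) + 1)) * (46 * M + Real.log (c4 * M)) :=
          mul_le_mul_of_nonneg_right (by linarith) e2
  rw [hZ, Real.log_mul (by positivity) (by positivity), Real.log_mul (by positivity) (by positivity),
    Real.log_mul (by positivity) (by positivity), hU, Real.log_mul (by positivity) (by positivity),
    Real.log_mul (by positivity) (by positivity), Real.log_pow]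
  have hfin := mul_le_mul_of_nonneg_left hlog (show 0 ≤ (m : ℝ) + 1 by linarith)
  have hhM : h ≤ M := by linarith
  have r1 : 4 * h ≤ 4 * (((m : ℝ) + 1) * M) := by nlinarith
  have r2 : ((m : ℝ) + 1) * ((c1 : ℝ) * (c1 + 2)) * h ≤ ((m : ℝ) + 1) * ((c1 : ℝ) * (c1 + 2)) * M :=
    mul_le_mul_of_nonneg_left hhM (by positivity)
  have r3 : 2 * M ≤ 2 * (((m : ℝ) + 1) * M) := by nlinarith
  have r4 : 6 * h ≤ 6 * (((m : ℝ) + 1) * M) := by nlinarith
  have r5 : ((m : ℝ) + 1) * ((c1 : ℝ) * (c1 + 2) + 21) * h ≤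
      ((m : ℝ) + 1) * ((c1 : ℝ) * (c1 + 2) + 21) * M :=
    mul_le_mul_of_nonneg_left hhM (by positivity)
  have e : ((m : ℝ) + 1) * ((2 * (c1 : ℝ) * (c1 + 2) + 125) * M + 2 * Real.log (c4 * M)) =
      4 * (((m : ℝ) + 1) * M) + ((m : ℝ) + 1) * ((c1 : ℝ) * (c1 + 2)) * M + 2 * (((m : ℝ) + 1) * M) +
      6 * (((m : ℝ) + 1) * M) + ((m : ℝ) + 1) * ((c1 : ℝ) * (c1 + 2) + 21) * M +
      2 * ((m : ℝ) + 1) * (46 * M + Real.log (c4 * M)) := by ring
  rw [e] at hfin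
  linarith

theorem st_ON2 (hPM2 : ST_PM2) (hP12 : ST_P12) (hKNE : ST_KNE) (hODM : ST_ODM) (hCN2 : ST_CN2)
    (hPC2 : ST_PC2) (hLF2 : ST_LF2) (hCU1 : ST_CU1) (hCU3 : ST_CU3) (hCU4 : ST_CU4)
    (hODD : ST_ODD) (hEVEN : ST_EVEN) (hDVB : ST_DVB) (hSUF : ST_SUF) : ST_ON2 := by
  obtain ⟨c1, hc1, hcnt⟩ := hCN2
  have hc1' : (1 : ℝ) ≤ c1 := by exact_mod_cast hc1
  obtain ⟨c4, hc4, hlog⟩ := one_log 2 (2 * (c1 : ℝ) * (c1 + 2) + 125) (by positivity)
  obtain ⟨c, hc⟩ : ∃ c : ℕ, c = c1 + 28 + ⌈10 ^ 14 * c4⌉₊ := ⟨_, rfl⟩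
  have hcc : c1 + 28 ≤ c := by omega
  have hcr : 10 ^ 14 * c4 ≤ c := by
    refine (Nat.le_ceil _).trans ?_
    rw [hc]
    push_cast
    have : (0 : ℝ) ≤ c1 := by linarith
    linarith
  refine ⟨c, by omega, ?_⟩
  intro m K _ _ β a b c' κ p P 𝔞 hCD σ hσ Y S ν hY hmY hdisc hna hpY hS hσS hvS hν hν1 hνY j0
  -- number field data
  obtain ⟨L, iL, iN, e, hL27, he, hτ⟩ := hLF2 K hCD.cf.deg σ hσ
  obtain ⟨Q, hQ⟩ := hCU4 K β a b c' κ m p P 𝔞 hCD L e he j0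
  obtain ⟨G1, q0, g1, g2, g3, g4, g5, g6⟩ := one_group hSUF hODD hEVEN hDVB K β a b c' κ m p P 𝔞
    hCD L e he j0 Q hQ
  obtain ⟨k1, k2, k3, k4, k5, k6⟩ := hCU1.2 K β a b c' κ hCD.cf
  obtain ⟨C1, hC1⟩ : ∃ C1 : ℝ, C1 = ((c1 : ℝ) * (m + 1)) ^ (c1 * (m + 1)) := ⟨_, rfl⟩
  obtain ⟨n, s, α, n1, n2, n3, n4, n5⟩ := hcnt m C1 hC1 K hCD.cf.deg σ hσ P hCD.inj hCD.pr κ k5
    (fun j => (dis a b c').natAbs.factorization (p j)) 𝔞 hCD.fac G1 g1 g2 q0 g6
  obtain ⟨v, hv⟩ : ∃ v, v = (dis a b c').natAbs.factorization (p j0) := ⟨_, rfl⟩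
  have hv1 : 1 ≤ v := by
    rw [hv]
    refine (hCD.pp j0).factorization_pos_of_dvd (Int.natAbs_ne_zero.2 k4) ?_
    exact Int.natCast_dvd.1 (hCD.pd j0)
  have hOD := hODM K β a b c' κ m p P 𝔞 hCD L e he j0 Q hQ n s (fun i => g3 (s i) (n2 i))
    ((v + 1) / 2)
  have hKN := hKNE K β a b c' κ m p P 𝔞 hCD L e he j0
  rw [← hv] at g5 ⊢
  -- sizes
  obtain ⟨h, hh⟩ : ∃ h, h = Real.log Y := ⟨_, rfl⟩
  obtain ⟨lS, hlS⟩ : ∃ lS, lS = Real.log S := ⟨_, rfl⟩
  have hlog3 : (1 : ℝ) ≤ Real.log 3 := by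
    rw [Real.le_log_iff_exp_le (by norm_num)]
    have := Real.exp_one_lt_d9
    linarith
  have hh1 : 1 ≤ h := by
    rw [hh]
    exact hlog3.trans (Real.log_le_log (by norm_num) hY)
  have hlS1 : 1 ≤ lS := by
    rw [hlS]
    exact hlog3.trans (Real.log_le_log (by norm_num) hS)
  rw [← hh, ← hlS]
  obtain ⟨M, hM⟩ : ∃ M, M = h + lS := ⟨_, rfl⟩
  rw [← hM]
  have hM1 : 1 ≤ M := by linarith
  have hhM : h ≤ M := by linarith
  have hY0 : 0 < Y := by linarith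
  have hm0 : (0 : ℝ) ≤ m := Nat.cast_nonneg _
  obtain ⟨ℓ, hℓ⟩ : ∃ ℓ, ℓ = c4 * (m + 1) * M := ⟨_, rfl⟩
  have hc4m : 1 ≤ c4 * ((m : ℝ) + 1) := by nlinarith
  have hMℓ : M ≤ ℓ := by
    rw [hℓ]
    exact le_mul_of_one_le_left (by linarith) hc4m
  have hℓ1 : 1 ≤ ℓ := hM1.trans hMℓ
  obtain ⟨qq, hqq⟩ : ∃ qq : ℝ, qq = q0 := ⟨_, rfl⟩
  have hqq1 : 1 ≤ qq := by
    rw [hqq]
    exact_mod_cast g4
  rw [← hqq] at g5
  have hcard1 : 1 ≤ Fintype.card (InfinitePlace K) := Fintype.card_pos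
  have hcard3 : Fintype.card (InfinitePlace K) ≤ 3 := by
    have e1 : ∑ w : InfinitePlace K, InfinitePlace.mult w = 3 := by
      rw [InfinitePlace.sum_mult_eq, hCD.cf.deg]
    rw [← e1]
    calc Fintype.card (InfinitePlace K) = ∑ w : InfinitePlace K, 1 := by simp
      _ ≤ _ := Finset.sum_le_sum fun w _ => InfinitePlace.mult_pos
  have hn2 : n ≤ m + 2 := by omega
  have hC11 : 1 ≤ C1 := by
    rw [hC1]
    exact one_le_pow₀ (by nlinarith)
  obtain ⟨X0, hX0⟩ : ∃ X0, X0 = C1 * (m + 2) * qq * ν * h ^ (m + 3) := ⟨_, rfl⟩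
  have hhp : 1 ≤ h ^ (m + 3) := one_le_pow₀ hh1
  have hqν : 1 ≤ qq * ν := by nlinarith
  have hX00 : C1 * (m + 2) * h ≤ X0 := by
    have e1 : h ≤ h ^ (m + 3) := le_self_pow₀ hh1 (by omega)
    have e2 : h ≤ (qq * ν) * h ^ (m + 3) := by nlinarith
    have e3 : 0 ≤ C1 * (m + 2) := by positivity
    calc C1 * (m + 2) * h ≤ C1 * (m + 2) * ((qq * ν) * h ^ (m + 3)) :=
          mul_le_mul_of_nonneg_left e2 e3
      _ = X0 := by rw [hX0]; ring
  have hX01 : 1 ≤ X0 := by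
    refine le_trans ?_ hX00
    have e1 : 1 ≤ C1 * (m + 2) := by nlinarith
    nlinarith
  obtain ⟨X, hX⟩ : ∃ X, X = 12 ^ (n + 1) * X0 := ⟨_, rfl⟩
  have h12 : (12 : ℝ) ≤ 12 ^ (n + 1) := le_self_pow₀ (by norm_num) (by omega)
  have hX12 : 12 * X0 ≤ X := by
    rw [hX]
    exact mul_le_mul_of_nonneg_right h12 (by linarith)
  have hX1 : 1 ≤ X := by linarith
  obtain ⟨Θ, hΘ⟩ : ∃ Θ, Θ = 10 ^ 9 * ((n : ℝ) + 1) ^ 4 * (27 : ℝ) ^ 2 * ℓ := ⟨_, rfl⟩
  have hn0 : (0 : ℝ) ≤ n := Nat.cast_nonneg _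
  have hΘ1 : 1 ≤ Θ := by
    have e1 : 1 ≤ ((n : ℝ) + 1) ^ 4 := one_le_pow₀ (by linarith)
    have e2 : 1 ≤ 10 ^ 9 * ((n : ℝ) + 1) ^ 4 * (27 : ℝ) ^ 2 := by linarith
    rw [hΘ]
    nlinarith
  obtain ⟨U, hU⟩ : ∃ U, U = 8 * ((n : ℝ) + 1) * X * Θ ^ n := ⟨_, rfl⟩
  have hU1 : 1 ≤ U := by
    have e1 : 1 ≤ Θ ^ n := one_le_pow₀ hΘ1
    have e2 : 1 ≤ 8 * ((n : ℝ) + 1) * X := by nlinarith
    rw [hU]
    nlinarith
  obtain ⟨Z, hZ⟩ : ∃ Z, Z = ((m : ℝ) + 4) * C1 * (1 + S) * U := ⟨_, rfl⟩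
  have hUZ : U ≤ Z := by
    rw [hZ]
    refine le_mul_of_one_le_left (by linarith) ?_
    have e1 : 1 ≤ ((m : ℝ) + 4) * C1 := by nlinarith
    nlinarith
  have hp0 : 0 < (p j0 : ℝ) := by exact_mod_cast (hCD.pp j0).pos
  have hlogp0 : ∀ j, 0 ≤ Real.log (p j) := fun j =>
    Real.log_nonneg (by exact_mod_cast (hCD.pp j).one_lt.le)
  have hlogp : ∀ j, Real.log (p j) ≤ h := fun j => by
    rw [hh]
    exact Real.log_le_log (by exact_mod_cast (hCD.pp j).pos) (hpY j)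
  have hlogP : ∀ j, Real.log (Ideal.absNorm (P j)) ≤ h := fun j => by
    rw [hCD.nm j]
    exact hlogp j
  have hlogP0 : ∀ j, 0 ≤ Real.log (Ideal.absNorm (P j)) := fun j => by
    rw [hCD.nm j]
    exact hlogp0 j
  have hna0 : (1 : ℝ) ≤ (Ideal.absNorm 𝔞 : ℝ) := by
    have h6 := hCD.na
    have h7 : Ideal.absNorm 𝔞 ≠ 0 := by
      intro h8
      rw [h8, zero_mul] at h6
      exact Int.natAbs_ne_zero.2 k4 h6.symm
    exact_mod_cast Nat.one_le_iff_ne_zero.2 h7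
  have hlogna : Real.log (Ideal.absNorm 𝔞 : ℝ) ≤ h := by
    rw [hh]
    exact Real.log_le_log (by linarith) hna
  have hdiscne : NumberField.discr K ≠ 0 := NumberField.discr_ne_zero K
  have hlogdisc : Real.log |(NumberField.discr K : ℝ)| ≤ h := by
    rw [hh]
    exact Real.log_le_log (abs_pos.2 (by exact_mod_cast hdiscne)) hdisc
  -- the data
  have hPD := hPC2 m K hCD.cf.deg σ hσ L e he hτ P hCD.inj hCD.pr
    (hCU3 K β a b c' κ m p P 𝔞 hCD) κ k5 (fun j => (dis a b c').natAbs.factorization (p j)) 𝔞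
    hCD.fac n s α n3 h C1 S U Z hh1 hlogna hC11 n4 (by linarith) hσS
    (fun j => by rw [hCD.nm j]; exact hvS j) hU1 (by rw [hZ]) Q (p j0) ((v + 1) / 2) hQ.pr hQ.bot
    (hCD.pp j0) hQ.pm (by omega) (k6 L e he).2.2.2 (by rw [hv]; exact hQ.T)
    (fun i => g3 (s i) (n2 i))
  have hPD12 := hP12 L Q (p j0) n _ _ _ U Z ((v + 1) / 2) hPD hKN
  -- logarithms
  have hqqY : qq ≤ Y ^ 2 := by
    refine g5.trans ?_
    split_ifs
    · nlinarith
    · have := hpY j0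
      nlinarith
  have hZℓ : Real.log Z ≤ ℓ := by
    rw [hℓ]
    refine on2_log m n c1 c4 M h lS Y S qq ν C1 Θ X0 X U Z hc1 hc4 hY hmY hS hh hlS hh1 hlS1 hM
      hqq1 hqqY hν1 hνY hn2 hC1 (by rw [hΘ, hℓ]) hX0 hX hU hZ ?_
    have := hlog M hM1
    push_cast at this
    exact this
  have hpℓ : Real.log (p j0) ≤ ℓ := by
    have e1 := hlogp j0
    linarith
  have hDℓ : Real.log ((27 : ℕ) : ℝ) ≤ ℓ := by
    have e1 : Real.log ((27 : ℕ) : ℝ) ≤ 4 := by
      have e2 : Real.log ((27 : ℕ) : ℝ) ≤ Real.log (2 ^ 5) :=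
        Real.log_le_log (by norm_num) (by norm_num)
      rw [Real.log_pow] at e2
      have := Real.log_two_lt_d9
      push_cast at e2 ⊢
      linarith
    have e2 : (125 : ℝ) ≤ c4 * M := by
      have e3 := hlog M hM1
      have e4 : 0 ≤ Real.log (c4 * M) := Real.log_nonneg (by nlinarith)
      have e5 : (125 : ℝ) ≤ (2 * (c1 : ℝ) * (c1 + 2) + 125) * M := by
        have : 0 ≤ 2 * (c1 : ℝ) * (c1 + 2) := by positivity
        nlinarith
      push_cast at e3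
      linarith
    have e6 : c4 * M ≤ ℓ := by
      rw [hℓ]
      have : c4 * (m + 1) * M = (c4 * M) * ((m : ℝ) + 1) := by ring
      rw [this]
      exact le_mul_of_one_le_right (by linarith) (by linarith)
    linarith
  -- counting
  have hcount : ∀ ρ, X ≤ ρ → ρ ≤ U → ρ ^ (n + 1) ≤ X *
      ({x : ℤ × (Fin n → ℤ) | 12 * nrmS σ P κ (fun j => (dis a b c').natAbs.factorization (p j))
        s α h x ≤ ρ}.ncard : ℝ) := by
    intro ρ hρ _
    have hρ' : X0 ≤ ρ / 12 := by linarith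
    have hρ1 : 1 ≤ ρ / 12 := hX01.trans hρ'
    have e1 : C1 * (h + h + ∑ j, Real.log (Ideal.absNorm (P j))) ≤ ρ / 12 := by
      refine le_trans ?_ (hX00.trans hρ')
      have e2 : ∑ j, Real.log (Ideal.absNorm (P j)) ≤ m * h := by
        refine (Finset.sum_le_sum fun j _ => hlogP j).trans (le_of_eq ?_)
        rw [Finset.sum_const, Finset.card_univ, Fintype.card_fin, nsmul_eq_mul]
      have e3 : h + h + ∑ j, Real.log (Ideal.absNorm (P j)) ≤ (m + 2) * h := by linarith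
      calc C1 * (h + h + ∑ j, Real.log (Ideal.absNorm (P j))) ≤ C1 * ((m + 2) * h) :=
            mul_le_mul_of_nonneg_left e3 (by linarith)
        _ = C1 * (m + 2) * h := by ring
    have e4 := n5 h h ν (ρ / 12) hh1 hlogdisc hh1 hlogna hν e1
    rw [← hqq] at e4
    have e5 : (ρ / 12) ^ (n + 1) ≤ X0 * ({x : ℤ × (Fin n → ℤ) | nrmS σ P κ
        (fun j => (dis a b c').natAbs.factorization (p j)) s α h x ≤ ρ / 12}.ncard : ℝ) := by
      refine (pow_le_pow_right₀ hρ1 n1).trans (e4.trans ?_)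
      refine mul_le_mul_of_nonneg_right ?_ (Nat.cast_nonneg _)
      have e5 : ∏ j, Real.log (Ideal.absNorm (P j)) ≤ h ^ m := by
        refine (Finset.prod_le_prod (fun j _ => hlogP0 j) (fun j _ => hlogP j)).trans (le_of_eq ?_)
        rw [Finset.prod_const, Finset.card_univ, Fintype.card_fin]
      have e6 : h ^ (Fintype.card (InfinitePlace K) - 1) ≤ h ^ 2 :=
        pow_le_pow_right₀ hh1 (by omega)
      have e7 : 0 ≤ ∏ j, Real.log (Ideal.absNorm (P j)) := Finset.prod_nonneg fun j _ => hlogP0 j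
      calc C1 * qq * ν * h * h ^ (Fintype.card (InfinitePlace K) - 1) *
            (∏ j, Real.log (Ideal.absNorm (P j)))
          ≤ C1 * qq * ν * h * h ^ 2 * h ^ m := by
            refine mul_le_mul (mul_le_mul_of_nonneg_left e6 (by positivity)) e5 e7 (by positivity)
        _ = 1 * (C1 * qq * ν * h ^ (m + 3)) := by ring
        _ ≤ (m + 2) * (C1 * qq * ν * h ^ (m + 3)) :=
            mul_le_mul_of_nonneg_right (by linarith) (by positivity)
        _ = X0 := by rw [hX0]; ring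
    have e8 : {x : ℤ × (Fin n → ℤ) | 12 * nrmS σ P κ
        (fun j => (dis a b c').natAbs.factorization (p j)) s α h x ≤ ρ} =
        {x : ℤ × (Fin n → ℤ) | nrmS σ P κ
        (fun j => (dis a b c').natAbs.factorization (p j)) s α h x ≤ ρ / 12} := by
      ext x
      simp only [Set.mem_setOf_eq]
      constructor
      · intro hx
        linarith
      · intro hx
        linarith
    rw [e8]
    have e9 : ρ ^ (n + 1) = 12 ^ (n + 1) * (ρ / 12) ^ (n + 1) := by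
      rw [← mul_pow]
      congr 1
      ring
    rw [e9, hX, mul_assoc]
    exact mul_le_mul_of_nonneg_left e5 (by positivity)
  have hfin := hPM2 n 27 (by norm_num) L hL27 Q (p j0) _ _ _ X U Z ℓ Θ ((v + 1) / 2)
    (by rw [hΘ]; push_cast; ring) hX1 hℓ1 hU hUZ hZℓ hpℓ hDℓ hPD12 hOD hcount
  -- conclusion
  have t1 : (v : ℝ) ≤ 2 * (((v + 1) / 2 : ℕ) : ℝ) := by
    have : v ≤ 2 * ((v + 1) / 2) := by omega
    exact_mod_cast this
  have t2 : (v : ℝ) * Real.log (p j0) ≤ 2 * (X * Θ ^ (n + 2)) := by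
    have := mul_le_mul_of_nonneg_right t1 (hlogp0 j0)
    linarith
  obtain ⟨D, hD⟩ : ∃ D : ℝ, D = (if Odd v then 1 else (p j0 : ℝ)) := ⟨_, rfl⟩
  rw [← hD] at g5 ⊢
  refine t2.trans ?_
  rw [hX]
  exact on2_num m n c1 c4 M h qq ν D C1 Θ X0 hc1 hc4 hM1 hh1 hhM hqq1 hν1 g5 hn2 hC1
    (by rw [hΘ, hℓ]) hX0 c hcr hcc

end Pool.Helper99.SZ
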