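import Pool.Agent.Helper99.SZ.Stmts
import Pool.Agent.Helper99.BK.All
import Pool.Agent.Helper13.SZ.NNC
import Pool.Agent.Helper13.SZ.SIZ
import Pool.Agent.Helper15.SZ.ODB
import Pool.Agent.Helper15.SZ.P12
import Pool.Agent.Helper15.SZ.ZV
import Pool.Agent.Helper15.SZ.ZV2
import Pool.Agent.Helper24.SZ.CU2
import Pool.Agent.Helper26.SZ.FLW
import Pool.Agent.Helper32.SZ.PDX
import Pool.Agent.Helper33.SZ.CNT
import Pool.Agent.Helper35.SZ.PD2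
import Pool.Agent.Helper44.SZ.LF2
import Pool.Agent.Helper44.SZ.RB2
import Pool.Agent.Helper44.SZ.RBN
import Pool.Agent.Helper44.SZ.SB2
import Pool.Agent.Helper44.SZ.SHP
import Pool.Agent.Helper50.SZ.PH2
import Pool.Agent.Helper50.SZ.PHS
import Pool.Agent.Helper51.SZ.EVEN
import Pool.Agent.Helper51.SZ.ODD
import Pool.Agent.Helper53.SZ.CL2
import Pool.Agent.Helper53.SZ.GEL1
import Pool.Agent.Helper53.SZ.PDG
import Pool.Agent.Helper53.SZ.PRS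
import Pool.Agent.Helper58.SZ.ZCH
import Pool.Agent.Helper60.SZ.CU4
import Pool.Agent.Helper60.SZ.JEX
import Pool.Agent.Helper60.SZ.ZVQ
import Pool.Agent.Helper61.SZ.DVB
import Pool.Agent.Helper61.SZ.PAR
import Pool.Agent.Helper61.SZ.PDET
import Pool.Agent.Helper61.SZ.PDL
import Pool.Agent.Helper61.SZ.PLV
import Pool.Agent.Helper61.SZ.VAL
import Pool.Agent.Helper61.SZ.VALS
import Pool.Agent.Helper63.SZ.PNP
import Pool.Agent.Helper67.SZ.CALS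
import Pool.Agent.Helper67.SZ.CN2
import Pool.Agent.Helper67.SZ.COR
import Pool.Agent.Helper67.SZ.CU3
import Pool.Agent.Helper67.SZ.GEL2
import Pool.Agent.Helper67.SZ.KNE
import Pool.Agent.Helper67.SZ.ZC2
import Pool.Agent.Helper68.SZ.PX3
import Pool.Agent.Helper7.SZ.HPL
import Pool.Agent.Helper7.SZ.ZQ2
import Pool.Agent.Helper77.SZ.PN2
import Pool.Agent.Helper77.SZ.SUB
import Pool.Agent.Helper79.SZ.PDC
import Pool.Agent.Helper79.SZ.PHSa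
import Pool.Agent.Helper8.SZ.ODV
import Pool.Agent.Helper81.SZ.CMB
import Pool.Agent.Helper81.SZ.ENG
import Pool.Agent.Helper81.SZ.PM2
import Pool.Agent.Helper81.SZ.SIM
import Pool.Agent.Helper84.SZ.ODM
import Pool.Agent.Helper89.SZ.CHG
import Pool.Agent.Helper89.SZ.PC2
import Pool.Agent.Helper89.SZ.PMN
import Pool.Agent.Helper89.SZ.RC2
import Pool.Agent.Helper92.SZ.CU1
import Pool.Agent.Helper92.SZ.DEGV
import Pool.Agent.Helper92.SZ.PR0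
import Pool.Agent.Helper94.SZ.SUF
import Pool.Agent.Helper99.SZ.ON2
import Pool.Agent.Helper99.SZ.ONE
import Pool.Agent.Helper99.SZ.SF2
import Pool.Agent.Helper99.SZ.SZF

/-! Assembly of the modules of the bound for discriminants of elliptic curves. -/

set_option autoImplicit false

namespace Pool.Helper99.SZ

theorem sz_CALS : ST_CALS := _root_.Pool.Helper99.SZ.st_CALS
theorem sz_CHG : ST_CHG := _root_.Pool.Helper99.SZ.st_CHG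
theorem sz_CL2 : ST_CL2 := _root_.Pool.Helper99.SZ.st_CL2
theorem sz_SIM : ST_SIM := _root_.Pool.Helper99.SZ.st_SIM
theorem sz_CMB : ST_CMB := _root_.Pool.Helper99.SZ.st_CMB sz_SIM
theorem sz_RB2 : ST_RB2 := _root_.Pool.Helper99.SZ.st_RB2
theorem sz_SUF : ST_SUF := _root_.Pool.Helper99.SZ.st_SUF
theorem sz_SB2 : ST_SB2 := _root_.Pool.Helper99.SZ.st_SB2 sz_RB2 sz_SUF _root_.Pool.Helper99.BK.bk_UB0 _root_.Pool.Helper99.BK.bk_EMB3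
theorem sz_PHSa : ST_PHSa := _root_.Pool.Helper99.SZ.st_PHSa
theorem sz_PH2 : ST_PH2 := _root_.Pool.Helper99.SZ.st_PH2 sz_PHSa sz_SUF _root_.Pool.Helper99.BK.bk_IDF
theorem sz_GEL1 : ST_GEL1 := _root_.Pool.Helper99.SZ.st_GEL1
theorem sz_CN2 : ST_CN2 := _root_.Pool.Helper99.SZ.st_CN2 sz_SB2 sz_PH2 sz_GEL1 sz_SUF
theorem sz_RBN : ST_RBN := _root_.Pool.Helper99.SZ.st_RBN
theorem sz_SUB : ST_SUB := _root_.Pool.Helper99.SZ.st_SUB sz_RBN sz_SUF _root_.Pool.Helper99.BK.bk_UB0 _root_.Pool.Helper99.BK.bk_EMB3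
theorem sz_PHS : ST_PHS := _root_.Pool.Helper99.SZ.st_PHS sz_PHSa sz_SUF _root_.Pool.Helper99.BK.bk_IDF
theorem sz_CNT : ST_CNT := _root_.Pool.Helper99.SZ.st_CNT sz_SUB sz_PHS sz_GEL1 sz_SUF _root_.Pool.Helper99.BK.bk_EMB3
theorem sz_COR : ST_COR := _root_.Pool.Helper99.SZ.st_COR
theorem sz_CU1 : ST_CU1 := _root_.Pool.Helper99.SZ.st_CU1
theorem sz_CU2 : ST_CU2 := _root_.Pool.Helper99.SZ.st_CU2 sz_CU1
theorem sz_VAL : ST_VAL := _root_.Pool.Helper99.SZ.st_VAL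
theorem sz_VALS : ST_VALS := _root_.Pool.Helper99.SZ.st_VALS
theorem sz_CU3 : ST_CU3 := _root_.Pool.Helper99.SZ.st_CU3 sz_VAL sz_VALS
theorem sz_CU4 : ST_CU4 := _root_.Pool.Helper99.SZ.st_CU4 sz_CU1 sz_VAL sz_VALS
theorem sz_DEGV : ST_DEGV := _root_.Pool.Helper99.SZ.st_DEGV
theorem sz_DVB : ST_DVB := _root_.Pool.Helper99.SZ.st_DVB
theorem sz_ENG : ST_ENG := _root_.Pool.Helper99.SZ.st_ENG
theorem sz_EVEN : ST_EVEN := _root_.Pool.Helper99.SZ.st_EVEN sz_CU1 sz_VAL sz_DVB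
theorem sz_NNC : ST_NNC := _root_.Pool.Helper99.SZ.st_NNC
theorem sz_FLW : ST_FLW := _root_.Pool.Helper99.SZ.st_FLW sz_NNC sz_CU1 _root_.Pool.Helper99.BK.bk_FLD
theorem sz_GEL2 : ST_GEL2 := _root_.Pool.Helper99.SZ.st_GEL2 sz_SUF
theorem sz_HPL : ST_HPL := _root_.Pool.Helper99.SZ.st_HPL sz_NNC
theorem sz_JEX : ST_JEX := _root_.Pool.Helper99.SZ.st_JEX
theorem sz_KNE : ST_KNE := _root_.Pool.Helper99.SZ.st_KNE _root_.Pool.Helper99.BK.bk_KER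
theorem sz_LF2 : ST_LF2 := _root_.Pool.Helper99.SZ.st_LF2
theorem sz_ODB : ST_ODB := _root_.Pool.Helper99.SZ.st_ODB sz_DVB
theorem sz_ODD : ST_ODD := _root_.Pool.Helper99.SZ.st_ODD sz_CU1 sz_VAL sz_DVB
theorem sz_ODV : ST_ODV := _root_.Pool.Helper99.SZ.st_ODV sz_CU1 sz_VAL sz_DVB
theorem sz_ODM : ST_ODM := _root_.Pool.Helper99.SZ.st_ODM sz_ODV sz_ODB sz_VAL sz_DVB
theorem sz_PDG : ST_PDG := _root_.Pool.Helper99.SZ.st_PDG sz_DVB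
theorem sz_PX3 : ST_PX3 := _root_.Pool.Helper99.SZ.st_PX3 sz_DVB
theorem sz_SHP : ST_SHP := _root_.Pool.Helper99.SZ.st_SHP sz_DVB
theorem sz_PD2 : ST_PD2 := _root_.Pool.Helper99.SZ.st_PD2 sz_PDG sz_CMB sz_CHG sz_PX3 sz_SHP sz_DVB
theorem sz_PLV : ST_PLV := _root_.Pool.Helper99.SZ.st_PLV
theorem sz_PAR : ST_PAR := _root_.Pool.Helper99.SZ.st_PAR sz_DVB sz_PLV
theorem sz_PN2 : ST_PN2 := _root_.Pool.Helper99.SZ.st_PN2 _root_.Pool.Helper99.BK.bk_MINOR sz_PD2 sz_PAR sz_DVB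
theorem sz_ZC2 : ST_ZC2 := _root_.Pool.Helper99.SZ.st_ZC2 sz_COR
theorem sz_ZQ2 : ST_ZQ2 := _root_.Pool.Helper99.SZ.st_ZQ2
theorem sz_ZV2 : ST_ZV2 := _root_.Pool.Helper99.SZ.st_ZV2 sz_ZC2 sz_ZQ2
theorem sz_RC2 : ST_RC2 := _root_.Pool.Helper99.SZ.st_RC2 sz_JEX sz_PN2 sz_ZV2 sz_ENG sz_DVB sz_PLV
theorem sz_PM2 : ST_PM2 := _root_.Pool.Helper99.SZ.st_PM2 sz_RC2
theorem sz_P12 : ST_P12 := _root_.Pool.Helper99.SZ.st_P12 sz_DVB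
theorem sz_PC2 : ST_PC2 := _root_.Pool.Helper99.SZ.st_PC2 sz_GEL1 sz_GEL2 sz_SUF _root_.Pool.Helper99.BK.bk_KER
theorem sz_ON2 : ST_ON2 := _root_.Pool.Helper99.SZ.st_ON2 sz_PM2 sz_P12 sz_KNE sz_ODM sz_CN2 sz_PC2 sz_LF2 sz_CU1 sz_CU3 sz_CU4 sz_ODD sz_EVEN sz_DVB sz_SUF
theorem sz_PR0 : ST_PR0 := _root_.Pool.Helper99.SZ.st_PR0 sz_DVB sz_PLV
theorem sz_PDL : ST_PDL := _root_.Pool.Helper99.SZ.st_PDL sz_DVB
theorem sz_PDX : ST_PDX := _root_.Pool.Helper99.SZ.st_PDX sz_DVB sz_DEGV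
theorem sz_PDET : ST_PDET := _root_.Pool.Helper99.SZ.st_PDET sz_PDL sz_PDX
theorem sz_PNP : ST_PNP := _root_.Pool.Helper99.SZ.st_PNP _root_.Pool.Helper99.BK.bk_MINOR sz_PDET sz_PAR sz_DVB
theorem sz_ZCH : ST_ZCH := _root_.Pool.Helper99.SZ.st_ZCH
theorem sz_ZVQ : ST_ZVQ := _root_.Pool.Helper99.SZ.st_ZVQ
theorem sz_ZV : ST_ZV := _root_.Pool.Helper99.SZ.st_ZV sz_ZCH sz_ZVQ
theorem sz_PRS : ST_PRS := _root_.Pool.Helper99.SZ.st_PRS sz_JEX sz_PNP sz_ZV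
theorem sz_PMN : ST_PMN := _root_.Pool.Helper99.SZ.st_PMN sz_PR0 sz_PRS
theorem sz_PDC : ST_PDC := _root_.Pool.Helper99.SZ.st_PDC sz_GEL1 sz_GEL2 sz_SUF _root_.Pool.Helper99.BK.bk_KER
theorem sz_ONE : ST_ONE := _root_.Pool.Helper99.SZ.st_ONE sz_PMN sz_CNT sz_PDC sz_LF2 sz_CU1 sz_CU3 sz_CU4 sz_ODD sz_EVEN sz_DVB sz_SUF
theorem sz_SIZ : ST_SIZ := _root_.Pool.Helper99.SZ.st_SIZ sz_CU1
theorem sz_SF2 : ST_SF2 := _root_.Pool.Helper99.SZ.st_SF2 sz_ON2 sz_SIZ sz_FLW sz_HPL sz_CL2 sz_CU2 _root_.Pool.Helper99.BK.bk_IDC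
theorem sz_SZF : ST_SZF := _root_.Pool.Helper99.SZ.st_SZF sz_ONE sz_SIZ sz_FLW sz_HPL sz_CALS sz_CU2 _root_.Pool.Helper99.BK.bk_IDC

end Pool.Helper99.SZ
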