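import Pool.Agent.Helper99.SZ.ONE
import Pool.Agent.Helper99.SZ.Stmts3

/-!
# The groups of `S`-units congruent to `1` modulo `Q ^ jj`
-/

set_option autoImplicit false

namespace Pool.Helper99.SZ

open NumberField

/-- residues modulo a power of a prime -/
theorem ix_res {L : Type} [Field L] [NumberField L] {Q : Ideal (𝓞 L)} (hQ : Q.IsPrime)
    (hQ0 : Q ≠ ⊥) (jj : ℕ) (x : L) (hx : Dv Q 0 x) : ∃ n : 𝓞 L, Dv Q jj (x - (n : L)) := by
  obtain ⟨a, b, hb, -, hab⟩ := hx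
  have hmax : Q.IsMaximal := hQ.isMaximal hQ0
  have h1 : Ideal.span {b} ⊔ Q ^ jj = ⊤ := by
    have h2 : Ideal.span {b} ⊔ Q = ⊤ := by
      rw [sup_comm]
      by_contra hne
      have h3 : Q = Q ⊔ Ideal.span {b} := hmax.eq_of_le hne le_sup_left
      apply hb
      rw [h3]
      exact Ideal.mem_sup_right (Ideal.mem_span_singleton_self b)
    exact Ideal.sup_pow_eq_top h2
  have h4 : (1 : 𝓞 L) ∈ Ideal.span {b} ⊔ Q ^ jj := by
    rw [h1]
    exact Submodule.mem_top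
  obtain ⟨y', hy', i, hi, hyi⟩ := Submodule.mem_sup.1 h4
  obtain ⟨y, rfl⟩ := Ideal.mem_span_singleton'.1 hy'
  refine ⟨a * y, a * i, b, hb, Ideal.mul_mem_left _ _ hi, ?_⟩
  have h2 : (x - ((a * y : 𝓞 L) : L)) * (b : L) = x * b - a * y * b := by
    push_cast
    ring
  have h3 : a * i = a - a * y * b := by
    have h5 : i = 1 - y * b := by rw [← hyi]; ring
    rw [h5]
    ring
  rw [h2, hab, h3]
  push_cast
  ring

theorem ix_card {L : Type} [Field L] [NumberField L] (h27 : Module.finrank ℚ L ≤ 27)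
    {Q : Ideal (𝓞 L)} (q : ℕ) (hq : q.Prime) (hqQ : ((q : ℕ) : 𝓞 L) ∈ Q) (jj : ℕ) :
    Ideal.absNorm (Q ^ jj) ≤ q ^ (27 * jj) := by
  have h1 : Ideal.absNorm Q ∣ q ^ Module.finrank ℚ L := by
    have h2 : Ideal.absNorm (Ideal.span {((q : ℕ) : 𝓞 L)}) = q ^ Module.finrank ℚ L := by
      rw [Ideal.absNorm_span_singleton]
      have h3 : ((q : ℕ) : 𝓞 L) = algebraMap ℤ (𝓞 L) (q : ℤ) := by simp
      rw [h3, Algebra.norm_algebraMap, RingOfIntegers.rank, Int.natAbs_pow, Int.natAbs_natCast]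
    rw [← h2]
    exact Ideal.absNorm_dvd_absNorm_of_le ((Ideal.span_singleton_le_iff_mem _).2 hqQ)
  have h4 : Ideal.absNorm Q ≤ q ^ 27 :=
    (Nat.le_of_dvd (pow_pos hq.pos _) h1).trans (Nat.pow_le_pow_right hq.pos h27)
  rw [map_pow, pow_mul]
  exact Nat.pow_le_pow_left h4 jj

/-- pigeonhole -/
theorem ix_pig (hDVB : ST_DVB) {L : Type} [Field L] [NumberField L]
    (h27 : Module.finrank ℚ L ≤ 27) {Q : Ideal (𝓞 L)} (hQ : Q.IsPrime) (hQ0 : Q ≠ ⊥) (q : ℕ)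
    (hq : q.Prime) (hqQ : ((q : ℕ) : 𝓞 L) ∈ Q) (jj : ℕ) (ι : Type) [Fintype ι] (ψ : ι → L)
    (hψ0 : ∀ i, ψ i ≠ 0) (hψ : ∀ i, Dv Q 0 (ψ i) ∧ Dv Q 0 (ψ i)⁻¹) :
    ∃ F : Finset ι, Fintype.card ι ≤ q ^ (27 * jj) * F.card ∧
      ∀ i ∈ F, ∀ j ∈ F, Dv Q jj (ψ i * (ψ j)⁻¹ - 1) := by
  classical
  obtain ⟨d1, d2, d3, d4, d5, d6, d7, d8, d9⟩ := hDVB L Q hQ hQ0
  have hc := fun i => ix_res hQ hQ0 jj (ψ i) (hψ i).1
  choose n hn using hc
  have hpow0 : Q ^ jj ≠ ⊥ := by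
    rw [Ne, ← Ideal.zero_eq_bot]
    exact pow_ne_zero _ (by rw [Ne, Ideal.zero_eq_bot]; exact hQ0)
  have hfin : Nat.card (𝓞 L ⧸ Q ^ jj) = Ideal.absNorm (Q ^ jj) := by
    rw [Ideal.absNorm_apply, Submodule.cardQuot_apply]
  have hfin2 : Finite (𝓞 L ⧸ Q ^ jj) := by
    apply Nat.finite_of_card_ne_zero
    rw [hfin, Ne, Ideal.absNorm_eq_zero_iff]
    exact hpow0
  have := Fintype.ofFinite (𝓞 L ⧸ Q ^ jj)
  obtain ⟨r, hr⟩ : ∃ r : ι → 𝓞 L ⧸ Q ^ jj, r = fun i => Ideal.Quotient.mk (Q ^ jj) (n i) :=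
    ⟨_, rfl⟩
  obtain ⟨y, -, hy⟩ := Finset.exists_max_image (Finset.univ : Finset (𝓞 L ⧸ Q ^ jj))
    (fun y => (Finset.univ.filter (fun i => r i = y)).card) ⟨0, Finset.mem_univ _⟩
  refine ⟨Finset.univ.filter (fun i => r i = y), ?_, ?_⟩
  · have h1 := Finset.card_eq_sum_card_fiberwise (f := r) (s := Finset.univ)
      (t := (Finset.univ : Finset (𝓞 L ⧸ Q ^ jj))) (fun _ _ => Finset.mem_coe.mpr (Finset.mem_univ _))
    rw [Finset.card_univ] at h1
    rw [h1]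
    calc ∑ b ∈ (Finset.univ : Finset (𝓞 L ⧸ Q ^ jj)), (Finset.univ.filter (fun i => r i = b)).card
        ≤ ∑ b ∈ (Finset.univ : Finset (𝓞 L ⧸ Q ^ jj)),
          (Finset.univ.filter (fun i => r i = y)).card := Finset.sum_le_sum (fun b hb => hy b hb)
      _ = Ideal.absNorm (Q ^ jj) * (Finset.univ.filter (fun i => r i = y)).card := by
        rw [Finset.sum_const, Finset.card_univ, smul_eq_mul, ← Nat.card_eq_fintype_card, hfin]
      _ ≤ _ := Nat.mul_le_mul_right _ (ix_card h27 q hq hqQ jj)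
  · intro i hi j hj
    have h1 : r i = r j := by
      rw [(Finset.mem_filter.mp hi).2, (Finset.mem_filter.mp hj).2]
    have h2 : n i - n j ∈ Q ^ jj := by
      rw [← Ideal.Quotient.eq]
      rw [hr] at h1
      exact h1
    have h3 : Dv Q jj ((n i : L) - (n j : L)) := by
      refine ⟨n i - n j, 1, fun h1 => hQ.ne_top ((Ideal.eq_top_iff_one _).mpr h1), h2, ?_⟩
      push_cast
      ring
    have h5 := d3 jj _ _ (d3 jj _ _ (hn i) h3) (d4 jj _ (hn j))
    have h6 : ψ i - (n i : L) + ((n i : L) - (n j : L)) + -(ψ j - (n j : L)) = ψ i - ψ j := by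
      ring
    rw [h6] at h5
    have h7 := d5 jj 0 _ _ h5 (hψ j).2
    rw [add_zero, sub_mul, mul_inv_cancel₀ (hψ0 j)] at h7
    exact h7

theorem st_IDX (hODD : ST_ODD) (hEVEN : ST_EVEN) (hDVB : ST_DVB) (hSUF : ST_SUF) : ST_IDX := by
  intro K _ _ β a b c κ m p P 𝔞 hCD L _ _ h27 e he j0 Q hQ jj hjj
  have hp2 : 2 ≤ p j0 := (hCD.pp j0).two_le
  rcases eq_or_lt_of_le hjj with hj | hj
  · subst hj
    obtain ⟨G1, q0, g1, g2, g3, g4, g5, g6⟩ := one_group hSUF hODD hEVEN hDVB K β a b c κ m p P 𝔞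
      hCD L e he j0 Q hQ
    refine ⟨G1, q0, g1, g2, g3, g4, ?_, g6, fun _ => g5⟩
    have h1 : (q0 : ℝ) ≤ 2 * (p j0 : ℝ) := by
      refine g5.trans ?_
      have h2 : (1 : ℝ) ≤ p j0 := by exact_mod_cast (by omega : 1 ≤ p j0)
      split_ifs
      · linarith
      · exact le_rfl
    have h3 : q0 ≤ 2 * p j0 := by exact_mod_cast h1
    have h4 : 2 * p j0 ≤ p j0 ^ 2 := by nlinarith
    exact h3.trans (h4.trans (Nat.pow_le_pow_right (by omega) (by norm_num)))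
  · obtain ⟨s1, s2, s3, s4, s5, s6⟩ := hSUF K m P hCD.inj hCD.pr
    have hone : SU P 0 (1 : Kˣ) := (s4 1).2 ⟨1, by simp⟩
    have hneg : SU P 0 (-1 : Kˣ) := (s4 (-1)).2 ⟨-1, by simp⟩
    obtain ⟨d1, d2, d3, d4, d5, d6, d7, d8, d9⟩ := hDVB L Q hQ.pr hQ.bot
    have q1 : ∀ (x y : Kˣ), e 2 ((x * y : Kˣ) : K) / e 1 ((x * y : Kˣ) : K) =
        (e 2 (x : K) / e 1 (x : K)) * (e 2 (y : K) / e 1 (y : K)) := by
      intro x y
      rw [Units.val_mul, map_mul, map_mul, mul_div_mul_comm]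
    have q2 : ∀ (x : Kˣ), e 2 ((x⁻¹ : Kˣ) : K) / e 1 ((x⁻¹ : Kˣ) : K) =
        (e 2 (x : K) / e 1 (x : K)) ^ (-1 : ℤ) := by
      intro x
      rw [Units.val_inv_eq_inv_val, map_inv₀, map_inv₀, zpow_neg_one, inv_div_inv, inv_div]
    have hz : Dv Q jj (0 : L) := ⟨0, 1, fun h => hQ.pr.ne_top ((Ideal.eq_top_iff_one Q).2 h),
      Ideal.zero_mem _, by simp⟩
    refine ⟨{ carrier := {u | (∃ a, SU P a u) ∧ Dv Q jj (e 2 (u : K) / e 1 (u : K) - 1)}
              mul_mem' := fun {x y} hx hy => by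
                obtain ⟨⟨a1, h1⟩, h3⟩ := hx
                obtain ⟨⟨a2, h2⟩, h4⟩ := hy
                refine ⟨⟨_, s1 _ _ _ _ h1 h2⟩, ?_⟩
                rw [q1]
                exact d8 jj _ _ hjj h3 h4
              one_mem' := ⟨⟨0, hone⟩, by
                rw [Units.val_one, map_one, map_one, div_one, sub_self]
                exact hz⟩
              inv_mem' := fun {x} hx => by
                obtain ⟨⟨a1, h1⟩, h3⟩ := hx
                refine ⟨⟨_, s2 _ _ h1⟩, ?_⟩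
                rw [q2]
                exact d7 jj _ (-1) hjj h3 }, p j0 ^ (27 * jj), ?_, fun u hu => hu.1,
              fun u hu => hu.2, ?_, le_rfl, ?_, fun h => absurd h (by omega)⟩
    · refine ⟨⟨0, hneg⟩, ?_⟩
      rw [Units.val_neg, Units.val_one, map_neg, map_one, map_neg, map_one, neg_div_neg_eq, div_one,
        sub_self]
      exact hz
    · exact Nat.one_le_pow _ _ (by omega)
    · intro ι _ f hf
      have hψ0 : ∀ i, e 2 ((f i : Kˣ) : K) / e 1 ((f i : Kˣ) : K) ≠ 0 := by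
        intro i
        apply div_ne_zero
        · rw [Ne, map_eq_zero]
          exact (f i).ne_zero
        · rw [Ne, map_eq_zero]
          exact (f i).ne_zero
      obtain ⟨F, hF1, hF2⟩ := ix_pig hDVB h27 hQ.pr hQ.bot (p j0) (hCD.pp j0) hQ.pm jj ι
        (fun i => e 2 ((f i : Kˣ) : K) / e 1 ((f i : Kˣ) : K)) hψ0 (by
          intro i
          obtain ⟨x, hx⟩ := hf i
          have hu1 := hQ.un (f i) x hx 1 (by decide)
          have hu2 := hQ.un (f i) x hx 2 (by decide)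
          constructor
          · have := d5 0 0 _ _ hu2.1 hu1.2
            rw [add_zero, ← div_eq_mul_inv] at this
            exact this
          · have := d5 0 0 _ _ hu1.1 hu2.2
            rw [add_zero, ← div_eq_mul_inv] at this
            show Dv Q 0 (e 2 ((f i : Kˣ) : K) / e 1 ((f i : Kˣ) : K))⁻¹
            rw [inv_div]
            exact this)
      refine ⟨F, hF1, fun i hi j hj => ⟨?_, ?_⟩⟩
      · obtain ⟨a1, h1⟩ := hf i
        obtain ⟨a2, h2⟩ := hf j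
        exact ⟨_, s1 _ _ _ _ h1 (s2 _ _ h2)⟩
      · rw [q1, q2, zpow_neg_one]
        exact hF2 i hi j hj

end Pool.Helper99.SZ
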