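import Pool.Agent.Helper99.SZ.TPA

/-!
# The archimedean bound, all conductors
-/

set_option autoImplicit false

namespace Pool.Helper99.SZ

open NumberField

/-- the group of all `S`-units -/
theorem ta_group (hSUF : ST_SUF) (K : Type) [Field K] [NumberField K] (m : ℕ)
    (P : Fin m → Ideal (𝓞 K)) (hinj : Function.Injective P) (hP : ∀ j, (P j).IsPrime ∧ P j ≠ ⊥) :
    ∃ G1 : Subgroup Kˣ, -1 ∈ G1 ∧ (∀ u ∈ G1, ∃ a, SU P a u) ∧ PIG P G1 1 := by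
  obtain ⟨s1, s2, s3, s4, s5, s6⟩ := hSUF K m P hinj hP
  have hone : SU P 0 (1 : Kˣ) := (s4 1).2 ⟨1, by simp⟩
  have hneg : SU P 0 (-1 : Kˣ) := (s4 (-1)).2 ⟨-1, by simp⟩
  refine ⟨{ carrier := {u | ∃ a, SU P a u}
            mul_mem' := fun {x y} hx hy => by
              obtain ⟨a1, h1⟩ := hx
              obtain ⟨a2, h2⟩ := hy
              exact ⟨_, s1 _ _ _ _ h1 h2⟩
            one_mem' := ⟨0, hone⟩
            inv_mem' := fun {x} hx => by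
              obtain ⟨a1, h1⟩ := hx
              exact ⟨_, s2 _ _ h1⟩ }, ⟨0, hneg⟩, fun u hu => hu, ?_⟩
  intro ι _ f hf
  refine ⟨Finset.univ, ?_, ?_⟩
  · rw [one_mul]
    exact le_rfl
  · intro i _ j _
    obtain ⟨a1, h1⟩ := hf i
    obtain ⟨a2, h2⟩ := hf j
    exact ⟨_, s1 _ _ _ _ h1 (s2 _ _ h2)⟩

/-- the logarithm near `1` -/
theorem ta_log (z : ℂ) (Ti : ℝ) (hTi : 6 ≤ Ti) (hz : ‖z - 1‖ ≤ Real.exp (-Ti)) :
    ∃ lam0 : ℂ, Complex.exp lam0 = z ^ 12 ∧ ‖lam0‖ ≤ Real.exp (-(Ti - 3)) ∧ ‖lam0‖ ≤ 1 := by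
  have e3 : (18 : ℝ) ≤ Real.exp 3 := by
    have h1 := Real.exp_one_gt_d9
    have h2 : Real.exp 3 = Real.exp 1 ^ 3 := by rw [← Real.exp_nat_mul]; norm_num
    rw [h2]
    have : (2.7 : ℝ) ^ 3 ≤ Real.exp 1 ^ 3 := pow_le_pow_left₀ (by norm_num) (by linarith) 3
    norm_num at this ⊢
    linarith
  have e4 : Real.exp (-Ti) ≤ 1 / 2 := by
    have h1 : Real.exp (-Ti) ≤ Real.exp (-1) := Real.exp_le_exp.2 (by linarith)
    have h2 : Real.exp (-1) ≤ 1 / 2 := by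
      rw [Real.exp_neg, ← one_div]
      apply one_div_le_one_div_of_le (by norm_num)
      have := Real.exp_one_gt_d9
      linarith
    linarith
  have h1 : ‖Complex.log (1 + (z - 1))‖ ≤ 3 / 2 * ‖z - 1‖ :=
    Complex.norm_log_one_add_half_le_self (hz.trans e4)
  have h2 : 1 + (z - 1) = z := by ring
  rw [h2] at h1
  have hz0 : z ≠ 0 := by
    intro h0
    rw [h0] at hz
    simp at hz
    linarith
  have h3 : ‖(12 : ℕ) * Complex.log z‖ ≤ Real.exp (-(Ti - 3)) := by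
    rw [norm_mul, Complex.norm_natCast]
    push_cast
    have h4 : Real.exp (-(Ti - 3)) = Real.exp 3 * Real.exp (-Ti) := by
      rw [← Real.exp_add]
      congr 1
      ring
    rw [h4]
    have := Real.exp_pos (-Ti)
    nlinarith
  refine ⟨(12 : ℕ) * Complex.log z, ?_, h3, h3.trans ?_⟩
  · rw [Complex.exp_nat_mul, Complex.exp_log hz0]
  · exact Real.exp_le_one_iff.2 (by linarith)

/-- growth with the archimedean size -/
theorem ta_grow (n m k : ℕ) (X0 ρ0 E : ℝ) (N N' : ℝ → ℝ) (c5 R ν A Λ : ℝ) (hX0 : 0 ≤ X0)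
    (hE : 0 ≤ E) (hk : k = 0 ∨ k = 1) (hn : n ≤ m + 2)
    (hg : ∀ ρ, ρ0 ≤ ρ → ρ ^ (n + 1) ≤ X0 * N ρ) (_hN' : ∀ ρ, 0 ≤ N' ρ)
    (hNN : ∀ ρ, 1 ≤ ρ → ρ ^ k * N ρ ≤ 20 * E * N' (4 * ρ))
    (hX : X0 = c5 ^ (m + 1) * ((m : ℝ) + 1) ^ m * 1 * ν * A * R ^ 2 * Λ) (hc5 : 1 ≤ c5)
    (hΛ : 0 ≤ Λ) (hν : 0 ≤ ν) (hA : 0 ≤ A) :
    (∀ ρ, 4 * (|ρ0| + 1) ≤ ρ → ρ ^ (n + k + 1) ≤ (4 ^ (n + k + 1) * (20 * E) * X0) * N' ρ) ∧
      4 ^ (n + k + 1) * (20 * E) * X0 ≤ (c5 * (4 ^ 4 * 20)) ^ (m + 1) * ((m : ℝ) + 1) ^ m * E * ν *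
        A * R ^ 2 * Λ := by
  constructor
  · intro ρ hρ
    have h0 : ρ0 ≤ ρ / 4 := by
      have := le_abs_self ρ0
      linarith
    have h1 : 1 ≤ ρ / 4 := by
      have := abs_nonneg ρ0
      linarith
    have h2 := hg (ρ / 4) h0
    have h3 := hNN (ρ / 4) h1
    rw [show 4 * (ρ / 4) = ρ by ring] at h3
    have e9 : ρ ^ (n + k + 1) = 4 ^ (n + k + 1) * ((ρ / 4) ^ k * (ρ / 4) ^ (n + 1)) := by
      rw [← pow_add, show k + (n + 1) = n + k + 1 by ring, ← mul_pow]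
      congr 1
      ring
    rw [e9]
    have h4 : (ρ / 4) ^ k * (ρ / 4) ^ (n + 1) ≤ X0 * (20 * E * N' ρ) := by
      calc (ρ / 4) ^ k * (ρ / 4) ^ (n + 1) ≤ (ρ / 4) ^ k * (X0 * N (ρ / 4)) :=
            mul_le_mul_of_nonneg_left h2 (by positivity)
        _ = X0 * ((ρ / 4) ^ k * N (ρ / 4)) := by ring
        _ ≤ _ := mul_le_mul_of_nonneg_left h3 hX0
    calc 4 ^ (n + k + 1) * ((ρ / 4) ^ k * (ρ / 4) ^ (n + 1)) ≤
          4 ^ (n + k + 1) * (X0 * (20 * E * N' ρ)) := mul_le_mul_of_nonneg_left h4 (by positivity)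
      _ = _ := by ring
  · have e1 : (4 : ℝ) ^ (n + k + 1) * 20 ≤ (4 ^ 4 * 20) ^ (m + 1) := by
      rw [mul_pow]
      refine mul_le_mul ?_ (le_self_pow₀ (by norm_num) (by omega)) (by norm_num) (by positivity)
      rw [← pow_mul]
      refine pow_le_pow_right₀ (by norm_num) ?_
      rcases hk with h | h <;> omega
    rw [hX]
    calc 4 ^ (n + k + 1) * (20 * E) * (c5 ^ (m + 1) * ((m : ℝ) + 1) ^ m * 1 * ν * A * R ^ 2 * Λ)
        = (4 ^ (n + k + 1) * 20) * (E * (c5 ^ (m + 1) * ((m : ℝ) + 1) ^ m * ν * A * R ^ 2 * Λ)) := by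
          ring
      _ ≤ (4 ^ 4 * 20) ^ (m + 1) * (E * (c5 ^ (m + 1) * ((m : ℝ) + 1) ^ m * ν * A * R ^ 2 * Λ)) :=
          mul_le_mul_of_nonneg_right e1 (by positivity)
      _ = _ := by rw [mul_pow c5]; ring

/-- the data for the archimedean place -/
theorem ta_data (hGRW : ST_GRW) (hCN3 : ST_CN3) (hPC3 : ST_PC3) (hP123 : ST_P123)
    (hCU3 : ST_CU3) (hCU1 : ST_CU1) (hSUF : ST_SUF) (hTOR3 : ST_TOR3) (hLF3 : ST_LF3)
    (hHTA : ST_HTA) (hARR : ST_ARR) (hARC : ST_ARC) (hLIA : ST_LIA) : ∃ c : ℝ, 1 ≤ c ∧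
    ∀ (m : ℕ) (K : Type)
    [Field K] [NumberField K] (β : K) (a b c' : ℤ) (κ : 𝓞 K) (p : Fin m → ℕ)
    (P : Fin m → Ideal (𝓞 K)) (𝔞 : Ideal (𝓞 K)), CD K β a b c' κ m p P 𝔞 →
    ∀ σ : Fin 3 → (K →+* ℂ), Function.Injective σ → CFG σ → ∀ (C0 R S ν A1 G Ti : ℝ), 1 ≤ C0 →
    1 ≤ R → Real.log |(NumberField.discr K : ℝ)| ≤ C0 * R → 1 ≤ A1 →
    Real.log (Ideal.absNorm 𝔞 : ℝ) ≤ A1 → 1 ≤ G → G ≤ A1 → 1 ≤ S →
    (∀ i, |Real.log ‖σ i (κ : K)‖| ≤ S) →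
    (∀ j, ((dis a b c').natAbs.factorization (p j) : ℝ) * Real.log (p j) ≤ S) →
    ((BK.ID K (2 * Real.sqrt |(NumberField.discr K : ℝ)|)).ncard : ℝ) ≤ ν → 1 ≤ ν →
    ‖σ 0 (κ : K)‖ ≠ ‖σ 1 (κ : K)‖ → 6 ≤ Ti →
    ‖σ 2 (κ : K) / σ 1 (κ : K) - 1‖ ≤ Real.exp (-Ti) →
    ∃ (n : ℕ) (L : Type) (_ : Field L) (_ : NumberField L) (g0 : L) (g : Fin n → L)
      (nrm : ℤ × (Fin n → ℤ) → ℝ) (Z X0 ρ0 : ℝ), m ≤ n ∧ n ≤ m + 3 ∧ 1 ≤ Z ∧
      Z ≤ 41 * ((m : ℝ) + 4) ^ 2 * (c * ((m + 5).factorial : ℝ)) * (1 + S) ∧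
      LD L n g0 g nrm G Z ∧ 0 < X0 ∧
      X0 ≤ (12 ^ 3 * c * C0 ^ 2 * (4 ^ 4 * 20)) ^ (m + 1) * ((m : ℝ) + 1) ^ m * Real.exp G * ν *
        A1 * R ^ 2 * ∏ j, Real.log (p j) ∧
      (∀ ρ, ρ0 ≤ ρ → ρ ^ (n + 1) ≤ X0 * ({x : ℤ × (Fin n → ℤ) | nrm x ≤ ρ}.ncard : ℝ)) ∧
      (∀ d : ℕ, HT L 27 n g0 g nrm G (Ti - 3) d) ∧
      nrm (1, 0) ≤ 12 * ((12 + 4 * m) * S + 4 * A1) ∧ Ti - 3 ≤ 81 * nrm (1, 0) := by
  obtain ⟨c, hc, hlat⟩ := tp_lat hGRW hCN3 hPC3 hP123 hCU3 hCU1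
  refine ⟨c, hc, ?_⟩
  intro m K _ _ β a b c' κ p P 𝔞 hCD σ hσ hcfg C0 R S ν A1 G Ti hC0 hR hdisc hA1 hnA hG1 hG hS hσS
    hvS hν hν1 hne hTi hclose
  obtain ⟨k1, k2, k3, k4, k5, k6⟩ := hCU1.2 K β a b c' κ hCD.cf
  obtain ⟨L, iL, iN, e, φ, hL27, he, hτ, hφ⟩ := hLF3 K hCD.cf.deg σ hσ
  have htor := hTOR3 K hCD.cf.deg σ hσ κ k5 hne
  have hker : ∀ k : ℤ, k ≠ 0 → (e 2 (κ : K) / e 1 (κ : K)) ^ k ≠ 1 := by
    intro k hk h1
    apply htor k hk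
    have h2 := congrArg φ h1
    rw [map_zpow₀, map_div₀, hφ, hφ, map_one] at h2
    exact h2
  obtain ⟨G1, g1, g2, g6⟩ := ta_group hSUF K m P hCD.inj hCD.pr
  obtain ⟨n, s, nrm, X0, ρ0, l1, l2, l3, l4, l5, l6, l7, l8, l9⟩ := hlat m K β a b c' κ p P 𝔞 hCD σ
    hσ C0 R S ν A1 G hC0 hR hdisc hA1 hnA hG (by linarith) hσS hvS hν hν1 L e he hτ
    hker G1 g1 g2 1 le_rfl g6
  have hlogp0 : ∀ j, 0 ≤ Real.log (p j) := fun j =>
    Real.log_nonneg (by exact_mod_cast (hCD.pp j).one_lt.le)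
  obtain ⟨Λ, hΛ⟩ : ∃ Λ, Λ = ∏ j, Real.log (p j) := ⟨_, rfl⟩
  have hΛ0 : 0 ≤ Λ := by rw [hΛ]; exact Finset.prod_nonneg fun j _ => hlogp0 j
  rw [← hΛ] at l6 ⊢
  obtain ⟨Z, hZ⟩ : ∃ Z, Z = ((m : ℝ) + 4) * (c * ((m + 5).factorial : ℝ)) * (1 + S) := ⟨_, rfl⟩
  rw [← hZ] at l4
  have hm0 : (0 : ℝ) ≤ m := Nat.cast_nonneg _
  have hff : (1 : ℝ) ≤ ((m + 5).factorial : ℝ) := by exact_mod_cast Nat.factorial_pos _
  have hB1 : 1 ≤ c * ((m + 5).factorial : ℝ) := by nlinarith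
  have hmB : 1 ≤ ((m : ℝ) + 4) * (c * ((m + 5).factorial : ℝ)) := by nlinarith
  have hZ1 : 1 ≤ Z := by
    rw [hZ]
    nlinarith
  have hZZ : 41 * ((m : ℝ) + 4) ^ 2 * (c * ((m + 5).factorial : ℝ)) * (1 + S) =
      41 * ((m : ℝ) + 4) * Z := by rw [hZ]; ring
  obtain ⟨lam0, m1, m2, m3⟩ := ta_log (σ 2 (κ : K) / σ 1 (κ : K)) Ti hTi hclose
  obtain ⟨g0, hg0⟩ : ∃ g0 : L, g0 = (e 2 (κ : K) / e 1 (κ : K)) ^ 12 := ⟨_, rfl⟩
  have hlam : Complex.exp lam0 = φ g0 := by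
    rw [m1, hg0, map_pow, map_div₀, hφ, hφ]
  obtain ⟨g, hg⟩ : ∃ g : Fin n → L, g = fun i => (e 2 ((s i : Kˣ) : K) /
      e 1 ((s i : Kˣ) : K)) ^ 12 := ⟨_, rfl⟩
  have hφg : ∀ i, φ (g i) = (σ 2 ((s i : Kˣ) : K) / σ 1 ((s i : Kˣ) : K)) ^ 12 := by
    intro i
    rw [hg]
    show φ ((e 2 ((s i : Kˣ) : K) / e 1 ((s i : Kˣ) : K)) ^ 12) = _
    rw [map_pow, map_div₀, hφ, hφ]
  rw [← hg0, ← hg] at l4
  have hlia := hLIA n 27 L hL27 φ g0 g nrm G Z (Ti - 3) lam0 l4 hlam (by linarith) m2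
  have hσs : ∀ (i : Fin n) (j : Fin 3), σ j ((s i : Kˣ) : K) ≠ 0 := by
    intro i j h0
    exact (s i).ne_zero ((map_eq_zero (σ j)).1 h0)
  have hexpG := Real.exp_pos G
  have hnn : ∀ x, 0 ≤ nrm x := fun x => le_trans (abs_nonneg _) (l4.co0 x)
  have hc51 : 1 ≤ 12 ^ 3 * c * C0 ^ 2 := by
    have : 1 ≤ C0 ^ 2 := one_le_pow₀ hC0
    nlinarith
  rcases hcfg with hre | ⟨hcc, hre0⟩
  · -- real case
    obtain ⟨c1, hc1⟩ : ∃ c1 : Fin n → ℝ, c1 = fun i =>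
      12 * Real.log ‖σ 2 ((s i : Kˣ) : K) / σ 1 ((s i : Kˣ) : K)‖ := ⟨_, rfl⟩
    have hexp : ∀ i, Complex.exp (c1 i : ℂ) = φ (g i) := by
      intro i
      rw [hφg i, hc1]
      show Complex.exp ((12 * Real.log ‖σ 2 ((s i : Kˣ) : K) / σ 1 ((s i : Kˣ) : K)‖ : ℝ) : ℂ) = _
      obtain ⟨r, hr⟩ : ∃ r : ℝ, σ 2 ((s i : Kˣ) : K) / σ 1 ((s i : Kˣ) : K) = (r : ℂ) := by
        refine ⟨(σ 2 ((s i : Kˣ) : K) / σ 1 ((s i : Kˣ) : K)).re, ?_⟩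
        apply Complex.ext
        · simp
        · rw [Complex.ofReal_im, Complex.div_im, hre 2, hre 1]
          ring
      have hr0 : r ≠ 0 := by
        intro h0
        rw [h0, Complex.ofReal_zero, div_eq_zero_iff] at hr
        rcases hr with h | h
        · exact hσs i 2 h
        · exact hσs i 1 h
      rw [hr, Complex.norm_real, Real.norm_eq_abs, ← Complex.ofReal_exp, ← Complex.ofReal_pow]
      congr 1
      rw [show (12 : ℝ) * Real.log |r| = ((12 : ℕ) : ℝ) * Real.log |r| by norm_num,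
        Real.exp_nat_mul, Real.exp_log (abs_pos.2 hr0)]
      rw [show (12 : ℕ) = 2 * 6 by norm_num, pow_mul, sq_abs, ← pow_mul]
    obtain ⟨q1, q2⟩ := hARR L n φ g0 g nrm G Z c1 lam0 hG1 (by linarith) l4 hlam m3 hexp
    obtain ⟨t1, t2⟩ := ta_grow n m 0 X0 ρ0 (Real.exp G)
      (fun ρ => ({x : ℤ × (Fin n → ℤ) | nrm x ≤ ρ}.ncard : ℝ))
      (fun ρ => ({x : ℤ × (Fin n → ℤ) | nrm x + Real.exp G * |∑ i, c1 i * (x.2 i : ℝ)| ≤ ρ}.ncard : ℝ))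
      (12 ^ 3 * c * C0 ^ 2) R ν A1 Λ l5.le hexpG.le (Or.inl rfl) l2 l7 (fun ρ => Nat.cast_nonneg _)
      (fun ρ hρ => by
        rw [pow_zero, one_mul]
        exact q2 ρ (by linarith)) (by rw [l6]; push_cast; ring) hc51 hΛ0 (by linarith)
      (by linarith)
    refine ⟨n, L, iL, iN, g0, g, fun x => nrm x + Real.exp G * |∑ i, c1 i * (x.2 i : ℝ)|, Z,
      4 ^ (n + 0 + 1) * (20 * Real.exp G) * X0, 4 * (|ρ0| + 1), l1, by omega, hZ1, ?_, q1, ?_, t2,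
      t1, ?_, ?_, ?_⟩
    · rw [hZZ]
      nlinarith
    · positivity
    · exact hHTA n 27 (by norm_num) L hL27 φ g0 g _ G (Ti - 3) c1 1 lam0 hG1 hlam
        (fun i => by rw [mul_one]; exact hexp i) (fun x => by
          rw [mul_one, Complex.norm_real, Real.norm_eq_abs, mul_comm]
          have := hnn x
          linarith) (by linarith) m2
    · show nrm (1, 0) + Real.exp G * |∑ i, c1 i * (((0 : Fin n → ℤ) i : ℤ) : ℝ)| ≤ _
      simp only [Pi.zero_apply, Int.cast_zero, mul_zero, Finset.sum_const_zero, abs_zero, add_zero]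
      exact l8
    · show Ti - 3 ≤ 81 * (nrm (1, 0) + Real.exp G * |∑ i, c1 i * (((0 : Fin n → ℤ) i : ℤ) : ℝ)|)
      simp only [Pi.zero_apply, Int.cast_zero, mul_zero, Finset.sum_const_zero, abs_zero, add_zero]
      push_cast at hlia
      linarith
  · -- complex case
    obtain ⟨c1, hc1⟩ : ∃ c1 : Fin n → ℝ, c1 = fun i =>
      12 * Complex.arg (σ 2 ((s i : Kˣ) : K) / σ 1 ((s i : Kˣ) : K)) := ⟨_, rfl⟩
    have hexp : ∀ i, Complex.exp ((c1 i : ℂ) * Complex.I) = φ (g i) := by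
      intro i
      rw [hφg i, hc1]
      show Complex.exp (((12 * Complex.arg (σ 2 ((s i : Kˣ) : K) / σ 1 ((s i : Kˣ) : K)) : ℝ) : ℂ) *
        Complex.I) = _
      have h1 : ‖σ 2 ((s i : Kˣ) : K) / σ 1 ((s i : Kˣ) : K)‖ = 1 := by
        rw [hcc, norm_div, RCLike.norm_conj]
        exact div_self (norm_ne_zero_iff.2 (hσs i 1))
      have h2 := Complex.norm_mul_exp_arg_mul_I (σ 2 ((s i : Kˣ) : K) / σ 1 ((s i : Kˣ) : K))
      rw [h1, Complex.ofReal_one, one_mul] at h2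
      have h3 : (((12 * Complex.arg (σ 2 ((s i : Kˣ) : K) / σ 1 ((s i : Kˣ) : K)) : ℝ) : ℂ) *
        Complex.I) = (12 : ℕ) * (((Complex.arg (σ 2 ((s i : Kˣ) : K) / σ 1 ((s i : Kˣ) : K)) : ℝ)
          : ℂ) * Complex.I) := by
        push_cast
        ring
      rw [h3, Complex.exp_nat_mul, h2]
    have hc40 : ∀ i, |c1 i| ≤ 40 := by
      intro i
      rw [hc1]
      show |12 * Complex.arg (σ 2 ((s i : Kˣ) : K) / σ 1 ((s i : Kˣ) : K))| ≤ 40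
      rw [abs_mul, abs_of_pos (by norm_num : (0 : ℝ) < 12)]
      have h1 := Complex.abs_arg_le_pi (σ 2 ((s i : Kˣ) : K) / σ 1 ((s i : Kˣ) : K))
      have h2 := Real.pi_lt_d2
      linarith
    obtain ⟨c2, hc2⟩ : ∃ c2 : Fin (n + 1) → ℝ, c2 = Fin.cons (2 * Real.pi) c1 := ⟨_, rfl⟩
    obtain ⟨g', hg'⟩ : ∃ g' : Fin (n + 1) → L, g' = Fin.cons 1 g := ⟨_, rfl⟩
    obtain ⟨nrm', hnrm'⟩ : ∃ nrm' : ℤ × (Fin (n + 1) → ℤ) → ℝ, nrm' = fun x =>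
      nrm (x.1, fun i => x.2 i.succ) + Real.exp G * |∑ i, c2 i * (x.2 i : ℝ)| := ⟨_, rfl⟩
    obtain ⟨q1, q3, q2⟩ := hARC L n φ g0 g nrm G Z c1 lam0 hG1 (by linarith) l4 hlam m3 hc40 hexp
      c2 g' nrm' (by rw [hc2]; rfl) (fun i => by rw [hc2]; rfl) (by rw [hg']; rfl)
      (fun i => by rw [hg']; rfl) (fun x => by rw [hnrm'])
    obtain ⟨t1, t2⟩ := ta_grow n m 1 X0 ρ0 (Real.exp G)
      (fun ρ => ({x : ℤ × (Fin n → ℤ) | nrm x ≤ ρ}.ncard : ℝ))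
      (fun ρ => ({x : ℤ × (Fin (n + 1) → ℤ) | nrm' x ≤ ρ}.ncard : ℝ))
      (12 ^ 3 * c * C0 ^ 2) R ν A1 Λ l5.le hexpG.le (Or.inr rfl) l2 l7 (fun ρ => Nat.cast_nonneg _)
      (fun ρ hρ => by
        rw [pow_one]
        exact q2 ρ hρ) (by rw [l6]; push_cast; ring) hc51 hΛ0 (by linarith)
      (by linarith)
    have hn2 : (n : ℝ) ≤ m + 2 := by exact_mod_cast l2
    have h10 : nrm' (1, 0) = nrm (1, 0) := by
      rw [hnrm']
      show nrm (1, fun i => (0 : Fin (n + 1) → ℤ) i.succ) +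
        Real.exp G * |∑ i, c2 i * (((0 : Fin (n + 1) → ℤ) i : ℤ) : ℝ)| = _
      simp only [Pi.zero_apply, Int.cast_zero, mul_zero, Finset.sum_const_zero, abs_zero, add_zero]
      rfl
    refine ⟨n + 1, L, iL, iN, g0, g', nrm', 1 + 40 * ((n : ℝ) + 1) * Z,
      4 ^ (n + 1 + 1) * (20 * Real.exp G) * X0, 4 * (|ρ0| + 1), by omega, by omega, ?_, ?_, q1, ?_,
      t2, t1, ?_, ?_, ?_⟩
    · have : 0 ≤ 40 * ((n : ℝ) + 1) * Z := by positivity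
      linarith
    · rw [hZZ]
      have : ((n : ℝ) + 1) * Z ≤ ((m : ℝ) + 3) * Z :=
        mul_le_mul_of_nonneg_right (by linarith) (by linarith)
      nlinarith
    · positivity
    · exact hHTA (n + 1) 27 (by norm_num) L hL27 φ g0 g' nrm' G (Ti - 3) c2 Complex.I lam0 hG1 hlam
        q3 (fun x => by
          rw [norm_mul, Complex.norm_I, mul_one, Complex.norm_real, Real.norm_eq_abs, mul_comm,
            hnrm']
          have := hnn (x.1, fun i => x.2 i.succ)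
          show _ ≤ nrm (x.1, fun i => x.2 i.succ) + Real.exp G * |∑ i, c2 i * (x.2 i : ℝ)|
          linarith) (by linarith) m2
    · rw [h10]
      exact l8
    · rw [h10]
      push_cast at hlia
      linarith

theorem st_TAR (hGRW : ST_GRW) (hCN3 : ST_CN3) (hPC3 : ST_PC3) (hP123 : ST_P123)
    (hCU3 : ST_CU3) (hCU1 : ST_CU1) (hSUF : ST_SUF) (hTOR3 : ST_TOR3) (hLF3 : ST_LF3)
    (hHTA : ST_HTA) (hARR : ST_ARR) (hARC : ST_ARC) (hLIA : ST_LIA) (hBR : ST_BR)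
    (hCLA : ST_CLA) : ST_TAR := by
  intro δ C0 hδ hC0
  obtain ⟨c, hc, hdat⟩ := ta_data hGRW hCN3 hPC3 hP123 hCU3 hCU1 hSUF hTOR3 hLF3 hHTA hARR hARC
    hLIA
  obtain ⟨δ1, hδ1⟩ : ∃ δ1, δ1 = δ / 10 := ⟨_, rfl⟩
  have hδ10 : 0 < δ1 := by rw [hδ1]; positivity
  obtain ⟨ε, hε⟩ : ∃ ε, ε = min 1 (δ1 / 54) := ⟨_, rfl⟩
  have hε0 : 0 < ε := by rw [hε]; positivity
  have hε1 : ε ≤ 1 := by rw [hε]; exact min_le_left _ _
  have hε2 : 54 * ε ≤ δ1 := by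
    have : ε ≤ δ1 / 54 := by rw [hε]; exact min_le_right _ _
    linarith
  have hc51 : 1 ≤ 12 ^ 3 * c * C0 ^ 2 * (4 ^ 4 * 20) := by
    have : 1 ≤ C0 ^ 2 := one_le_pow₀ hC0
    nlinarith
  obtain ⟨C2, hC2, hcla⟩ := hCLA 1 1 one_pos le_rfl
  obtain ⟨v0, Θ, C3, hΘ1, hC3, hend⟩ := n3_end hBR hCLA δ1 ε (432 * C0) c C0 (C0 + 3)
    (12 ^ 3 * c * C0 ^ 2 * (4 ^ 4 * 20)) hδ10 hε0 hε1 (by linarith) hc hC0 (by linarith) hc51
  obtain ⟨Θv, hΘv⟩ : ∃ Θv, Θv = Θ ^ (v0 + 1) := ⟨_, rfl⟩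
  have hΘv1 : 1 ≤ Θv := by rw [hΘv]; exact one_le_pow₀ hΘ1
  obtain ⟨Cf, hCf⟩ : ∃ Cf, Cf = C3 * (2 * Real.exp 54) * (3 / δ1 + 1) +
      (6 / δ1 + 1) * Θv + 2 * (3 / δ1 + 1) + 1 := ⟨_, rfl⟩
  have hCf1 : 1 ≤ Cf := by
    rw [hCf]
    have h3δ : 0 < 3 / δ1 := by positivity
    have h6δ : 0 < 6 / δ1 := by positivity
    have : 0 < C3 * (2 * Real.exp 54) * (3 / δ1 + 1) := by
      have := Real.exp_pos 54
      positivity
    have : 0 < (6 / δ1 + 1) * Θv := by positivity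
    linarith
  refine ⟨216 * Cf, by linarith, ?_⟩
  intro m K _ _ β a b c' κ p P 𝔞 hCD σ hσ hcfg R S ν A Ti hR hdisc hpR hA hnA hAR hS hSR hσS hvS
    hν hν1 hne hTi0 hclose hS2
  have hprod : 1 ≤ ν * A * Real.exp (δ * R) := by
    have h1 : 1 ≤ Real.exp (δ * R) := Real.one_le_exp (by positivity)
    have h2 : 1 ≤ ν * A := by nlinarith
    nlinarith
  by_cases hTi : Ti < 6
  · have : 216 * Cf * ν * A * Real.exp (δ * R) = 216 * Cf * (ν * A * Real.exp (δ * R)) := by ring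
    rw [this]
    nlinarith
  push Not at hTi
  obtain ⟨kl1, _, _, kl4, _⟩ := hcla m R p hR hCD.pinj hCD.pp hpR
  obtain ⟨G, hG⟩ : ∃ G, G = max 1 (ε * R) := ⟨_, rfl⟩
  have hG1 : 1 ≤ G := by rw [hG]; exact le_max_left _ _
  have hεG : ε * R ≤ G := by rw [hG]; exact le_max_right _ _
  have hεR0 : 0 ≤ ε * R := by positivity
  have hGle : G ≤ 1 + ε * R := by
    rw [hG]
    exact max_le (by linarith) (by linarith)
  have hG3R : G ≤ 3 * R := by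
    have : ε * R ≤ R := mul_le_of_le_one_left (by linarith) hε1
    linarith
  obtain ⟨A1, hA1⟩ : ∃ A1 : ℝ, A1 = max A G := ⟨_, rfl⟩
  have hAA1 : A ≤ A1 := by rw [hA1]; exact le_max_left _ _
  have hGA1 : G ≤ A1 := by rw [hA1]; exact le_max_right _ _
  have hA11 : 1 ≤ A1 := hA.trans hAA1
  have hA1R : Real.log A1 ≤ (C0 + 3) * R := by
    have hA1A : A1 ≤ A * (3 * R) := by
      rw [hA1]
      refine max_le ?_ ?_
      · exact le_mul_of_one_le_right (by linarith) (by linarith)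
      · exact hG3R.trans (le_mul_of_one_le_left (by linarith) hA)
    have e1 : Real.log A1 ≤ Real.log A + Real.log (3 * R) := by
      rw [← Real.log_mul (by linarith) (by linarith)]
      exact Real.log_le_log (by linarith) hA1A
    have e2 : Real.log (3 * R) ≤ 3 * R := by
      have := Real.log_le_sub_one_of_pos (show 0 < 3 * R by linarith)
      linarith
    linarith
  obtain ⟨n, L, iL, iN, g0, g, nrm, Z, X0, ρ0, l1, l2, l3, l4, l5, l6, l7, l8, l9, l10, l11⟩ :=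
    hdat m K β a b c' κ p P 𝔞 hCD σ hσ hcfg C0 R S ν A1 G Ti hC0 hR hdisc hA11 (hnA.trans hAA1) hG1
      hGA1 hS hσS hvS hν hν1 hne hTi hclose
  obtain ⟨Tst, hTst⟩ : ∃ Tst, Tst = Ti - 3 := ⟨_, rfl⟩
  have hTst0 : 0 < Tst := by linarith
  have hT2 : Ti ≤ 2 * Tst := by linarith
  rw [← hTst] at l9 l11
  have hlogp0 : ∀ j, 0 ≤ Real.log (p j) := fun j =>
    Real.log_nonneg (by exact_mod_cast (hCD.pp j).one_lt.le)
  have hΛ0 : 0 ≤ ∏ j, Real.log (p j) := Finset.prod_nonneg fun j _ => hlogp0 j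
  obtain ⟨qq, hqq⟩ : ∃ qq : ℝ, qq = 2 * Real.exp 54 * 1 * Real.exp (54 * ε * R) := ⟨_, rfl⟩
  have hqq0 : Real.exp G ≤ qq := by
    have f1 : Real.exp G ≤ Real.exp 54 * Real.exp (54 * ε * R) := by
      rw [← Real.exp_add, Real.exp_le_exp]
      linarith
    have f2 : 0 < Real.exp 54 * Real.exp (54 * ε * R) := by positivity
    rw [hqq]
    linarith
  have hqq1 : 1 ≤ qq := le_trans (Real.one_le_exp (by linarith)) hqq0
  have hm0 : (0 : ℝ) ≤ m := Nat.cast_nonneg _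
  have hnn : Tst ≤ 108 * nrm (1, 0) := by linarith
  have hfin := tp_fin δ δ1 ε R C3 Cf A A1 ν 1 qq Tst (Ti / 216) (nrm (1, 0)) G Θv hδ hδ1 hε2 hR hC3
    hΘv1 hA hν1 le_rfl hqq hCf hA1 hG3R (by linarith) (by linarith) (by
      by_cases hcase : Tst ≤ A1
      · exact Or.inl hcase
      · push Not at hcase
        right
        rw [hΘv]
        refine hend m n R S A1 G Z X0 ρ0 Tst qq ν p L g0 g nrm hR hCD.pinj hCD.pp hpR l1 l2 hS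
          hSR hA11 hA1R hG1 hεG hG3R l3 l4 l5 l9 l8 l6 ?_ hqq1 hν1
          (tp_h192 m S A1 _ hm0 hS hA11 l10) hTst0 hnn ?_
        · refine l7.trans ?_
          exact mul_le_mul_of_nonneg_right (mul_le_mul_of_nonneg_right (mul_le_mul_of_nonneg_right
            (mul_le_mul_of_nonneg_right (mul_le_mul_of_nonneg_left hqq0 (by positivity))
            (by linarith)) (by linarith)) (by positivity)) hΛ0
        · refine tp_hH m S A1 _ R C0 Tst hm0 hR hC0 kl1 (by linarith) hTst0 hcase.le ?_ l10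
          refine hS2.trans ?_
          calc C0 * R * Ti ≤ C0 * R * (2 * Tst) := mul_le_mul_of_nonneg_left hT2 (by positivity)
            _ = _ := by ring)
  rw [mul_one] at hfin
  linarith

end Pool.Helper99.SZ
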