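import Pool.Agent.Helper99.SZ.NUM3

/-!
# The bound for one exponent, all conductors
-/

set_option autoImplicit false

namespace Pool.Helper99.SZ

open NumberField

/-- the size of `(1, 0)` -/
theorem tp_one {K : Type} [Field K] [NumberField K] {m n : ℕ} (σ : Fin 3 → (K →+* ℂ))
    (P : Fin m → Ideal (𝓞 K)) (κ : 𝓞 K) (nn : Fin m → ℕ) (s : Fin n → Kˣ)
    (α : Fin n → Fin m → ℤ) (A : ℝ) : nrmS σ P κ nn s α A (1, 0) =
      4 * ∑ i, |Real.log ‖σ i (κ : K)‖| + 4 * A +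
        4 * ∑ j, (nn j : ℝ) * Real.log (Ideal.absNorm (P j)) := by
  simp only [nrmS, gelS, zpow_one, Pi.zero_apply, zpow_zero, Finset.prod_const_one, mul_one,
    zero_mul, Finset.sum_const_zero, add_zero, one_mul, Int.cast_one, abs_one]
  congr 1
  congr 1
  refine Finset.sum_congr rfl fun j _ => ?_
  push_cast
  rw [abs_of_nonneg (Nat.cast_nonneg _)]

theorem tp_size {K : Type} [Field K] [NumberField K] {m n : ℕ} (σ : Fin 3 → (K →+* ℂ))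
    (P : Fin m → Ideal (𝓞 K)) (κ : 𝓞 K) (nn : Fin m → ℕ) (s : Fin n → Kˣ)
    (α : Fin n → Fin m → ℤ) (A S : ℝ) (hσ : ∀ i, |Real.log ‖σ i (κ : K)‖| ≤ S)
    (hS : ∀ j, (nn j : ℝ) * Real.log (Ideal.absNorm (P j)) ≤ S) :
    nrmS σ P κ nn s α A (1, 0) ≤ (12 + 4 * m) * S + 4 * A := by
  rw [tp_one]
  have e1 : ∑ i, |Real.log ‖σ i (κ : K)‖| ≤ 3 * S := by
    refine (Finset.sum_le_sum fun i _ => hσ i).trans (le_of_eq ?_)
    simp
  have e2 : ∑ j, (nn j : ℝ) * Real.log (Ideal.absNorm (P j)) ≤ m * S := by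
    refine (Finset.sum_le_sum fun i _ => hS i).trans (le_of_eq ?_)
    simp
  linarith

/-- common growth estimate -/
theorem tp_growth {K : Type} [Field K] [NumberField K] (m r n : ℕ) (c C0 X R h q0 ν A Λ ρ0 : ℝ)
    (N : ℝ → ℝ) (hr1 : r + m = n + 1) (hr3 : r ≤ 3) (hc : 1 ≤ c) (hC0 : 1 ≤ C0) (hR : 1 ≤ R)
    (hq0 : 0 ≤ q0) (hν : 0 ≤ ν) (hA : 0 ≤ A) (hΛ : 0 ≤ Λ) (hh : h = C0 * R)
    (hN : ∀ ρ, 0 ≤ N ρ)
    (hg : ∀ ρ, ρ0 ≤ ρ → ρ ^ (r + m) ≤ c ^ (m + 1) * ((m : ℝ) + 1) ^ m * q0 * ν * A * h ^ 2 * Λ * N ρ)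
    (hX : X = (12 ^ 3 * c * C0 ^ 2) ^ (m + 1) * ((m : ℝ) + 1) ^ m * q0 * ν * A * R ^ 2 * Λ) :
    ∀ ρ, 12 * |ρ0| ≤ ρ → ρ ^ (n + 1) ≤ X * N (ρ / 12) := by
  intro ρ hρ
  have h0 : ρ0 ≤ ρ / 12 := by
    have := le_abs_self ρ0
    linarith
  have h1 := hg (ρ / 12) h0
  have hρ0 : 0 ≤ ρ := le_trans (by positivity) hρ
  rw [hr1] at h1
  have e9 : ρ ^ (n + 1) = 12 ^ (n + 1) * (ρ / 12) ^ (n + 1) := by
    rw [← mul_pow]
    congr 1
    ring
  have e1 : (12 : ℝ) ^ (n + 1) ≤ (12 ^ 3) ^ (m + 1) := by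
    rw [← pow_mul]
    exact pow_le_pow_right₀ (by norm_num) (by omega)
  have e2 : h ^ 2 ≤ (C0 ^ 2) ^ (m + 1) * R ^ 2 := by
    rw [hh, mul_pow]
    refine mul_le_mul_of_nonneg_right ?_ (by positivity)
    exact le_self_pow₀ (one_le_pow₀ hC0) (by omega)
  rw [e9]
  have hN' := hN (ρ / 12)
  calc 12 ^ (n + 1) * (ρ / 12) ^ (n + 1)
      ≤ (12 ^ 3) ^ (m + 1) * (c ^ (m + 1) * ((m : ℝ) + 1) ^ m * q0 * ν * A * h ^ 2 * Λ *
          N (ρ / 12)) := mul_le_mul e1 h1 (by positivity) (by positivity)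
    _ ≤ (12 ^ 3) ^ (m + 1) * (c ^ (m + 1) * ((m : ℝ) + 1) ^ m * q0 * ν * A *
          ((C0 ^ 2) ^ (m + 1) * R ^ 2) * Λ * N (ρ / 12)) := by
        refine mul_le_mul_of_nonneg_left ?_ (by positivity)
        refine mul_le_mul_of_nonneg_right ?_ hN'
        refine mul_le_mul_of_nonneg_right ?_ hΛ
        exact mul_le_mul_of_nonneg_left e2 (by positivity)
    _ = X * N (ρ / 12) := by
        rw [hX, mul_pow, mul_pow]
        ring

theorem tp_h192 (m S A1 h : ℝ) (hm : 0 ≤ m) (hS : 1 ≤ S) (hA : 1 ≤ A1)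
    (h1 : h ≤ 12 * ((12 + 4 * m) * S + 4 * A1)) : h ≤ 192 * (m + 1) * S * A1 := by
  have e2 : S ≤ S * A1 := le_mul_of_one_le_right (by linarith) hA
  have e3 : A1 ≤ S * A1 := le_mul_of_one_le_left (by linarith) hS
  have e4 : (12 + 4 * m) * S ≤ (12 + 4 * m) * (S * A1) :=
    mul_le_mul_of_nonneg_left e2 (by linarith)
  have e5 : 0 ≤ S * A1 := by positivity
  have e6 : (192 + 48 * m) * (S * A1) ≤ 192 * (m + 1) * (S * A1) :=
    mul_le_mul_of_nonneg_right (by linarith) e5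
  have e7 : (192 + 48 * m) * (S * A1) = 12 * ((12 + 4 * m) * (S * A1) + 4 * (S * A1)) := by
    ring
  have e8 : 192 * (m + 1) * S * A1 = 192 * (m + 1) * (S * A1) := by ring
  rw [e8]
  linarith

theorem tp_hH (m S A1 h R C0 Tst : ℝ) (_hm : 0 ≤ m) (hR : 1 ≤ R) (hC0 : 1 ≤ C0)
    (hm2 : m + 1 ≤ 2 * R) (hS : 0 ≤ S) (hT : 0 < Tst) (hA : A1 ≤ Tst) (hS2 : S ≤ 2 * C0 * R * Tst)
    (h1 : h ≤ 12 * ((12 + 4 * m) * S + 4 * A1)) : h ≤ 432 * C0 * R ^ 2 * Tst := by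
  have e2 : m + 3 ≤ 4 * R := by linarith
  have e3 : (12 + 4 * m) * S ≤ 16 * R * (2 * C0 * R * Tst) :=
    mul_le_mul (by linarith) hS2 (by linarith) (by positivity)
  have e4 : h ≤ 12 * (16 * R * (2 * C0 * R * Tst) + 4 * Tst) := by linarith
  refine e4.trans ?_
  have e6 : 1 ≤ C0 * R ^ 2 := by
    have : 1 ≤ R ^ 2 := one_le_pow₀ hR
    nlinarith
  have e5 : Tst ≤ C0 * R ^ 2 * Tst := le_mul_of_one_le_left hT.le e6
  have e7 : 12 * (16 * R * (2 * C0 * R * Tst) + 4 * Tst) = 384 * (C0 * R ^ 2 * Tst) + 48 * Tst := by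
    ring
  rw [e7]
  linarith

/-- the lattice, for all conductors -/
theorem tp_lat (hGRW : ST_GRW) (hCN3 : ST_CN3) (hPC3 : ST_PC3) (hP123 : ST_P123)
    (hCU3 : ST_CU3) (hCU1 : ST_CU1) : ∃ c : ℝ, 1 ≤ c ∧ ∀ (m : ℕ) (K : Type)
    [Field K] [NumberField K] (β : K) (a b c' : ℤ) (κ : 𝓞 K) (p : Fin m → ℕ)
    (P : Fin m → Ideal (𝓞 K)) (𝔞 : Ideal (𝓞 K)), CD K β a b c' κ m p P 𝔞 →
    ∀ σ : Fin 3 → (K →+* ℂ), Function.Injective σ → ∀ (C0 R S ν A1 G : ℝ), 1 ≤ C0 → 1 ≤ R →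
    Real.log |(NumberField.discr K : ℝ)| ≤ C0 * R → 1 ≤ A1 →
    Real.log (Ideal.absNorm 𝔞 : ℝ) ≤ A1 → G ≤ A1 → 0 ≤ S →
    (∀ i, |Real.log ‖σ i (κ : K)‖| ≤ S) →
    (∀ j, ((dis a b c').natAbs.factorization (p j) : ℝ) * Real.log (p j) ≤ S) →
    ((BK.ID K (2 * Real.sqrt |(NumberField.discr K : ℝ)|)).ncard : ℝ) ≤ ν → 1 ≤ ν →
    ∀ (L : Type) [Field L] [NumberField L] (e : Fin 3 → (K →+* L)), Function.Injective e →
    (∀ (τ : L →+* ℂ) (i : Fin 3), ∃ j : Fin 3, ∀ x : K, τ (e i x) = σ j x) →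
    (∀ k : ℤ, k ≠ 0 → (e 2 (κ : K) / e 1 (κ : K)) ^ k ≠ 1) →
    ∀ G1 : Subgroup Kˣ, -1 ∈ G1 → (∀ u ∈ G1, ∃ a, SU P a u) → ∀ q0 : ℕ, 1 ≤ q0 → PIG P G1 q0 →
    ∃ (n : ℕ) (s : Fin n → Kˣ) (nrm : ℤ × (Fin n → ℤ) → ℝ) (X0 ρ0 : ℝ), m ≤ n ∧ n ≤ m + 2 ∧
      (∀ i, s i ∈ G1) ∧ LD L n ((e 2 (κ : K) / e 1 (κ : K)) ^ 12)
        (fun i => (e 2 ((s i : Kˣ) : K) / e 1 ((s i : Kˣ) : K)) ^ 12) nrm G
        (((m : ℝ) + 4) * (c * ((m + 5).factorial : ℝ)) * (1 + S)) ∧ 0 < X0 ∧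
      X0 = (12 ^ 3 * c * C0 ^ 2) ^ (m + 1) * ((m : ℝ) + 1) ^ m * q0 * ν * A1 * R ^ 2 *
        ∏ j, Real.log (p j) ∧
      (∀ ρ, ρ0 ≤ ρ → ρ ^ (n + 1) ≤ X0 * ({x : ℤ × (Fin n → ℤ) | nrm x ≤ ρ}.ncard : ℝ)) ∧
      nrm (1, 0) ≤ 12 * ((12 + 4 * m) * S + 4 * A1) ∧
      ∀ j, ((dis a b c').natAbs.factorization (p j) : ℝ) * Real.log (p j) ≤ nrm (1, 0) := by
  obtain ⟨c, hc, hcnt⟩ := hCN3
  refine ⟨c, hc, ?_⟩
  intro m K _ _ β a b c' κ p P 𝔞 hCD σ hσ C0 R S ν A1 G hC0 hR hdisc hA1 hnA hG hS hσS hvS hν hν1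
    L _ _ e he hτ hker G1 g1 g2 q0 g4 g6
  obtain ⟨k1, k2, k3, k4, k5, k6⟩ := hCU1.2 K β a b c' κ hCD.cf
  have hlogp0 : ∀ j, 0 ≤ Real.log (p j) := fun j =>
    Real.log_nonneg (by exact_mod_cast (hCD.pp j).one_lt.le)
  obtain ⟨n, s, α, n1, n2, n3, n4, n5⟩ := hcnt m K hCD.cf.deg σ hσ P hCD.inj hCD.pr κ k5
    (fun j => (dis a b c').natAbs.factorization (p j)) 𝔞 hCD.fac G1 g1 g2 q0 g6
  obtain ⟨h, hh⟩ : ∃ h, h = C0 * R := ⟨_, rfl⟩
  have hh1 : 1 ≤ h := by rw [hh]; nlinarith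
  obtain ⟨ρ0, hρ0⟩ := n5 A1 h ν hh1 (by rw [hh]; exact hdisc) hA1 hnA hν
  have hcard1 : 1 ≤ Fintype.card (InfinitePlace K) := Fintype.card_pos
  have hcard3 : Fintype.card (InfinitePlace K) ≤ 3 := by
    have e1 : ∑ w : InfinitePlace K, InfinitePlace.mult w = 3 := by
      rw [InfinitePlace.sum_mult_eq, hCD.cf.deg]
    rw [← e1]
    calc Fintype.card (InfinitePlace K) = ∑ w : InfinitePlace K, 1 := by simp
      _ ≤ _ := Finset.sum_le_sum fun w _ => InfinitePlace.mult_pos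
  have hff : (1 : ℝ) ≤ ((m + 5).factorial : ℝ) := by exact_mod_cast Nat.factorial_pos _
  have hB1 : 1 ≤ c * ((m + 5).factorial : ℝ) := by nlinarith
  have hLD0 := hPC3 m K hCD.cf.deg σ hσ L e he hτ P hCD.inj hCD.pr
    (hCU3 K β a b c' κ m p P 𝔞 hCD) κ k5 (fun j => (dis a b c').natAbs.factorization (p j)) 𝔞
    hCD.fac n s α n3 A1 (c * ((m + 5).factorial : ℝ)) S G hA1 hnA hB1 n4
    hS hσS (fun j => by rw [hCD.nm j]; exact hvS j) (by linarith) hker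
  have hLD := hP123 L n _ _ _ G _ hLD0
  obtain ⟨nrm, hnrm⟩ : ∃ nrm : ℤ × (Fin n → ℤ) → ℝ, nrm = nrmS σ P κ
      (fun j => (dis a b c').natAbs.factorization (p j)) s α A1 := ⟨_, rfl⟩
  rw [← hnrm] at hLD
  have hsz : nrm (1, 0) ≤ (12 + 4 * m) * S + 4 * A1 := by
    rw [hnrm]
    exact tp_size σ P κ _ s α A1 S hσS (fun j => by rw [hCD.nm j]; exact hvS j)
  have hone := tp_one σ P κ (fun j => (dis a b c').natAbs.factorization (p j)) s α A1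
  rw [← hnrm] at hone
  obtain ⟨Λ, hΛ⟩ : ∃ Λ, Λ = ∏ j, Real.log (p j) := ⟨_, rfl⟩
  have hΛ0 : 0 ≤ Λ := by rw [hΛ]; exact Finset.prod_nonneg fun j _ => hlogp0 j
  have hΛ1 : 0 < Λ := by
    rw [hΛ]
    exact Finset.prod_pos fun j _ => Real.log_pos (by exact_mod_cast (hCD.pp j).one_lt)
  have hΛP : ∏ j, Real.log (Ideal.absNorm (P j)) = Λ := by
    rw [hΛ]
    exact Finset.prod_congr rfl fun j _ => by rw [hCD.nm j]
  obtain ⟨X0, hX0⟩ : ∃ X0 : ℝ, X0 = (12 ^ 3 * c * C0 ^ 2) ^ (m + 1) * ((m : ℝ) + 1) ^ m * q0 * ν *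
      A1 * R ^ 2 * Λ := ⟨_, rfl⟩
  have hq01 : (1 : ℝ) ≤ q0 := by exact_mod_cast g4
  have hX00 : 0 < X0 := by rw [hX0]; positivity
  have hgrow1 : ∀ ρ, ρ0 ≤ ρ → ρ ^ (Fintype.card (InfinitePlace K) + m) ≤
      c ^ (m + 1) * ((m : ℝ) + 1) ^ m * q0 * ν * A1 * h ^ 2 * Λ *
        ({x : ℤ × (Fin n → ℤ) | nrm x ≤ ρ}.ncard : ℝ) := by
    intro ρ hρ
    rw [hnrm, ← hΛP]
    exact hρ0 ρ hρ
  obtain ⟨Z, hZ⟩ : ∃ Z, Z = ((m : ℝ) + 4) * (c * ((m + 5).factorial : ℝ)) * (1 + S) := ⟨_, rfl⟩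
  have hcoo2 : ∀ (x : ℤ × (Fin n → ℤ)) (i : Fin n), |((x.2 i : ℤ) : ℝ)| ≤ Z * nrm x := by
    rw [hnrm, hZ]
    exact hLD0.coo
  have hcoo1 : ∀ x : ℤ × (Fin n → ℤ), |(x.1 : ℝ)| ≤ nrm x := by
    rw [hnrm]
    exact hLD0.co0
  have hn1 : Fintype.card (InfinitePlace K) + m = n + 1 := by
    have := hGRW n (Fintype.card (InfinitePlace K) + m) nrm Z _ ρ0 hcoo1 hcoo2 hgrow1
    omega
  have hgrow := tp_growth (K := K) m (Fintype.card (InfinitePlace K)) n c C0 X0 R h q0 ν A1 Λ ρ0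
    (fun ρ => ({x : ℤ × (Fin n → ℤ) | nrm x ≤ ρ}.ncard : ℝ)) hn1 hcard3 hc hC0 hR (by linarith)
    (by linarith) (by linarith) hΛ0 hh (fun ρ => Nat.cast_nonneg _) hgrow1 hX0
  refine ⟨n, s, fun x => 12 * nrm x, X0, 12 * |ρ0|, by omega, by omega, n2, hLD, hX00,
    by rw [← hΛ]; exact hX0, ?_, by linarith, ?_⟩
  · intro ρ hρ
    have e1 := hgrow ρ hρ
    have e8 : {x : ℤ × (Fin n → ℤ) | 12 * nrm x ≤ ρ} = {x : ℤ × (Fin n → ℤ) | nrm x ≤ ρ / 12} := by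
      ext x
      rw [Set.mem_ofPred_eq, Set.mem_ofPred_eq]
      constructor
      · intro hx
        linarith
      · intro hx
        linarith
    rw [e8]
    exact e1
  · intro j
    have e1 : ((dis a b c').natAbs.factorization (p j) : ℝ) * Real.log (p j) ≤
        ∑ j, ((dis a b c').natAbs.factorization (p j) : ℝ) * Real.log (Ideal.absNorm (P j)) := by
      have e2 := Finset.single_le_sum
        (f := fun j => ((dis a b c').natAbs.factorization (p j) : ℝ) *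
          Real.log (Ideal.absNorm (P j))) (s := Finset.univ) (fun j _ => by
            rw [hCD.nm j]
            exact mul_nonneg (Nat.cast_nonneg _) (hlogp0 j)) (Finset.mem_univ j)
      refine le_trans (le_of_eq ?_) e2
      rw [hCD.nm j]
    have e3 : 0 ≤ ∑ i, |Real.log ‖σ i (κ : K)‖| := Finset.sum_nonneg fun i _ => abs_nonneg _
    have e4 : 0 ≤ ((dis a b c').natAbs.factorization (p j) : ℝ) * Real.log (p j) :=
      mul_nonneg (Nat.cast_nonneg _) (hlogp0 j)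
    show _ ≤ 12 * nrm (1, 0)
    rw [hone]
    linarith

/-- the hypotheses `HT` -/
theorem tp_ht (hOD3 : ST_OD3) (hHTP : ST_HTP) (hDVB : ST_DVB) (m : ℕ) (K : Type)
    [Field K] [NumberField K] (β : K) (a b c' : ℤ) (κ : 𝓞 K) (p : Fin m → ℕ)
    (P : Fin m → Ideal (𝓞 K)) (𝔞 : Ideal (𝓞 K)) (hCD : CD K β a b c' κ m p P 𝔞)
    (L : Type) [Field L] [NumberField L] (hL27 : Module.finrank ℚ L ≤ 27)
    (e : Fin 3 → (K →+* L)) (he : Function.Injective e) (j0 : Fin m) (Q : Ideal (𝓞 L))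
    (hQ : CQ K κ p P L e j0 ((dis a b c').natAbs.factorization (p j0)) Q) (jj T : ℕ)
    (hjj1 : 1 ≤ jj) (hT1 : 1 ≤ T)
    (hT : T = ((dis a b c').natAbs.factorization (p j0) + 1) / 2) (G1 : Subgroup Kˣ)
    (g3 : ∀ u ∈ G1, Dv Q jj (e 2 ((u : Kˣ) : K) / e 1 ((u : Kˣ) : K) - 1)) (n : ℕ)
    (s : Fin n → Kˣ) (hs : ∀ i, s i ∈ G1) (nrm : ℤ × (Fin n → ℤ) → ℝ) (G : ℝ) (hG1 : 1 ≤ G)
    (hG : G = jj * Real.log (p j0)) :
    ∀ d : ℕ, HT L 27 n ((e 2 (κ : K) / e 1 (κ : K)) ^ 12)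
        (fun i => (e 2 ((s i : Kˣ) : K) / e 1 ((s i : Kˣ) : K)) ^ 12) nrm G
        ((T : ℝ) * Real.log (p j0)) d := by
  obtain ⟨d1, d2, d3, d4, d5, d6, d7, d8, d9⟩ := hDVB L Q hQ.pr hQ.bot
  have hT0 : Dv Q T ((e 2 (κ : K) / e 1 (κ : K)) ^ 12 - 1) := by
    have e1 : Dv Q T (e 2 (κ : K) / e 1 (κ : K) - 1) := by
      rw [hT]
      exact hQ.T
    have := d7 T _ 12 hT1 e1
    exact_mod_cast this
  have hgi : ∀ i, Dv Q jj ((fun i => (e 2 ((s i : Kˣ) : K) / e 1 ((s i : Kˣ) : K)) ^ 12) i - 1) := by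
    intro i
    have := d7 jj _ 12 hjj1 (g3 (s i) (hs i))
    exact_mod_cast this
  have hODz : ∀ (d : ℕ) (z : Fin d → Fin n → ℤ), ODj Q jj T (fun i => ∏ j,
      ((fun i => (e 2 ((s i : Kˣ) : K) / e 1 ((s i : Kˣ) : K)) ^ 12) j) ^ (z i j)) := by
    intro d z
    have e1 := hOD3 K β a b c' κ m p P 𝔞 hCD L e he j0 Q hQ d jj (fun i => ∏ j, s j ^ (z i j))
      hjj1 (fun i => g3 _ (Subgroup.prod_mem _ fun j _ => Subgroup.zpow_mem _ (hs j) _)) T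
    have e2 : (fun i : Fin d => ∏ j,
        ((fun i => (e 2 ((s i : Kˣ) : K) / e 1 ((s i : Kˣ) : K)) ^ 12) j) ^ (z i j)) =
        fun i : Fin d => (e 2 (((∏ j, s j ^ (z i j)) : Kˣ) : K) /
          e 1 (((∏ j, s j ^ (z i j)) : Kˣ) : K)) ^ 12 := by
      funext i
      rw [Units.coe_prod, map_prod, map_prod, ← Finset.prod_div_distrib, ← Finset.prod_pow]
      refine Finset.prod_congr rfl fun j _ => ?_
      rw [Units.val_zpow_eq_zpow_val, map_zpow₀, map_zpow₀, ← div_zpow]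
      show ((e 2 ((s j : Kˣ) : K) / e 1 ((s j : Kˣ) : K)) ^ 12) ^ (z i j) = _
      rw [← zpow_natCast, ← zpow_natCast, ← zpow_mul, ← zpow_mul, mul_comm]
    rw [e2]
    exact e1
  exact hHTP n 27 (by norm_num) L hL27 Q hQ.pr hQ.bot (p j0) (hCD.pp j0) hQ.pm jj T _ _
    nrm G hjj1 hG1 hG hT0 hgi hODz

/-- the parameter `jj` -/
theorem tp_jj (ε R lp g : ℝ) (hε : 0 < ε) (hε1 : ε ≤ 1) (hR : 1 ≤ R) (hlp : 0 < lp)
    (hlpR : lp ≤ R) (hg : g = max 1 (ε * R)) : ∃ jj : ℕ, 1 ≤ jj ∧ 1 ≤ jj * lp ∧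
    ε * R ≤ jj * lp ∧ jj * lp ≤ 3 * R ∧ (1 < jj → (jj : ℝ) * lp ≤ 2 * (1 + ε * R)) := by
  have hg1 : 1 ≤ g := by rw [hg]; exact le_max_left _ _
  have hgR : ε * R ≤ g := by rw [hg]; exact le_max_right _ _
  have hgle : g ≤ 1 + ε * R := by
    rw [hg]
    have : 0 ≤ ε * R := by positivity
    exact max_le (by linarith) (by linarith)
  obtain ⟨jj, hjj⟩ : ∃ jj : ℕ, jj = ⌈g / lp⌉₊ := ⟨_, rfl⟩
  have hjj1 : 1 ≤ jj := by
    rw [hjj]
    exact Nat.one_le_iff_ne_zero.2 (Nat.ceil_pos.2 (by positivity)).ne'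
  have hjg : g ≤ jj * lp := by
    have := Nat.le_ceil (g / lp)
    rw [← hjj, div_le_iff₀ hlp] at this
    exact this
  have hjg2 : (jj : ℝ) * lp < g + lp := by
    have := Nat.ceil_lt_add_one (show 0 ≤ g / lp by positivity)
    rw [← hjj] at this
    calc (jj : ℝ) * lp < (g / lp + 1) * lp := mul_lt_mul_of_pos_right this hlp
      _ = g + lp := by field_simp
  refine ⟨jj, hjj1, by linarith, by linarith, ?_, ?_⟩
  · have : ε * R ≤ R := mul_le_of_le_one_left (by linarith) hε1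
    linarith
  · intro h2
    have f2 : lp < g := by
      by_contra hcon
      push Not at hcon
      have f3 : g / lp ≤ 1 := by
        rw [div_le_one hlp]
        exact hcon
      have f4 : ⌈g / lp⌉₊ ≤ 1 := Nat.ceil_le.2 (by exact_mod_cast f3)
      rw [← hjj] at f4
      omega
    linarith

/-- the last computation -/
theorem tp_fin (δ δ1 ε R C3 Cf A A1 ν D qq Tst vl h G Θv : ℝ) (hδ : 0 < δ)
    (hδ1 : δ1 = δ / 10) (hε2 : 54 * ε ≤ δ1) (hR : 1 ≤ R) (hC3 : 1 ≤ C3)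
    (hΘv : 1 ≤ Θv) (hA : 1 ≤ A) (hν : 1 ≤ ν) (hD : 1 ≤ D)
    (hqq : qq = 2 * Real.exp 54 * D * Real.exp (54 * ε * R))
    (hCf : Cf = C3 * (2 * Real.exp 54) * (3 / δ1 + 1) + (6 / δ1 + 1) * Θv + 2 * (3 / δ1 + 1) + 1)
    (hA1 : A1 = max A G) (hG3 : G ≤ 3 * R) (hvT : vl ≤ 2 * Tst) (hvh : vl ≤ h)
    (hor : Tst ≤ A1 ∨ Tst ≤ G * Θv ∨ h ≤ C3 * Real.exp (4 * δ1 * R) * (qq * ν * A1)) :
    vl ≤ Cf * ν * A * D * Real.exp (δ * R) := by
  have hδ10 : 0 < δ1 := by rw [hδ1]; positivity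
  have h3δ : 0 < 3 / δ1 := by positivity
  have h6δ : 0 < 6 / δ1 := by positivity
  have hexp54 : 0 < Real.exp 54 := Real.exp_pos _
  have g1 : 0 < C3 * (2 * Real.exp 54) * (3 / δ1 + 1) := by positivity
  have g2 : 0 < (6 / δ1 + 1) * Θv := by positivity
  have hCf1 : 1 ≤ Cf := by rw [hCf]; linarith
  have hRexp : R ≤ (1 / δ1) * Real.exp (δ1 * R) := by
    have := Real.add_one_le_exp (δ1 * R)
    rw [div_mul_eq_mul_div, le_div_iff₀ hδ10]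
    linarith
  have hA1A : A1 ≤ A * (3 * R) := by
    rw [hA1]
    refine max_le ?_ ?_
    · exact le_mul_of_one_le_right (by linarith) (by linarith)
    · exact hG3.trans (le_mul_of_one_le_left (by linarith) hA)
  have hA1e : A1 ≤ (3 / δ1) * Real.exp (δ1 * R) * A := by
    refine hA1A.trans ?_
    calc A * (3 * R) ≤ A * (3 * ((1 / δ1) * Real.exp (δ1 * R))) :=
          mul_le_mul_of_nonneg_left (by linarith) (by linarith)
      _ = _ := by ring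
  have hνD : 1 ≤ ν * D := by nlinarith
  have e2 : Real.exp (δ1 * R) ≤ Real.exp (δ * R) := by
    refine Real.exp_le_exp.2 (mul_le_mul_of_nonneg_right ?_ (by linarith))
    rw [hδ1]
    linarith
  have e3 := Real.exp_pos (δ1 * R)
  have hprod : 1 ≤ ν * D * A := by nlinarith
  rcases hor with hb | hb | hb
  · calc vl ≤ 2 * ((3 / δ1) * Real.exp (δ1 * R) * A) := by linarith
      _ = (2 * (3 / δ1)) * A * Real.exp (δ1 * R) := by ring
      _ ≤ Cf * (ν * D) * A * Real.exp (δ * R) := by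
          refine mul_le_mul ?_ e2 e3.le (by positivity)
          refine mul_le_mul_of_nonneg_right ?_ (by linarith)
          have e4 : 2 * (3 / δ1) ≤ Cf := by
            rw [hCf]
            linarith
          exact e4.trans (le_mul_of_one_le_right (by linarith) hνD)
      _ = _ := by ring
  · have e1 : vl ≤ 2 * (3 * R * Θv) := by
      have : G * Θv ≤ 3 * R * Θv := mul_le_mul_of_nonneg_right hG3 (by positivity)
      linarith
    refine e1.trans ?_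
    calc 2 * (3 * R * Θv) = 6 * Θv * R := by ring
      _ ≤ 6 * Θv * ((1 / δ1) * Real.exp (δ1 * R)) :=
          mul_le_mul_of_nonneg_left hRexp (by positivity)
      _ = (6 / δ1) * Θv * Real.exp (δ1 * R) := by ring
      _ ≤ Cf * Real.exp (δ * R) := by
          refine mul_le_mul ?_ e2 e3.le (by linarith)
          rw [hCf]
          have : (6 / δ1 + 1) * Θv = (6 / δ1) * Θv + Θv := by ring
          linarith
      _ ≤ Cf * Real.exp (δ * R) * (ν * D * A) := by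
          refine le_mul_of_one_le_right ?_ hprod
          have := Real.exp_pos (δ * R)
          positivity
      _ = _ := by ring
  · refine hvh.trans (hb.trans ?_)
    have hqq0 : 0 < qq := by rw [hqq]; positivity
    have e5 : Real.exp (4 * δ1 * R) * Real.exp (54 * ε * R) * Real.exp (δ1 * R) ≤
        Real.exp (δ * R) := by
      rw [← Real.exp_add, ← Real.exp_add, Real.exp_le_exp]
      have f1 : 54 * ε * R ≤ δ1 * R := mul_le_mul_of_nonneg_right hε2 (by linarith)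
      have f2 : δ * R = 10 * (δ1 * R) := by rw [hδ1]; ring
      have f3 : 0 < δ1 * R := by positivity
      linarith
    calc C3 * Real.exp (4 * δ1 * R) * (qq * ν * A1)
        ≤ C3 * Real.exp (4 * δ1 * R) * (qq * ν * ((3 / δ1) * Real.exp (δ1 * R) * A)) := by
          refine mul_le_mul_of_nonneg_left (mul_le_mul_of_nonneg_left hA1e (by positivity))
            (by positivity)
      _ = (C3 * (2 * Real.exp 54) * (3 / δ1)) * (ν * A * D) *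
            (Real.exp (4 * δ1 * R) * Real.exp (54 * ε * R) * Real.exp (δ1 * R)) := by
          rw [hqq]; ring
      _ ≤ Cf * (ν * A * D) * Real.exp (δ * R) := by
          refine mul_le_mul (mul_le_mul_of_nonneg_right ?_ (by positivity)) e5 (by positivity)
            (by positivity)
          rw [hCf]
          have g3 : C3 * (2 * Real.exp 54) * (3 / δ1) ≤ C3 * (2 * Real.exp 54) * (3 / δ1 + 1) :=
            mul_le_mul_of_nonneg_left (by linarith) (by positivity)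
          linarith
      _ = _ := by ring

theorem st_TPA (hGRW : ST_GRW) (hCN3 : ST_CN3) (hPC3 : ST_PC3) (hP123 : ST_P123)
    (hKN3 : ST_KN3) (hOD3 : ST_OD3) (hIDX : ST_IDX) (hHTP : ST_HTP) (hBR : ST_BR)
    (hCLA : ST_CLA) (hLF2 : ST_LF2) (hCU1 : ST_CU1) (hCU3 : ST_CU3) (hCU4 : ST_CU4)
    (hDVB : ST_DVB) : ST_TPA := by
  intro δ C0 hδ hC0
  obtain ⟨c, hc, hlat⟩ := tp_lat hGRW hCN3 hPC3 hP123 hCU3 hCU1
  obtain ⟨δ1, hδ1⟩ : ∃ δ1, δ1 = δ / 10 := ⟨_, rfl⟩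
  have hδ10 : 0 < δ1 := by rw [hδ1]; positivity
  obtain ⟨ε, hε⟩ : ∃ ε, ε = min 1 (δ1 / 54) := ⟨_, rfl⟩
  have hε0 : 0 < ε := by rw [hε]; positivity
  have hε1 : ε ≤ 1 := by rw [hε]; exact min_le_left _ _
  have hε2 : 54 * ε ≤ δ1 := by
    have : ε ≤ δ1 / 54 := by rw [hε]; exact min_le_right _ _
    linarith
  have hc51 : 1 ≤ 12 ^ 3 * c * C0 ^ 2 := by
    have : 1 ≤ C0 ^ 2 := one_le_pow₀ hC0
    nlinarith
  obtain ⟨C2, hC2, hcla⟩ := hCLA 1 1 one_pos le_rfl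
  obtain ⟨v0, Θ, C3, hΘ1, hC3, hend⟩ := n3_end hBR hCLA δ1 ε (432 * C0) c C0 (C0 + 3)
    (12 ^ 3 * c * C0 ^ 2) hδ10 hε0 hε1 (by linarith) hc hC0 (by linarith) hc51
  obtain ⟨Θv, hΘv⟩ : ∃ Θv, Θv = Θ ^ (v0 + 1) := ⟨_, rfl⟩
  have hΘv1 : 1 ≤ Θv := by rw [hΘv]; exact one_le_pow₀ hΘ1
  obtain ⟨Cf, hCf⟩ : ∃ Cf, Cf = C3 * (2 * Real.exp 54) * (3 / δ1 + 1) +
      (6 / δ1 + 1) * Θv + 2 * (3 / δ1 + 1) + 1 := ⟨_, rfl⟩
  refine ⟨Cf, ?_, ?_⟩
  · rw [hCf]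
    have h3δ : 0 < 3 / δ1 := by positivity
    have h6δ : 0 < 6 / δ1 := by positivity
    have : 0 < C3 * (2 * Real.exp 54) * (3 / δ1 + 1) := by
      have := Real.exp_pos 54
      positivity
    have : 0 < (6 / δ1 + 1) * Θv := by positivity
    linarith
  intro m K _ _ β a b c' κ p P 𝔞 hCD σ hσ R S ν A hR hdisc hpR hA hnA hAR hS hSR hσS hvS hν hν1
    j0 hS2
  obtain ⟨kl1, _, _, kl4, _⟩ := hcla m R p hR hCD.pinj hCD.pp hpR
  obtain ⟨L, iL, iN, e, hL27, he, hτ⟩ := hLF2 K hCD.cf.deg σ hσ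
  obtain ⟨Q, hQ⟩ := hCU4 K β a b c' κ m p P 𝔞 hCD L e he j0
  obtain ⟨k1, k2, k3, k4, k5, k6⟩ := hCU1.2 K β a b c' κ hCD.cf
  obtain ⟨v, hv⟩ : ∃ v, v = (dis a b c').natAbs.factorization (p j0) := ⟨_, rfl⟩
  have hv1 : 1 ≤ v := by
    rw [hv]
    refine (hCD.pp j0).factorization_pos_of_dvd (Int.natAbs_ne_zero.2 k4) ?_
    exact Int.natCast_dvd.1 (hCD.pd j0)
  obtain ⟨lp, hlp⟩ : ∃ lp, lp = Real.log (p j0) := ⟨_, rfl⟩
  have hp2 : (2 : ℝ) ≤ p j0 := by exact_mod_cast (hCD.pp j0).two_le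
  have hlp0 : 0 < lp := by rw [hlp]; exact Real.log_pos (by linarith)
  have hlogp0 : ∀ j, 0 ≤ Real.log (p j) := fun j =>
    Real.log_nonneg (by exact_mod_cast (hCD.pp j).one_lt.le)
  have hlpR : lp ≤ R := by
    rw [hlp]
    refine le_trans ?_ hpR
    exact Finset.single_le_sum (f := fun j => Real.log (p j)) (fun j _ => hlogp0 j)
      (Finset.mem_univ j0)
  obtain ⟨D, hD⟩ : ∃ D : ℝ, D = (if Odd v then 1 else (p j0 : ℝ)) := ⟨_, rfl⟩
  have hD1 : 1 ≤ D := by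
    rw [hD]
    split_ifs
    · exact le_rfl
    · linarith
  obtain ⟨g, hg⟩ : ∃ g, g = max 1 (ε * R) := ⟨_, rfl⟩
  obtain ⟨jj, hjj1, hG1, hεG, hG3R, hjj2⟩ := tp_jj ε R lp g hε0 hε1 hR hlp0 hlpR hg
  obtain ⟨G, hG⟩ : ∃ G : ℝ, G = jj * lp := ⟨_, rfl⟩
  rw [← hG] at hG1 hεG hG3R hjj2
  obtain ⟨T, hT⟩ : ∃ T : ℕ, T = (v + 1) / 2 := ⟨_, rfl⟩
  have hT1 : 1 ≤ T := by omega
  have hTv : (v : ℝ) ≤ 2 * (T : ℝ) := by
    have : v ≤ 2 * T := by omega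
    exact_mod_cast this
  have hvT : (T : ℝ) ≤ v := by
    have : T ≤ v := by omega
    exact_mod_cast this
  obtain ⟨Tst, hTst⟩ : ∃ Tst : ℝ, Tst = T * lp := ⟨_, rfl⟩
  have hTst0 : 0 < Tst := by
    rw [hTst]
    have : (0 : ℝ) < T := by exact_mod_cast hT1
    positivity
  have hvT2 : (v : ℝ) * lp ≤ 2 * Tst := by
    rw [hTst]
    have := mul_le_mul_of_nonneg_right hTv hlp0.le
    linarith
  obtain ⟨A1, hA1⟩ : ∃ A1 : ℝ, A1 = max A G := ⟨_, rfl⟩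
  have hAA1 : A ≤ A1 := by rw [hA1]; exact le_max_left _ _
  have hGA1 : G ≤ A1 := by rw [hA1]; exact le_max_right _ _
  have hA11 : 1 ≤ A1 := hA.trans hAA1
  have hA1R : Real.log A1 ≤ (C0 + 3) * R := by
    have hA1A : A1 ≤ A * (3 * R) := by
      rw [hA1]
      refine max_le ?_ ?_
      · exact le_mul_of_one_le_right (by linarith) (by linarith)
      · exact hG3R.trans (le_mul_of_one_le_left (by linarith) hA)
    have e1 : Real.log A1 ≤ Real.log A + Real.log (3 * R) := by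
      rw [← Real.log_mul (by linarith) (by linarith)]
      exact Real.log_le_log (by linarith) hA1A
    have e2 : Real.log (3 * R) ≤ 3 * R := by
      have := Real.log_le_sub_one_of_pos (show 0 < 3 * R by linarith)
      linarith
    linarith
  -- the group and the lattice
  obtain ⟨G1, q0, g1, g2, g3, g4, g5, g6, g7⟩ := hIDX K β a b c' κ m p P 𝔞 hCD L hL27 e he j0 Q hQ
    jj hjj1
  obtain ⟨n, s, nrm, X0, ρ0, l1, l2, l3, l4, l5, l6, l7, l8, l9⟩ := hlat m K β a b c' κ p P 𝔞 hCD σ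
    hσ C0 R S ν A1 G hC0 hR hdisc hA11 (hnA.trans hAA1) hGA1 (by linarith) hσS hvS hν hν1 L e he hτ
    (hKN3 K β a b c' κ m p P 𝔞 hCD L e he j0) G1 g1 g2 q0 g4 g6
  have hHT := tp_ht hOD3 hHTP hDVB m K β a b c' κ p P 𝔞 hCD L hL27 e he j0 Q hQ jj T hjj1 hT1
    (by rw [hT, hv]) G1 g3 n s l3 nrm G hG1 (by rw [hG, hlp])
  rw [← hlp, ← hTst] at hHT
  obtain ⟨h, hh⟩ : ∃ h : ℝ, h = nrm (1, 0) := ⟨_, rfl⟩
  have hvh : (v : ℝ) * lp ≤ h := by rw [hh, hv, hlp]; exact l9 j0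
  have hTh : Tst ≤ h := by
    refine le_trans ?_ hvh
    rw [hTst]
    exact mul_le_mul_of_nonneg_right hvT hlp0.le
  obtain ⟨qq, hqq⟩ : ∃ qq : ℝ, qq = 2 * Real.exp 54 * D * Real.exp (54 * ε * R) := ⟨_, rfl⟩
  have hqq0 : (q0 : ℝ) ≤ qq := by
    rw [hqq]
    have hexp54 : 1 ≤ Real.exp 54 := Real.one_le_exp (by norm_num)
    have f1 : 1 ≤ Real.exp (54 * ε * R) := Real.one_le_exp (by positivity)
    have f0 : 2 * D ≤ 2 * Real.exp 54 * D := by nlinarith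
    rcases eq_or_lt_of_le hjj1 with hj | hj
    · have f2 := g7 hj.symm
      rw [← hv, ← hD] at f2
      refine f2.trans ?_
      have f4 : 2 * Real.exp 54 * D ≤ 2 * Real.exp 54 * D * Real.exp (54 * ε * R) :=
        le_mul_of_one_le_right (by positivity) f1
      linarith
    · have f3 := hjj2 hj
      have f4 : (q0 : ℝ) ≤ Real.exp (27 * G) := by
        have f5 : (q0 : ℝ) ≤ (p j0 : ℝ) ^ (27 * jj) := by exact_mod_cast g5
        refine f5.trans (le_of_eq ?_)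
        rw [hG, hlp, show (27 : ℝ) * (jj * Real.log (p j0)) = ((27 * jj : ℕ) : ℝ) *
          Real.log (p j0) by push_cast; ring, Real.exp_nat_mul, Real.exp_log (by linarith)]
      have f6 : Real.exp (27 * G) ≤ Real.exp 54 * Real.exp (54 * ε * R) := by
        rw [← Real.exp_add, Real.exp_le_exp]
        linarith
      have f7 : Real.exp 54 * Real.exp (54 * ε * R) ≤
          2 * Real.exp 54 * D * Real.exp (54 * ε * R) := by
        have : Real.exp 54 ≤ 2 * Real.exp 54 * D := by nlinarith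
        exact mul_le_mul_of_nonneg_right this (Real.exp_pos _).le
      linarith
  have hq01 : (1 : ℝ) ≤ q0 := by exact_mod_cast g4
  have hqq1 : 1 ≤ qq := hq01.trans hqq0
  have hm0 : (0 : ℝ) ≤ m := Nat.cast_nonneg _
  have hff : (1 : ℝ) ≤ ((m + 5).factorial : ℝ) := by exact_mod_cast Nat.factorial_pos _
  have hB1 : 1 ≤ c * ((m + 5).factorial : ℝ) := by nlinarith
  have hmB : 1 ≤ ((m : ℝ) + 4) * (c * ((m + 5).factorial : ℝ)) := by nlinarith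
  have hΛ0 : 0 ≤ ∏ j, Real.log (p j) := Finset.prod_nonneg fun j _ => hlogp0 j
  rw [← hv, ← hlp] at hS2 ⊢
  rw [← hD]
  refine tp_fin δ δ1 ε R C3 Cf A A1 ν D qq Tst _ h G Θv hδ hδ1 hε2 hR hC3 hΘv1 hA hν1
    hD1 hqq hCf hA1 hG3R hvT2 hvh ?_
  by_cases hcase : Tst ≤ A1
  · exact Or.inl hcase
  · push Not at hcase
    right
    rw [hΘv, hh]
    refine hend m n R S A1 G _ X0 ρ0 Tst qq ν p L _ _ nrm hR hCD.pinj hCD.pp hpR l1 (by omega) hS
      hSR hA11 hA1R hG1 hεG hG3R ?_ ?_ l4 hHT l7 l5 ?_ hqq1 hν1 ?_ hTst0 ?_ ?_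
    · nlinarith
    · refine mul_le_mul_of_nonneg_right (mul_le_mul_of_nonneg_right ?_ (by linarith)) (by linarith)
      nlinarith
    · rw [l6]
      exact mul_le_mul_of_nonneg_right (mul_le_mul_of_nonneg_right (mul_le_mul_of_nonneg_right
          (mul_le_mul_of_nonneg_right (mul_le_mul_of_nonneg_left hqq0 (by positivity))
          (by linarith)) (by linarith)) (by positivity)) hΛ0
    · exact tp_h192 m S A1 _ hm0 hS hA11 l8
    · rw [← hh]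
      linarith
    · refine tp_hH m S A1 _ R C0 Tst hm0 hR hC0 kl1 (by linarith) hTst0 hcase.le ?_ l8
      refine hS2.trans ?_
      calc C0 * R * ((v : ℝ) * lp) ≤ C0 * R * (2 * Tst) :=
            mul_le_mul_of_nonneg_left hvT2 (by positivity)
        _ = _ := by ring

end Pool.Helper99.SZ
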