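import Pool.Agent.Helper99.SZ.All
import Pool.Agent.Helper99.SZ.Stmts3
import Pool.Agent.Helper13.SZ.HTA
import Pool.Agent.Helper13.SZ.HTP
import Pool.Agent.Helper13.SZ.LIA
import Pool.Agent.Helper15.SZ.PD3
import Pool.Agent.Helper25.SZ.HDI
import Pool.Agent.Helper27.SZ.ARC
import Pool.Agent.Helper3.SZ.AM3
import Pool.Agent.Helper3.SZ.LIP
import Pool.Agent.Helper3.SZ.PM3
import Pool.Agent.Helper31.SZ.ANG
import Pool.Agent.Helper31.SZ.P123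
import Pool.Agent.Helper31.SZ.PMU
import Pool.Agent.Helper31.SZ.SHA
import Pool.Agent.Helper37.SZ.SEL
import Pool.Agent.Helper39.SZ.OD3
import Pool.Agent.Helper39.SZ.PH3
import Pool.Agent.Helper41.SZ.PDG3
import Pool.Agent.Helper44.SZ.LF3
import Pool.Agent.Helper44.SZ.SHP3
import Pool.Agent.Helper47.SZ.AD1
import Pool.Agent.Helper48.SZ.PN3
import Pool.Agent.Helper5.SZ.AD3
import Pool.Agent.Helper5.SZ.ARR
import Pool.Agent.Helper5.SZ.C4L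
import Pool.Agent.Helper5.SZ.CLA
import Pool.Agent.Helper5.SZ.GRW
import Pool.Agent.Helper53.SZ.FI3
import Pool.Agent.Helper67.SZ.AN5R
import Pool.Agent.Helper67.SZ.KN3
import Pool.Agent.Helper67.SZ.TOR3
import Pool.Agent.Helper68.SZ.PNA
import Pool.Agent.Helper68.SZ.PX4
import Pool.Agent.Helper78.SZ.AD0
import Pool.Agent.Helper78.SZ.PC3
import Pool.Agent.Helper85.SZ.CN3
import Pool.Agent.Helper88.SZ.BR
import Pool.Agent.Helper88.SZ.COU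
import Pool.Agent.Helper88.SZ.SLD
import Pool.Agent.Helper89.SZ.CHA
import Pool.Agent.Helper97.SZ.RCU
import Pool.Agent.Helper99.SZ.IDX
import Pool.Agent.Helper99.SZ.TAR
import Pool.Agent.Helper99.SZ.TPA

/-! Assembly of the modules of the bound for discriminants of elliptic curves. -/

set_option autoImplicit false

namespace Pool.Helper99.SZ

theorem sz_GRW : ST_GRW := _root_.Pool.Helper99.SZ.st_GRW
theorem sz_PH3 : ST_PH3 := _root_.Pool.Helper99.SZ.st_PH3 sz_PHSa sz_SUF _root_.Pool.Helper99.BK.bk_IDF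
theorem sz_CN3 : ST_CN3 := _root_.Pool.Helper99.SZ.st_CN3 sz_SB2 sz_PH3 sz_GEL1 sz_SUF _root_.Pool.Helper99.BK.bk_EMB3
theorem sz_PC3 : ST_PC3 := _root_.Pool.Helper99.SZ.st_PC3 sz_GEL1 sz_GEL2 sz_SUF _root_.Pool.Helper99.BK.bk_KER
theorem sz_P123 : ST_P123 := _root_.Pool.Helper99.SZ.st_P123
theorem sz_KN3 : ST_KN3 := _root_.Pool.Helper99.SZ.st_KN3 _root_.Pool.Helper99.BK.bk_KER
theorem sz_OD3 : ST_OD3 := _root_.Pool.Helper99.SZ.st_OD3 sz_ODV sz_ODB sz_VAL sz_DVB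
theorem sz_IDX : ST_IDX := _root_.Pool.Helper99.SZ.st_IDX sz_ODD sz_EVEN sz_DVB sz_SUF
theorem sz_PDG3 : ST_PDG3 := _root_.Pool.Helper99.SZ.st_PDG3 sz_DVB
theorem sz_PX4 : ST_PX4 := _root_.Pool.Helper99.SZ.st_PX4 sz_DVB
theorem sz_SHP3 : ST_SHP3 := _root_.Pool.Helper99.SZ.st_SHP3 sz_DVB
theorem sz_PD3 : ST_PD3 := _root_.Pool.Helper99.SZ.st_PD3 sz_PDG3 sz_CMB sz_CHG sz_PX4 sz_SHP3 sz_DVB
theorem sz_PN3 : ST_PN3 := _root_.Pool.Helper99.SZ.st_PN3 _root_.Pool.Helper99.BK.bk_MINOR sz_PD3 sz_PAR sz_DVB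
theorem sz_RCU : ST_RCU := _root_.Pool.Helper99.SZ.st_RCU sz_JEX sz_ZV2 sz_ENG
theorem sz_PMU : ST_PMU := _root_.Pool.Helper99.SZ.st_PMU sz_RCU
theorem sz_LIP : ST_LIP := _root_.Pool.Helper99.SZ.st_LIP sz_PLV sz_DVB
theorem sz_PM3 : ST_PM3 := _root_.Pool.Helper99.SZ.st_PM3 sz_PN3 sz_PMU sz_LIP
theorem sz_HTP : ST_HTP := _root_.Pool.Helper99.SZ.st_HTP sz_PM3 sz_DVB
theorem sz_SEL : ST_SEL := _root_.Pool.Helper99.SZ.st_SEL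
theorem sz_COU : ST_COU := _root_.Pool.Helper99.SZ.st_COU
theorem sz_SLD : ST_SLD := _root_.Pool.Helper99.SZ.st_SLD
theorem sz_BR : ST_BR := _root_.Pool.Helper99.SZ.st_BR sz_SEL sz_COU sz_SLD
theorem sz_CLA : ST_CLA := _root_.Pool.Helper99.SZ.st_CLA
theorem sz_TPA : ST_TPA := _root_.Pool.Helper99.SZ.st_TPA sz_GRW sz_CN3 sz_PC3 sz_P123 sz_KN3 sz_OD3 sz_IDX sz_HTP sz_BR sz_CLA sz_LF2 sz_CU1 sz_CU3 sz_CU4 sz_DVB
theorem sz_TOR3 : ST_TOR3 := _root_.Pool.Helper99.SZ.st_TOR3 _root_.Pool.Helper99.BK.bk_KER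
theorem sz_LF3 : ST_LF3 := _root_.Pool.Helper99.SZ.st_LF3
theorem sz_ANG : ST_ANG := _root_.Pool.Helper99.SZ.st_ANG
theorem sz_AN5R : ST_AN5R := _root_.Pool.Helper99.SZ.st_AN5R
theorem sz_AD0 : ST_AD0 := _root_.Pool.Helper99.SZ.st_AD0 sz_ANG sz_AN5R sz_CMB _root_.Pool.Helper99.BK.bk_AN4 _root_.Pool.Helper99.BK.bk_AN6
theorem sz_AD1 : ST_AD1 := _root_.Pool.Helper99.SZ.st_AD1 sz_AD0
theorem sz_CHA : ST_CHA := _root_.Pool.Helper99.SZ.st_CHA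
theorem sz_SHA : ST_SHA := _root_.Pool.Helper99.SZ.st_SHA
theorem sz_AD3 : ST_AD3 := _root_.Pool.Helper99.SZ.st_AD3 sz_AD1 sz_CHA sz_SHA _root_.Pool.Helper99.BK.bk_AN6
theorem sz_PNA : ST_PNA := _root_.Pool.Helper99.SZ.st_PNA sz_AD3 _root_.Pool.Helper99.BK.bk_MINOR _root_.Pool.Helper99.BK.bk_AR
theorem sz_LIA : ST_LIA := _root_.Pool.Helper99.SZ.st_LIA _root_.Pool.Helper99.BK.bk_LIOU
theorem sz_AM3 : ST_AM3 := _root_.Pool.Helper99.SZ.st_AM3 sz_PNA sz_PMU sz_LIA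
theorem sz_HTA : ST_HTA := _root_.Pool.Helper99.SZ.st_HTA sz_AM3
theorem sz_ARR : ST_ARR := _root_.Pool.Helper99.SZ.st_ARR
theorem sz_ARC : ST_ARC := _root_.Pool.Helper99.SZ.st_ARC
theorem sz_TAR : ST_TAR := _root_.Pool.Helper99.SZ.st_TAR sz_GRW sz_CN3 sz_PC3 sz_P123 sz_CU3 sz_CU1 sz_SUF sz_TOR3 sz_LF3 sz_HTA sz_ARR sz_ARC sz_LIA sz_BR sz_CLA
theorem sz_HDI : ST_HDI := _root_.Pool.Helper99.SZ.st_HDI sz_CU1
theorem sz_C4L : ST_C4L := _root_.Pool.Helper99.SZ.st_C4L sz_CU1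
theorem sz_FI3 : ST_FI3 := _root_.Pool.Helper99.SZ.st_FI3 sz_TPA sz_TAR sz_HDI sz_C4L sz_SF2 sz_HPL sz_SIZ sz_FLW sz_CU1 sz_CU2 _root_.Pool.Helper99.BK.bk_IDC sz_CLA

end Pool.Helper99.SZ
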