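import Pool.Agent.Helper99.SZ.QTP

/-!
# Quadratic fields: the archimedean bound
-/

set_option autoImplicit false

namespace Pool.Helper99.SZ

open NumberField

/-- the real case: the size with a real logarithm -/
theorem ga_real (hARR : ST_ARR) (hHTA : ST_HTA) (m : ℕ) (p : Fin m → ℕ)
    (c5 c R S ν A1 G Tst : ℝ) (n : ℕ) (L : Type) [Field L] [NumberField L]
    (hL27 : Module.finrank ℚ L ≤ 27) (φ : L →+* ℂ) (g0 : L) (g : Fin n → L)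
    (nrm : ℤ × (Fin n → ℤ) → ℝ) (Z X0 ρ0 : ℝ) (lam0 : ℂ) (c1 : Fin n → ℝ) (l1 : m ≤ n)
    (l2 : n ≤ m + 2) (l3 : 1 ≤ Z)
    (l4 : Z ≤ 41 * ((m : ℝ) + 4) ^ 2 * (c * ((m + 5).factorial : ℝ)) * (1 + S))
    (l5 : LD L n g0 g nrm G Z) (l6 : 0 < X0)
    (l7 : X0 = c5 ^ (m + 1) * ((m : ℝ) + 1) ^ m * 1 * ν * A1 * R ^ 2 * ∏ j, Real.log (p j))
    (l8 : ∀ ρ, ρ0 ≤ ρ → ρ ^ (n + 1) ≤ X0 * ({x : ℤ × (Fin n → ℤ) | nrm x ≤ ρ}.ncard : ℝ))
    (l9 : nrm (1, 0) ≤ 12 * ((12 + 4 * m) * S + 4 * A1)) (l10 : Tst ≤ 81 * nrm (1, 0))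
    (hG : 1 ≤ G) (hc5 : 1 ≤ c5) (hν : 0 ≤ ν) (hA : 0 ≤ A1) (hT : 0 ≤ Tst)
    (hΛ : 0 ≤ ∏ j, Real.log (p j))
    (m1 : Complex.exp lam0 = φ g0) (m2 : ‖lam0‖ ≤ Real.exp (-Tst)) (m3 : ‖lam0‖ ≤ 1)
    (hexp : ∀ i, Complex.exp (c1 i : ℂ) = φ (g i)) :
    LAT m p (c5 * (4 ^ 4 * 20)) c R S ν A1 G (Real.exp G) Tst := by
  have hexpG := Real.exp_pos G
  have hnn : ∀ x, 0 ≤ nrm x := fun x => le_trans (abs_nonneg _) (l5.co0 x)
  obtain ⟨Λ, hΛdef⟩ : ∃ Λ, Λ = ∏ j, Real.log (p j) := ⟨_, rfl⟩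
  rw [← hΛdef] at l7 hΛ
  obtain ⟨q1, q2⟩ := hARR L n φ g0 g nrm G Z c1 lam0 hG (by linarith) l5 m1 m3 hexp
  obtain ⟨t1, t2⟩ := ta_grow n m 0 X0 ρ0 (Real.exp G)
    (fun ρ => ({x : ℤ × (Fin n → ℤ) | nrm x ≤ ρ}.ncard : ℝ))
    (fun ρ => ({x : ℤ × (Fin n → ℤ) | nrm x + Real.exp G * |∑ i, c1 i * (x.2 i : ℝ)| ≤ ρ}.ncard : ℝ))
    c5 R ν A1 Λ l6.le hexpG.le (Or.inl rfl) l2 l8 (fun ρ => Nat.cast_nonneg _)
    (fun ρ hρ => by
      rw [pow_zero, one_mul]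
      exact q2 ρ (by linarith)) l7 hc5 hΛ hν hA
  refine ⟨n, L, _, _, g0, g, fun x => nrm x + Real.exp G * |∑ i, c1 i * (x.2 i : ℝ)|, Z,
    4 ^ (n + 0 + 1) * (20 * Real.exp G) * X0, 4 * (|ρ0| + 1), l1, by omega, l3, l4, q1, ?_,
    by rw [← hΛdef]; exact t2, t1, ?_, ?_, ?_⟩
  · positivity
  · exact hHTA n 27 (by norm_num) L hL27 φ g0 g _ G Tst c1 1 lam0 hG m1
      (fun i => by rw [mul_one]; exact hexp i) (fun x => by
        rw [mul_one, Complex.norm_real, Real.norm_eq_abs, mul_comm]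
        have := hnn x
        linarith) hT m2
  · show nrm (1, 0) + Real.exp G * |∑ i, c1 i * (((0 : Fin n → ℤ) i : ℤ) : ℝ)| ≤ _
    simp only [Pi.zero_apply, Int.cast_zero, mul_zero, Finset.sum_const_zero, abs_zero, add_zero]
    exact l9
  · show Tst ≤ 81 * (nrm (1, 0) + Real.exp G * |∑ i, c1 i * (((0 : Fin n → ℤ) i : ℤ) : ℝ)|)
    simp only [Pi.zero_apply, Int.cast_zero, mul_zero, Finset.sum_const_zero, abs_zero, add_zero]
    exact l10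

/-- the complex case -/
theorem ga_cplx (hARC : ST_ARC) (hHTA : ST_HTA) (m : ℕ) (p : Fin m → ℕ)
    (c5 c R S ν A1 G Tst : ℝ) (n : ℕ) (L : Type) [Field L] [NumberField L]
    (hL27 : Module.finrank ℚ L ≤ 27) (φ : L →+* ℂ) (g0 : L) (g : Fin n → L)
    (nrm : ℤ × (Fin n → ℤ) → ℝ) (Z X0 ρ0 : ℝ) (lam0 : ℂ) (c1 : Fin n → ℝ) (l1 : m ≤ n)
    (l2 : n ≤ m + 2) (l3 : 1 ≤ Z)
    (l4 : Z ≤ ((m : ℝ) + 4) * (c * ((m + 5).factorial : ℝ)) * (1 + S))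
    (l5 : LD L n g0 g nrm G Z) (l6 : 0 < X0)
    (l7 : X0 = c5 ^ (m + 1) * ((m : ℝ) + 1) ^ m * 1 * ν * A1 * R ^ 2 * ∏ j, Real.log (p j))
    (l8 : ∀ ρ, ρ0 ≤ ρ → ρ ^ (n + 1) ≤ X0 * ({x : ℤ × (Fin n → ℤ) | nrm x ≤ ρ}.ncard : ℝ))
    (l9 : nrm (1, 0) ≤ 12 * ((12 + 4 * m) * S + 4 * A1)) (l10 : Tst ≤ 81 * nrm (1, 0))
    (hG : 1 ≤ G) (hc5 : 1 ≤ c5) (hν : 0 ≤ ν) (hA : 0 ≤ A1) (hT : 0 ≤ Tst)
    (hΛ : 0 ≤ ∏ j, Real.log (p j))
    (m1 : Complex.exp lam0 = φ g0) (m2 : ‖lam0‖ ≤ Real.exp (-Tst)) (m3 : ‖lam0‖ ≤ 1)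
    (hc40 : ∀ i, |c1 i| ≤ 40)
    (hexp : ∀ i, Complex.exp ((c1 i : ℂ) * Complex.I) = φ (g i)) :
    LAT m p (c5 * (4 ^ 4 * 20)) c R S ν A1 G (Real.exp G) Tst := by
  have hexpG := Real.exp_pos G
  have hnn : ∀ x, 0 ≤ nrm x := fun x => le_trans (abs_nonneg _) (l5.co0 x)
  obtain ⟨Λ, hΛdef⟩ : ∃ Λ, Λ = ∏ j, Real.log (p j) := ⟨_, rfl⟩
  rw [← hΛdef] at l7 hΛ
  have hm0 : (0 : ℝ) ≤ m := Nat.cast_nonneg _
  obtain ⟨c2, hc2⟩ : ∃ c2 : Fin (n + 1) → ℝ, c2 = Fin.cons (2 * Real.pi) c1 := ⟨_, rfl⟩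
  obtain ⟨g', hg'⟩ : ∃ g' : Fin (n + 1) → L, g' = Fin.cons 1 g := ⟨_, rfl⟩
  obtain ⟨nrm', hnrm'⟩ : ∃ nrm' : ℤ × (Fin (n + 1) → ℤ) → ℝ, nrm' = fun x =>
    nrm (x.1, fun i => x.2 i.succ) + Real.exp G * |∑ i, c2 i * (x.2 i : ℝ)| := ⟨_, rfl⟩
  obtain ⟨q1, q3, q2⟩ := hARC L n φ g0 g nrm G Z c1 lam0 hG (by linarith) l5 m1 m3 hc40 hexp
    c2 g' nrm' (by rw [hc2]; rfl) (fun i => by rw [hc2]; rfl) (by rw [hg']; rfl)
    (fun i => by rw [hg']; rfl) (fun x => by rw [hnrm'])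
  obtain ⟨t1, t2⟩ := ta_grow n m 1 X0 ρ0 (Real.exp G)
    (fun ρ => ({x : ℤ × (Fin n → ℤ) | nrm x ≤ ρ}.ncard : ℝ))
    (fun ρ => ({x : ℤ × (Fin (n + 1) → ℤ) | nrm' x ≤ ρ}.ncard : ℝ))
    c5 R ν A1 Λ l6.le hexpG.le (Or.inr rfl) l2 l8 (fun ρ => Nat.cast_nonneg _)
    (fun ρ hρ => by
      rw [pow_one]
      exact q2 ρ hρ) l7 hc5 hΛ hν hA
  have hn2 : (n : ℝ) ≤ m + 2 := by exact_mod_cast l2
  have h10 : nrm' (1, 0) = nrm (1, 0) := by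
    rw [hnrm']
    show nrm (1, fun i => (0 : Fin (n + 1) → ℤ) i.succ) +
      Real.exp G * |∑ i, c2 i * (((0 : Fin (n + 1) → ℤ) i : ℤ) : ℝ)| = _
    simp only [Pi.zero_apply, Int.cast_zero, mul_zero, Finset.sum_const_zero, abs_zero, add_zero]
    rfl
  refine ⟨n + 1, L, _, _, g0, g', nrm', 1 + 40 * ((n : ℝ) + 1) * Z,
    4 ^ (n + 1 + 1) * (20 * Real.exp G) * X0, 4 * (|ρ0| + 1), by omega, by omega, ?_, ?_, q1, ?_,
    by rw [← hΛdef]; exact t2, t1, ?_, ?_, ?_⟩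
  · have : 0 ≤ 40 * ((n : ℝ) + 1) * Z := by positivity
    linarith
  · have h1 : ((n : ℝ) + 1) * Z ≤ ((m : ℝ) + 3) * Z :=
      mul_le_mul_of_nonneg_right (by linarith) (by linarith)
    have h2 : 1 + 40 * (((n : ℝ) + 1) * Z) ≤ 41 * ((m : ℝ) + 4) * Z := by nlinarith
    have h3 : 41 * ((m : ℝ) + 4) * Z ≤ 41 * ((m : ℝ) + 4) *
        (((m : ℝ) + 4) * (c * ((m + 5).factorial : ℝ)) * (1 + S)) :=
      mul_le_mul_of_nonneg_left l4 (by positivity)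
    calc 1 + 40 * ((n : ℝ) + 1) * Z = 1 + 40 * (((n : ℝ) + 1) * Z) := by ring
      _ ≤ _ := h2
      _ ≤ _ := h3
      _ = _ := by ring
  · positivity
  · exact hHTA (n + 1) 27 (by norm_num) L hL27 φ g0 g' nrm' G Tst c2 Complex.I lam0 hG m1
      q3 (fun x => by
        rw [norm_mul, Complex.norm_I, mul_one, Complex.norm_real, Real.norm_eq_abs, mul_comm,
          hnrm']
        have := hnn (x.1, fun i => x.2 i.succ)
        show _ ≤ nrm (x.1, fun i => x.2 i.succ) + Real.exp G * |∑ i, c2 i * (x.2 i : ℝ)|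
        linarith) hT m2
  · rw [h10]
    exact l9
  · rw [h10]
    exact l10

theorem st_QTA (hGRW : ST_GRW) (hQCN : ST_QCN) (hQPC : ST_QPC) (hP123 : ST_P123)
    (hQC3 : ST_QC3) (hSUF : ST_SUF) (hHTA : ST_HTA) (hARR : ST_ARR) (hARC : ST_ARC)
    (hLIA : ST_LIA) (hBR : ST_BR) (hCLA : ST_CLA) : ST_QTA := by
  intro δ C0 hδ hC0
  obtain ⟨c, hc, hlat⟩ := tq_lat hGRW hQCN hQPC hP123 hQC3
  have hc51 : 1 ≤ 12 ^ 3 * c * C0 ^ 2 := by
    have : 1 ≤ C0 ^ 2 := one_le_pow₀ hC0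
    nlinarith
  obtain ⟨C, hC, hgen⟩ := gen_arch hBR hCLA δ C0 c (12 ^ 3 * c * C0 ^ 2 * (4 ^ 4 * 20)) hδ hC0 hc
    (by nlinarith)
  refine ⟨6 * C, by linarith, ?_⟩
  intro m K _ _ τ β a b p P 𝔞 hQD hker σ hσ R S ν A Ti hR hdisc hpR hA hnA hAR hS hSR hσS hvS hν
    hν1 hTi0 hclose hS2
  have hprod : 1 ≤ C * (ν * A * Real.exp (δ * R)) := by
    have h1 : 1 ≤ Real.exp (δ * R) := Real.one_le_exp (by positivity)
    have h2 : 1 ≤ ν * A := by nlinarith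
    have h3 : 1 ≤ ν * A * Real.exp (δ * R) := by nlinarith
    nlinarith
  by_cases hTi : Ti < 6
  · have : 6 * C * ν * A * Real.exp (δ * R) = 6 * (C * (ν * A * Real.exp (δ * R))) := by ring
    rw [this]
    linarith
  push Not at hTi
  obtain ⟨Tst, hTst⟩ : ∃ Tst, Tst = Ti - 3 := ⟨_, rfl⟩
  have hTst0 : 0 < Tst := by linarith
  have hT2 : Ti ≤ 2 * Tst := by linarith
  have hdeg : Module.finrank ℚ K ≤ 27 := by
    rw [hQD.qf.deg]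
    norm_num
  have hlogp0 : ∀ j, 0 ≤ Real.log (p j) := fun j =>
    Real.log_nonneg (by exact_mod_cast (hQD.pp j).one_lt.le)
  have hΛ0 : 0 ≤ ∏ j, Real.log (p j) := Finset.prod_nonneg fun j _ => hlogp0 j
  have hm0 : (0 : ℝ) ≤ m := Nat.cast_nonneg _
  have hff : (1 : ℝ) ≤ ((m + 5).factorial : ℝ) := by exact_mod_cast Nat.factorial_pos _
  have hB1 : 1 ≤ c * ((m + 5).factorial : ℝ) := by nlinarith
  have hmB : 1 ≤ ((m : ℝ) + 4) * (c * ((m + 5).factorial : ℝ)) := by nlinarith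
  obtain ⟨lam0, m1, m2, m3⟩ := ta_log (σ 0 (β : K) / σ 1 (β : K)) Ti hTi hclose
  rw [← hTst] at m2
  have hlam : Complex.exp lam0 = σ 0 (((β : K) / τ (β : K)) ^ 12) := by
    rw [m1, map_pow, map_div₀, hσ.c0]
  have hfin := hgen m p R S ν A Tst hR hQD.pinj hQD.pp hpR hν1 hA hAR hS hSR hTst0
    (by
      refine hS2.trans ?_
      calc C0 * R * Ti ≤ C0 * R * (2 * Tst) :=
            mul_le_mul_of_nonneg_left hT2 (by positivity)
        _ = _ := by ring) (by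
      intro G hG1 hG3R
      obtain ⟨A1, hA1⟩ : ∃ A1 : ℝ, A1 = max A G := ⟨_, rfl⟩
      rw [← hA1]
      have hAA1 : A ≤ A1 := by rw [hA1]; exact le_max_left _ _
      have hGA1 : G ≤ A1 := by rw [hA1]; exact le_max_right _ _
      have hA11 : 1 ≤ A1 := hA.trans hAA1
      obtain ⟨G1, g1, g2, g6⟩ := ta_group hSUF K m P hQD.inj hQD.pr
      obtain ⟨n, s, nrm, X0, ρ0, l1, l2, l3, l4, l5, l6, l7, l8⟩ := hlat m K τ β a b p P 𝔞 hQD
        hker σ hσ C0 R S ν A1 G hC0 hR hdisc hA11 (hnA.trans hAA1) hGA1 (by linarith) hσS hvS hν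
        hν1 G1 g2 1 le_rfl g6
      obtain ⟨g, hg⟩ : ∃ g : Fin n → K, g = fun i => (((s i : Kˣ) : K) /
          τ ((s i : Kˣ) : K)) ^ 12 := ⟨_, rfl⟩
      have hφg : ∀ i, σ 0 (g i) = (σ 0 ((s i : Kˣ) : K) / σ 1 ((s i : Kˣ) : K)) ^ 12 := by
        intro i
        rw [hg]
        show σ 0 ((((s i : Kˣ) : K) / τ ((s i : Kˣ) : K)) ^ 12) = _
        rw [map_pow, map_div₀, hσ.c0]
      rw [← hg] at l4
      have hlia := hLIA n 27 K hdeg (σ 0) _ g nrm G _ Tst lam0 l4 hlam hTst0.le m2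
      have hlia' : Tst ≤ 81 * nrm (1, 0) := by
        push_cast at hlia
        linarith
      have hσs : ∀ (i : Fin n) (j : Fin 2), σ j ((s i : Kˣ) : K) ≠ 0 := by
        intro i j h0
        exact (s i).ne_zero ((map_eq_zero (σ j)).1 h0)
      have hZ1 : 1 ≤ ((m : ℝ) + 4) * (c * ((m + 5).factorial : ℝ)) * (1 + S) := by nlinarith
      have hl6 : X0 = (12 ^ 3 * c * C0 ^ 2) ^ (m + 1) * ((m : ℝ) + 1) ^ m * 1 * ν * A1 * R ^ 2 *
          ∏ j, Real.log (p j) := by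
        rw [l6]
        push_cast
        ring
      rcases hσ.cfg with hre | hcc
      · obtain ⟨c1, hc1⟩ : ∃ c1 : Fin n → ℝ, c1 = fun i =>
          12 * Real.log ‖σ 0 ((s i : Kˣ) : K) / σ 1 ((s i : Kˣ) : K)‖ := ⟨_, rfl⟩
        have hexp : ∀ i, Complex.exp (c1 i : ℂ) = σ 0 (g i) := by
          intro i
          rw [hφg i, hc1]
          show Complex.exp ((12 * Real.log ‖σ 0 ((s i : Kˣ) : K) / σ 1 ((s i : Kˣ) : K)‖ : ℝ) : ℂ)
            = _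
          obtain ⟨r, hr⟩ : ∃ r : ℝ, σ 0 ((s i : Kˣ) : K) / σ 1 ((s i : Kˣ) : K) = (r : ℂ) := by
            refine ⟨(σ 0 ((s i : Kˣ) : K) / σ 1 ((s i : Kˣ) : K)).re, ?_⟩
            apply Complex.ext
            · simp
            · rw [Complex.ofReal_im, Complex.div_im, hre 0, hre 1]
              ring
          have hr0 : r ≠ 0 := by
            intro h0
            rw [h0, Complex.ofReal_zero, div_eq_zero_iff] at hr
            rcases hr with h | h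
            · exact hσs i 0 h
            · exact hσs i 1 h
          rw [hr, Complex.norm_real, Real.norm_eq_abs, ← Complex.ofReal_exp, ← Complex.ofReal_pow]
          congr 1
          rw [show (12 : ℝ) * Real.log |r| = ((12 : ℕ) : ℝ) * Real.log |r| by norm_num,
            Real.exp_nat_mul, Real.exp_log (abs_pos.2 hr0)]
          rw [show (12 : ℕ) = 2 * 6 by norm_num, pow_mul, sq_abs, ← pow_mul]
        refine ga_real hARR hHTA m p (12 ^ 3 * c * C0 ^ 2) c R S ν A1 G Tst n K hdeg (σ 0) _ g nrm _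
          X0 ρ0 lam0 c1 l1 l2 hZ1 ?_ l4 l5 hl6 l7 l8 hlia' hG1 hc51 (by linarith) (by linarith)
          hTst0.le hΛ0 hlam m2 m3 hexp
        refine mul_le_mul_of_nonneg_right (mul_le_mul_of_nonneg_right ?_ (by linarith))
          (by linarith)
        nlinarith
      · obtain ⟨c1, hc1⟩ : ∃ c1 : Fin n → ℝ, c1 = fun i =>
          12 * Complex.arg (σ 0 ((s i : Kˣ) : K) / σ 1 ((s i : Kˣ) : K)) := ⟨_, rfl⟩
        have hexp : ∀ i, Complex.exp ((c1 i : ℂ) * Complex.I) = σ 0 (g i) := by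
          intro i
          rw [hφg i, hc1]
          show Complex.exp (((12 * Complex.arg (σ 0 ((s i : Kˣ) : K) / σ 1 ((s i : Kˣ) : K)) : ℝ)
            : ℂ) * Complex.I) = _
          have h1 : ‖σ 0 ((s i : Kˣ) : K) / σ 1 ((s i : Kˣ) : K)‖ = 1 := by
            rw [hcc, norm_div, RCLike.norm_conj]
            exact div_self (norm_ne_zero_iff.2 (hσs i 0))
          have h2 := Complex.norm_mul_exp_arg_mul_I (σ 0 ((s i : Kˣ) : K) / σ 1 ((s i : Kˣ) : K))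
          rw [h1, Complex.ofReal_one, one_mul] at h2
          have h3 : (((12 * Complex.arg (σ 0 ((s i : Kˣ) : K) / σ 1 ((s i : Kˣ) : K)) : ℝ) : ℂ) *
            Complex.I) = (12 : ℕ) * (((Complex.arg (σ 0 ((s i : Kˣ) : K) / σ 1 ((s i : Kˣ) : K))
              : ℝ) : ℂ) * Complex.I) := by
            push_cast
            ring
          rw [h3, Complex.exp_nat_mul, h2]
        have hc40 : ∀ i, |c1 i| ≤ 40 := by
          intro i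
          rw [hc1]
          show |12 * Complex.arg (σ 0 ((s i : Kˣ) : K) / σ 1 ((s i : Kˣ) : K))| ≤ 40
          rw [abs_mul, abs_of_pos (by norm_num : (0 : ℝ) < 12)]
          have h1 := Complex.abs_arg_le_pi (σ 0 ((s i : Kˣ) : K) / σ 1 ((s i : Kˣ) : K))
          have h2 := Real.pi_lt_d2
          linarith
        exact ga_cplx hARC hHTA m p (12 ^ 3 * c * C0 ^ 2) c R S ν A1 G Tst n K hdeg (σ 0) _ g nrm _
          X0 ρ0 lam0 c1 l1 l2 hZ1 le_rfl l4 l5 hl6 l7 l8 hlia' hG1 hc51 (by linarith) (by linarith)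
          hTst0.le hΛ0 hlam m2 m3 hc40 hexp)
  refine hT2.trans ?_
  have h0 : 0 ≤ C * (ν * A * Real.exp (δ * R)) := by linarith
  calc 2 * Tst ≤ 2 * (C * ν * A * Real.exp (δ * R)) := by linarith
    _ = 2 * (C * (ν * A * Real.exp (δ * R))) := by ring
    _ ≤ 6 * (C * (ν * A * Real.exp (δ * R))) := by linarith
    _ = _ := by ring

end Pool.Helper99.SZ
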