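import Pool.Agent.Helper99.SZ.GEN4

/-!
# Quadratic fields: the `P`-adic and the archimedean bound
-/

set_option autoImplicit false

namespace Pool.Helper99.SZ

open NumberField

/-- the size of `(1, 0)`, quadratic fields -/
theorem tq_one {K : Type} [Field K] [NumberField K] {m n : ℕ} (σ : Fin 2 → (K →+* ℂ))
    (P : Fin m → Ideal (𝓞 K)) (κ : 𝓞 K) (nn : Fin m → ℕ) (s : Fin n → Kˣ)
    (α : Fin n → Fin m → ℤ) (A : ℝ) : nrmQ σ P κ nn s α A (1, 0) =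
      4 * ∑ i, |Real.log ‖σ i (κ : K)‖| + 4 * A +
        4 * ∑ j, (nn j : ℝ) * Real.log (Ideal.absNorm (P j)) := by
  simp only [nrmQ, gelS, zpow_one, Pi.zero_apply, zpow_zero, Finset.prod_const_one, mul_one,
    zero_mul, Finset.sum_const_zero, add_zero, one_mul, Int.cast_one, abs_one]
  congr 1
  congr 1
  refine Finset.sum_congr rfl fun j _ => ?_
  push_cast
  rw [abs_of_nonneg (Nat.cast_nonneg _)]

theorem tq_size {K : Type} [Field K] [NumberField K] {m n : ℕ} (σ : Fin 2 → (K →+* ℂ))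
    (P : Fin m → Ideal (𝓞 K)) (κ : 𝓞 K) (nn : Fin m → ℕ) (s : Fin n → Kˣ)
    (α : Fin n → Fin m → ℤ) (A S : ℝ) (hS0 : 0 ≤ S) (hσ : ∀ i, |Real.log ‖σ i (κ : K)‖| ≤ S)
    (hS : ∀ j, (nn j : ℝ) * Real.log (Ideal.absNorm (P j)) ≤ S) :
    nrmQ σ P κ nn s α A (1, 0) ≤ (12 + 4 * m) * S + 4 * A := by
  rw [tq_one]
  have e1 : ∑ i, |Real.log ‖σ i (κ : K)‖| ≤ 2 * S := by
    refine (Finset.sum_le_sum fun i _ => hσ i).trans (le_of_eq ?_)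
    simp
  have e2 : ∑ j, (nn j : ℝ) * Real.log (Ideal.absNorm (P j)) ≤ m * S := by
    refine (Finset.sum_le_sum fun i _ => hS i).trans (le_of_eq ?_)
    simp
  linarith

/-- the lattice, quadratic fields -/
theorem tq_lat (hGRW : ST_GRW) (hQCN : ST_QCN) (hQPC : ST_QPC) (hP123 : ST_P123)
    (hQC3 : ST_QC3) : ∃ c : ℝ, 1 ≤ c ∧ ∀ (m : ℕ) (K : Type)
    [Field K] [NumberField K] (τ : K →+* K) (β : 𝓞 K) (a b : ℤ) (p : Fin m → ℕ)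
    (P : Fin m → Ideal (𝓞 K)) (𝔞 : Ideal (𝓞 K)), QD K τ β a b m p P 𝔞 →
    (∀ k : ℤ, k ≠ 0 → ((β : K) / τ (β : K)) ^ k ≠ 1) →
    ∀ σ : Fin 2 → (K →+* ℂ), QS K τ σ → ∀ (C0 R S ν A1 G : ℝ), 1 ≤ C0 → 1 ≤ R →
    Real.log |(NumberField.discr K : ℝ)| ≤ C0 * R → 1 ≤ A1 →
    Real.log (Ideal.absNorm 𝔞 : ℝ) ≤ A1 → G ≤ A1 → 0 ≤ S →
    (∀ i, |Real.log ‖σ i (β : K)‖| ≤ S) →
    (∀ j, (b.natAbs.factorization (p j) : ℝ) * Real.log (p j) ≤ S) →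
    ((BK.ID K (2 * Real.sqrt |(NumberField.discr K : ℝ)|)).ncard : ℝ) ≤ ν → 1 ≤ ν →
    ∀ G1 : Subgroup Kˣ, (∀ u ∈ G1, ∃ a, SU P a u) → ∀ q0 : ℕ, 1 ≤ q0 → PIG P G1 q0 →
    ∃ (n : ℕ) (s : Fin n → Kˣ) (nrm : ℤ × (Fin n → ℤ) → ℝ) (X0 ρ0 : ℝ), m ≤ n ∧ n ≤ m + 2 ∧
      (∀ i, s i ∈ G1) ∧ LD K n (((β : K) / τ (β : K)) ^ 12)
        (fun i => (((s i : Kˣ) : K) / τ ((s i : Kˣ) : K)) ^ 12) nrm G
        (((m : ℝ) + 4) * (c * ((m + 5).factorial : ℝ)) * (1 + S)) ∧ 0 < X0 ∧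
      X0 = (12 ^ 3 * c * C0 ^ 2) ^ (m + 1) * ((m : ℝ) + 1) ^ m * q0 * ν * A1 * R ^ 2 *
        ∏ j, Real.log (p j) ∧
      (∀ ρ, ρ0 ≤ ρ → ρ ^ (n + 1) ≤ X0 * ({x : ℤ × (Fin n → ℤ) | nrm x ≤ ρ}.ncard : ℝ)) ∧
      nrm (1, 0) ≤ 12 * ((12 + 4 * m) * S + 4 * A1) := by
  obtain ⟨c, hc, hcnt⟩ := hQCN
  refine ⟨c, hc, ?_⟩
  intro m K _ _ τ β a b p P 𝔞 hQD hker σ hσ C0 R S ν A1 G hC0 hR hdisc hA1 hnA hG hS hσS hvS hν
    hν1 G1 g2 q0 g4 g6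
  have hβ : β ≠ 0 := by
    intro h0
    have h1 := hQD.qf.mul
    rw [h0] at h1
    simp only [map_zero, zero_mul] at h1
    have h2 : ((b : ℤ) : K) = 0 := by
      rw [← h1]
    exact hQD.qf.b0 (by exact_mod_cast h2)
  have hlogp0 : ∀ j, 0 ≤ Real.log (p j) := fun j =>
    Real.log_nonneg (by exact_mod_cast (hQD.pp j).one_lt.le)
  obtain ⟨n, s, α, n1, n2, n3, n4, n5⟩ := hcnt m K hQD.qf.deg σ hσ.inj hσ.all P hQD.inj hQD.pr β hβ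
    (fun j => b.natAbs.factorization (p j)) 𝔞 hQD.fac G1 g2 q0 g6
  obtain ⟨h, hh⟩ : ∃ h, h = C0 * R := ⟨_, rfl⟩
  have hh1 : 1 ≤ h := by rw [hh]; nlinarith
  obtain ⟨ρ0, hρ0⟩ := n5 A1 h ν hh1 (by rw [hh]; exact hdisc) hA1 hnA hν
  have hcard1 : 1 ≤ Fintype.card (InfinitePlace K) := Fintype.card_pos
  have hcard3 : Fintype.card (InfinitePlace K) ≤ 3 := by
    have e1 : ∑ w : InfinitePlace K, InfinitePlace.mult w = 2 := by
      rw [InfinitePlace.sum_mult_eq, hQD.qf.deg]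
    have e2 : Fintype.card (InfinitePlace K) ≤ 2 := by
      rw [← e1]
      calc Fintype.card (InfinitePlace K) = ∑ w : InfinitePlace K, 1 := by simp
        _ ≤ _ := Finset.sum_le_sum fun w _ => InfinitePlace.mult_pos
    omega
  have hff : (1 : ℝ) ≤ ((m + 5).factorial : ℝ) := by exact_mod_cast Nat.factorial_pos _
  have hB1 : 1 ≤ c * ((m + 5).factorial : ℝ) := by nlinarith
  have hLD0 := hQPC m K τ β a b hQD.qf σ hσ P hQD.inj hQD.pr (hQC3 K τ β a b m p P 𝔞 hQD)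
    (fun j => b.natAbs.factorization (p j)) 𝔞
    hQD.fac n s α n3 A1 (c * ((m + 5).factorial : ℝ)) S G hA1 hnA hB1 n4
    hS hσS (fun j => by rw [hQD.nm j]; exact hvS j) (by linarith) hker
  have hLD := hP123 K n _ _ _ G _ hLD0
  obtain ⟨nrm, hnrm⟩ : ∃ nrm : ℤ × (Fin n → ℤ) → ℝ, nrm = nrmQ σ P β
      (fun j => b.natAbs.factorization (p j)) s α A1 := ⟨_, rfl⟩
  rw [← hnrm] at hLD
  have hsz : nrm (1, 0) ≤ (12 + 4 * m) * S + 4 * A1 := by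
    rw [hnrm]
    exact tq_size σ P β _ s α A1 S hS hσS (fun j => by rw [hQD.nm j]; exact hvS j)
  obtain ⟨Λ, hΛ⟩ : ∃ Λ, Λ = ∏ j, Real.log (p j) := ⟨_, rfl⟩
  have hΛ0 : 0 ≤ Λ := by rw [hΛ]; exact Finset.prod_nonneg fun j _ => hlogp0 j
  have hΛ1 : 0 < Λ := by
    rw [hΛ]
    exact Finset.prod_pos fun j _ => Real.log_pos (by exact_mod_cast (hQD.pp j).one_lt)
  have hΛP : ∏ j, Real.log (Ideal.absNorm (P j)) = Λ := by
    rw [hΛ]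
    exact Finset.prod_congr rfl fun j _ => by rw [hQD.nm j]
  obtain ⟨X0, hX0⟩ : ∃ X0 : ℝ, X0 = (12 ^ 3 * c * C0 ^ 2) ^ (m + 1) * ((m : ℝ) + 1) ^ m * q0 * ν *
      A1 * R ^ 2 * Λ := ⟨_, rfl⟩
  have hq01 : (1 : ℝ) ≤ q0 := by exact_mod_cast g4
  have hX00 : 0 < X0 := by rw [hX0]; positivity
  have hgrow1 : ∀ ρ, ρ0 ≤ ρ → ρ ^ (Fintype.card (InfinitePlace K) + m) ≤
      c ^ (m + 1) * ((m : ℝ) + 1) ^ m * q0 * ν * A1 * h ^ 2 * Λ *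
        ({x : ℤ × (Fin n → ℤ) | nrm x ≤ ρ}.ncard : ℝ) := by
    intro ρ hρ
    rw [hnrm, ← hΛP]
    exact hρ0 ρ hρ
  obtain ⟨Z, hZ⟩ : ∃ Z, Z = ((m : ℝ) + 4) * (c * ((m + 5).factorial : ℝ)) * (1 + S) := ⟨_, rfl⟩
  have hcoo2 : ∀ (x : ℤ × (Fin n → ℤ)) (i : Fin n), |((x.2 i : ℤ) : ℝ)| ≤ Z * nrm x := by
    rw [hnrm, hZ]
    exact hLD0.coo
  have hcoo1 : ∀ x : ℤ × (Fin n → ℤ), |(x.1 : ℝ)| ≤ nrm x := by
    rw [hnrm]
    exact hLD0.co0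
  have hn1 : Fintype.card (InfinitePlace K) + m = n + 1 := by
    have := hGRW n (Fintype.card (InfinitePlace K) + m) nrm Z _ ρ0 hcoo1 hcoo2 hgrow1
    omega
  have hgrow := tp_growth (K := K) m (Fintype.card (InfinitePlace K)) n c C0 X0 R h q0 ν A1 Λ ρ0
    (fun ρ => ({x : ℤ × (Fin n → ℤ) | nrm x ≤ ρ}.ncard : ℝ)) hn1 hcard3 hc hC0 hR (by linarith)
    (by linarith) (by linarith) hΛ0 hh (fun ρ => Nat.cast_nonneg _) hgrow1 hX0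
  refine ⟨n, s, fun x => 12 * nrm x, X0, 12 * |ρ0|, by omega, by omega, n2, hLD, hX00,
    by rw [← hΛ]; exact hX0, ?_, by linarith⟩
  intro ρ hρ
  have e1 := hgrow ρ hρ
  have e8 : {x : ℤ × (Fin n → ℤ) | 12 * nrm x ≤ ρ} = {x : ℤ × (Fin n → ℤ) | nrm x ≤ ρ / 12} := by
    ext x
    rw [Set.mem_ofPred_eq, Set.mem_ofPred_eq]
    constructor
    · intro hx
      linarith
    · intro hx
      linarith
  rw [e8]
  exact e1

/-- the hypotheses `HT` -/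
theorem tq_ht (hQOD : ST_QOD) (hHTP : ST_HTP) (hDVB : ST_DVB) (m : ℕ) (K : Type)
    [Field K] [NumberField K] (τ : K →+* K) (β : 𝓞 K) (a b : ℤ) (p : Fin m → ℕ)
    (P : Fin m → Ideal (𝓞 K)) (𝔞 : Ideal (𝓞 K)) (hQD : QD K τ β a b m p P 𝔞)
    (q v : ℕ) (hq : q.Prime) (Q : Ideal (𝓞 K)) (hQ : QQ K τ β P q v Q) (jj T : ℕ)
    (hjj1 : 1 ≤ jj) (hT1 : 1 ≤ T)
    (hT : T = (v + 1) / 2) (G1 : Subgroup Kˣ) (g2 : ∀ u ∈ G1, ∃ x, SU P x u)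
    (g3 : ∀ u ∈ G1, Dv Q jj (((u : Kˣ) : K) / τ ((u : Kˣ) : K) - 1)) (n : ℕ)
    (s : Fin n → Kˣ) (hs : ∀ i, s i ∈ G1) (nrm : ℤ × (Fin n → ℤ) → ℝ) (G : ℝ) (hG1 : 1 ≤ G)
    (hG : G = jj * Real.log q) :
    ∀ d : ℕ, HT K 27 n (((β : K) / τ (β : K)) ^ 12)
        (fun i => (((s i : Kˣ) : K) / τ ((s i : Kˣ) : K)) ^ 12) nrm G
        ((T : ℝ) * Real.log q) d := by
  obtain ⟨d1, d2, d3, d4, d5, d6, d7, d8, d9⟩ := hDVB K Q hQ.pr hQ.bot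
  have hT0 : Dv Q T (((β : K) / τ (β : K)) ^ 12 - 1) := by
    have e1 : Dv Q T ((β : K) / τ (β : K) - 1) := by
      rw [hT]
      exact hQ.T
    have := d7 T _ 12 hT1 e1
    exact_mod_cast this
  have hgi : ∀ i, Dv Q jj ((fun i => (((s i : Kˣ) : K) / τ ((s i : Kˣ) : K)) ^ 12) i - 1) := by
    intro i
    have := d7 jj _ 12 hjj1 (g3 (s i) (hs i))
    exact_mod_cast this
  have hODz : ∀ (d : ℕ) (z : Fin d → Fin n → ℤ), ODj Q jj T (fun i => ∏ j,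
      ((fun i => (((s i : Kˣ) : K) / τ ((s i : Kˣ) : K)) ^ 12) j) ^ (z i j)) := by
    intro d z
    have hmem : ∀ i, (∏ j, s j ^ (z i j)) ∈ G1 := fun i =>
      Subgroup.prod_mem _ fun j _ => Subgroup.zpow_mem _ (hs j) _
    have e1 := hQOD K τ β a b m p P 𝔞 hQD q v Q hq hQ d jj (fun i => ∏ j, s j ^ (z i j))
      (fun i => g2 _ (hmem i)) hjj1 (fun i => g3 _ (hmem i)) T
    have e2 : (fun i : Fin d => ∏ j,
        ((fun i => (((s i : Kˣ) : K) / τ ((s i : Kˣ) : K)) ^ 12) j) ^ (z i j)) =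
        fun i : Fin d => ((((∏ j, s j ^ (z i j)) : Kˣ) : K) /
          τ (((∏ j, s j ^ (z i j)) : Kˣ) : K)) ^ 12 := by
      funext i
      rw [Units.coe_prod, map_prod, ← Finset.prod_div_distrib, ← Finset.prod_pow]
      refine Finset.prod_congr rfl fun j _ => ?_
      rw [Units.val_zpow_eq_zpow_val, map_zpow₀, ← div_zpow]
      show ((((s j : Kˣ) : K) / τ ((s j : Kˣ) : K)) ^ 12) ^ (z i j) = _
      rw [← zpow_natCast, ← zpow_natCast, ← zpow_mul, ← zpow_mul, mul_comm]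
    rw [e2]
    exact e1
  have hdeg : Module.finrank ℚ K ≤ 27 := by
    rw [hQD.qf.deg]
    norm_num
  exact hHTP n 27 (by norm_num) K hdeg Q hQ.pr hQ.bot q hq hQ.pm jj T _ _
    nrm G hjj1 hG1 hG hT0 hgi hODz

theorem st_QTP (hGRW : ST_GRW) (hQCN : ST_QCN) (hQPC : ST_QPC) (hP123 : ST_P123)
    (hQC3 : ST_QC3) (hQOD : ST_QOD) (hHTP : ST_HTP) (hDVB : ST_DVB) (hQQX : ST_QQX)
    (hQIX : ST_QIX) (hLIP : ST_LIP) (hBR : ST_BR) (hCLA : ST_CLA) : ST_QTP := by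
  intro δ C0 hδ hC0
  obtain ⟨c, hc, hlat⟩ := tq_lat hGRW hQCN hQPC hP123 hQC3
  have hc51 : 1 ≤ 12 ^ 3 * c * C0 ^ 2 := by
    have : 1 ≤ C0 ^ 2 := one_le_pow₀ hC0
    nlinarith
  obtain ⟨C, hC, hgen⟩ := gen_pad hBR hCLA δ C0 c (12 ^ 3 * c * C0 ^ 2) hδ hC0 hc hc51
  refine ⟨2 * C, by linarith, ?_⟩
  intro m K _ _ τ β a b p P 𝔞 hQD hker σ hσ R S ν A hR hdisc hpR hA hnA hAR hS hSR hσS hvS hν hν1
    q hq hqd hqb hqR hS2
  obtain ⟨Q, hQ⟩ := hQQX K τ β a b m p P 𝔞 hQD q hq hqd hqb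
  obtain ⟨v, hv⟩ : ∃ v, v = (a ^ 2 - 4 * b).natAbs.factorization q := ⟨_, rfl⟩
  have hd0 : a ^ 2 - 4 * b ≠ 0 := by
    intro h0
    have h1 : ((β : K) - τ (β : K)) ^ 2 = ((a ^ 2 - 4 * b : ℤ) : K) := by
      push_cast
      have h2 := hQD.qf.add
      have h3 := hQD.qf.mul
      have h4 : (a : K) = -((β : K) + τ (β : K)) := by rw [h2]; ring
      rw [h4, ← h3]
      ring
    rw [h0, Int.cast_zero] at h1
    have h5 := pow_eq_zero_iff (n := 2) (by norm_num) |>.1 h1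
    exact hQD.qf.ne (sub_eq_zero.1 h5).symm
  have hv1 : 1 ≤ v := by
    rw [hv]
    refine hq.factorization_pos_of_dvd (Int.natAbs_ne_zero.2 hd0) ?_
    exact Int.natCast_dvd.1 hqd
  rw [← hv] at hQ hS2 ⊢
  have hq2 : (2 : ℝ) ≤ q := by exact_mod_cast hq.two_le
  have hlp0 : 0 < Real.log q := Real.log_pos (by linarith)
  obtain ⟨D, hD⟩ : ∃ D : ℝ, D = (if Odd v then 1 else (q : ℝ)) := ⟨_, rfl⟩
  have hD1 : 1 ≤ D := by
    rw [hD]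
    split_ifs
    · exact le_rfl
    · linarith
  obtain ⟨T, hT⟩ : ∃ T : ℕ, T = (v + 1) / 2 := ⟨_, rfl⟩
  have hT1 : 1 ≤ T := by omega
  have hTv : (v : ℝ) ≤ 2 * (T : ℝ) := by
    have : v ≤ 2 * T := by omega
    exact_mod_cast this
  obtain ⟨Tst, hTst⟩ : ∃ Tst : ℝ, Tst = T * Real.log q := ⟨_, rfl⟩
  have hTst0 : 0 < Tst := by
    rw [hTst]
    have : (0 : ℝ) < T := by exact_mod_cast hT1
    positivity
  have hvT2 : (v : ℝ) * Real.log q ≤ 2 * Tst := by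
    rw [hTst]
    have := mul_le_mul_of_nonneg_right hTv hlp0.le
    linarith
  have hdeg : Module.finrank ℚ K ≤ 27 := by
    rw [hQD.qf.deg]
    norm_num
  have hm0 : (0 : ℝ) ≤ m := Nat.cast_nonneg _
  have hff : (1 : ℝ) ≤ ((m + 5).factorial : ℝ) := by exact_mod_cast Nat.factorial_pos _
  have hB1 : 1 ≤ c * ((m + 5).factorial : ℝ) := by nlinarith
  have hmB : 1 ≤ ((m : ℝ) + 4) * (c * ((m + 5).factorial : ℝ)) := by nlinarith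
  have hfin := hgen m p R S ν A D Tst q hR hQD.pinj hQD.pp hpR hq hqR hν1 hA hAR hS hSR hD1 hTst0
    (by
      refine hS2.trans ?_
      calc C0 * R * ((v : ℝ) * Real.log q) ≤ C0 * R * (2 * Tst) :=
            mul_le_mul_of_nonneg_left hvT2 (by positivity)
        _ = _ := by ring) (by
      intro jj hjj1 hG1 hG3R
      obtain ⟨G, hG⟩ : ∃ G : ℝ, G = jj * Real.log q := ⟨_, rfl⟩
      rw [← hG] at hG1 hG3R ⊢
      obtain ⟨A1, hA1⟩ : ∃ A1 : ℝ, A1 = max A G := ⟨_, rfl⟩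
      rw [← hA1]
      have hAA1 : A ≤ A1 := by rw [hA1]; exact le_max_left _ _
      have hGA1 : G ≤ A1 := by rw [hA1]; exact le_max_right _ _
      have hA11 : 1 ≤ A1 := hA.trans hAA1
      obtain ⟨G1, q0, g2, g3, g4, g5, g6, g7⟩ := hQIX K τ β a b m p P 𝔞 hQD q v Q hq hQ jj hjj1
      obtain ⟨n, s, nrm, X0, ρ0, l1, l2, l3, l4, l5, l6, l7, l8⟩ := hlat m K τ β a b p P 𝔞 hQD
        hker σ hσ C0 R S ν A1 G hC0 hR hdisc hA11 (hnA.trans hAA1) hGA1 (by linarith) hσS hvS hν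
        hν1 G1 g2 q0 g4 g6
      have hHT := tq_ht hQOD hHTP hDVB m K τ β a b p P 𝔞 hQD q v hq Q hQ jj T hjj1 hT1
        hT G1 g2 g3 n s l3 nrm G hG1 hG
      rw [← hTst] at hHT
      obtain ⟨d1, d2, d3, d4, d5, d6, d7, d8, d9⟩ := hDVB K Q hQ.pr hQ.bot
      have hT0 : Dv Q T (((β : K) / τ (β : K)) ^ 12 - 1) := by
        have e1 : Dv Q T ((β : K) / τ (β : K) - 1) := by
          rw [hT]
          exact hQ.T
        have := d7 T _ 12 hT1 e1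
        exact_mod_cast this
      have hlip := hLIP n 27 K hdeg Q hQ.pr hQ.bot q hq hQ.pm T _ _ nrm G _ l4 hT0
      rw [← hTst] at hlip
      refine ⟨q0, by exact_mod_cast g4, by exact_mod_cast g5, fun hj => ?_, n, K, _, _, _, _, nrm, _,
        X0, ρ0, l1, by omega, ?_, ?_, l4, l5, le_of_eq l6, l7, hHT, l8, ?_⟩
      · rw [hD]
        exact g7 hj
      · nlinarith
      · refine mul_le_mul_of_nonneg_right (mul_le_mul_of_nonneg_right ?_ (by linarith))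
          (by linarith)
        nlinarith
      · push_cast at hlip
        linarith)
  refine hvT2.trans ?_
  calc 2 * Tst ≤ 2 * (C * ν * A * D * Real.exp (δ * R)) := by linarith
    _ = _ := by rw [hD]; ring

end Pool.Helper99.SZ
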