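import Pool.Agent.Helper99.SZ.RTP

/-!
# Rational roots: the archimedean bound
-/

set_option autoImplicit false

namespace Pool.Helper99.SZ

open NumberField

theorem st_RTA (hRLT : ST_RLT) (hHTA : ST_HTA) (hARR : ST_ARR) (hLIA : ST_LIA)
    (hBR : ST_BR) (hCLA : ST_CLA) : ST_RTA := by
  intro δ C0 hδ hC0
  obtain ⟨c, hc, hlat⟩ := hRLT
  obtain ⟨C, hC, hgen⟩ := gen_arch hBR hCLA δ C0 c (12 ^ 3 * c * (4 ^ 4 * 20)) hδ hC0 hc
    (by linarith)
  refine ⟨6 * C, by linarith, ?_⟩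
  intro m p hpinj hpp e x0 y0 hx0 hy0 g0 hg0 hker R S A Ti hR hpR hA hxA hyA hAR hS hSR heS hTi0
    hclose hS2
  have hprod : 1 ≤ C * (A * Real.exp (δ * R)) := by
    have h1 : 1 ≤ Real.exp (δ * R) := Real.one_le_exp (by positivity)
    have h3 : 1 ≤ A * Real.exp (δ * R) := by nlinarith
    nlinarith
  by_cases hTi : Ti < 6
  · have : 6 * C * A * Real.exp (δ * R) = 6 * (C * (A * Real.exp (δ * R))) := by ring
    rw [this]
    linarith
  push Not at hTi
  obtain ⟨Tst, hTst⟩ : ∃ Tst, Tst = Ti - 3 := ⟨_, rfl⟩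
  have hTst0 : 0 < Tst := by linarith
  have hT2 : Ti ≤ 2 * Tst := by linarith
  have hdeg : Module.finrank ℚ ℚ ≤ 27 := by
    rw [Module.finrank_self]
    norm_num
  have hlogp0 : ∀ j, 0 ≤ Real.log (p j) := fun j =>
    Real.log_nonneg (by exact_mod_cast (hpp j).one_lt.le)
  have hΛ0 : 0 ≤ ∏ j, Real.log (p j) := Finset.prod_nonneg fun j _ => hlogp0 j
  have hm0 : (0 : ℝ) ≤ m := Nat.cast_nonneg _
  have hff : (1 : ℝ) ≤ ((m + 5).factorial : ℝ) := by exact_mod_cast Nat.factorial_pos _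
  have hB1 : 1 ≤ c * ((m + 5).factorial : ℝ) := by nlinarith
  have hmB : 1 ≤ ((m : ℝ) + 4) * (c * ((m + 5).factorial : ℝ)) := by nlinarith
  obtain ⟨φ, hφ⟩ : ∃ φ : ℚ →+* ℂ, φ = Rat.castHom ℂ := ⟨_, rfl⟩
  have hφx : ∀ x : ℚ, φ x = ((x : ℝ) : ℂ) := by
    intro x
    rw [hφ]
    simp
  obtain ⟨lam0, m1, m2, m3⟩ := ta_log (φ g0) Ti hTi (by
    rw [hφx, ← Complex.ofReal_one, ← Complex.ofReal_sub, Complex.norm_real, Real.norm_eq_abs]
    exact hclose)
  rw [← hTst] at m2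
  have hlam : Complex.exp lam0 = φ (g0 ^ 12) := by
    rw [m1, map_pow]
  have hfin := hgen m p R S 1 A Tst hR hpinj hpp hpR le_rfl hA hAR hS hSR hTst0
    (by
      refine hS2.trans ?_
      calc C0 * R * Ti ≤ C0 * R * (2 * Tst) :=
            mul_le_mul_of_nonneg_left hT2 (by positivity)
        _ = _ := by ring) (by
      intro G hG1 hG3R
      obtain ⟨A1, hA1⟩ : ∃ A1 : ℝ, A1 = max A G := ⟨_, rfl⟩
      rw [← hA1]
      have hAA1 : A ≤ A1 := by rw [hA1]; exact le_max_left _ _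
      have hGA1 : G ≤ A1 := by rw [hA1]; exact le_max_right _ _
      have hA11 : 1 ≤ A1 := hA.trans hAA1
      obtain ⟨s, nrm, X0, ρ0, l1, l4, l5, l6, l7, l8⟩ := hlat m p hpinj hpp e x0 y0 hx0 hy0 g0 hg0
        hker A1 S G hA11 (hxA.trans hAA1) (hyA.trans hAA1) (by linarith) heS (by linarith) ⊤
        1 (by rw [AddSubgroup.index_top]; exact one_ne_zero) (by rw [AddSubgroup.index_top])
      obtain ⟨g, hg⟩ : ∃ g : Fin m → ℚ, g = fun i => (∏ j, (p j : ℚ) ^ (s i j)) ^ 12 := ⟨_, rfl⟩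
      rw [← hg] at l4
      have hlia := hLIA m 27 ℚ hdeg φ _ g nrm G _ Tst lam0 l4 hlam hTst0.le m2
      have hlia' : Tst ≤ 81 * nrm (1, 0) := by
        push_cast at hlia
        linarith
      obtain ⟨c1, hc1⟩ : ∃ c1 : Fin m → ℝ, c1 = fun i =>
          12 * Real.log (∏ j, (p j : ℝ) ^ (s i j)) := ⟨_, rfl⟩
      have hexp : ∀ i, Complex.exp (c1 i : ℂ) = φ (g i) := by
        intro i
        have hpos : 0 < ∏ j, (p j : ℝ) ^ (s i j) := Finset.prod_pos fun j _ =>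
          zpow_pos (by exact_mod_cast (hpp j).pos) _
        rw [hφx, hg, hc1, ← Complex.ofReal_exp]
        congr 1
        show Real.exp (12 * Real.log (∏ j, (p j : ℝ) ^ (s i j))) =
          (((∏ j, (p j : ℚ) ^ (s i j)) ^ 12 : ℚ) : ℝ)
        rw [show (12 : ℝ) * Real.log (∏ j, (p j : ℝ) ^ (s i j)) =
          ((12 : ℕ) : ℝ) * Real.log (∏ j, (p j : ℝ) ^ (s i j)) by norm_num,
          Real.exp_nat_mul, Real.exp_log hpos]
        push_cast
        rfl
      have hZ1 : 1 ≤ ((m : ℝ) + 4) * (c * ((m + 5).factorial : ℝ)) * (1 + S) := by nlinarith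
      have hX0R : X0 ≤ X0 * R ^ 2 := le_mul_of_one_le_right l5.le (one_le_pow₀ hR)
      refine ga_real hARR hHTA m p (12 ^ 3 * c) c R S 1 A1 G Tst m ℚ hdeg φ _ g nrm _
          (X0 * R ^ 2) ρ0 lam0 c1 le_rfl (by omega) hZ1 ?_ l4 (by positivity) ?_ ?_ l8 hlia' hG1
          (by linarith) (by linarith) (by linarith) hTst0.le hΛ0 hlam m2 m3 hexp
      · refine mul_le_mul_of_nonneg_right (mul_le_mul_of_nonneg_right ?_ (by linarith))
          (by linarith)
        nlinarith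
      · rw [l6]
        push_cast
        ring
      · intro ρ hρ
        exact (l7 ρ hρ).trans (mul_le_mul_of_nonneg_right hX0R (Nat.cast_nonneg _)))
  refine hT2.trans ?_
  have h0 : 0 ≤ C * (A * Real.exp (δ * R)) := by linarith
  calc 2 * Tst ≤ 2 * (C * 1 * A * Real.exp (δ * R)) := by linarith
    _ = 2 * (C * (A * Real.exp (δ * R))) := by ring
    _ ≤ 6 * (C * (A * Real.exp (δ * R))) := by linarith
    _ = _ := by ring

end Pool.Helper99.SZ
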