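import Pool.Agent.Helper99.SZ.QTA

/-!
# Rational roots: the `q`-adic and the archimedean bound
-/

set_option autoImplicit false

namespace Pool.Helper99.SZ

open NumberField

theorem rt_sum {ι : Type} (x : ℚ) (hx : x ≠ 0) (t : Finset ι) (f : ι → ℤ) :
    x ^ (∑ i ∈ t, f i) = ∏ i ∈ t, x ^ (f i) := by
  classical
  induction t using Finset.induction_on with
  | empty => simp
  | insert a t ha ih => rw [Finset.sum_insert ha, Finset.prod_insert ha, zpow_add₀ hx, ih]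

theorem rt_prod {m n : ℕ} (p : Fin m → ℕ) (hp : ∀ j, (p j).Prime) (s : Fin n → Fin m → ℤ)
    (z : Fin n → ℤ) : ∏ k, (p k : ℚ) ^ ((∑ j, z j • s j) k) =
      ∏ j, (∏ k, (p k : ℚ) ^ (s j k)) ^ (z j) := by
  have h1 : ∀ k, (p k : ℚ) ^ ((∑ j, z j • s j) k) = ∏ j, (p k : ℚ) ^ (z j * s j k) := by
    intro k
    rw [← rt_sum (p k : ℚ) (by exact_mod_cast (hp k).ne_zero)]
    congr 1
    rw [Finset.sum_apply]
    rfl
  rw [Finset.prod_congr rfl fun k _ => h1 k, Finset.prod_comm]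
  refine Finset.prod_congr rfl fun j _ => ?_
  rw [← Finset.prod_zpow]
  refine Finset.prod_congr rfl fun k _ => ?_
  rw [mul_comm, zpow_mul]

theorem st_RTP (hRLT : ST_RLT) (hROD : ST_ROD) (hHTP : ST_HTP) (hDVB : ST_DVB) (hLIP : ST_LIP)
    (hBR : ST_BR) (hCLA : ST_CLA) : ST_RTP := by
  intro δ C0 hδ hC0
  obtain ⟨c, hc, hlat⟩ := hRLT
  obtain ⟨C, hC, hgen⟩ := gen_pad hBR hCLA δ C0 c (12 ^ 3 * c) hδ hC0 hc (by linarith)
  refine ⟨C, hC, ?_⟩
  intro m p hpinj hpp e x0 y0 hx0 hy0 g0 hg0 hker R S A hR hpR hA hxA hyA hAR hS hSR heS q T hq hpq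
    hT1 hqT hqR hS2
  have hq2 : (2 : ℝ) ≤ q := by exact_mod_cast hq.two_le
  have hlp0 : 0 < Real.log q := Real.log_pos (by linarith)
  obtain ⟨Tst, hTst⟩ : ∃ Tst : ℝ, Tst = T * Real.log q := ⟨_, rfl⟩
  have hTst0 : 0 < Tst := by
    rw [hTst]
    have : (0 : ℝ) < T := by exact_mod_cast hT1
    positivity
  rw [← hTst] at hS2 ⊢
  obtain ⟨Q, hQp, hQb, hQm, r1, r2, r3⟩ := hROD q hq
  obtain ⟨d1, d2, d3, d4, d5, d6, d7, d8, d9⟩ := hDVB ℚ Q hQp hQb
  have hdeg : Module.finrank ℚ ℚ ≤ 27 := by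
    rw [Module.finrank_self]
    norm_num
  have hm0 : (0 : ℝ) ≤ m := Nat.cast_nonneg _
  have hff : (1 : ℝ) ≤ ((m + 5).factorial : ℝ) := by exact_mod_cast Nat.factorial_pos _
  have hB1 : 1 ≤ c * ((m + 5).factorial : ℝ) := by nlinarith
  have hmB : 1 ≤ ((m : ℝ) + 4) * (c * ((m + 5).factorial : ℝ)) := by nlinarith
  have hlogp0 : ∀ j, 0 ≤ Real.log (p j) := fun j =>
    Real.log_nonneg (by exact_mod_cast (hpp j).one_lt.le)
  have hfin := hgen m p R S 1 A q Tst q hR hpinj hpp hpR hq hqR le_rfl hA hAR hS hSR (by linarith)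
    hTst0
    (by
      refine hS2.trans ?_
      have : 0 ≤ C0 * R * Tst := by positivity
      linarith) (by
      intro jj hjj1 hG1 hG3R
      obtain ⟨G, hG⟩ : ∃ G : ℝ, G = jj * Real.log q := ⟨_, rfl⟩
      rw [← hG] at hG1 hG3R ⊢
      obtain ⟨A1, hA1⟩ : ∃ A1 : ℝ, A1 = max A G := ⟨_, rfl⟩
      rw [← hA1]
      have hAA1 : A ≤ A1 := by rw [hA1]; exact le_max_left _ _
      have hGA1 : G ≤ A1 := by rw [hA1]; exact le_max_right _ _
      have hA11 : 1 ≤ A1 := hA.trans hAA1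
      obtain ⟨Λ, v1, v2, v3⟩ := r3 m p hpp hpq jj hjj1
      obtain ⟨s, nrm, X0, ρ0, l1, l4, l5, l6, l7, l8⟩ := hlat m p hpinj hpp e x0 y0 hx0 hy0 g0 hg0
        hker A1 S G hA11 (hxA.trans hAA1) (hyA.trans hAA1) (by linarith) heS (by linarith) Λ
        (q ^ jj) v1 v2
      have hsDv : ∀ i, Dv Q jj (∏ j, (p j : ℚ) ^ (s i j) - 1) := fun i => v3 _ (l1 i)
      have hT0 : Dv Q T (g0 ^ 12 - 1) := by
        have := d7 T _ 12 hT1 (r1 T g0 hT1 hqT)
        exact_mod_cast this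
      have hgi : ∀ i, Dv Q jj ((fun i => (∏ j, (p j : ℚ) ^ (s i j)) ^ 12) i - 1) := by
        intro i
        have := d7 jj _ 12 hjj1 (hsDv i)
        exact_mod_cast this
      have hODz : ∀ (d : ℕ) (z : Fin d → Fin m → ℤ), ODj Q jj T (fun i => ∏ j,
          ((fun i => (∏ k, (p k : ℚ) ^ (s i k)) ^ 12) j) ^ (z i j)) := by
        intro d z
        have e1 := r2 d jj (fun i => ∏ k, (p k : ℚ) ^ ((∑ j, z i j • s j) k)) hjj1 (fun i =>
          v3 _ (AddSubgroup.sum_mem _ fun j _ => AddSubgroup.zsmul_mem _ (l1 j) _)) T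
        have e2 : (fun i : Fin d => ∏ j,
            ((fun i => (∏ k, (p k : ℚ) ^ (s i k)) ^ 12) j) ^ (z i j)) =
            fun i : Fin d => (∏ k, (p k : ℚ) ^ ((∑ j, z i j • s j) k)) ^ 12 := by
          funext i
          rw [rt_prod p hpp s (z i), ← Finset.prod_pow]
          refine Finset.prod_congr rfl fun j _ => ?_
          show ((∏ k, (p k : ℚ) ^ (s j k)) ^ 12) ^ (z i j) = _
          rw [← zpow_natCast, ← zpow_natCast, ← zpow_mul, ← zpow_mul, mul_comm]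
        rw [e2]
        exact e1
      have hHT := hHTP m 27 (by norm_num) ℚ hdeg Q hQp hQb q hq hQm jj T _ _ nrm G hjj1 hG1 hG hT0
        hgi hODz
      rw [← hTst] at hHT
      have hlip := hLIP m 27 ℚ hdeg Q hQp hQb q hq hQm T _ _ nrm G _ l4 hT0
      rw [← hTst] at hlip
      have hX0R : X0 ≤ X0 * R ^ 2 := le_mul_of_one_le_right l5.le (one_le_pow₀ hR)
      refine ⟨((q ^ jj : ℕ) : ℝ), ?_, ?_, ?_, m, ℚ, _, _, _, _, nrm, _, X0, ρ0, le_rfl, by omega,
        ?_, ?_, l4, l5, ?_, l7, hHT, l8, ?_⟩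
      · exact_mod_cast Nat.one_le_pow _ _ hq.pos
      · rw [Nat.cast_pow]
        exact pow_le_pow_right₀ (by linarith) (by omega)
      · intro hj
        rw [hj, pow_one]
        linarith
      · nlinarith
      · refine mul_le_mul_of_nonneg_right (mul_le_mul_of_nonneg_right ?_ (by linarith))
          (by linarith)
        nlinarith
      · refine hX0R.trans (le_of_eq ?_)
        rw [l6]
        push_cast
        ring
      · push_cast at hlip
        linarith)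
  rw [mul_one] at hfin
  exact hfin

end Pool.Helper99.SZ
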