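import Pool.Agent.Helper99.SZ.All
import Pool.Agent.Helper99.SZ.All3
import Pool.Agent.Helper99.SZ.Stmts4
import Pool.Agent.Helper11.SZ.RMN
import Pool.Agent.Helper13.SZ.ROD
import Pool.Agent.Helper2.SZ.QMN
import Pool.Agent.Helper24.SZ.QCU
import Pool.Agent.Helper42.SZ.QHa
import Pool.Agent.Helper42.SZ.QID
import Pool.Agent.Helper42.SZ.QPH
import Pool.Agent.Helper46.SZ.QFX
import Pool.Agent.Helper51.SZ.QDI
import Pool.Agent.Helper52.SZ.QOV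
import Pool.Agent.Helper52.SZ.QSB
import Pool.Agent.Helper53.SZ.QPC
import Pool.Agent.Helper61.SZ.QC3
import Pool.Agent.Helper61.SZ.QQX
import Pool.Agent.Helper67.SZ.QEM
import Pool.Agent.Helper67.SZ.QRO
import Pool.Agent.Helper67.SZ.QUB
import Pool.Agent.Helper68.SZ.QFI
import Pool.Agent.Helper7.SZ.QGE
import Pool.Agent.Helper7.SZ.QOD
import Pool.Agent.Helper71.SZ.QCN
import Pool.Agent.Helper71.SZ.RLT
import Pool.Agent.Helper97.SZ.QIX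
import Pool.Agent.Helper99.SZ.AFI
import Pool.Agent.Helper99.SZ.QTA
import Pool.Agent.Helper99.SZ.QTP
import Pool.Agent.Helper99.SZ.RTA
import Pool.Agent.Helper99.SZ.RTP

/-! Assembly of the modules of the bound for discriminants of elliptic curves. -/

set_option autoImplicit false

namespace Pool.Helper99.SZ

theorem sz_QHa : ST_QHa := _root_.Pool.Helper99.SZ.st_QHa
theorem sz_QPH : ST_QPH := _root_.Pool.Helper99.SZ.st_QPH sz_QHa sz_SUF _root_.Pool.Helper99.BK.bk_IDF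
theorem sz_QUB : ST_QUB := _root_.Pool.Helper99.SZ.st_QUB
theorem sz_QSB : ST_QSB := _root_.Pool.Helper99.SZ.st_QSB sz_RB2 sz_SUF sz_QUB
theorem sz_QGE : ST_QGE := _root_.Pool.Helper99.SZ.st_QGE
theorem sz_QCN : ST_QCN := _root_.Pool.Helper99.SZ.st_QCN sz_QPH sz_QSB sz_QGE sz_GEL1 sz_SUF
theorem sz_QPC : ST_QPC := _root_.Pool.Helper99.SZ.st_QPC sz_GEL1 sz_GEL2 sz_SUF sz_QGE
theorem sz_QC3 : ST_QC3 := _root_.Pool.Helper99.SZ.st_QC3 sz_VAL sz_VALS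
theorem sz_QOV : ST_QOV := _root_.Pool.Helper99.SZ.st_QOV sz_DVB
theorem sz_QOD : ST_QOD := _root_.Pool.Helper99.SZ.st_QOD sz_QOV sz_ODB sz_VAL sz_DVB
theorem sz_QQX : ST_QQX := _root_.Pool.Helper99.SZ.st_QQX sz_VAL sz_VALS sz_DVB
theorem sz_QIX : ST_QIX := _root_.Pool.Helper99.SZ.st_QIX sz_DVB sz_SUF
theorem sz_QTP : ST_QTP := _root_.Pool.Helper99.SZ.st_QTP sz_GRW sz_QCN sz_QPC sz_P123 sz_QC3 sz_QOD sz_HTP sz_DVB sz_QQX sz_QIX sz_LIP sz_BR sz_CLA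
theorem sz_QTA : ST_QTA := _root_.Pool.Helper99.SZ.st_QTA sz_GRW sz_QCN sz_QPC sz_P123 sz_QC3 sz_SUF sz_HTA sz_ARR sz_ARC sz_LIA sz_BR sz_CLA
theorem sz_QFX : ST_QFX := _root_.Pool.Helper99.SZ.st_QFX
theorem sz_QEM : ST_QEM := _root_.Pool.Helper99.SZ.st_QEM
theorem sz_QDI : ST_QDI := _root_.Pool.Helper99.SZ.st_QDI
theorem sz_QID : ST_QID := _root_.Pool.Helper99.SZ.st_QID _root_.Pool.Helper99.BK.bk_TAU
theorem sz_QRO : ST_QRO := _root_.Pool.Helper99.SZ.st_QRO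
theorem sz_QCU : ST_QCU := _root_.Pool.Helper99.SZ.st_QCU
theorem sz_QMN : ST_QMN := _root_.Pool.Helper99.SZ.st_QMN sz_QTP sz_QTA sz_QFX sz_QEM sz_QDI sz_QID sz_QRO sz_QCU sz_CLA
theorem sz_RLT : ST_RLT := _root_.Pool.Helper99.SZ.st_RLT sz_RB2
theorem sz_ROD : ST_ROD := _root_.Pool.Helper99.SZ.st_ROD sz_DVB sz_VAL sz_ODB
theorem sz_RTP : ST_RTP := _root_.Pool.Helper99.SZ.st_RTP sz_RLT sz_ROD sz_HTP sz_DVB sz_LIP sz_BR sz_CLA
theorem sz_RTA : ST_RTA := _root_.Pool.Helper99.SZ.st_RTA sz_RLT sz_HTA sz_ARR sz_LIA sz_BR sz_CLA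
theorem sz_RMN : ST_RMN := _root_.Pool.Helper99.SZ.st_RMN sz_RTP sz_RTA sz_CLA
theorem sz_QFI : ST_QFI := _root_.Pool.Helper99.SZ.st_QFI sz_QMN sz_RMN
theorem sz_AFI : ST_AFI := _root_.Pool.Helper99.SZ.st_AFI sz_FI3 sz_QMN sz_RMN

end Pool.Helper99.SZ
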