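import Pool.Agent.Helper99.SZ.TAR
import Pool.Agent.Helper99.SZ.Stmts5

/-!
# Two close conjugates in a cubic field
-/

set_option autoImplicit false

namespace Pool.Helper99.SZ

open NumberField

/-- the number of infinite places -/
theorem ha_card (K : Type) [Field K] [NumberField K] (h3 : Module.finrank ℚ K = 3) :
    1 ≤ Fintype.card (InfinitePlace K) ∧ Fintype.card (InfinitePlace K) ≤ 3 ∧
      ∀ φ : K →+* ℂ, (∃ x, (φ x).im ≠ 0) → Fintype.card (InfinitePlace K) ≤ 2 := by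
  have e1 : ∑ w : InfinitePlace K, InfinitePlace.mult w = 3 := by
    rw [InfinitePlace.sum_mult_eq, h3]
  refine ⟨Fintype.card_pos, ?_, ?_⟩
  · rw [← e1]
    calc Fintype.card (InfinitePlace K) = ∑ w : InfinitePlace K, 1 := by simp
      _ ≤ _ := Finset.sum_le_sum fun w _ => InfinitePlace.mult_pos
  · rintro φ ⟨x, hx⟩
    classical
    have hc : (InfinitePlace.mk φ).IsComplex := by
      rw [InfinitePlace.isComplex_mk_iff]
      intro hr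
      rw [ComplexEmbedding.isReal_iff] at hr
      have h1 := RingHom.congr_fun hr x
      rw [ComplexEmbedding.conjugate_coe_eq] at h1
      exact hx (Complex.conj_eq_iff_im.1 h1)
    have h2 : InfinitePlace.mult (InfinitePlace.mk φ) = 2 :=
      InfinitePlace.mult_isComplex ⟨_, hc⟩
    have h4 : ∑ w ∈ Finset.univ.erase (InfinitePlace.mk φ), InfinitePlace.mult w + 2 = 3 := by
      rw [← e1, ← h2, Finset.sum_erase_add _ _ (Finset.mem_univ _)]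
    have h5 : (Finset.univ.erase (InfinitePlace.mk φ)).card ≤
        ∑ w ∈ Finset.univ.erase (InfinitePlace.mk φ), InfinitePlace.mult w := by
      rw [Finset.card_eq_sum_ones]
      exact Finset.sum_le_sum fun w _ => InfinitePlace.mult_pos
    rw [Finset.card_erase_of_mem (Finset.mem_univ _), Finset.card_univ] at h5
    omega

/-- the lattice of units and `κ` -/
theorem ha_lat (hGRW : ST_GRW) (hCNT : ST_CNT) (hPC3 : ST_PC3) (hP123 : ST_P123)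
    (hSUF : ST_SUF) : ∃ c : ℝ, 1 ≤ c ∧ ∀ (K : Type) [Field K] [NumberField K],
    Module.finrank ℚ K = 3 → ∀ σ : Fin 3 → (K →+* ℂ), Function.Injective σ →
    ∀ κ : 𝓞 K, κ ≠ 0 → ∀ h ν A S : ℝ, 1 ≤ h → Real.log |(NumberField.discr K : ℝ)| ≤ h →
    1 ≤ A → Real.log (Ideal.absNorm (Ideal.span {κ}) : ℝ) ≤ A →
    (∀ i, |Real.log ‖σ i (κ : K)‖| ≤ S) →
    ((BK.ID K (2 * Real.sqrt |(NumberField.discr K : ℝ)|)).ncard : ℝ) ≤ ν → 1 ≤ ν →
    ∀ (L : Type) [Field L] [NumberField L] (e : Fin 3 → (K →+* L)), Function.Injective e →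
    (∀ (τ : L →+* ℂ) (i : Fin 3), ∃ j : Fin 3, ∀ x : K, τ (e i x) = σ j x) →
    (∀ k : ℤ, k ≠ 0 → (e 2 (κ : K) / e 1 (κ : K)) ^ k ≠ 1) →
    ∃ (n : ℕ) (s : Fin n → Kˣ) (nrm : ℤ × (Fin n → ℤ) → ℝ),
      n + 1 = Fintype.card (InfinitePlace K) ∧
      LD L n ((e 2 (κ : K) / e 1 (κ : K)) ^ 12)
        (fun i => (e 2 ((s i : Kˣ) : K) / e 1 ((s i : Kˣ) : K)) ^ 12) nrm 1 (c * (1 + S / A)) ∧
      ∀ ρ, c * (A + h) ≤ ρ → ρ ^ (n + 1) ≤ c * ν * A * h ^ 2 *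
        ({x : ℤ × (Fin n → ℤ) | nrm x ≤ ρ}.ncard : ℝ) := by
  obtain ⟨c, hc, hcnt⟩ := hCNT 0
  refine ⟨12 ^ 3 * c, by linarith, ?_⟩
  intro K _ _ h3 σ hσ κ hκ h ν A S hh hdisc hA hnA hσS hν hν1 L _ _ e he hτ hker
  have hS0 : 0 ≤ S := (abs_nonneg _).trans (hσS 0)
  have hA0 : 0 < A := by linarith
  obtain ⟨P, hP⟩ : ∃ P : Fin 0 → Ideal (𝓞 K), P = fun j => j.elim0 := ⟨_, rfl⟩
  have hPinj : Function.Injective P := fun j => j.elim0
  have hPpr : ∀ j, (P j).IsPrime ∧ P j ≠ ⊥ := fun j => j.elim0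
  obtain ⟨nn, hnn⟩ : ∃ nn : Fin 0 → ℕ, nn = fun j => j.elim0 := ⟨_, rfl⟩
  have hfac : Ideal.span {κ} = Ideal.span {κ} * ∏ j, P j ^ nn j := by
    rw [Fin.prod_univ_zero, mul_one]
  obtain ⟨G1, g1, g2, g6⟩ := ta_group hSUF K 0 P hPinj hPpr
  obtain ⟨n, s, α, n1, n2, n3, n4, n5⟩ := hcnt K h3 σ hσ P hPinj hPpr κ hκ nn _ hfac G1 g1 g2 1 g6
  obtain ⟨hcard1, hcard3, -⟩ := ha_card K h3
  have hLD0 := hPC3 0 K h3 σ hσ L e he hτ P hPinj hPpr (fun q u a _ _ => Subsingleton.elim _ _)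
    κ hκ nn _ hfac n s α n3 A c S 1 hA hnA hc n4 hS0 hσS (fun j => j.elim0) (by linarith) hker
  obtain ⟨nrm, hnrm⟩ : ∃ nrm : ℤ × (Fin n → ℤ) → ℝ, nrm = nrmS σ P κ nn s α A := ⟨_, rfl⟩
  rw [← hnrm] at hLD0
  have hnv : ∀ a, nrm a = 4 * ∑ i, |Real.log ‖σ i (gelS κ s a)‖| + 4 * A * |(a.1 : ℝ)| := by
    intro a
    rw [hnrm, nrmS, Fin.sum_univ_zero, mul_zero, add_zero]
  -- better coordinates
  have hcoo : ∀ (a : ℤ × (Fin n → ℤ)) (i : Fin n), |((a.2 i : ℤ) : ℝ)| ≤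
      (c * (1 + S / A)) * nrm a := by
    intro a i
    have h1 := n4 a.2 i
    rw [Fin.sum_univ_zero, add_zero] at h1
    have h2 : ∀ k, |Real.log ‖σ k (∏ i, ((s i : Kˣ) : K) ^ (a.2 i))‖| ≤
        |Real.log ‖σ k (gelS κ s a)‖| + |(a.1 : ℝ)| * S := by
      intro k
      have hκ0 : σ k (κ : K) ≠ 0 := by
        rw [map_ne_zero]
        exact fun h0 => hκ (by exact_mod_cast h0)
      have hs0 : σ k (∏ i, ((s i : Kˣ) : K) ^ (a.2 i)) ≠ 0 := by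
        rw [map_ne_zero]
        exact Finset.prod_ne_zero_iff.2 fun i _ => zpow_ne_zero _ (s i).ne_zero
      have e1 : Real.log ‖σ k (gelS κ s a)‖ = (a.1 : ℝ) * Real.log ‖σ k (κ : K)‖ +
          Real.log ‖σ k (∏ i, ((s i : Kˣ) : K) ^ (a.2 i))‖ := by
        rw [gelS, map_mul, map_zpow₀, norm_mul, norm_zpow, Real.log_mul
          (zpow_ne_zero _ (norm_ne_zero_iff.2 hκ0)) (norm_ne_zero_iff.2 hs0), Real.log_zpow]
      have e2 : Real.log ‖σ k (∏ i, ((s i : Kˣ) : K) ^ (a.2 i))‖ =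
          Real.log ‖σ k (gelS κ s a)‖ - (a.1 : ℝ) * Real.log ‖σ k (κ : K)‖ := by
        rw [e1]
        ring
      rw [e2]
      refine (abs_sub _ _).trans ?_
      rw [abs_mul]
      have := mul_le_mul_of_nonneg_left (hσS k) (abs_nonneg (a.1 : ℝ))
      linarith
    have h4 : ∑ k, |Real.log ‖σ k (∏ i, ((s i : Kˣ) : K) ^ (a.2 i))‖| ≤
        ∑ k, |Real.log ‖σ k (gelS κ s a)‖| + 3 * (|(a.1 : ℝ)| * S) := by
      refine (Finset.sum_le_sum fun k _ => h2 k).trans (le_of_eq ?_)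
      rw [Finset.sum_add_distrib, Finset.sum_const, Finset.card_univ, Fintype.card_fin,
        nsmul_eq_mul]
      norm_num
    have h5 : 0 ≤ ∑ i, |Real.log ‖σ i (gelS κ s a)‖| := Finset.sum_nonneg fun _ _ => abs_nonneg _
    have h6 : 0 ≤ |(a.1 : ℝ)| := abs_nonneg _
    have h7 := hnv a
    have h8 : |(a.1 : ℝ)| * S = (A * |(a.1 : ℝ)|) * (S / A) := by
      field_simp
    have h9 : 0 ≤ S / A := by positivity
    have h10 : A * |(a.1 : ℝ)| ≤ nrm a / 4 := by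
      rw [h7]
      linarith
    have h11 : (A * |(a.1 : ℝ)|) * (S / A) ≤ nrm a / 4 * (S / A) :=
      mul_le_mul_of_nonneg_right h10 h9
    have h12 : ∑ i, |Real.log ‖σ i (gelS κ s a)‖| ≤ nrm a := by
      rw [h7]
      have : 0 ≤ A * |(a.1 : ℝ)| := by positivity
      linarith
    have h13 : ∑ k, |Real.log ‖σ k (gelS κ s a)‖| + 3 * (|(a.1 : ℝ)| * S) ≤
        (1 + S / A) * nrm a := by
      rw [h8]
      have h14 : 0 ≤ nrm a := by linarith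
      have h15 : 0 ≤ nrm a * (S / A) := by positivity
      linarith
    calc |((a.2 i : ℤ) : ℝ)| ≤ c * ∑ k, |Real.log ‖σ k (∏ i, ((s i : Kˣ) : K) ^ (a.2 i))‖| := h1
      _ ≤ c * ((1 + S / A) * nrm a) := mul_le_mul_of_nonneg_left (h4.trans h13) (by linarith)
      _ = _ := by ring
  have hLD1 : LD L n (e 2 (κ : K) / e 1 (κ : K))
      (fun i => e 2 ((s i : Kˣ) : K) / e 1 ((s i : Kˣ) : K)) nrm 1 (c * (1 + S / A)) :=
    { ne0 := hLD0.ne0, ne := hLD0.ne, add := hLD0.add, smul := hLD0.smul, conj := hLD0.conj,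
      den := hLD0.den, co0 := hLD0.co0, coo := hcoo, fin := hLD0.fin, tor := hLD0.tor,
      ker := hLD0.ker }
  have hLD2 := hP123 L n _ _ _ 1 _ hLD1
  have hgrow1 : ∀ ρ, c * (A + h) ≤ ρ → ρ ^ (Fintype.card (InfinitePlace K)) ≤
      c * ν * A * h ^ 2 * ({x : ℤ × (Fin n → ℤ) | nrm x ≤ ρ}.ncard : ℝ) := by
    intro ρ hρ
    have h1 := n5 A h ν ρ hh hdisc hA hnA hν (by rw [Fin.sum_univ_zero, add_zero]; exact hρ)
    rw [Fin.prod_univ_zero, add_zero, Nat.cast_one, mul_one, mul_one, ← hnrm] at h1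
    refine h1.trans ?_
    have h2 : h ^ (Fintype.card (InfinitePlace K) - 1) ≤ h ^ 2 :=
      pow_le_pow_right₀ hh (by omega)
    gcongr
  have hn1 : Fintype.card (InfinitePlace K) = n + 1 := by
    have := hGRW n (Fintype.card (InfinitePlace K)) nrm (c * (1 + S / A)) (c * ν * A * h ^ 2)
      (c * (A + h)) hLD1.co0 hcoo hgrow1
    omega
  have h12 : (1 : ℝ) ≤ 12 ^ 3 := by norm_num
  refine ⟨n, s, fun x => 12 * nrm x, hn1.symm, ?_, ?_⟩
  · exact { ne0 := hLD2.ne0, ne := hLD2.ne, add := hLD2.add, smul := hLD2.smul, conj := hLD2.conj,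
            den := hLD2.den, co0 := hLD2.co0, coo := fun a i => (hLD2.coo a i).trans (by
              have h1 : 0 ≤ 12 * nrm a := le_trans (abs_nonneg _) (hLD2.co0 a)
              have h2 : c * (1 + S / A) ≤ 12 ^ 3 * c * (1 + S / A) := by
                have : 0 ≤ c * (1 + S / A) := by positivity
                nlinarith
              exact mul_le_mul_of_nonneg_right h2 h1), fin := hLD2.fin, tor := hLD2.tor,
            ker := hLD2.ker }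
  · intro ρ hρ
    have h0 : c * (A + h) ≤ ρ / 12 := by
      have : 0 ≤ c * (A + h) := by positivity
      linarith
    have h1 := hgrow1 (ρ / 12) h0
    have e8 : {x : ℤ × (Fin n → ℤ) | 12 * nrm x ≤ ρ} = {x : ℤ × (Fin n → ℤ) | nrm x ≤ ρ / 12} := by
      ext x
      rw [Set.mem_ofPred_eq, Set.mem_ofPred_eq]
      constructor
      · intro hx
        linarith
      · intro hx
        linarith
    rw [e8]
    rw [hn1] at h1
    have e9 : ρ ^ (n + 1) = 12 ^ (n + 1) * (ρ / 12) ^ (n + 1) := by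
      rw [← mul_pow]
      congr 1
      ring
    rw [e9]
    have e1 : (12 : ℝ) ^ (n + 1) ≤ 12 ^ 3 := pow_le_pow_right₀ (by norm_num) (by omega)
    have e2 : 0 ≤ ρ / 12 := le_trans (by positivity) h0
    calc 12 ^ (n + 1) * (ρ / 12) ^ (n + 1) ≤ 12 ^ 3 * (c * ν * A * h ^ 2 *
          ({x : ℤ × (Fin n → ℤ) | nrm x ≤ ρ / 12}.ncard : ℝ)) :=
          mul_le_mul e1 h1 (by positivity) (by norm_num)
      _ = _ := by ring

/-- the numerical end -/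
theorem ha_num (c ν A h S : ℝ) (n : ℕ) (hc : 1 ≤ c) (hν : 1 ≤ ν) (hA : 1 ≤ A) (hh : 1 ≤ h)
    (hS : 0 ≤ S) (hn : n ≤ 2) : ∃ X ℓ Θ U : ℝ, 1 ≤ X ∧ 1 ≤ ℓ ∧
      10 ^ 9 * ((n : ℝ) + 1) ^ 5 * (((27 : ℕ) : ℝ)) ^ 2 * (1 + ℓ / 1) ≤ Θ ∧
      U = 8 * ((n : ℝ) + 1) * X * Θ ^ n ∧
      Real.log (1 + (1 + 120 * (c * (1 + S / A))) * 1) ≤ ℓ ∧
      4 * (c * (A + h) + 1) ≤ X ∧ 4 ^ 4 * 60 * (c * ν * A * h ^ 2) ≤ X ∧
      X * Θ ^ (n + 1) ≤ (4 ^ 4 * 60 * c * (10 ^ 15 * (130 * c)) ^ 3) * ν * h ^ 2 * A *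
        (1 + Real.log (1 + S / A)) ^ 3 := by
  have hSA : 0 ≤ S / A := by positivity
  obtain ⟨l, hl⟩ : ∃ l, l = Real.log (1 + S / A) := ⟨_, rfl⟩
  have hl0 : 0 ≤ l := by rw [hl]; exact Real.log_nonneg (by linarith)
  have hlc0 : 0 ≤ Real.log (122 * c) := Real.log_nonneg (by linarith)
  have hlc : Real.log (122 * c) ≤ 122 * c - 1 := Real.log_le_sub_one_of_pos (by linarith)
  have hX : 4 ^ 4 * 60 * (c * ν * A * h ^ 2) = 4 ^ 4 * 60 * c * (ν * A * h ^ 2) := by ring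
  have hh2 : 1 ≤ h ^ 2 := one_le_pow₀ hh
  have hνA : 1 ≤ ν * A := one_le_mul_of_one_le_of_one_le hν hA
  have hP1 : 1 ≤ ν * A * h ^ 2 := one_le_mul_of_one_le_of_one_le hνA hh2
  have hPA : A ≤ ν * A * h ^ 2 := by
    calc A = 1 * A * 1 := by ring
      _ ≤ ν * A * h ^ 2 := by gcongr
  have hPh : h ≤ ν * A * h ^ 2 := by
    calc h = 1 * h := by ring
      _ ≤ (ν * A) * h ^ 2 := by
        have : h ≤ h ^ 2 := by nlinarith
        gcongr
  obtain ⟨Q, hQ⟩ : ∃ Q, Q = ν * A * h ^ 2 := ⟨_, rfl⟩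
  rw [← hQ] at hX hP1 hPA hPh
  obtain ⟨X, hXd⟩ : ∃ X, X = 4 ^ 4 * 60 * c * Q := ⟨_, rfl⟩
  have hcQ : 1 ≤ c * Q := one_le_mul_of_one_le_of_one_le hc hP1
  have hX1 : 1 ≤ X := by
    rw [hXd]
    nlinarith
  obtain ⟨ℓ, hℓ⟩ : ∃ ℓ, ℓ = 1 + (Real.log (122 * c) + l) := ⟨_, rfl⟩
  obtain ⟨Θ, hΘ⟩ : ∃ Θ, Θ = 10 ^ 15 * (1 + ℓ) := ⟨_, rfl⟩
  have hℓ1 : 1 ≤ ℓ := by rw [hℓ]; linarith
  have hΘ1 : 1 ≤ Θ := by rw [hΘ]; linarith
  have hn' : (n : ℝ) ≤ 2 := by exact_mod_cast hn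
  have hn0 : (0 : ℝ) ≤ n := Nat.cast_nonneg n
  refine ⟨X, ℓ, Θ, _, hX1, hℓ1, ?_, rfl, ?_, ?_, ?_, ?_⟩
  · have h5 : ((n : ℝ) + 1) ^ 5 ≤ 3 ^ 5 := pow_le_pow_left₀ (by linarith) (by linarith) 5
    rw [div_one, hΘ]
    calc 10 ^ 9 * ((n : ℝ) + 1) ^ 5 * (((27 : ℕ) : ℝ)) ^ 2 * (1 + ℓ) ≤
          10 ^ 9 * 3 ^ 5 * (((27 : ℕ) : ℝ)) ^ 2 * (1 + ℓ) := by gcongr
      _ ≤ 10 ^ 15 * (1 + ℓ) := by
        apply mul_le_mul_of_nonneg_right _ (by linarith)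
        norm_num
  · have h6 : 1 + (1 + 120 * (c * (1 + S / A))) * 1 ≤ (122 * c) * (1 + S / A) := by
      have : 1 ≤ c * (1 + S / A) := one_le_mul_of_one_le_of_one_le hc (by linarith)
      linarith
    have h7 := Real.log_le_log (by positivity) h6
    rw [Real.log_mul (by linarith) (by linarith), ← hl] at h7
    rw [hℓ]
    linarith
  · rw [hXd]
    have h8 : c * (A + h) ≤ c * (2 * Q) := by gcongr; linarith
    nlinarith
  · rw [hX, hXd]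
  · have h9 : Θ ^ (n + 1) ≤ Θ ^ 3 := pow_le_pow_right₀ hΘ1 (by omega)
    have h10 : Θ ≤ 10 ^ 15 * (130 * c) * (1 + l) := by
      have h11 : 1 + ℓ ≤ (130 * c) * (1 + l) := by
        rw [hℓ]
        nlinarith
      rw [hΘ]
      nlinarith
    have h12 : Θ ^ 3 ≤ (10 ^ 15 * (130 * c) * (1 + l)) ^ 3 := pow_le_pow_left₀ (by linarith) h10 3
    calc X * Θ ^ (n + 1) ≤ X * (10 ^ 15 * (130 * c) * (1 + l)) ^ 3 :=
          mul_le_mul_of_nonneg_left (h9.trans h12) (by linarith)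
      _ = _ := by rw [hXd, hQ, hl]; ring

theorem st_HAR (hGRW : ST_GRW) (hCNT : ST_CNT) (hPC3 : ST_PC3) (hP123 : ST_P123)
    (hSUF : ST_SUF) (hTOR3 : ST_TOR3) (hLF3 : ST_LF3) (hHAM : ST_HAM) (hARR : ST_ARR)
    (hARC : ST_ARC) : ST_HAR := by
  obtain ⟨c, hc, hlat⟩ := ha_lat hGRW hCNT hPC3 hP123 hSUF
  obtain ⟨Cf, hCf⟩ : ∃ Cf : ℝ, Cf = 4 ^ 4 * 60 * c * (10 ^ 15 * (130 * c)) ^ 3 := ⟨_, rfl⟩
  have hCf1 : 1 ≤ Cf := by
    rw [hCf]
    have h1 : 1 ≤ (10 ^ 15 * (130 * c)) ^ 3 := one_le_pow₀ (by linarith)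
    nlinarith
  refine ⟨7 * Cf, by linarith, ?_⟩
  intro K _ _ h3 σ hσ hcfg κ hκ h ν A S Ti hh hdisc hA hnA hσS hν hν1 hne hTi0 hclose
  have hS0 : 0 ≤ S := (abs_nonneg _).trans (hσS 0)
  have hSA : 0 ≤ S / A := by positivity
  obtain ⟨E, hE⟩ : ∃ E : ℝ, E = ν * h ^ 2 * A * (1 + Real.log (1 + S / A)) ^ 3 := ⟨_, rfl⟩
  have hE1 : 1 ≤ E := by
    have h1 : 0 ≤ Real.log (1 + S / A) := Real.log_nonneg (by linarith)
    have h2 : 1 ≤ (1 + Real.log (1 + S / A)) ^ 3 := one_le_pow₀ (by linarith)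
    have h4 : 1 ≤ h ^ 2 := one_le_pow₀ hh
    rw [hE]
    exact one_le_mul_of_one_le_of_one_le (one_le_mul_of_one_le_of_one_le
      (one_le_mul_of_one_le_of_one_le hν1 h4) hA) h2
  have hgoal : 7 * Cf * ν * h ^ 2 * A * (1 + Real.log (1 + S / A)) ^ 3 = 7 * (Cf * E) := by
    rw [hE]; ring
  rw [hgoal]
  have hCE : 1 ≤ Cf * E := one_le_mul_of_one_le_of_one_le hCf1 hE1
  by_cases hTi : Ti < 6
  · linarith
  push Not at hTi
  obtain ⟨L, iL, iN, e, φ, hL27, he, hτ, hφ⟩ := hLF3 K h3 σ hσ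
  have htor := hTOR3 K h3 σ hσ κ hκ hne
  have hker : ∀ k : ℤ, k ≠ 0 → (e 2 (κ : K) / e 1 (κ : K)) ^ k ≠ 1 := by
    intro k hk h1
    apply htor k hk
    have h2 := congrArg φ h1
    rw [map_zpow₀, map_div₀, hφ, hφ, map_one] at h2
    exact h2
  obtain ⟨n, s, nrm, l1, l4, l7⟩ := hlat K h3 σ hσ κ hκ h ν A S hh hdisc hA hnA hσS hν hν1 L e he
    hτ hker
  obtain ⟨hcard1, hcard3, hcard2⟩ := ha_card K h3
  obtain ⟨lam0, m1, m2, m3⟩ := ta_log (σ 2 (κ : K) / σ 1 (κ : K)) Ti hTi hclose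
  obtain ⟨g0, hg0⟩ : ∃ g0 : L, g0 = (e 2 (κ : K) / e 1 (κ : K)) ^ 12 := ⟨_, rfl⟩
  have hlam : Complex.exp lam0 = φ g0 := by
    rw [m1, hg0, map_pow, map_div₀, hφ, hφ]
  obtain ⟨g, hg⟩ : ∃ g : Fin n → L, g = fun i => (e 2 ((s i : Kˣ) : K) /
      e 1 ((s i : Kˣ) : K)) ^ 12 := ⟨_, rfl⟩
  have hφg : ∀ i, φ (g i) = (σ 2 ((s i : Kˣ) : K) / σ 1 ((s i : Kˣ) : K)) ^ 12 := by
    intro i
    rw [hg]
    show φ ((e 2 ((s i : Kˣ) : K) / e 1 ((s i : Kˣ) : K)) ^ 12) = _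
    rw [map_pow, map_div₀, hφ, hφ]
  rw [← hg0, ← hg] at l4
  have hσs : ∀ (i : Fin n) (j : Fin 3), σ j ((s i : Kˣ) : K) ≠ 0 := by
    intro i j h0
    exact (s i).ne_zero ((map_eq_zero (σ j)).1 h0)
  have hnn : ∀ x, 0 ≤ nrm x := fun x => le_trans (abs_nonneg _) (l4.co0 x)
  have he1 : Real.exp 1 ≤ 3 := by
    have := Real.exp_one_lt_d9
    linarith
  have hZ1 : 1 ≤ c * (1 + S / A) := one_le_mul_of_one_le_of_one_le hc (by linarith)
  obtain ⟨X0, hX0⟩ : ∃ X0, X0 = c * ν * A * h ^ 2 := ⟨_, rfl⟩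
  have hX00 : 0 ≤ X0 := by rw [hX0]; positivity
  rw [← hX0] at l7
  -- the growth for the extended size
  have hgrow : ∀ (k : ℕ) (N' : ℝ → ℝ), n + k ≤ 2 → (∀ ρ, 0 ≤ N' ρ) →
      (∀ ρ, 1 ≤ ρ → ρ ^ k * ({x : ℤ × (Fin n → ℤ) | nrm x ≤ ρ}.ncard : ℝ) ≤
        20 * Real.exp 1 * N' (4 * ρ)) →
      ∀ X, 4 * (c * (A + h) + 1) ≤ X → 4 ^ 4 * 60 * X0 ≤ X →
      ∀ ρ, X ≤ ρ → ρ ^ (n + k + 1) ≤ X * N' ρ := by
    intro k N' hnk hN' hNN X hX1 hX2 ρ hρ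
    have h0 : c * (A + h) ≤ ρ / 4 := by linarith
    have h1 : 1 ≤ ρ / 4 := by
      have : 0 ≤ c * (A + h) := by positivity
      linarith
    have h2 := l7 (ρ / 4) h0
    have h4 := hNN (ρ / 4) h1
    rw [show 4 * (ρ / 4) = ρ by ring] at h4
    have e9 : ρ ^ (n + k + 1) = 4 ^ (n + k + 1) * ((ρ / 4) ^ k * (ρ / 4) ^ (n + 1)) := by
      rw [← pow_add, show k + (n + 1) = n + k + 1 by ring, ← mul_pow]
      congr 1
      ring
    rw [e9]
    have h5 : (ρ / 4) ^ k * (ρ / 4) ^ (n + 1) ≤ X0 * (60 * N' ρ) := by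
      calc (ρ / 4) ^ k * (ρ / 4) ^ (n + 1) ≤ (ρ / 4) ^ k * (X0 *
            ({x : ℤ × (Fin n → ℤ) | nrm x ≤ ρ / 4}.ncard : ℝ)) :=
            mul_le_mul_of_nonneg_left h2 (by positivity)
        _ = X0 * ((ρ / 4) ^ k * ({x : ℤ × (Fin n → ℤ) | nrm x ≤ ρ / 4}.ncard : ℝ)) := by ring
        _ ≤ X0 * (20 * Real.exp 1 * N' ρ) := mul_le_mul_of_nonneg_left h4 hX00
        _ ≤ _ := by
          apply mul_le_mul_of_nonneg_left _ hX00
          apply mul_le_mul_of_nonneg_right _ (hN' ρ)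
          linarith
    have h6 : (4 : ℝ) ^ (n + k + 1) ≤ 4 ^ 4 := pow_le_pow_right₀ (by norm_num) (by omega)
    calc 4 ^ (n + k + 1) * ((ρ / 4) ^ k * (ρ / 4) ^ (n + 1)) ≤ 4 ^ 4 * (X0 * (60 * N' ρ)) :=
          mul_le_mul h6 h5 (by positivity) (by positivity)
      _ = 4 ^ 4 * 60 * X0 * N' ρ := by ring
      _ ≤ _ := mul_le_mul_of_nonneg_right hX2 (hN' ρ)
  have hTfin : ∀ T' : ℝ, T' = Ti - 3 → T' ≤ Cf * E → Ti ≤ 7 * (Cf * E) := by
    intro T' h1 h2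
    linarith
  rcases hcfg with hre | ⟨hcc, hre0⟩
  · -- real case
    obtain ⟨c1, hc1⟩ : ∃ c1 : Fin n → ℝ, c1 = fun i =>
      12 * Real.log ‖σ 2 ((s i : Kˣ) : K) / σ 1 ((s i : Kˣ) : K)‖ := ⟨_, rfl⟩
    have hexp : ∀ i, Complex.exp (c1 i : ℂ) = φ (g i) := by
      intro i
      rw [hφg i, hc1]
      show Complex.exp ((12 * Real.log ‖σ 2 ((s i : Kˣ) : K) / σ 1 ((s i : Kˣ) : K)‖ : ℝ) : ℂ) = _
      obtain ⟨r, hr⟩ : ∃ r : ℝ, σ 2 ((s i : Kˣ) : K) / σ 1 ((s i : Kˣ) : K) = (r : ℂ) := by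
        refine ⟨(σ 2 ((s i : Kˣ) : K) / σ 1 ((s i : Kˣ) : K)).re, ?_⟩
        apply Complex.ext
        · simp
        · rw [Complex.ofReal_im, Complex.div_im, hre 2, hre 1]
          ring
      have hr0 : r ≠ 0 := by
        intro h0
        rw [h0, Complex.ofReal_zero, div_eq_zero_iff] at hr
        rcases hr with h | h
        · exact hσs i 2 h
        · exact hσs i 1 h
      rw [hr, Complex.norm_real, Real.norm_eq_abs, ← Complex.ofReal_exp, ← Complex.ofReal_pow]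
      congr 1
      rw [show (12 : ℝ) * Real.log |r| = ((12 : ℕ) : ℝ) * Real.log |r| by norm_num,
        Real.exp_nat_mul, Real.exp_log (abs_pos.2 hr0)]
      rw [show (12 : ℕ) = 2 * 6 by norm_num, pow_mul, sq_abs, ← pow_mul]
    obtain ⟨q1, q2⟩ := hARR L n φ g0 g nrm 1 _ c1 lam0 le_rfl (by linarith) l4 hlam m3 hexp
    obtain ⟨X, ℓ, Θ, U, x1, x2, x3, x4, x5, x6, x7, x8⟩ := ha_num c ν A h S n hc hν1 hA hh hS0
      (by omega)
    have hq1 : LD L n g0 g (fun a => nrm a + Real.exp 1 * |∑ i, c1 i * (a.2 i : ℝ)|) 1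
        (1 + 120 * (c * (1 + S / A))) :=
      { ne0 := q1.ne0, ne := q1.ne, add := q1.add, smul := q1.smul, conj := q1.conj,
        den := q1.den, co0 := q1.co0, coo := fun a i => (q1.coo a i).trans (by
          have h1 := le_trans (abs_nonneg _) (q1.co0 a)
          exact mul_le_mul_of_nonneg_right (by linarith) h1), fin := q1.fin, tor := q1.tor,
        ker := q1.ker }
    refine hTfin (Ti - 3) rfl ?_
    refine (hHAM n 27 (by norm_num) L hL27 φ g0 g _ 1 _ X U ℓ Θ (Ti - 3) c1 1 lam0 le_rfl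
      (by linarith) hq1 hlam (fun i => by rw [mul_one]; exact hexp i) (fun x => by
          rw [mul_one, Complex.norm_real, Real.norm_eq_abs, mul_comm]
          have := hnn x
          linarith) (by linarith) m2 x1 x2 x3 x4 x5 ?_).trans ?_
    · intro ρ hρ _
      rw [one_pow, mul_one]
      exact hgrow 0 (fun ρ => ({x : ℤ × (Fin n → ℤ) | nrm x + Real.exp 1 *
        |∑ i, c1 i * (x.2 i : ℝ)| ≤ ρ}.ncard : ℝ)) (by omega) (fun ρ => Nat.cast_nonneg _)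
        (fun ρ hρ => by
          rw [pow_zero, one_mul]
          exact q2 ρ (by linarith)) X x6 (by rw [hX0]; exact x7) ρ hρ
    · rw [hCf, hE]
      refine x8.trans (le_of_eq ?_)
      ring
  · -- complex case
    have hn1 : n ≤ 1 := by
      have h1 : ∃ x, (σ 1 x).im ≠ 0 := by
        by_contra h1
        push Not at h1
        have h2 : σ 2 = σ 1 := by
          ext x
          rw [hcc x]
          exact Complex.conj_eq_iff_im.2 (h1 x)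
        have h4 := hσ h2
        revert h4
        decide
      have := hcard2 (σ 1) h1
      omega
    obtain ⟨c1, hc1⟩ : ∃ c1 : Fin n → ℝ, c1 = fun i =>
      12 * Complex.arg (σ 2 ((s i : Kˣ) : K) / σ 1 ((s i : Kˣ) : K)) := ⟨_, rfl⟩
    have hexp : ∀ i, Complex.exp ((c1 i : ℂ) * Complex.I) = φ (g i) := by
      intro i
      rw [hφg i, hc1]
      show Complex.exp (((12 * Complex.arg (σ 2 ((s i : Kˣ) : K) / σ 1 ((s i : Kˣ) : K)) : ℝ) : ℂ) *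
        Complex.I) = _
      have h1 : ‖σ 2 ((s i : Kˣ) : K) / σ 1 ((s i : Kˣ) : K)‖ = 1 := by
        rw [hcc, norm_div, RCLike.norm_conj]
        exact div_self (norm_ne_zero_iff.2 (hσs i 1))
      have h2 := Complex.norm_mul_exp_arg_mul_I (σ 2 ((s i : Kˣ) : K) / σ 1 ((s i : Kˣ) : K))
      rw [h1, Complex.ofReal_one, one_mul] at h2
      have h4 : (((12 * Complex.arg (σ 2 ((s i : Kˣ) : K) / σ 1 ((s i : Kˣ) : K)) : ℝ) : ℂ) *
        Complex.I) = (12 : ℕ) * (((Complex.arg (σ 2 ((s i : Kˣ) : K) / σ 1 ((s i : Kˣ) : K)) : ℝ)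
          : ℂ) * Complex.I) := by
        push_cast
        ring
      rw [h4, Complex.exp_nat_mul, h2]
    have hc40 : ∀ i, |c1 i| ≤ 40 := by
      intro i
      rw [hc1]
      show |12 * Complex.arg (σ 2 ((s i : Kˣ) : K) / σ 1 ((s i : Kˣ) : K))| ≤ 40
      rw [abs_mul, abs_of_pos (by norm_num : (0 : ℝ) < 12)]
      have h1 := Complex.abs_arg_le_pi (σ 2 ((s i : Kˣ) : K) / σ 1 ((s i : Kˣ) : K))
      have h2 := Real.pi_lt_d2
      linarith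
    obtain ⟨c2, hc2⟩ : ∃ c2 : Fin (n + 1) → ℝ, c2 = Fin.cons (2 * Real.pi) c1 := ⟨_, rfl⟩
    obtain ⟨g', hg'⟩ : ∃ g' : Fin (n + 1) → L, g' = Fin.cons 1 g := ⟨_, rfl⟩
    obtain ⟨nrm', hnrm'⟩ : ∃ nrm' : ℤ × (Fin (n + 1) → ℤ) → ℝ, nrm' = fun x =>
      nrm (x.1, fun i => x.2 i.succ) + Real.exp 1 * |∑ i, c2 i * (x.2 i : ℝ)| := ⟨_, rfl⟩
    obtain ⟨q1, q3, q2⟩ := hARC L n φ g0 g nrm 1 _ c1 lam0 le_rfl (by linarith) l4 hlam m3 hc40
      hexp c2 g' nrm' (by rw [hc2]; rfl) (fun i => by rw [hc2]; rfl) (by rw [hg']; rfl)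
      (fun i => by rw [hg']; rfl) (fun x => by rw [hnrm'])
    obtain ⟨X, ℓ, Θ, U, x1, x2, x3, x4, x5, x6, x7, x8⟩ := ha_num c ν A h S (n + 1) hc hν1 hA hh
      hS0 (by omega)
    have hnR : (n : ℝ) ≤ 1 := by exact_mod_cast hn1
    have hq1 : LD L (n + 1) g0 g' nrm' 1 (1 + 120 * (c * (1 + S / A))) :=
      { ne0 := q1.ne0, ne := q1.ne, add := q1.add, smul := q1.smul, conj := q1.conj,
        den := q1.den, co0 := q1.co0, coo := fun a i => (q1.coo a i).trans (by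
          have h1 := le_trans (abs_nonneg _) (q1.co0 a)
          apply mul_le_mul_of_nonneg_right _ h1
          have h2 : ((n : ℝ) + 1) * (c * (1 + S / A)) ≤ 3 * (c * (1 + S / A)) :=
            mul_le_mul_of_nonneg_right (by linarith) (by linarith)
          linarith), fin := q1.fin, tor := q1.tor,
        ker := q1.ker }
    refine hTfin (Ti - 3) rfl ?_
    refine (hHAM (n + 1) 27 (by norm_num) L hL27 φ g0 g' _ 1 _ X U ℓ Θ (Ti - 3) c2 Complex.I lam0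
      le_rfl (by linarith) hq1 hlam q3 (fun x => by
        rw [norm_mul, Complex.norm_I, mul_one, Complex.norm_real, Real.norm_eq_abs, mul_comm,
          hnrm']
        have := hnn (x.1, fun i => x.2 i.succ)
        show _ ≤ nrm (x.1, fun i => x.2 i.succ) + Real.exp 1 * |∑ i, c2 i * (x.2 i : ℝ)|
        linarith) (by linarith) m2 x1 x2 x3 x4 x5 ?_).trans ?_
    · intro ρ hρ _
      rw [one_pow, mul_one]
      exact hgrow 1 (fun ρ => ({x : ℤ × (Fin (n + 1) → ℤ) | nrm' x ≤ ρ}.ncard : ℝ)) (by omega)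
        (fun ρ => Nat.cast_nonneg _) (fun ρ hρ => by
          rw [pow_one]
          exact q2 ρ hρ) X x6 (by rw [hX0]; exact x7) ρ hρ
    · rw [hCf, hE]
      refine x8.trans (le_of_eq ?_)
      ring

end Pool.Helper99.SZ
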