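import Pool.Agent.Helper99.SZ.Stmts5
import Pool.Agent.Helper60.BK.HALLP

/-!
# Integral points on Mordell curves: a bound linear in `log |d|`
-/

set_option autoImplicit false

namespace Pool.Helper99.SZ

open NumberField

/-- the numerical part -/
theorem hf_num (c1 C3 N D t h ν A S : ℝ) (hc1 : c1 = 21 ^ 9 * 108 ^ 2) (hC3 : 1 ≤ C3) (hN : 1 ≤ N)
    (hD : 1 ≤ D) (ht1 : 1 ≤ t) (ht : t ≤ 21 * Real.sqrt N) (hh1 : 1 ≤ h)
    (hh : h = 1 + Real.log (108 * N)) (hν : ν = t * (1 + Real.log t) ^ 8)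
    (hA : A = 1 + Real.log (108 * D))
    (hS : S ≤ A * (C3 * (ν * h ^ 2) * (1 + Real.log (ν * h ^ 2)) ^ 3)) :
    S ≤ (108 * C3 * c1 * (c1 + 11) ^ 3) * Real.sqrt N * (1 + Real.log N) ^ 13 *
      (1 + Real.log D) := by
  obtain ⟨u, hu⟩ : ∃ u, u = 1 + Real.log N := ⟨_, rfl⟩
  have hlN : 0 ≤ Real.log N := Real.log_nonneg hN
  have hlD : 0 ≤ Real.log D := Real.log_nonneg hD
  have hu1 : 1 ≤ u := by linarith
  have hsN : 1 ≤ Real.sqrt N := Real.one_le_sqrt.2 hN
  have hlt : 0 ≤ Real.log t := Real.log_nonneg ht1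
  have e1 : 1 + Real.log t ≤ 21 * u := by
    have h1 := Real.log_le_log (by linarith) ht
    rw [Real.log_mul (by norm_num) (by positivity), Real.log_sqrt (by linarith)] at h1
    have h2 : Real.log 21 ≤ 21 - 1 := Real.log_le_sub_one_of_pos (by norm_num)
    linarith
  have e2 : h ≤ 108 * u := by
    rw [hh, Real.log_mul (by norm_num) (by linarith)]
    have h2 : Real.log 108 ≤ 108 - 1 := Real.log_le_sub_one_of_pos (by norm_num)
    linarith
  have e3 : A ≤ 108 * (1 + Real.log D) := by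
    rw [hA, Real.log_mul (by norm_num) (by linarith)]
    have h2 : Real.log 108 ≤ 108 - 1 := Real.log_le_sub_one_of_pos (by norm_num)
    linarith
  have hA0 : 0 ≤ A := by
    rw [hA]
    have : 0 ≤ Real.log (108 * D) := Real.log_nonneg (by linarith)
    linarith
  obtain ⟨V, hV⟩ : ∃ V, V = ν * h ^ 2 := ⟨_, rfl⟩
  have hν1 : 1 ≤ ν := by
    rw [hν]
    exact one_le_mul_of_one_le_of_one_le ht1 (one_le_pow₀ (by linarith))
  have hV1 : 1 ≤ V := by
    rw [hV]
    exact one_le_mul_of_one_le_of_one_le hν1 (one_le_pow₀ hh1)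
  have e4 : V ≤ c1 * (Real.sqrt N * u ^ 10) := by
    rw [hV, hν, hc1]
    have h1 : (1 + Real.log t) ^ 8 ≤ (21 * u) ^ 8 := pow_le_pow_left₀ (by linarith) e1 8
    have h2 : h ^ 2 ≤ (108 * u) ^ 2 := pow_le_pow_left₀ (by linarith) e2 2
    calc t * (1 + Real.log t) ^ 8 * h ^ 2 ≤ (21 * Real.sqrt N) * (21 * u) ^ 8 * (108 * u) ^ 2 := by
          gcongr
      _ = _ := by ring
  have hc11 : 1 ≤ c1 := by rw [hc1]; norm_num
  have e5 : 1 + Real.log V ≤ (c1 + 11) * u := by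
    have h1 := Real.log_le_log (by linarith) e4
    rw [Real.log_mul (by linarith) (by positivity), Real.log_mul (by positivity) (by positivity),
      Real.log_sqrt (by linarith), Real.log_pow] at h1
    have h2 : Real.log c1 ≤ c1 - 1 := Real.log_le_sub_one_of_pos (by linarith)
    have h3 : Real.log u ≤ u - 1 := Real.log_le_sub_one_of_pos (by linarith)
    push_cast at h1
    nlinarith
  have hlV : 0 ≤ Real.log V := Real.log_nonneg hV1
  have e6 : C3 * V * (1 + Real.log V) ^ 3 ≤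
      C3 * (c1 * (Real.sqrt N * u ^ 10)) * ((c1 + 11) * u) ^ 3 := by
    have h1 : (1 + Real.log V) ^ 3 ≤ ((c1 + 11) * u) ^ 3 := pow_le_pow_left₀ (by linarith) e5 3
    gcongr
  rw [← hV] at hS
  rw [← hu]
  calc S ≤ A * (C3 * V * (1 + Real.log V) ^ 3) := hS
    _ ≤ (108 * (1 + Real.log D)) * (C3 * (c1 * (Real.sqrt N * u ^ 10)) * ((c1 + 11) * u) ^ 3) := by
        have : 0 ≤ C3 * V * (1 + Real.log V) ^ 3 := by positivity
        gcongr
    _ = _ := by ring

theorem st_HFI (hHAR : ST_HAR) (hHCL : ST_HCL) (hHDI : ST_HDI) (hC4L : ST_C4L) (hCU1 : ST_CU1)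
    (hFLD : BK.ST_FLD) (hIDC : BK.ST_IDC) (hRDC : BK.ST_RDC) : ST_HFI := by
  obtain ⟨C1, hC1, hhdi⟩ := hHDI
  obtain ⟨C2, hC2, hhar⟩ := hHAR
  obtain ⟨C3, hC3, hhcl⟩ := hHCL (2 * C2) (by linarith)
  obtain ⟨c1, hc1⟩ : ∃ c1 : ℝ, c1 = 21 ^ 9 * 108 ^ 2 := ⟨_, rfl⟩
  have hc11 : 1 ≤ c1 := by rw [hc1]; norm_num
  obtain ⟨Cm, hCm⟩ : ∃ Cm : ℝ, Cm = 108 * C3 * c1 * (c1 + 11) ^ 3 := ⟨_, rfl⟩
  have hCm0 : 0 ≤ Cm := by rw [hCm]; positivity
  refine ⟨100 + (2 + 108 * C1) + (2 + Cm), ?_⟩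
  intro d x y hd hxy
  obtain ⟨D, hD⟩ : ∃ D : ℝ, D = |(d : ℝ)| := ⟨_, rfl⟩
  have hD1 : 1 ≤ D := by
    rw [hD]
    have : (1 : ℤ) ≤ |d| := Int.one_le_abs hd
    exact_mod_cast this
  obtain ⟨N, hNd⟩ : ∃ N : ℝ, N = (BK.NN x d : ℝ) := ⟨_, rfl⟩
  have hN1 : 1 ≤ N := by rw [hNd]; exact_mod_cast BK.ari_pos x d
  rw [← hD, ← hNd]
  have hlD : 0 ≤ Real.log D := Real.log_nonneg hD1
  have hlN : 0 ≤ Real.log N := Real.log_nonneg hN1
  have hsN : 1 ≤ Real.sqrt N := Real.one_le_sqrt.2 hN1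
  obtain ⟨E, hE⟩ : ∃ E, E = Real.sqrt N * (1 + Real.log N) ^ 13 * (1 + Real.log D) := ⟨_, rfl⟩
  have hE2 : 1 + Real.log D ≤ E := by
    rw [hE]
    have h1 : 1 ≤ Real.sqrt N * (1 + Real.log N) ^ 13 :=
      one_le_mul_of_one_le_of_one_le hsN (one_le_pow₀ (by linarith))
    exact le_mul_of_one_le_left (by linarith) h1
  have hE1 : 1 ≤ E := by linarith
  have hgoal : (100 + (2 + 108 * C1) + (2 + Cm)) * Real.sqrt N * (1 + Real.log N) ^ 13 *
      (1 + Real.log D) = (100 + (2 + 108 * C1) + (2 + Cm)) * E := by rw [hE]; ring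
  rw [hgoal]
  rcases eq_or_ne x 0 with hx0 | hx0
  · rw [hx0]
    simp only [Int.cast_zero, abs_zero, Real.log_zero]
    positivity
  have hxR : 0 < |(x : ℝ)| := abs_pos.2 (by exact_mod_cast hx0)
  by_cases hint : ∀ n : ℤ, n ^ 3 - 3 * x * n + 2 * y ≠ 0
  · obtain ⟨K, iK, iN, β, hK3, hβ, hirr, -⟩ := hFLD x y hint
    have hβ' : β ^ 3 + ((0 : ℤ) : K) * β ^ 2 + ((-3 * x : ℤ) : K) * β + ((2 * y : ℤ) : K) = 0 := by
      push_cast
      linear_combination hβ
    obtain ⟨κ, hκ⟩ := hCU1.1 K β 0 (-3 * x) (2 * y) hβ'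
    have hCF : CF K β 0 (-3 * x) (2 * y) κ := ⟨hK3, hβ', hirr, hκ⟩
    obtain ⟨k1, k2, k3, k4, k5, k6⟩ := hCU1.2 K β 0 (-3 * x) (2 * y) κ hCF
    have hdis : dis 0 (-3 * x) (2 * y) = -108 * d := by
      rw [dis]
      linear_combination (-108) * hxy
    have hdisR : |((dis 0 (-3 * x) (2 * y) : ℤ) : ℝ)| = 108 * D := by
      rw [hdis, hD]
      push_cast
      rw [abs_mul, abs_neg, abs_of_pos (by norm_num : (0 : ℝ) < 108)]
    have hcard : Fintype.card (K →+* ℂ) = 3 := by rw [Embeddings.card, hK3]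
    obtain ⟨σ, hσ⟩ : ∃ σ : Fin 3 → (K →+* ℂ), Function.Injective σ :=
      ⟨_, (Fintype.equivFinOfCardEq hcard).symm.injective⟩
    obtain ⟨i0, -, hi0⟩ := Finset.exists_max_image (Finset.univ : Finset (Fin 3))
      (fun i => |Real.log ‖σ i (κ : K)‖|) ⟨0, Finset.mem_univ _⟩
    obtain ⟨S, hSd⟩ : ∃ S, S = |Real.log ‖σ i0 (κ : K)‖| := ⟨_, rfl⟩
    have hσS : ∀ i, |Real.log ‖σ i (κ : K)‖| ≤ S := fun i => by
      rw [hSd]
      exact hi0 i (Finset.mem_univ _)
    have hS0 : 0 ≤ S := by rw [hSd]; exact abs_nonneg _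
    have hx9 : Real.log |(x : ℝ)| ≤ 2 + S := by
      have h1 := hC4L K β 0 (-3 * x) (2 * y) κ hCF σ hσ S hS0 hσS
      have h2 : |(((0 : ℤ) ^ 2 - 3 * (-3 * x) : ℤ) : ℝ)| = 9 * |(x : ℝ)| := by
        rw [show ((0 : ℤ) ^ 2 - 3 * (-3 * x) : ℤ) = 9 * x by ring]
        push_cast
        rw [abs_mul, abs_of_pos (by norm_num : (0 : ℝ) < 9)]
      rw [h2] at h1
      refine le_trans (Real.log_le_log hxR ?_) h1
      linarith
    have hdisc1 : 1 ≤ |(NumberField.discr K : ℝ)| := by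
      have : (1 : ℤ) ≤ |NumberField.discr K| := Int.one_le_abs (NumberField.discr_ne_zero K)
      exact_mod_cast this
    have hdiscN : |(NumberField.discr K : ℝ)| ≤ 108 * N := by
      rw [hNd]
      exact BK.hp_disc K hK3 β x y d hd hxy hβ hirr
    have hl108 : Real.log 108 ≤ 108 - 1 := Real.log_le_sub_one_of_pos (by norm_num)
    rcases hhdi K β 0 (-3 * x) (2 * y) κ hCF σ hσ S hσS ⟨i0, hSd.symm⟩ with h | ⟨σ', s1, s2, s3, s4,
      s5⟩
    · rw [hdisR, Real.log_mul (by norm_num) (by linarith)] at h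
      have h1 : C1 * (1 + (Real.log 108 + Real.log D)) ≤ C1 * (108 * (1 + Real.log D)) := by
        apply mul_le_mul_of_nonneg_left _ (by linarith)
        linarith
      have h2 : C1 * (108 * (1 + Real.log D)) ≤ C1 * (108 * E) := by gcongr
      nlinarith
    · obtain ⟨t, ht⟩ : ∃ t, t = 2 * Real.sqrt |(NumberField.discr K : ℝ)| := ⟨_, rfl⟩
      have ht1 : 1 ≤ t := by
        have := Real.one_le_sqrt.2 hdisc1
        rw [ht]
        linarith
      have ht21 : t ≤ 21 * Real.sqrt N := by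
        have h1 : Real.sqrt |(NumberField.discr K : ℝ)| ≤ Real.sqrt (108 * N) :=
          Real.sqrt_le_sqrt hdiscN
        rw [Real.sqrt_mul (by norm_num)] at h1
        have h2 : Real.sqrt 108 ≤ 10.5 := by
          rw [Real.sqrt_le_left (by norm_num)]
          norm_num
        have h3 : Real.sqrt 108 * Real.sqrt N ≤ 10.5 * Real.sqrt N :=
          mul_le_mul_of_nonneg_right h2 (by linarith)
        rw [ht]
        linarith
      obtain ⟨ν, hν⟩ : ∃ ν, ν = t * (1 + Real.log t) ^ 8 := ⟨_, rfl⟩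
      have hν1 : 1 ≤ ν := by
        rw [hν]
        have := Real.log_nonneg ht1
        exact one_le_mul_of_one_le_of_one_le ht1 (one_le_pow₀ (by linarith))
      have hid : ((BK.ID K (2 * Real.sqrt |(NumberField.discr K : ℝ)|)).ncard : ℝ) ≤ ν := by
        rw [← ht, hν]
        exact hIDC K hK3 t ht1
      obtain ⟨h, hh⟩ : ∃ h, h = 1 + Real.log (108 * N) := ⟨_, rfl⟩
      have hh1 : 1 ≤ h := by
        have : 0 ≤ Real.log (108 * N) := Real.log_nonneg (by linarith)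
        linarith
      have hhd : Real.log |(NumberField.discr K : ℝ)| ≤ h := by
        have := Real.log_le_log (by linarith) hdiscN
        linarith
      obtain ⟨A, hA⟩ : ∃ A, A = 1 + Real.log (108 * D) := ⟨_, rfl⟩
      have hA1 : 1 ≤ A := by
        have : 0 ≤ Real.log (108 * D) := Real.log_nonneg (by linarith)
        linarith
      have hnA : Real.log (Ideal.absNorm (Ideal.span {κ}) : ℝ) ≤ A := by
        rw [Ideal.absNorm_span_singleton, Nat.cast_natAbs, k3]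
        have : ((|dis 0 (-3 * x) (2 * y)| : ℤ) : ℝ) = 108 * D := by
          rw [Int.cast_abs]
          exact hdisR
        rw [this]
        linarith
      have hσS' : ∀ i, |Real.log ‖σ' i (κ : K)‖| ≤ S := by
        intro i
        obtain ⟨j, hj⟩ := s2 i
        rw [hj]
        exact hσS j
      have hmain := hhar K hK3 σ' s1 s3 κ k5 h ν A S (S / 2) hh1 hhd hA1 hnA hσS' hid hν1 s4
        (by linarith) s5
      obtain ⟨V, hV⟩ : ∃ V, V = ν * h ^ 2 := ⟨_, rfl⟩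
      have hV1 : 1 ≤ V := by
        rw [hV]
        exact one_le_mul_of_one_le_of_one_le hν1 (one_le_pow₀ hh1)
      have hr : S / A ≤ 2 * C2 * V * (1 + Real.log (1 + S / A)) ^ 3 := by
        rw [div_le_iff₀ (by linarith), hV]
        linarith
      have hr2 := hhcl V (S / A) hV1 (by positivity) hr
      rw [div_le_iff₀ (by linarith), hV] at hr2
      have hfin := hf_num c1 C3 N D t h ν A S hc1 hC3 hN1 hD1 ht1 ht21 hh1 hh hν hA (by linarith)
      rw [← hCm] at hfin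
      have hfin2 : S ≤ Cm * E := by
        rw [hE]
        linarith
      nlinarith
  · push Not at hint
    obtain ⟨n, hn⟩ := hint
    have h1 := hRDC x y d n hxy hd hn
    rw [← hD] at h1
    have h2 := Real.log_le_log hxR h1
    rw [Real.log_mul (by norm_num) (by linarith)] at h2
    have h3 : Real.log 100 ≤ 100 - 1 := Real.log_le_sub_one_of_pos (by norm_num)
    nlinarith

end Pool.Helper99.SZ
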