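import Mathlib
import Pool.Agent.Helper99.SZ.Stmts5

/-!
# Products of binomial polynomials and monomials
-/

set_option autoImplicit false

namespace Pool.Helper99.SZ

open Polynomial

lemma htr_coeff (K : ℕ) (s : ℝ) (hs : 1 ≤ s) : ∀ k : ℕ, k ≤ K → ∀ j : ℕ,
    |(((descPochhammer ℤ k).coeff j : ℤ) : ℝ)| * s ^ j ≤ (s + K) ^ k := by
  intro k
  induction k with
  | zero =>
    intro _ j
    rw [descPochhammer_zero, Polynomial.coeff_one]
    by_cases h : j = 0
    · rw [h]
      simp
    · simp [h]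
  | succ k ih =>
    intro hk j
    have hk' : k ≤ K := by omega
    have ih' := ih hk'
    rw [descPochhammer_succ_right]
    have hkK : (k : ℝ) ≤ K := by exact_mod_cast hk'
    have hk0 : (0 : ℝ) ≤ k := Nat.cast_nonneg _
    have hP : 0 ≤ (s + K) ^ k := by positivity
    have hexp : (s + K) ^ (k + 1) = s * (s + K) ^ k + K * (s + K) ^ k := by ring
    have hKP : (k : ℝ) * (s + K) ^ k ≤ K * (s + K) ^ k := mul_le_mul_of_nonneg_right hkK hP
    have hc : (X - (k : ℤ[X])) = X - C (k : ℤ) := by simp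
    rw [hc, mul_sub, Polynomial.coeff_sub, Polynomial.coeff_mul_C]
    cases j with
    | zero =>
      rw [Polynomial.coeff_mul_X_zero, zero_sub, pow_zero, mul_one]
      have h0 := ih' 0
      rw [pow_zero, mul_one] at h0
      push_cast
      rw [abs_neg, abs_mul, Nat.abs_cast]
      have h1 : |((((descPochhammer ℤ k).coeff 0 : ℤ)) : ℝ)| * k ≤ (s + K) ^ k * k :=
        mul_le_mul_of_nonneg_right h0 hk0
      have h2 : 0 ≤ s * (s + K) ^ k := by positivity
      rw [hexp]
      linarith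
    | succ j =>
      rw [Polynomial.coeff_mul_X]
      have h0 := ih' j
      have h1 := ih' (j + 1)
      push_cast
      have h2 : |(((descPochhammer ℤ k).coeff j : ℤ) : ℝ) -
          (((descPochhammer ℤ k).coeff (j + 1) : ℤ) : ℝ) * k| ≤
          |(((descPochhammer ℤ k).coeff j : ℤ) : ℝ)| +
          |(((descPochhammer ℤ k).coeff (j + 1) : ℤ) : ℝ)| * k := by
        refine (abs_sub _ _).trans ?_
        rw [abs_mul, Nat.abs_cast]
      have hs0 : 0 ≤ s ^ (j + 1) := by positivity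
      refine (mul_le_mul_of_nonneg_right h2 hs0).trans ?_
      rw [hexp]
      have h3 : |(((descPochhammer ℤ k).coeff j : ℤ) : ℝ)| * s ^ (j + 1) ≤ s * (s + K) ^ k := by
        calc |(((descPochhammer ℤ k).coeff j : ℤ) : ℝ)| * s ^ (j + 1)
            = s * (|(((descPochhammer ℤ k).coeff j : ℤ) : ℝ)| * s ^ j) := by ring
          _ ≤ _ := mul_le_mul_of_nonneg_left h0 (by linarith)
      have h4 : |(((descPochhammer ℤ k).coeff (j + 1) : ℤ) : ℝ)| * k * s ^ (j + 1) ≤
          k * (s + K) ^ k := by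
        calc |(((descPochhammer ℤ k).coeff (j + 1) : ℤ) : ℝ)| * k * s ^ (j + 1)
            = k * (|(((descPochhammer ℤ k).coeff (j + 1) : ℤ) : ℝ)| * s ^ (j + 1)) := by ring
          _ ≤ _ := mul_le_mul_of_nonneg_left h1 hk0
      rw [add_mul]
      linarith

lemma htr_eval (K : ℕ) (s : ℝ) (hs : 1 ≤ s) (z : ℤ) (hz : |((z : ℤ) : ℝ)| ≤ s) : ∀ k : ℕ, k ≤ K →
    |(((descPochhammer ℤ k).eval z : ℤ) : ℝ)| ≤ (s + K) ^ k := by
  intro k
  induction k with
  | zero =>
    intro _
    simp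
  | succ k ih =>
    intro hk
    have hk' : k ≤ K := by omega
    have ih' := ih hk'
    have hkK : (k : ℝ) ≤ K := by exact_mod_cast hk'
    have hk0 : (0 : ℝ) ≤ k := Nat.cast_nonneg _
    rw [descPochhammer_succ_right, Polynomial.eval_mul, Int.cast_mul, abs_mul, pow_succ]
    refine mul_le_mul ih' ?_ (abs_nonneg _) (by positivity)
    simp only [Polynomial.eval_sub, Polynomial.eval_X, Polynomial.eval_natCast]
    push_cast
    refine (abs_sub _ _).trans ?_
    rw [Nat.abs_cast]
    linarith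

lemma htr_choose (z : ℤ) (k : ℕ) : ((k.factorial : ℕ) : ℤ) * Ring.choose z k =
    (descPochhammer ℤ k).eval z := by
  rw [Polynomial.eval_eq_smeval, Ring.descPochhammer_eq_factorial_smul_choose, nsmul_eq_mul]

lemma htr_fin (v K : ℕ) (hK : 1 ≤ K) (s : ℝ) (hs : 1 ≤ s) (k : Sx v K) (a : Fin v → ℝ)
    (ha0 : ∀ i, 0 ≤ a i) (ha : ∀ i, a i ≤ (s + K) ^ (k.1 i : ℕ)) :
    (∏ i, a i) / (∏ i, ((k.1 i : ℕ).factorial : ℝ)) ≤ (1 + s / K) ^ K * Real.exp (v * K) := by
  have hK0 : (0 : ℝ) < K := by exact_mod_cast hK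
  rw [← Finset.prod_div_distrib]
  have h1 : ∀ i, a i / ((k.1 i : ℕ).factorial : ℝ) ≤
      (1 + s / K) ^ (k.1 i : ℕ) * Real.exp K := by
    intro i
    have h2 : ((k.1 i : ℕ).factorial : ℝ) ≠ 0 := by
      exact_mod_cast (Nat.factorial_pos _).ne'
    calc a i / ((k.1 i : ℕ).factorial : ℝ) ≤ (s + K) ^ (k.1 i : ℕ) / ((k.1 i : ℕ).factorial : ℝ) := by
          have h3 : (0 : ℝ) ≤ ((k.1 i : ℕ).factorial : ℝ) := Nat.cast_nonneg _
          exact div_le_div_of_nonneg_right (ha i) h3
      _ = (1 + s / K) ^ (k.1 i : ℕ) * ((K : ℝ) ^ (k.1 i : ℕ) / ((k.1 i : ℕ).factorial : ℝ)) := by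
          have h4 : s + K = (1 + s / K) * K := by
            field_simp
            ring
          rw [h4, mul_pow]
          ring
      _ ≤ _ := by
          refine mul_le_mul_of_nonneg_left ?_ (by positivity)
          exact Real.pow_div_factorial_le_exp _ hK0.le _
  have h5 : ∀ i ∈ (Finset.univ : Finset (Fin v)), 0 ≤ a i / ((k.1 i : ℕ).factorial : ℝ) := by
    intro i _
    exact div_nonneg (ha0 i) (Nat.cast_nonneg _)
  refine (Finset.prod_le_prod h5 fun i _ => h1 i).trans ?_
  rw [Finset.prod_mul_distrib, Finset.prod_const, Finset.prod_pow_eq_pow_sum, Finset.card_univ,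
    Fintype.card_fin]
  refine mul_le_mul ?_ ?_ (by positivity) (by positivity)
  · exact pow_le_pow_right₀ (by
      have : 0 ≤ s / K := by positivity
      linarith) k.2
  · rw [← Real.exp_nat_mul]

theorem st_HTR : ST_HTR := by
  intro v K hK
  refine ⟨fun k k' => ∏ i, (descPochhammer ℤ (k.1 i : ℕ)).coeff (k'.1 i : ℕ), ?_, ?_, ?_, ?_, ?_⟩
  · intro k k' h i
    by_contra hlt
    push Not at hlt
    apply h
    apply Finset.prod_eq_zero (Finset.mem_univ i)
    apply Polynomial.coeff_eq_zero_of_natDegree_lt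
    rw [descPochhammer_natDegree]
    exact hlt
  · intro k
    apply Finset.prod_eq_one
    intro i _
    have h1 := monic_descPochhammer ℤ (k.1 i : ℕ)
    rw [Polynomial.Monic, Polynomial.leadingCoeff, descPochhammer_natDegree] at h1
    exact h1
  · intro z k
    rw [← Finset.prod_mul_distrib]
    have h1 : ∀ i, (((k.1 i : ℕ).factorial : ℤ)) * Ring.choose (z i) (k.1 i : ℕ) =
        ∑ j : Fin (K + 1), (descPochhammer ℤ (k.1 i : ℕ)).coeff (j : ℕ) * z i ^ (j : ℕ) := by
      intro i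
      have h2 := htr_choose (z i) (k.1 i : ℕ)
      rw [h2, Polynomial.eval_eq_sum_range' (n := K + 1) (by
        rw [descPochhammer_natDegree]
        exact (k.1 i).2) (z i)]
      exact (Fin.sum_univ_eq_sum_range
        (fun j => (descPochhammer ℤ (k.1 i : ℕ)).coeff j * z i ^ j) (K + 1)).symm
    rw [Finset.prod_congr rfl fun i _ => h1 i, Finset.prod_univ_sum]
    have h3 : ∀ f : (i : Fin v) → Fin (K + 1), (¬ ∑ i, (f i : ℕ) ≤ K) →
        ∏ i, ((descPochhammer ℤ (k.1 i : ℕ)).coeff (f i : ℕ) * z i ^ (f i : ℕ)) = 0 := by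
      intro f hf
      have h4 : ∃ i, (k.1 i : ℕ) < (f i : ℕ) := by
        by_contra hne
        push Not at hne
        apply hf
        exact (Finset.sum_le_sum fun i _ => hne i).trans k.2
      obtain ⟨i, hi⟩ := h4
      apply Finset.prod_eq_zero (Finset.mem_univ i)
      rw [Polynomial.coeff_eq_zero_of_natDegree_lt (by rw [descPochhammer_natDegree]; exact hi),
        zero_mul]
    have h5 : (Fintype.piFinset fun _ : Fin v => (Finset.univ : Finset (Fin (K + 1)))) =
        Finset.univ := by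
      ext f
      simp
    rw [h5, ← Finset.sum_filter_add_sum_filter_not Finset.univ
      (fun f : Fin v → Fin (K + 1) => ∑ i, (f i : ℕ) ≤ K)]
    rw [Finset.sum_eq_zero (s := Finset.univ.filter
      (fun f : Fin v → Fin (K + 1) => ¬ ∑ i, (f i : ℕ) ≤ K)) (fun f hf => by
        rw [Finset.mem_filter] at hf
        exact h3 f hf.2), add_zero]
    rw [← Finset.sum_subtype_eq_sum_filter]
    rw [Finset.subtype_univ]
    refine Finset.sum_congr rfl fun k' _ => ?_
    rw [Finset.prod_mul_distrib]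
  · intro s k k' hs
    have h1 : |((∏ i, (descPochhammer ℤ (k.1 i : ℕ)).coeff (k'.1 i : ℕ) : ℤ) : ℝ)| *
        s ^ (∑ i, (k'.1 i : ℕ)) =
        ∏ i, (|(((descPochhammer ℤ (k.1 i : ℕ)).coeff (k'.1 i : ℕ) : ℤ) : ℝ)| *
          s ^ (k'.1 i : ℕ)) := by
      rw [Finset.prod_mul_distrib, Finset.prod_pow_eq_pow_sum]
      push_cast
      rw [Finset.abs_prod]
    change |((∏ i, (descPochhammer ℤ (k.1 i : ℕ)).coeff (k'.1 i : ℕ) : ℤ) : ℝ)| *
        s ^ (∑ i, (k'.1 i : ℕ)) / _ ≤ _
    rw [h1]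
    exact htr_fin v K hK s hs k _ (fun i => by positivity) fun i =>
      htr_coeff K s hs (k.1 i : ℕ) (by have := (k.1 i).2; omega) (k'.1 i : ℕ)
  · intro s z k hs hz
    have h1 : |((∏ i, Ring.choose (z i) (k.1 i : ℕ) : ℤ) : ℝ)| =
        (∏ i, |(((descPochhammer ℤ (k.1 i : ℕ)).eval (z i) : ℤ) : ℝ)|) /
          (∏ i, ((k.1 i : ℕ).factorial : ℝ)) := by
      rw [eq_div_iff (Finset.prod_ne_zero_iff.2 fun i _ => by
        exact_mod_cast (Nat.factorial_pos _).ne')]
      rw [Int.cast_prod, Finset.abs_prod, ← Finset.prod_mul_distrib]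
      refine Finset.prod_congr rfl fun i _ => ?_
      rw [← htr_choose]
      push_cast
      rw [abs_mul, Nat.abs_cast]
      ring
    rw [h1]
    exact htr_fin v K hK s hs k _ (fun i => abs_nonneg _) fun i =>
      htr_eval K s hs (z i) (hz i) (k.1 i : ℕ) (by have := (k.1 i).2; omega)

end Pool.Helper99.SZ
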