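import Pool.Agent.Helper99.SZ.All
import Pool.Agent.Helper99.SZ.All3
import Pool.Agent.Helper99.SZ.Stmts5
import Pool.Agent.Helper13.SZ.HAM
import Pool.Agent.Helper13.SZ.HCL
import Pool.Agent.Helper51.SZ.HPN
import Pool.Agent.Helper99.SZ.HAD
import Pool.Agent.Helper99.SZ.HAR
import Pool.Agent.Helper99.SZ.HFI
import Pool.Agent.Helper99.SZ.HTR

/-! Assembly of the modules of the bound for discriminants of elliptic curves. -/

set_option autoImplicit false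

namespace Pool.Helper99.SZ

theorem sz_HAD : ST_HAD := _root_.Pool.Helper99.SZ.st_HAD sz_AD1 sz_CHA sz_SHA _root_.Pool.Helper99.BK.bk_AN6
theorem sz_HTR : ST_HTR := _root_.Pool.Helper99.SZ.st_HTR
theorem sz_HPN : ST_HPN := _root_.Pool.Helper99.SZ.st_HPN sz_HAD sz_HTR _root_.Pool.Helper99.BK.bk_MINOR _root_.Pool.Helper99.BK.bk_AR _root_.Pool.Helper99.BK.bk_AN6
theorem sz_HAM : ST_HAM := _root_.Pool.Helper99.SZ.st_HAM sz_HPN sz_PMU sz_LIA
theorem sz_HAR : ST_HAR := _root_.Pool.Helper99.SZ.st_HAR sz_GRW sz_CNT sz_PC3 sz_P123 sz_SUF sz_TOR3 sz_LF3 sz_HAM sz_ARR sz_ARC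
theorem sz_HCL : ST_HCL := _root_.Pool.Helper99.SZ.st_HCL
theorem sz_HFI : ST_HFI := _root_.Pool.Helper99.SZ.st_HFI sz_HAR sz_HCL sz_HDI sz_C4L sz_CU1 _root_.Pool.Helper99.BK.bk_FLD _root_.Pool.Helper99.BK.bk_IDC _root_.Pool.Helper99.BK.bk_RDC

end Pool.Helper99.SZ
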