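import Pool.Agent.Helper99.SZ.All
import Pool.Agent.Helper99.SZ.All3
import Pool.Agent.Helper99.SZ.All4
import Pool.Agent.Helper99.SZ.Stmts6
import Pool.Agent.Helper13.SZ.RMY
import Pool.Agent.Helper15.SZ.FIY
import Pool.Agent.Helper99.SZ.AFY
import Pool.Agent.Helper99.SZ.QMY

/-! Assembly of the modules of the bound for discriminants of elliptic curves. -/

set_option autoImplicit false

namespace Pool.Helper99.SZ

theorem sz_FIY : ST_FIY := _root_.Pool.Helper99.SZ.st_FIY sz_TPA sz_TAR sz_HDI sz_C4L sz_SF2 sz_HPL sz_SIZ sz_FLW sz_CU1 sz_CU2 _root_.Pool.Helper99.BK.bk_IDC sz_CLA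
theorem sz_QMY : ST_QMY := _root_.Pool.Helper99.SZ.st_QMY sz_QTP sz_QTA sz_QFX sz_QEM sz_QDI sz_QID sz_QRO sz_QCU sz_CLA
theorem sz_RMY : ST_RMY := _root_.Pool.Helper99.SZ.st_RMY sz_RTP sz_RTA sz_CLA
theorem sz_AFY : ST_AFY := _root_.Pool.Helper99.SZ.st_AFY sz_FIY sz_QMY sz_RMY

end Pool.Helper99.SZ
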