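import Pool.Agent.Helper99.SZ.TAR
import Pool.Agent.Helper99.SZ.Stmts4

/-!
# The end of the proof, for general data
-/

set_option autoImplicit false

namespace Pool.Helper99.SZ

open NumberField

/-- the data to which the end of the proof applies -/
def LAT (m : ℕ) (p : Fin m → ℕ) (c5 c R S ν A1 G qq Tst : ℝ) : Prop :=
  ∃ (n : ℕ) (L : Type) (_ : Field L) (_ : NumberField L) (g0 : L) (g : Fin n → L)
    (nrm : ℤ × (Fin n → ℤ) → ℝ) (Z X0 ρ0 : ℝ), m ≤ n ∧ n ≤ m + 3 ∧ 1 ≤ Z ∧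
    Z ≤ 41 * ((m : ℝ) + 4) ^ 2 * (c * ((m + 5).factorial : ℝ)) * (1 + S) ∧
    LD L n g0 g nrm G Z ∧ 0 < X0 ∧
    X0 ≤ c5 ^ (m + 1) * ((m : ℝ) + 1) ^ m * qq * ν * A1 * R ^ 2 * ∏ j, Real.log (p j) ∧
    (∀ ρ, ρ0 ≤ ρ → ρ ^ (n + 1) ≤ X0 * ({x : ℤ × (Fin n → ℤ) | nrm x ≤ ρ}.ncard : ℝ)) ∧
    (∀ d : ℕ, HT L 27 n g0 g nrm G Tst d) ∧
    nrm (1, 0) ≤ 12 * ((12 + 4 * m) * S + 4 * A1) ∧ Tst ≤ 81 * nrm (1, 0)

/-- the common part -/
theorem gen_core (hBR : ST_BR) (hCLA : ST_CLA) (δ C0 c c5 : ℝ) (hδ : 0 < δ) (hC0 : 1 ≤ C0)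
    (hc : 1 ≤ c) (hc5 : 1 ≤ c5) : ∃ ε C : ℝ, 0 < ε ∧ ε ≤ 1 ∧ 1 ≤ C ∧
    ∀ (m : ℕ) (p : Fin m → ℕ) (R S ν A D G qq Tst : ℝ), 1 ≤ R → Function.Injective p →
    (∀ j, (p j).Prime) → ∑ j, Real.log (p j) ≤ R → 1 ≤ ν → 1 ≤ A → Real.log A ≤ C0 * R →
    1 ≤ S → Real.log S ≤ C0 * R → 1 ≤ D → 0 < Tst → S ≤ 2 * C0 * R * Tst → 1 ≤ G →
    ε * R ≤ G → G ≤ 3 * R → 1 ≤ qq → qq ≤ 2 * Real.exp 54 * D * Real.exp (54 * ε * R) →
    LAT m p c5 c R S ν (max A G) G qq Tst →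
    Tst ≤ C * ν * A * D * Real.exp (δ * R) := by
  obtain ⟨δ1, hδ1⟩ : ∃ δ1, δ1 = δ / 10 := ⟨_, rfl⟩
  have hδ10 : 0 < δ1 := by rw [hδ1]; positivity
  obtain ⟨ε, hε⟩ : ∃ ε, ε = min 1 (δ1 / 54) := ⟨_, rfl⟩
  have hε0 : 0 < ε := by rw [hε]; positivity
  have hε1 : ε ≤ 1 := by rw [hε]; exact min_le_left _ _
  have hε2 : 54 * ε ≤ δ1 := by
    have : ε ≤ δ1 / 54 := by rw [hε]; exact min_le_right _ _
    linarith
  obtain ⟨C2, hC2, hcla⟩ := hCLA 1 1 one_pos le_rfl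
  obtain ⟨v0, Θ, C3, hΘ1, hC3, hend⟩ := n3_end hBR hCLA δ1 ε (432 * C0) c C0 (C0 + 3)
    c5 hδ10 hε0 hε1 (by linarith) hc hC0 (by linarith) hc5
  obtain ⟨Θv, hΘv⟩ : ∃ Θv, Θv = Θ ^ (v0 + 1) := ⟨_, rfl⟩
  have hΘv1 : 1 ≤ Θv := by rw [hΘv]; exact one_le_pow₀ hΘ1
  obtain ⟨Cf, hCf⟩ : ∃ Cf, Cf = C3 * (2 * Real.exp 54) * (3 / δ1 + 1) +
      (6 / δ1 + 1) * Θv + 2 * (3 / δ1 + 1) + 1 := ⟨_, rfl⟩
  have hCf1 : 1 ≤ Cf := by
    rw [hCf]
    have h3δ : 0 < 3 / δ1 := by positivity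
    have h6δ : 0 < 6 / δ1 := by positivity
    have : 0 < C3 * (2 * Real.exp 54) * (3 / δ1 + 1) := by
      have := Real.exp_pos 54
      positivity
    have : 0 < (6 / δ1 + 1) * Θv := by positivity
    linarith
  refine ⟨ε, 81 * Cf, hε0, hε1, by linarith, ?_⟩
  intro m p R S ν A D G qq Tst hR hpinj hpp hpR hν hA hAR hS hSR hD hTst hST hG1 hεG hG3R hqq1 hqq2
    hlat
  obtain ⟨kl1, _, _, kl4, _⟩ := hcla m R p hR hpinj hpp hpR
  obtain ⟨A1, hA1⟩ : ∃ A1 : ℝ, A1 = max A G := ⟨_, rfl⟩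
  rw [← hA1] at hlat
  have hAA1 : A ≤ A1 := by rw [hA1]; exact le_max_left _ _
  have hA11 : 1 ≤ A1 := hA.trans hAA1
  have hA1R : Real.log A1 ≤ (C0 + 3) * R := by
    have hA1A : A1 ≤ A * (3 * R) := by
      rw [hA1]
      refine max_le ?_ ?_
      · exact le_mul_of_one_le_right (by linarith) (by linarith)
      · exact hG3R.trans (le_mul_of_one_le_left (by linarith) hA)
    have e1 : Real.log A1 ≤ Real.log A + Real.log (3 * R) := by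
      rw [← Real.log_mul (by linarith) (by linarith)]
      exact Real.log_le_log (by linarith) hA1A
    have e2 : Real.log (3 * R) ≤ 3 * R := by
      have := Real.log_le_sub_one_of_pos (show 0 < 3 * R by linarith)
      linarith
    linarith
  obtain ⟨n, L, iL, iN, g0, g, nrm, Z, X0, ρ0, l1, l2, l3, l4, l5, l6, l7, l8, l9, l10, l11⟩ := hlat
  obtain ⟨qq', hqq'⟩ : ∃ qq' : ℝ, qq' = 2 * Real.exp 54 * D * Real.exp (54 * ε * R) := ⟨_, rfl⟩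
  rw [← hqq'] at hqq2
  have hlogp0 : ∀ j, 0 ≤ Real.log (p j) := fun j =>
    Real.log_nonneg (by exact_mod_cast (hpp j).one_lt.le)
  have hΛ0 : 0 ≤ ∏ j, Real.log (p j) := Finset.prod_nonneg fun j _ => hlogp0 j
  have hm0 : (0 : ℝ) ≤ m := Nat.cast_nonneg _
  have hfin := tp_fin δ δ1 ε R C3 Cf A A1 ν D qq' Tst (Tst / 81) (nrm (1, 0)) G Θv hδ hδ1 hε2 hR
    hC3 hΘv1 hA hν hD hqq' hCf hA1 hG3R (by linarith) (by linarith) (by
      by_cases hcase : Tst ≤ A1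
      · exact Or.inl hcase
      · push Not at hcase
        right
        rw [hΘv]
        refine hend m n R S A1 G Z X0 ρ0 Tst qq' ν p L g0 g nrm hR hpinj hpp hpR l1 l2 hS
          hSR hA11 hA1R hG1 hεG hG3R l3 l4 l5 l9 l8 l6 ?_ (hqq1.trans hqq2) hν
          (tp_h192 m S A1 _ hm0 hS hA11 l10) hTst (by linarith) ?_
        · refine l7.trans ?_
          exact mul_le_mul_of_nonneg_right (mul_le_mul_of_nonneg_right (mul_le_mul_of_nonneg_right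
            (mul_le_mul_of_nonneg_right (mul_le_mul_of_nonneg_left hqq2 (by positivity))
            (by linarith)) (by linarith)) (by positivity)) hΛ0
        · exact tp_hH m S A1 _ R C0 Tst hm0 hR hC0 kl1 (by linarith) hTst hcase.le hST l10)
  linarith

/-- the `P`-adic case -/
theorem gen_pad (hBR : ST_BR) (hCLA : ST_CLA) (δ C0 c c5 : ℝ) (hδ : 0 < δ) (hC0 : 1 ≤ C0)
    (hc : 1 ≤ c) (hc5 : 1 ≤ c5) : ∃ C : ℝ, 1 ≤ C ∧
    ∀ (m : ℕ) (p : Fin m → ℕ) (R S ν A D Tst : ℝ) (q : ℕ), 1 ≤ R → Function.Injective p →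
    (∀ j, (p j).Prime) → ∑ j, Real.log (p j) ≤ R → q.Prime → Real.log q ≤ R → 1 ≤ ν → 1 ≤ A →
    Real.log A ≤ C0 * R → 1 ≤ S → Real.log S ≤ C0 * R → 1 ≤ D → 0 < Tst →
    S ≤ 2 * C0 * R * Tst →
    (∀ jj : ℕ, 1 ≤ jj → 1 ≤ jj * Real.log q → jj * Real.log q ≤ 3 * R → ∃ q0 : ℝ, 1 ≤ q0 ∧
      q0 ≤ (q : ℝ) ^ (27 * jj) ∧ (jj = 1 → q0 ≤ 2 * D) ∧
      LAT m p c5 c R S ν (max A (jj * Real.log q)) (jj * Real.log q) q0 Tst) →
    Tst ≤ C * ν * A * D * Real.exp (δ * R) := by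
  obtain ⟨ε, C, hε0, hε1, hC, hcore⟩ := gen_core hBR hCLA δ C0 c c5 hδ hC0 hc hc5
  refine ⟨C, hC, ?_⟩
  intro m p R S ν A D Tst q hR hpinj hpp hpR hq hqR hν hA hAR hS hSR hD hTst hST hlat
  have hq2 : (2 : ℝ) ≤ q := by exact_mod_cast hq.two_le
  have hlp0 : 0 < Real.log q := Real.log_pos (by linarith)
  obtain ⟨g, hg⟩ : ∃ g, g = max 1 (ε * R) := ⟨_, rfl⟩
  obtain ⟨jj, hjj1, hG1, hεG, hG3R, hjj2⟩ := tp_jj ε R (Real.log q) g hε0 hε1 hR hlp0 hqR hg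
  obtain ⟨q0, q1, q2, q3, q4⟩ := hlat jj hjj1 hG1 hG3R
  refine hcore m p R S ν A D (jj * Real.log q) q0 Tst hR hpinj hpp hpR hν hA hAR hS hSR hD hTst hST
    hG1 hεG hG3R q1 ?_ q4
  have hexp54 : 1 ≤ Real.exp 54 := Real.one_le_exp (by norm_num)
  have f1 : 1 ≤ Real.exp (54 * ε * R) := Real.one_le_exp (by positivity)
  have f0 : 2 * D ≤ 2 * Real.exp 54 * D := by nlinarith
  rcases eq_or_lt_of_le hjj1 with hj | hj
  · have f2 := q3 hj.symm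
    refine f2.trans ?_
    have f4 : 2 * Real.exp 54 * D ≤ 2 * Real.exp 54 * D * Real.exp (54 * ε * R) :=
      le_mul_of_one_le_right (by positivity) f1
    linarith
  · have f3 := hjj2 hj
    have f4 : q0 ≤ Real.exp (27 * (jj * Real.log q)) := by
      refine q2.trans (le_of_eq ?_)
      rw [show (27 : ℝ) * (jj * Real.log q) = ((27 * jj : ℕ) : ℝ) *
        Real.log q by push_cast; ring, Real.exp_nat_mul, Real.exp_log (by linarith)]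
    have f6 : Real.exp (27 * (jj * Real.log q)) ≤ Real.exp 54 * Real.exp (54 * ε * R) := by
      rw [← Real.exp_add, Real.exp_le_exp]
      linarith
    have f7 : Real.exp 54 * Real.exp (54 * ε * R) ≤
        2 * Real.exp 54 * D * Real.exp (54 * ε * R) := by
      have : Real.exp 54 ≤ 2 * Real.exp 54 * D := by nlinarith
      exact mul_le_mul_of_nonneg_right this (Real.exp_pos _).le
    linarith

/-- the archimedean case -/
theorem gen_arch (hBR : ST_BR) (hCLA : ST_CLA) (δ C0 c c5 : ℝ) (hδ : 0 < δ) (hC0 : 1 ≤ C0)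
    (hc : 1 ≤ c) (hc5 : 1 ≤ c5) : ∃ C : ℝ, 1 ≤ C ∧
    ∀ (m : ℕ) (p : Fin m → ℕ) (R S ν A Tst : ℝ), 1 ≤ R → Function.Injective p →
    (∀ j, (p j).Prime) → ∑ j, Real.log (p j) ≤ R → 1 ≤ ν → 1 ≤ A →
    Real.log A ≤ C0 * R → 1 ≤ S → Real.log S ≤ C0 * R → 0 < Tst →
    S ≤ 2 * C0 * R * Tst →
    (∀ G : ℝ, 1 ≤ G → G ≤ 3 * R → LAT m p c5 c R S ν (max A G) G (Real.exp G) Tst) →
    Tst ≤ C * ν * A * Real.exp (δ * R) := by
  obtain ⟨ε, C, hε0, hε1, hC, hcore⟩ := gen_core hBR hCLA δ C0 c c5 hδ hC0 hc hc5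
  refine ⟨C, hC, ?_⟩
  intro m p R S ν A Tst hR hpinj hpp hpR hν hA hAR hS hSR hTst hST hlat
  obtain ⟨G, hG⟩ : ∃ G, G = max 1 (ε * R) := ⟨_, rfl⟩
  have hG1 : 1 ≤ G := by rw [hG]; exact le_max_left _ _
  have hεG : ε * R ≤ G := by rw [hG]; exact le_max_right _ _
  have hεR0 : 0 ≤ ε * R := by positivity
  have hGle : G ≤ 1 + ε * R := by
    rw [hG]
    exact max_le (by linarith) (by linarith)
  have hG3R : G ≤ 3 * R := by
    have : ε * R ≤ R := mul_le_of_le_one_left (by linarith) hε1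
    linarith
  have h1 := hcore m p R S ν A 1 G (Real.exp G) Tst hR hpinj hpp hpR hν hA hAR hS hSR le_rfl hTst
    hST hG1 hεG hG3R (Real.one_le_exp (by linarith)) (by
      have f1 : Real.exp G ≤ Real.exp 54 * Real.exp (54 * ε * R) := by
        rw [← Real.exp_add, Real.exp_le_exp]
        linarith
      have f2 : 0 < Real.exp 54 * Real.exp (54 * ε * R) := by positivity
      linarith) (hlat G hG1 hG3R)
  rw [mul_one] at h1
  exact h1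

end Pool.Helper99.SZ
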